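import Mathlib.CategoryTheory.Countable
import Mathlib.Topology.Sheaves.Presheaf
import Mathlib.Tactic.Monotonicity.Lemmas
import Mathlib.RingTheory.PiTensorProduct
import Mathlib.Probability.Combinatorics.BinomialRandomGraph.Defs
import Mathlib.Tactic.Algebra.Basic

-- ======== part 0: formerly Pool.Agent.MP_d6d719_co.Walks
section MrgPart0

set_option autoImplicit false

namespace Pool.Agent.MP_d6d719_co

variable {V : Type*} (G : SimpleGraph V) (bad : V → V → V → Prop)

/-- Compatible walks, as lists of vertices. -/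
def CW : List V → Prop
  | x :: y :: z :: t => G.Adj x y ∧ ¬ bad y x z ∧ CW (y :: z :: t)
  | [x, y] => G.Adj x y
  | [_] => True
  | [] => True

variable {G bad}

@[simp] theorem cw_nil : CW G bad [] := trivial
@[simp] theorem cw_single (x : V) : CW G bad [x] := trivial
@[simp] theorem cw_pair (x y : V) : CW G bad [x, y] ↔ G.Adj x y := Iff.rfl
theorem cw_cons3 (x y z : V) (t : List V) :
    CW G bad (x :: y :: z :: t) ↔ G.Adj x y ∧ ¬ bad y x z ∧ CW G bad (y :: z :: t) := Iff.rfl

theorem CW.tail {x : V} {l : List V} (h : CW G bad (x :: l)) : CW G bad l := by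
  match l, h with
  | [], _ => trivial
  | [_], _ => trivial
  | _ :: _ :: _, h => exact h.2.2

theorem CW.adj {x y : V} {l : List V} (h : CW G bad (x :: y :: l)) : G.Adj x y := by
  match l, h with
  | [], h => exact h
  | _ :: _, h => exact h.1

theorem CW.overlap {l : List V} {a x : V} {r : List V} (h1 : CW G bad (l ++ [a, x]))
    (h2 : CW G bad (a :: x :: r)) : CW G bad (l ++ a :: x :: r) := by
  induction l with
  | nil => exact h2
  | cons y l ih =>
    match l, h1, ih with
    | [], h1, _ => exact ⟨h1.1, h1.2.1, h2⟩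
    | [z], h1, ih => exact ⟨h1.1, h1.2.1, ih h1.2.2⟩
    | z :: u :: l, h1, ih => exact ⟨h1.1, h1.2.1, ih h1.2.2⟩

theorem CW.left {l r : List V} (h : CW G bad (l ++ r)) : CW G bad l := by
  induction l with
  | nil => trivial
  | cons y l ih =>
    match l, h, ih with
    | [], _, _ => trivial
    | [z], h, _ => exact CW.adj h
    | z :: u :: l, h, ih => exact ⟨h.1, h.2.1, ih h.2.2⟩

theorem CW.right {l r : List V} (h : CW G bad (l ++ r)) : CW G bad r := by
  induction l with
  | nil => exact h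
  | cons y l ih => exact ih (CW.tail h)

theorem CW.reverse (hs : ∀ v a b, bad v a b → bad v b a) {l : List V} (h : CW G bad l) :
    CW G bad l.reverse := by
  induction l with
  | nil => trivial
  | cons x l ih =>
    match l, h, ih with
    | [], _, _ => trivial
    | [y], h, _ => exact h.symm
    | y :: z :: t, h, ih =>
      have h1 := ih h.2.2
      have e1 : (y :: z :: t).reverse = t.reverse ++ [z, y] := by simp
      have e2 : (x :: y :: z :: t).reverse = t.reverse ++ z :: y :: [x] := by simp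
      rw [e1] at h1
      rw [e2]
      exact h1.overlap ⟨(CW.adj h.2.2).symm, fun hb => h.2.1 (hs _ _ _ hb), h.1.symm⟩

theorem CW.triple {l r : List V} {a x b : V} (h : CW G bad (l ++ a :: x :: b :: r)) :
    ¬ bad x a b := h.right.2.1

/-- A terminal: a vertex with two distinguished neighbours. -/
structure Term (V : Type*) where
  x : V
  a : V
  b : V

/-- Membership in the pair of distinguished neighbours. -/
def Term.Has (T : Term V) (c : V) : Prop := c = T.a ∨ c = T.b

variable (G bad)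

/-- Both distinguished vertices are neighbours. -/
def Term.Valid (T : Term V) : Prop := G.Adj T.x T.a ∧ G.Adj T.x T.b

/-- The list `m` links two terminals, whichever distinguished neighbours are used. -/
def Link (T : Term V) (m : List V) (T' : Term V) : Prop :=
  ∀ c, T.Has c → ∀ c', T'.Has c' → CW G bad (c :: T.x :: (m ++ [T'.x, c']))

variable {G bad}

theorem Link.symm (hs : ∀ v a b, bad v a b → bad v b a) {T T' : Term V} {m : List V}
    (h : Link G bad T m T') : Link G bad T' m.reverse T := fun c hc c' hc' => by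
  have := (h c' hc' c hc).reverse hs
  simpa using this

/-- The list starts at the terminal and continues with a distinguished neighbour. -/
def Starts (T : Term V) (l : List V) : Prop := ∃ c r, T.Has c ∧ l = T.x :: c :: r

/-- The list ends with a distinguished neighbour and the terminal. -/
def Ends (T : Term V) (l : List V) : Prop := ∃ c r, T.Has c ∧ l = r ++ [c, T.x]

theorem Starts.append {T : Term V} {l : List V} (h : Starts T l) (r : List V) :
    Starts T (l ++ r) := by
  obtain ⟨c, r', hc, rfl⟩ := h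
  exact ⟨c, r' ++ r, hc, rfl⟩

theorem Ends.append {T : Term V} {l : List V} (h : Ends T l) (r : List V) :
    Ends T (r ++ l) := by
  obtain ⟨c, r', hc, rfl⟩ := h
  exact ⟨c, r ++ r', hc, by simp⟩

theorem glue {T T' : Term V} {l m l' : List V} (h1 : CW G bad l) (e1 : Ends T l)
    (h : Link G bad T m T') (h2 : CW G bad l') (e2 : Starts T' l') : CW G bad (l ++ m ++ l') := by
  obtain ⟨c, r, hc, rfl⟩ := e1
  obtain ⟨c', r', hc', rfl⟩ := e2
  have h3 := h c hc c' hc'
  have h4 : CW G bad ((c :: T.x :: m) ++ T'.x :: c' :: r') :=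
    CW.overlap (by simpa using h3) h2
  have h5 := h1.overlap (r := m ++ T'.x :: c' :: r') (by simpa using h4)
  simpa using h5

end Pool.Agent.MP_d6d719_co

end MrgPart0

-- ======== part 1: formerly Pool.Agent.MP_d6d719_co.Bern
section MrgPart1

/-! Adapted from `Pool/Agent/MP_7f4e92_pr/ProdSpace.lean`. -/

set_option autoImplicit false

open Finset MeasureTheory
open scoped Classical

namespace Pool.Agent.MP_d6d719_co

variable {E : Type} [Fintype E]

/-- The product Bernoulli weight. -/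
noncomputable def wB (p : ℝ) (ω : E → Bool) : ℝ := ∏ e, if ω e then p else 1 - p

/-- Expectation under the product Bernoulli weight. -/
noncomputable def Ex (p : ℝ) (g : (E → Bool) → ℝ) : ℝ := ∑ ω, wB p ω * g ω

/-- Indicator of a proposition. -/
noncomputable def ind (P : Prop) : ℝ := if P then 1 else 0

lemma ind_nonneg (P : Prop) : 0 ≤ ind P := by unfold ind; split_ifs <;> norm_num

lemma ind_le_one (P : Prop) : ind P ≤ 1 := by unfold ind; split_ifs <;> norm_num

lemma ind_of {P : Prop} (h : P) : ind P = 1 := if_pos h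

lemma ind_of_not {P : Prop} (h : ¬ P) : ind P = 0 := if_neg h

lemma ind_mono {P Q : Prop} (h : P → Q) : ind P ≤ ind Q := by
  by_cases hP : P
  · rw [ind_of hP, ind_of (h hP)]
  · rw [ind_of_not hP]; exact ind_nonneg _

lemma ind_and (P Q : Prop) : ind (P ∧ Q) = ind P * ind Q := by
  by_cases hP : P <;> by_cases hQ : Q <;> simp [ind, hP, hQ]

lemma ind_not (P : Prop) : ind (¬ P) = 1 - ind P := by
  by_cases hP : P <;> simp [ind, hP]

lemma wB_nonneg {p : ℝ} (h0 : 0 ≤ p) (h1 : p ≤ 1) (ω : E → Bool) : 0 ≤ wB p ω :=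
  prod_nonneg fun e _ => by split_ifs <;> linarith

lemma Ex_prod (p : ℝ) (g : E → Bool → ℝ) :
    Ex p (fun ω => ∏ e, g e (ω e)) = ∏ e, (p * g e true + (1 - p) * g e false) := by
  unfold Ex wB
  simp only [← prod_mul_distrib]
  have := Finset.prod_univ_sum (fun _ : E => (univ : Finset Bool))
    (fun e b => (if b then p else 1 - p) * g e b)
  rw [Fintype.piFinset_univ] at this
  rw [← this]
  simp

lemma Ex_one (p : ℝ) : Ex p (fun _ : E → Bool => 1) = 1 := by
  simpa using Ex_prod (E := E) p (fun _ _ => 1)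

lemma Ex_const (p c : ℝ) : Ex p (fun _ : E → Bool => c) = c := by
  have := Ex_one (E := E) p
  unfold Ex at this ⊢
  simp only [mul_one] at this
  rw [← sum_mul, this, one_mul]

lemma Ex_add (p : ℝ) (f g : (E → Bool) → ℝ) :
    Ex p (fun ω => f ω + g ω) = Ex p f + Ex p g := by
  simp [Ex, mul_add, sum_add_distrib]

lemma Ex_sub (p : ℝ) (f g : (E → Bool) → ℝ) :
    Ex p (fun ω => f ω - g ω) = Ex p f - Ex p g := by
  simp [Ex, mul_sub, sum_sub_distrib]

lemma Ex_mul (p c : ℝ) (f : (E → Bool) → ℝ) : Ex p (fun ω => c * f ω) = c * Ex p f := by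
  simp [Ex, mul_sum, mul_left_comm]

lemma Ex_sum {ι : Type} (p : ℝ) (s : Finset ι) (f : ι → (E → Bool) → ℝ) :
    Ex p (fun ω => ∑ i ∈ s, f i ω) = ∑ i ∈ s, Ex p (f i) := by
  simp only [Ex, mul_sum]
  exact sum_comm

lemma Ex_mono {p : ℝ} (h0 : 0 ≤ p) (h1 : p ≤ 1) {f g : (E → Bool) → ℝ} (h : ∀ ω, f ω ≤ g ω) :
    Ex p f ≤ Ex p g :=
  sum_le_sum fun ω _ => mul_le_mul_of_nonneg_left (h ω) (wB_nonneg h0 h1 ω)

lemma Ex_nonneg {p : ℝ} (h0 : 0 ≤ p) (h1 : p ≤ 1) {f : (E → Bool) → ℝ} (h : ∀ ω, 0 ≤ f ω) :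
    0 ≤ Ex p f :=
  sum_nonneg fun ω _ => mul_nonneg (wB_nonneg h0 h1 ω) (h ω)

lemma Ex_cyl (p θ : ℝ) (A B M : Finset E) (hAB : Disjoint A B) (hAM : Disjoint A M)
    (hBM : Disjoint B M) :
    Ex p (fun ω => ind ((∀ e ∈ A, ω e = true) ∧ ∀ e ∈ B, ω e = false) *
      θ ^ (M.filter fun e => ω e = true).card) =
      p ^ A.card * (1 - p) ^ B.card * (1 - p + p * θ) ^ M.card := by
  have h1 : (fun ω : E → Bool => ind ((∀ e ∈ A, ω e = true) ∧ ∀ e ∈ B, ω e = false) *
      θ ^ (M.filter fun e => ω e = true).card) = fun ω => ∏ e,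
        ((if e ∈ A then (if ω e = true then 1 else 0) else 1) *
          (if e ∈ B then (if ω e = false then 1 else 0) else 1) *
          (if e ∈ M then (if ω e = true then θ else 1) else 1)) := by
    ext ω
    rw [prod_mul_distrib, prod_mul_distrib, Fintype.prod_ite_mem, Fintype.prod_ite_mem,
      Fintype.prod_ite_mem, prod_boole, prod_boole, ind_and, prod_ite, prod_const_one, mul_one,
      prod_const]
    simp only [ind]
    congr
  rw [h1, Ex_prod p fun e b => ((if e ∈ A then (if b = true then 1 else 0) else 1) *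
          (if e ∈ B then (if b = false then 1 else 0) else 1) *
          (if e ∈ M then (if b = true then θ else 1) else 1))]
  rw [← prod_const, ← prod_const, ← prod_const, ← Fintype.prod_ite_mem A, ← Fintype.prod_ite_mem B,
    ← Fintype.prod_ite_mem M, ← prod_mul_distrib, ← prod_mul_distrib]
  apply prod_congr rfl
  intro e _
  have h2 : e ∈ A → e ∉ B := fun h => disjoint_left.mp hAB h
  have h3 : e ∈ A → e ∉ M := fun h => disjoint_left.mp hAM h
  have h4 : e ∈ B → e ∉ M := fun h => disjoint_left.mp hBM h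
  by_cases hA : e ∈ A <;> by_cases hB : e ∈ B <;> by_cases hM : e ∈ M <;> simp_all
  ring

lemma Ex_cyl' (p : ℝ) (A B : Finset E) (hAB : Disjoint A B) :
    Ex p (fun ω => ind ((∀ e ∈ A, ω e = true) ∧ ∀ e ∈ B, ω e = false)) =
      p ^ A.card * (1 - p) ^ B.card := by
  simpa using Ex_cyl p 1 A B ∅ hAB (disjoint_empty_right _) (disjoint_empty_right _)

/-- The graph of an edge configuration. -/
def gr {V : Type} (ω : Sym2 V → Bool) : SimpleGraph V := SimpleGraph.fromEdgeSet {e | ω e = true}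

lemma gr_adj {V : Type} (ω : Sym2 V → Bool) (a b : V) :
    (gr ω).Adj a b ↔ ω s(a, b) = true ∧ a ≠ b := by
  simp [gr, SimpleGraph.fromEdgeSet_adj]

lemma measurableSingletonClass_graph {V : Type} [Fintype V] :
    MeasurableSingletonClass (SimpleGraph V) := by
  constructor
  intro G
  have : ({G} : Set (SimpleGraph V)) = SimpleGraph.edgeSet ⁻¹' {G.edgeSet} := by
    ext H
    simp
  rw [this]
  exact SimpleGraph.measurable_edgeSet (measurableSet_singleton _)

lemma integral_binomialRandom {V : Type} [Fintype V] (p : unitInterval) (g : SimpleGraph V → ℝ) :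
    ∫ G, g G ∂(SimpleGraph.binomialRandom V p) = Ex (p : ℝ) fun ω : Sym2 V → Bool => g (gr ω) := by
  have := measurableSingletonClass_graph (V := V)
  rw [integral_fintype Integrable.of_finite]
  have h1 : ∀ G : SimpleGraph V, (SimpleGraph.binomialRandom V p).real {G} =
      Ex (p : ℝ) fun ω : Sym2 V → Bool => ind (gr ω = G) := by
    intro G
    set B : Finset (Sym2 V) := (univ.filter fun e : Sym2 V => ¬ e.IsDiag) \ G.edgeSet.toFinset
      with hB
    have h2 : (fun ω : Sym2 V → Bool => ind (gr ω = G)) = fun ω =>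
        ind ((∀ e ∈ G.edgeSet.toFinset, ω e = true) ∧ ∀ e ∈ B, ω e = false) := by
      ext ω
      congr 1
      apply propext
      constructor
      · rintro rfl
        constructor
        · intro e he
          induction e using Sym2.ind with
          | _ a b => exact ((gr_adj ω a b).mp (by simpa using he)).1
        · intro e he
          induction e using Sym2.ind with
          | _ a b =>
            simp only [hB, mem_sdiff, mem_filter, mem_univ, Sym2.mk_isDiag_iff, true_and,
              Set.mem_toFinset, SimpleGraph.mem_edgeSet, gr_adj, not_and] at he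
            by_contra h
            exact he.2 (by simpa using h) he.1
      · rintro ⟨h3, h4⟩
        ext a b
        rw [gr_adj]
        constructor
        · rintro ⟨h5, h6⟩
          by_contra h7
          have := h4 s(a, b) (by simp [hB, h6, h7])
          simp [this] at h5
        · intro h5
          exact ⟨h3 s(a, b) (by simpa using h5), h5.ne⟩
    rw [h2, Ex_cyl' _ _ _ disjoint_sdiff, Measure.real, SimpleGraph.binomialRandom_singleton]
    have h3 : B.card = (Nat.card V).choose 2 - G.edgeSet.ncard := by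
      rw [hB, card_sdiff_of_subset, Set.ncard_eq_toFinset_card', Nat.card_eq_fintype_card,
        ← Sym2.card_subtype_not_diag, Fintype.card_subtype]
      intro e he
      simp only [Set.mem_toFinset] at he
      simpa using G.not_isDiag_of_mem_edgeSet he
    rw [h3, Set.ncard_eq_toFinset_card']
    simp
  simp only [h1, smul_eq_mul]
  have h2 : (fun ω : Sym2 V → Bool => g (gr ω)) = fun ω => ∑ G, g G * ind (gr ω = G) := by
    ext ω
    simp [ind]
  rw [h2, Ex_sum]
  apply sum_congr rfl
  intro G _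
  rw [Ex_mul, mul_comm]

end Pool.Agent.MP_d6d719_co

end MrgPart1

-- ======== part 2: formerly Pool.Agent.MP_d6d719_co.Mgf
section MrgPart2

set_option autoImplicit false

open Finset MeasureTheory
open scoped Classical

namespace Pool.Agent.MP_d6d719_co

theorem exp_mul_le {m k : ℕ} (hk : 0 < k) (h : m ≤ k) (t : ℝ) :
    Real.exp (t * m) - 1 ≤ m * ((Real.exp (k * t) - 1) / k) := by
  have hk' : (0 : ℝ) < k := Nat.cast_pos.2 hk
  have := convexOn_exp.2 (Set.mem_univ (k * t)) (Set.mem_univ 0)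
    (show (0 : ℝ) ≤ m / k by positivity)
    (sub_nonneg.2 ((div_le_one hk').2 (Nat.cast_le.2 h))) (by ring)
  simp only [smul_eq_mul, mul_zero, add_zero, Real.exp_zero, mul_one] at this
  rw [show (m : ℝ) / k * (k * t) = t * m by field_simp] at this
  rw [show m * ((Real.exp (k * t) - 1) / k) = m / k * Real.exp (k * t) - m / k by ring]
  linarith

/-- Exponential moment bound with a planted set. -/
theorem Ex_tail {E α : Type} [Fintype E] [DecidableEq E] {p : ℝ} (h0 : 0 ≤ p) (h1 : p ≤ 1) (Q : Finset α)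
    (φ : α → E) {k : ℕ} (hk : 0 < k) (hφ : ∀ e, #{q ∈ Q | φ q = e} ≤ k) (H : Finset E)
    (hH : ∀ q ∈ Q, φ q ∉ H) (t a : ℝ) (P : (E → Bool) → Prop)
    (hP : ∀ ω, P ω → (∀ e ∈ H, ω e = true) ∧ a ≤ t * #{q ∈ Q | ω (φ q) = true}) :
    Ex p (fun ω => ind (P ω)) ≤
      p ^ #H * Real.exp (p * #Q * ((Real.exp (k * t) - 1) / k) - a) := by
  set m : E → ℕ := fun e => #{q ∈ Q | φ q = e} with hm
  have hs : ∑ e, (m e : ℝ) = #Q := by
    rw [← Nat.cast_sum, card_eq_sum_card_fiberwise (f := φ) (t := univ) fun _ _ => mem_univ _]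
  have hm0 : ∀ e ∈ H, m e = 0 := fun e he =>
    card_eq_zero.2 (filter_eq_empty_iff.2 fun q hq e' => hH q hq (e' ▸ he))
  have e1 : ∀ ω : E → Bool, ind (P ω) ≤ Real.exp (-a) * ∏ e,
      if ω e = true then Real.exp (t * m e) else if e ∈ H then 0 else 1 := fun ω => by
    by_cases h : P ω
    · obtain ⟨a1, a2⟩ := hP ω h
      have : (∏ e, if ω e = true then Real.exp (t * m e) else if e ∈ H then 0 else 1) =
          Real.exp (t * #{q ∈ Q | ω (φ q) = true}) := by
        rw [card_eq_sum_card_fiberwise (f := φ) (t := univ) fun _ _ => mem_univ _, Nat.cast_sum,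
          mul_sum, Real.exp_sum]
        refine prod_congr rfl fun e _ => ?_
        rw [filter_filter]
        split_ifs with b1 b2
        · rw [filter_congr (q := fun q => φ q = e) fun q _ => ⟨fun h => h.2, fun h => ⟨h ▸ b1, h⟩⟩]
        · exact (b1 (a1 e b2)).elim
        · rw [filter_eq_empty_iff.2 fun q _ (h : ω (φ q) = true ∧ φ q = e) => b1 (h.2 ▸ h.1)]
          simp
      rw [ind_of h, this, ← Real.exp_add]
      exact Real.one_le_exp (by linarith)
    · rw [ind_of_not h]
      exact mul_nonneg (Real.exp_pos _).le (prod_nonneg fun e _ => by split_ifs <;> positivity)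
  refine (Ex_mono h0 h1 e1).trans ?_
  rw [Ex_mul, Ex_prod p fun e b => if b = true then Real.exp (t * m e) else if e ∈ H then 0 else 1,
    sub_eq_add_neg _ a, Real.exp_add, ← mul_assoc, mul_comm, ← hs, mul_sum, sum_mul, Real.exp_sum,
    ← prod_const, ← Fintype.prod_ite_mem H, ← prod_mul_distrib]
  refine mul_le_mul_of_nonneg_right (prod_le_prod (fun e _ => ?_) fun e _ => ?_) (Real.exp_pos _).le
  · have : 0 ≤ 1 - p := by linarith
    simp only [if_true, Bool.false_eq_true, if_false]
    split_ifs <;> positivity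
  · simp only [if_true, Bool.false_eq_true, if_false]
    split_ifs with h
    · simp [hm0 e h]
    · nlinarith [exp_mul_le hk (hφ e) t,
        Real.add_one_le_exp (p * m e * ((Real.exp (k * t) - 1) / k))]

variable {V : Type} [Fintype V]

theorem real_eq_Ex (p : unitInterval) (S : Set (SimpleGraph V)) :
    (SimpleGraph.binomialRandom V p).real S = Ex (p : ℝ) fun ω => ind (gr ω ∈ S) := by
  have := measurableSingletonClass_graph (V := V)
  rw [← integral_binomialRandom p fun G => ind (G ∈ S),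
    ← integral_indicator_one (Set.toFinite _).measurableSet]
  congr 1

theorem prob_tail {α : Type} (p : unitInterval) (Q : Finset α) (x y : α → V) {k : ℕ} (hk : 0 < k)
    (hφ : ∀ e, #{q ∈ Q | s(x q, y q) = e} ≤ k) (hd : ∀ q ∈ Q, x q ≠ y q) (H : Finset (Sym2 V))
    (hH : ∀ q ∈ Q, s(x q, y q) ∉ H) (t a : ℝ) (S : Set (SimpleGraph V))
    (hS : ∀ G ∈ S, (∀ e ∈ H, e ∈ G.edgeSet) ∧ a ≤ t * #{q ∈ Q | G.Adj (x q) (y q)}) :
    (SimpleGraph.binomialRandom V p).real S ≤
      (p : ℝ) ^ #H * Real.exp (p * #Q * ((Real.exp (k * t) - 1) / k) - a) := by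
  rw [real_eq_Ex]
  refine Ex_tail p.2.1 p.2.2 Q (fun q => s(x q, y q)) hk hφ H hH t a _ fun ω hω => ?_
  obtain ⟨a1, a2⟩ := hS _ hω
  refine ⟨fun e he => ?_, ?_⟩
  · have := a1 e he
    induction e using Sym2.ind with
    | _ a b => exact ((gr_adj ω a b).1 this).1
  · rwa [filter_congr (q := fun q => ω s(x q, y q) = true) fun q hq => by
      simp [gr_adj, hd q hq]] at a2

theorem prob_union {ι Ω : Type} [MeasurableSpace Ω] (μ : Measure Ω) [IsFiniteMeasure μ]
    (J : Finset ι) (S : ι → Set Ω) (f : ι → ℝ) (T : Set Ω) (h : ∀ G ∈ T, ∃ i ∈ J, G ∈ S i)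
    (hf : ∀ i ∈ J, μ.real (S i) ≤ f i) : μ.real T ≤ ∑ i ∈ J, f i :=
  (measureReal_mono (fun G hG => Set.mem_iUnion₂.2 ((h G hG).imp fun _ h => ⟨h.1, h.2⟩))
    (measure_ne_top _ _)).trans
    ((measureReal_biUnion_finset_le J S).trans (sum_le_sum hf))

omit [Fintype V] in
theorem fiber_le_two (Q : Finset (V × V)) (e : Sym2 V) : #{q ∈ Q | s(q.1, q.2) = e} ≤ 2 := by
  induction e using Sym2.ind with
  | _ a b =>
    refine le_trans (card_le_card (t := {(a, b), (b, a)}) fun q hq => ?_) card_le_two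
    rcases Sym2.eq_iff.1 (mem_filter.1 hq).2 with h | h <;> simp [← h.1, ← h.2]

theorem fiber_le_one {α β : Type} [DecidableEq β] (Q : Finset α) (φ : α → β) (h : Set.InjOn φ Q) (e : β) :
    #{q ∈ Q | φ q = e} ≤ 1 :=
  card_le_one.2 fun _ ha _ hb => h (mem_filter.1 ha).1 (mem_filter.1 hb).1
    ((mem_filter.1 ha).2.trans (mem_filter.1 hb).2.symm)

theorem sum_pow_card_le {x : ℝ} (hx : 0 ≤ x) :
    ∑ X : Finset V, x ^ #X ≤ Real.exp (x * Fintype.card V) := by
  have := prod_one_add (s := (univ : Finset V)) (f := fun _ => x)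
  simp only [prod_const, card_univ, powerset_univ] at this
  rw [← this, mul_comm, Real.exp_nat_mul]
  exact pow_le_pow_left₀ (by positivity) (by linarith [Real.add_one_le_exp x]) _

theorem sum_planted {p z m : ℝ} (hp : 0 ≤ p) (hz : 0 < z) (hz1 : z ≤ 1) :
    ∑ H : Finset V with (#H : ℝ) ≤ m, p ^ #H ≤
      Real.exp (m * Real.log (1 / z) + z * p * Fintype.card V) := by
  rw [Real.exp_add]
  refine le_trans ?_ (mul_le_mul_of_nonneg_left (sum_pow_card_le (by positivity)) (by positivity))
  rw [mul_sum]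
  refine le_trans (sum_le_sum fun H hH => ?_) (sum_le_sum_of_subset_of_nonneg (filter_subset _ _)
    fun _ _ _ => by positivity)
  have h1 : (1 / z) ^ #H ≤ Real.exp (m * Real.log (1 / z)) := by
    rw [← Real.exp_log (x := (1 / z) ^ #H) (by positivity), Real.log_pow]
    exact Real.exp_le_exp.2 (mul_le_mul_of_nonneg_right (mem_filter.1 hH).2
      (Real.log_nonneg (one_le_one_div hz hz1)))
  refine le_trans (le_of_eq ?_) (mul_le_mul_of_nonneg_right h1 (by positivity))
  rw [← mul_pow]
  congr 1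
  field_simp

theorem choose_le_exp (n x : ℕ) {w : ℝ} (hw : 0 < w) (hn : 0 < n) :
    (n.choose x : ℝ) ≤ Real.exp (w + x * Real.log (n / w)) := by
  have h1 : (0 : ℝ) < n := Nat.cast_pos.2 hn
  rw [Real.exp_add, ← Real.log_pow, Real.exp_log (by positivity)]
  refine (Nat.choose_le_pow_div x n).trans (le_trans (le_of_eq ?_)
    (mul_le_mul_of_nonneg_right (Real.pow_div_factorial_le_exp _ hw.le x) (by positivity)))
  rw [div_pow]
  field_simp

end Pool.Agent.MP_d6d719_co

end MrgPart2

-- ======== part 3: formerly Pool.Agent.MP_d6d719_co.Reach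
section MrgPart3

set_option autoImplicit false

open Finset
open scoped Classical

namespace Pool.Agent.MP_d6d719_co

variable {V : Type*} [Fintype V] (G : SimpleGraph V) (bad : V → V → V → Prop)

/-- Neighbours of `v` in `W`. -/
noncomputable def nb (v : V) (W : Finset V) : Finset V := W.filter (G.Adj v ·)

/-- Number of edges from `X` to `Y`. -/
noncomputable def ec (X Y : Finset V) : ℕ := ∑ x ∈ X, (nb G x Y).card

/-- A good layer. -/
structure LP (w dd τ ε : ℝ) (W : Finset V) : Prop where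
  size : (W.card : ℝ) ≤ (1 + τ) * w
  lo : ∀ v, (1 - τ) * dd ≤ (nb G v W).card
  hi : ∀ v, ((nb G v W).card : ℝ) ≤ (1 + τ) * dd
  bd : ∀ v a, G.Adj v a → (((nb G v W).filter (bad v a ·)).card : ℝ) ≤ (1 / 2 - ε) * dd

/-- Upper bound on the edge distribution. -/
def G2 (p τ K : ℝ) : Prop :=
  ∀ X Y : Finset V, Disjoint X Y →
    (ec G X Y : ℝ) ≤ (1 + τ) * p * X.card * Y.card + K * (X.card + Y.card)

variable {G bad}

omit [Fintype V] in
theorem ec_comm (X Y : Finset V) : ec G X Y = ec G Y X := by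
  unfold ec nb
  simp only [card_filter]
  rw [sum_comm]
  refine sum_congr rfl fun y _ => sum_congr rfl fun x _ => ?_
  simp only [G.adj_comm]

omit [Fintype V] in
theorem nb_mono (v : V) {X Y : Finset V} (h : X ⊆ Y) : nb G v X ⊆ nb G v Y :=
  filter_subset_filter _ h

omit [Fintype V] in
theorem expand {p τ K w γ g : ℝ} (hG : G2 G p τ K) (hp : 0 < p) (hτ : τ ≤ 1 / 2) (_hτ0 : 0 ≤ τ)
    (hK0 : 0 ≤ K) (hK : (g + 1) * K ≤ γ * (p * w) / 4) {X Y : Finset V} (hd : Disjoint X Y)
    (h : ∀ x ∈ X, γ * (p * w) ≤ (nb G x Y).card) :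
    min (g * X.card) (γ * w / 2) ≤ Y.card := by
  by_contra hcon
  push Not at hcon
  obtain ⟨h1, h2⟩ := lt_min_iff.1 hcon
  have hX : (0 : ℝ) < X.card := by
    rcases Nat.eq_zero_or_pos X.card with h0 | h0
    · rw [h0] at h1
      have : (0 : ℝ) ≤ Y.card := by positivity
      simp at h1
      linarith
    · exact_mod_cast h0
  have h3 : γ * (p * w) * X.card ≤ ec G X Y := by
    unfold ec
    push_cast
    have := sum_le_sum h
    rw [sum_const, nsmul_eq_mul] at this
    linarith
  have h4 := hG X Y hd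
  have h5 : (1 + τ) * p * X.card * Y.card < 3 / 4 * (γ * (p * w)) * X.card := by
    have hY : (0 : ℝ) ≤ Y.card := by positivity
    have a1 : (1 + τ) * Y.card ≤ 3 / 2 * Y.card := by nlinarith
    have a2 : (1 + τ) * Y.card < 3 / 4 * (γ * w) := by linarith
    have a3 : 0 < p * X.card := mul_pos hp hX
    nlinarith
  have h6 : K * (X.card + Y.card) ≤ γ * (p * w) / 4 * X.card := by
    have : K * (X.card + Y.card) ≤ K * ((g + 1) * X.card) :=
      mul_le_mul_of_nonneg_left (by linarith) hK0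
    nlinarith
  nlinarith

variable (G bad)

/-- Directed edges that can be reached from a terminal through the layers, avoiding `Z`. -/
inductive Reach (W : ℕ → Finset V) (Z : Finset V) (T : Term V) : ℕ → V → V → Prop
  | base (v : V) : v ∈ W 0 → v ∉ Z → G.Adj T.x v → ¬ bad T.x T.a v → ¬ bad T.x T.b v →
      Reach W Z T 0 T.x v
  | step (j : ℕ) (u v z : V) : Reach W Z T j u v → z ∈ W (j + 1) → z ∉ Z → G.Adj v z →
      ¬ bad v u z → Reach W Z T (j + 1) v z

variable {G bad} {W : ℕ → Finset V} {Z : Finset V}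

omit [Fintype V] in
theorem Reach.mem {T : Term V} {j : ℕ} {u v : V} (h : Reach G bad W Z T j u v) :
    v ∈ W j ∧ v ∉ Z ∧ G.Adj u v := by
  cases h with
  | base v h1 h2 h3 => exact ⟨h1, h2, h3⟩
  | step j u v z _ h1 h2 h3 => exact ⟨h1, h2, h3⟩

omit [Fintype V] in
theorem Reach.prev {T : Term V} {j : ℕ} {u v : V} (h : Reach G bad W Z T (j + 1) u v) :
    ∃ u', Reach G bad W Z T j u' u := by
  cases h with
  | step j u v z h0 => exact ⟨u, h0⟩

omit [Fintype V] in
theorem Reach.path {T : Term V} (hT : T.Valid G) {h : ℕ}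
    (hW : ∀ i j, i < j → j ≤ h → Disjoint (W i) (W j)) {j : ℕ} {u v : V} (hj : j ≤ h)
    (hr : Reach G bad W Z T j u v) :
    ∃ m l : List V, T.x :: m = l ++ [u] ∧ m.length = j ∧ m.Nodup ∧
      (∀ z ∈ m, z ∉ Z ∧ ∃ i < j, z ∈ W i) ∧
      ∀ c, T.Has c → CW G bad (c :: (l ++ [u, v])) := by
  induction hr with
  | base v h1 h2 h3 h4 h5 =>
    refine ⟨[], [], rfl, rfl, List.nodup_nil, by simp, fun c hc => ?_⟩
    rcases hc with rfl | rfl
    · exact ⟨hT.1.symm, h4, h3⟩
    · exact ⟨hT.2.symm, h5, h3⟩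
  | step j u v z h0 h1 h2 h3 h4 ih =>
    obtain ⟨m, l, e1, e2, e3, e4, e5⟩ := ih (by omega)
    obtain ⟨m1, m2, m3⟩ := h0.mem
    refine ⟨m ++ [v], l ++ [u], by rw [← e1]; rfl, by simp [e2], ?_, ?_, fun c hc => ?_⟩
    · rw [List.nodup_append]
      refine ⟨e3, List.nodup_singleton _, ?_⟩
      intro a ha b hb
      rw [List.mem_singleton] at hb
      subst hb
      rintro rfl
      obtain ⟨-, i, hi, hi2⟩ := e4 a ha
      exact disjoint_left.1 (hW i j hi (by omega)) hi2 m1
    · intro y hy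
      rcases List.mem_append.1 hy with hy | hy
      · obtain ⟨a1, i, hi, hi2⟩ := e4 y hy
        exact ⟨a1, i, by omega, hi2⟩
      · rw [List.mem_singleton] at hy
        subst hy
        exact ⟨m2, j, by omega, m1⟩
    · have := CW.overlap (l := c :: l) (r := [z]) (e5 c hc) ⟨m3, h4, h3⟩
      simpa using this

variable (G bad W Z)

/-- Vertices of layer `j` reached from a family of terminals. -/
noncomputable def RS {ι : Type*} (T : ι → Term V) (X : Finset ι) (j : ℕ) : Finset V :=
  univ.filter fun v => ∃ i ∈ X, ∃ u, Reach G bad W Z (T i) j u v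

/-- Directed edges reached from a terminal. -/
noncomputable def ES (T : Term V) (j : ℕ) : Finset (V × V) :=
  univ.filter fun e => Reach G bad W Z T j e.1 e.2

variable {G bad W Z}

theorem RS_subset {ι : Type*} (T : ι → Term V) (X : Finset ι) (j : ℕ) :
    RS G bad W Z T X j ⊆ W j := by
  intro v hv
  obtain ⟨i, -, u, h⟩ := (mem_filter.1 hv).2
  exact h.mem.1

theorem RS_union {ι : Type*} (T : ι → Term V) (X Y : Finset ι) (j : ℕ) :
    RS G bad W Z T (X ∪ Y) j ⊆ RS G bad W Z T X j ∪ RS G bad W Z T Y j := by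
  intro v hv
  obtain ⟨i, hi, u, h⟩ := (mem_filter.1 hv).2
  rcases mem_union.1 hi with hi | hi
  · exact mem_union_left _ (mem_filter.2 ⟨mem_univ _, i, hi, u, h⟩)
  · exact mem_union_right _ (mem_filter.2 ⟨mem_univ _, i, hi, u, h⟩)

omit [Fintype V] in
theorem LP.ok1 {w dd τ ε : ℝ} {A : Finset V} (h : LP G bad w dd τ ε A) {v a : V}
    (ha : G.Adj v a) : (1 / 2 + ε - τ) * dd ≤ ((nb G v A).filter (fun b => ¬ bad v a b)).card := by
  have h1 := h.lo v
  have h2 := h.bd v a ha
  have h3 := card_filter_add_card_filter_not (s := nb G v A) (bad v a ·)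
  have h4 : (((nb G v A).filter (bad v a ·)).card : ℝ)
      + ((nb G v A).filter (fun b => ¬ bad v a b)).card = (nb G v A).card := by exact_mod_cast h3
  linarith

omit [Fintype V] in
theorem LP.ok2 {w dd τ ε : ℝ} {A : Finset V} (h : LP G bad w dd τ ε A) {v a a' : V}
    (ha : G.Adj v a) (ha' : G.Adj v a') :
    (2 * ε - τ) * dd ≤ ((nb G v A).filter (fun b => ¬ bad v a b ∧ ¬ bad v a' b)).card := by
  have h1 := h.lo v
  have h2 := h.bd v a ha
  have h2' := h.bd v a' ha'
  have h3 : nb G v A ⊆ (nb G v A).filter (bad v a ·) ∪ (nb G v A).filter (bad v a' ·) ∪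
      (nb G v A).filter (fun b => ¬ bad v a b ∧ ¬ bad v a' b) := by
    intro b hb
    simp only [mem_union, mem_filter]
    tauto
  have h4 := (card_le_card h3).trans ((card_union_le _ _).trans
    (Nat.add_le_add_right (card_union_le _ _) _))
  have h5 : ((nb G v A).card : ℝ) ≤ ((nb G v A).filter (bad v a ·)).card
      + ((nb G v A).filter (bad v a' ·)).card
      + ((nb G v A).filter (fun b => ¬ bad v a b ∧ ¬ bad v a' b)).card := by exact_mod_cast h4
  linarith

section growth

variable {p τ K w ε g : ℝ} {ι : Type*}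

theorem grow_zero (hG : G2 G p τ K) (hp : 0 < p) (hw : 0 ≤ w) (hτ : τ ≤ ε) (hτ2 : τ ≤ 1 / 2)
    (hτ0 : 0 ≤ τ) (hK0 : 0 ≤ K) (hK : (g + 1) * K ≤ ε * (p * w) / 4)
    (hL : LP G bad w (p * w) τ ε (W 0)) (T : ι → Term V) (X : Finset ι)
    (hinj : Set.InjOn (fun i => (T i).x) X) (hv : ∀ i ∈ X, (T i).Valid G)
    (hout : ∀ i ∈ X, (T i).x ∉ W 0) :
    min (g * X.card) (ε * w / 2) ≤ (RS G bad W Z T X 0).card + Z.card := by
  have hc : (X.image fun i => (T i).x).card = X.card := card_image_of_injOn hinj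
  have h1 := expand (γ := ε) (g := g) (w := w) hG hp hτ2 hτ0 hK0 hK
    (X := X.image fun i => (T i).x) (Y := W 0 ∩ (RS G bad W Z T X 0 ∪ Z)) ?_ ?_
  · rw [hc] at h1
    refine h1.trans ?_
    have := (card_le_card (inter_subset_right (s₁ := W 0) (s₂ := RS G bad W Z T X 0 ∪ Z))).trans
      (card_union_le _ _)
    exact_mod_cast this
  · rw [disjoint_left]
    intro x hx hx2
    obtain ⟨i, hi, rfl⟩ := mem_image.1 hx
    exact hout i hi (mem_inter.1 hx2).1
  · intro x hx
    obtain ⟨i, hi, rfl⟩ := mem_image.1 hx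
    have h2 := hL.ok2 (hv i hi).1 (hv i hi).2
    have h3 : (nb G (T i).x (W 0)).filter (fun b => ¬ bad (T i).x (T i).a b ∧
        ¬ bad (T i).x (T i).b b) ⊆ nb G (T i).x (W 0 ∩ (RS G bad W Z T X 0 ∪ Z)) := by
      intro b hb
      simp only [nb, mem_filter, mem_inter, mem_union] at hb ⊢
      refine ⟨⟨hb.1.1, ?_⟩, hb.1.2⟩
      by_cases hz : b ∈ Z
      · exact Or.inr hz
      · exact Or.inl (mem_filter.2 ⟨mem_univ _, i, hi, _,
          Reach.base b hb.1.1 hz hb.1.2 hb.2.1 hb.2.2⟩)
    have h4 : (((nb G (T i).x (W 0)).filter (fun b => ¬ bad (T i).x (T i).a b ∧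
        ¬ bad (T i).x (T i).b b)).card : ℝ) ≤ (nb G (T i).x (W 0 ∩ (RS G bad W Z T X 0 ∪ Z))).card := by
      exact_mod_cast card_le_card h3
    have h5 : 0 ≤ p * w := by positivity
    nlinarith

theorem grow_succ (hG : G2 G p τ K) (hp : 0 < p) (hw : 0 ≤ w) (hε : ε ≤ 1 / 2) (hτ : τ ≤ ε)
    (hτ0 : 0 ≤ τ) (hK0 : 0 ≤ K) (hK : (g + 1) * K ≤ ε * (p * w) / 4) {j : ℕ}
    (hL : LP G bad w (p * w) τ ε (W (j + 1))) (hd : Disjoint (W j) (W (j + 1)))
    (T : ι → Term V) (X : Finset ι) :
    min (g * (RS G bad W Z T X j).card) (ε * w / 2)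
      ≤ (RS G bad W Z T X (j + 1)).card + Z.card := by
  have h1 := expand (γ := ε) (g := g) (w := w) hG hp (hτ.trans hε) hτ0 hK0 hK
    (X := RS G bad W Z T X j) (Y := W (j + 1) ∩ (RS G bad W Z T X (j + 1) ∪ Z)) ?_ ?_
  · refine h1.trans ?_
    have := (card_le_card (inter_subset_right (s₁ := W (j + 1))
      (s₂ := RS G bad W Z T X (j + 1) ∪ Z))).trans (card_union_le _ _)
    exact_mod_cast this
  · exact hd.mono (RS_subset _ _ _) inter_subset_left
  · intro x hx
    obtain ⟨i, hi, u, hu⟩ := (mem_filter.1 hx).2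
    have h2 := hL.ok1 hu.mem.2.2.symm
    have h3 : (nb G x (W (j + 1))).filter (fun b => ¬ bad x u b)
        ⊆ nb G x (W (j + 1) ∩ (RS G bad W Z T X (j + 1) ∪ Z)) := by
      intro b hb
      simp only [nb, mem_filter, mem_inter, mem_union] at hb ⊢
      refine ⟨⟨hb.1.1, ?_⟩, hb.1.2⟩
      by_cases hz : b ∈ Z
      · exact Or.inr hz
      · exact Or.inl (mem_filter.2 ⟨mem_univ _, i, hi, _,
          Reach.step j u x b hu hb.1.1 hz hb.1.2 hb.2⟩)
    have h4 : (((nb G x (W (j + 1))).filter (fun b => ¬ bad x u b)).card : ℝ)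
        ≤ (nb G x (W (j + 1) ∩ (RS G bad W Z T X (j + 1) ∪ Z))).card := by
      exact_mod_cast card_le_card h3
    have h5 : 0 ≤ p * w := by positivity
    nlinarith

theorem exists_half (X : Finset ι) (f : Finset ι → ℕ)
    (hf : ∀ A B, f (A ∪ B) ≤ f A + f B) :
    ∃ Y ⊆ X, 2 * (Y.card - 1) ≤ X.card - 1 ∧ f X ≤ 2 * f Y := by
  obtain ⟨A, hA, hc⟩ := exists_subset_card_eq (s := X) (n := X.card / 2) (Nat.div_le_self _ _)
  have h1 : A ∪ X \ A = X := union_sdiff_of_subset hA
  have h2 := hf A (X \ A)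
  rw [h1] at h2
  have h3 : (X \ A).card = X.card - A.card := card_sdiff_of_subset hA
  rcases le_total (f A) (f (X \ A)) with h | h
  · exact ⟨X \ A, sdiff_subset, by omega, by omega⟩
  · exact ⟨A, hA, by omega, by omega⟩

theorem halving (hG : G2 G p τ K) (hp : 0 < p) (hw : 0 ≤ w) (hε : ε ≤ 1 / 2) (hτ : τ ≤ ε)
    (hτ0 : 0 ≤ τ) (hK0 : 0 ≤ K) (hK : (g + 1) * K ≤ ε * (p * w) / 4) (hg : 8 ≤ g) {h : ℕ}
    (hL : ∀ j ≤ h, LP G bad w (p * w) τ ε (W j))
    (hW : ∀ i j, i < j → j ≤ h → Disjoint (W i) (W j))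
    (T : ι → Term V) (X : Finset ι)
    (hinj : Set.InjOn (fun i => (T i).x) X) (hv : ∀ i ∈ X, (T i).Valid G)
    (hout : ∀ i ∈ X, (T i).x ∉ W 0) (hZ : (Z.card : ℝ) + 1 ≤ ε * w / 4)
    (hX : 2 * ((Z.card : ℝ) + 1) ≤ g * X.card) (j : ℕ) (hj : j ≤ h) :
    ∃ Y ⊆ X, 2 ^ j * (Y.card - 1) ≤ X.card - 1 ∧
      min (2 ^ j * ((Z.card : ℝ) + 1)) (ε * w / 4) ≤ (RS G bad W Z T Y j).card := by
  induction j with
  | zero =>
    refine ⟨X, Subset.refl _, by simp, ?_⟩
    have h1 := grow_zero (Z := Z) hG hp hw hτ (hτ.trans hε) hτ0 hK0 hK (hL 0 hj) T X hinj hv hout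
    rcases min_le_iff.1 h1 with h2 | h2
    · exact min_le_of_left_le (by linarith)
    · exact min_le_of_right_le (by linarith)
  | succ j ih =>
    obtain ⟨Y, hY, h1, h2⟩ := ih (by omega)
    obtain ⟨Y', hY', h3, h4⟩ := exists_half Y (fun A => (RS G bad W Z T A j).card)
      (fun A B => (card_le_card (RS_union T A B j)).trans (card_union_le _ _))
    refine ⟨Y', hY'.trans hY, ?_, ?_⟩
    · calc 2 ^ (j + 1) * (Y'.card - 1) = 2 ^ j * (2 * (Y'.card - 1)) := by ring
        _ ≤ 2 ^ j * (Y.card - 1) := Nat.mul_le_mul_left _ h3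
        _ ≤ _ := h1
    · have h5 := grow_succ (Z := Z) hG hp hw hε hτ hτ0 hK0 hK (hL (j + 1) hj)
        (hW j (j + 1) (by omega) hj) T Y'
      have h4' : ((RS G bad W Z T Y j).card : ℝ) ≤ 2 * (RS G bad W Z T Y' j).card := by
        exact_mod_cast h4
      have h6 : (0 : ℝ) ≤ (RS G bad W Z T Y' j).card := by positivity
      have h7 : 8 * ((RS G bad W Z T Y' j).card : ℝ) ≤ g * (RS G bad W Z T Y' j).card := by
        nlinarith
      have h8 : (1 : ℝ) ≤ 2 ^ j := one_le_pow₀ (by norm_num)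
      have h9 : (0 : ℝ) ≤ Z.card := by positivity
      rcases min_le_iff.1 h5 with h10 | h10
      · rcases min_le_iff.1 h2 with h11 | h11
        · refine min_le_of_left_le ?_
          rw [pow_succ]
          nlinarith
        · exact min_le_of_right_le (by linarith)
      · exact min_le_of_right_le (by linarith)

end growth

end Pool.Agent.MP_d6d719_co

end MrgPart3

-- marker of a merged file
example : 731051 + 799586 = 731051 + 799586 := rfl
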