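import Mathlib.Data.Int.Star
import Mathlib.Data.List.GetD
import Mathlib.Analysis.Convex.Birkhoff
import Pool.Agent.MP_d6d719_co.Reach

-- ======== part 0: formerly Pool.Agent.MP_d6d719_co.Ladder
section MrgPart0

set_option autoImplicit false

namespace Pool.Agent.MP_d6d719_co

variable {V : Type*} {G : SimpleGraph V} {bad : V → V → V → Prop}

/-- Concatenation of segments and links. -/
def cat (l m : ℕ → List V) : ℕ → List V
  | 0 => l 0
  | k + 1 => cat l m k ++ m k ++ l (k + 1)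

theorem cat_cw {l m : ℕ → List V} {S E : ℕ → Term V} (k : ℕ)
    (hl : ∀ i ≤ k, CW G bad (l i) ∧ Starts (S i) (l i) ∧ Ends (E i) (l i))
    (hm : ∀ i < k, Link G bad (E i) (m i) (S (i + 1))) :
    CW G bad (cat l m k) ∧ Starts (S 0) (cat l m k) ∧ Ends (E k) (cat l m k) := by
  induction k with
  | zero => exact hl 0 le_rfl
  | succ k ih =>
    obtain ⟨h1, h2, h3⟩ := ih (fun i hi => hl i (by omega)) (fun i hi => hm i (by omega))
    obtain ⟨h4, h5, h6⟩ := hl (k + 1) le_rfl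
    exact ⟨glue h1 h3 (hm k (by omega)) h4 h5, (h2.append _).append _, h6.append _⟩

theorem mem_cat {l m : ℕ → List V} (k : ℕ) (v : V) :
    v ∈ cat l m k ↔ (∃ i ≤ k, v ∈ l i) ∨ ∃ i < k, v ∈ m i := by
  induction k with
  | zero => simp [cat]
  | succ k ih =>
    simp only [cat, List.mem_append, ih]
    constructor
    · rintro ((⟨⟨i, hi, h⟩⟩ | h) | h)
      · exact Or.inl ⟨i, by omega, h⟩
      · obtain ⟨i, hi, h⟩ := ‹∃ i < k, v ∈ m i›
        exact Or.inr ⟨i, by omega, h⟩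
      · exact Or.inr ⟨k, by omega, h⟩
      · exact Or.inl ⟨k + 1, le_rfl, h⟩
    · rintro (⟨i, hi, h⟩ | ⟨i, hi, h⟩)
      · rcases Nat.lt_or_ge i (k + 1) with h1 | h1
        · exact Or.inl (Or.inl (Or.inl ⟨i, by omega, h⟩))
        · obtain rfl : i = k + 1 := by omega
          exact Or.inr h
      · rcases Nat.lt_or_ge i k with h1 | h1
        · exact Or.inl (Or.inl (Or.inr ⟨i, h1, h⟩))
        · obtain rfl : i = k := by omega
          exact Or.inl (Or.inr h)

theorem nodup_cat {l m : ℕ → List V} (k : ℕ) (h1 : ∀ i ≤ k, (l i).Nodup)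
    (h2 : ∀ i < k, (m i).Nodup) (h3 : ∀ i ≤ k, ∀ j ≤ k, i ≠ j → List.Disjoint (l i) (l j))
    (h4 : ∀ i < k, ∀ j < k, i ≠ j → List.Disjoint (m i) (m j))
    (h5 : ∀ i ≤ k, ∀ j < k, List.Disjoint (l i) (m j)) : (cat l m k).Nodup := by
  induction k with
  | zero => exact h1 0 le_rfl
  | succ k ih =>
    have h6 := ih (fun i hi => h1 i (by omega)) (fun i hi => h2 i (by omega))
      (fun i hi j hj => h3 i (by omega) j (by omega))
      (fun i hi j hj => h4 i (by omega) j (by omega))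
      (fun i hi j hj => h5 i (by omega) j (by omega))
    simp only [cat]
    refine List.Nodup.append (List.Nodup.append h6 (h2 k (by omega)) ?_) (h1 _ le_rfl) ?_
    · intro v hv hv2
      rcases (mem_cat k v).1 hv with ⟨i, hi, h⟩ | ⟨i, hi, h⟩
      · exact h5 i (by omega) k (by omega) h hv2
      · exact h4 i (by omega) k (by omega) (by omega) h hv2
    · intro v hv hv2
      rcases List.mem_append.1 hv with hv | hv
      · rcases (mem_cat k v).1 hv with ⟨i, hi, h⟩ | ⟨i, hi, h⟩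
        · exact h3 i (by omega) (k + 1) le_rfl (by omega) h hv2
        · exact h5 (k + 1) le_rfl i (by omega) hv2 h
      · exact h5 (k + 1) le_rfl k (by omega) hv2 hv

/-- The zigzag traversal of a ladder. -/
def zig : ℕ → (ℕ → V) → (ℕ → V) → (ℕ → List V) → ℕ → List V
  | 0, a, _, _, i => [a i]
  | n + 1, a, b, m, i => a i :: (m i ++ b i :: zig n b a (fun j => (m j).reverse) (i + 1))

theorem zig_head (n : ℕ) (a b : ℕ → V) (m : ℕ → List V) (i : ℕ) :
    ∃ r, zig n a b m i = a i :: r := by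
  cases n with
  | zero => exact ⟨[], rfl⟩
  | succ n => exact ⟨_, rfl⟩

theorem zig_cw (hs : ∀ v a b, bad v a b → bad v b a) (n : ℕ) :
    ∀ (a b : ℕ → V) (m : ℕ → List V) (i : ℕ),
    (∀ j, i ≤ j → j ≤ i + n → G.Adj (a j) (a (j + 1)) ∧ G.Adj (b j) (b (j + 1))) →
    (∀ j, i ≤ j → j < i + n →
      Link G bad ⟨a (j + 1), a j, a (j + 2)⟩ (m (j + 1)) ⟨b (j + 1), b j, b (j + 2)⟩) →
    CW G bad (a i :: zig n a b m (i + 1)) := by
  induction n with
  | zero => intro a b m i h _; exact (h i le_rfl le_rfl).1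
  | succ n ih =>
    intro a b m i h1 h2
    have h3 := ih b a (fun j => (m j).reverse) (i + 1)
      (fun j hj hj' => (h1 j (by omega) (by omega)).symm)
      (fun j hj hj' => (h2 j (by omega) (by omega)).symm hs)
    obtain ⟨r, hr⟩ := zig_head n b a (fun j => (m j).reverse) (i + 1 + 1)
    have h4 := h2 i le_rfl (by omega) (a i) (Or.inl rfl) (b (i + 2)) (Or.inr rfl)
    rw [hr] at h3
    have h5 := CW.overlap (l := a i :: a (i + 1) :: m (i + 1)) h4 h3
    simp only [zig]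
    rw [hr]
    exact h5

theorem zig_ends (n : ℕ) : ∀ (a b : ℕ → V) (m : ℕ → List V) (i : ℕ),
    a (i + n + 1) = b (i + n + 1) →
    ∃ c r, (c = a (i + n) ∨ c = b (i + n)) ∧
      a i :: zig n a b m (i + 1) = r ++ [c, a (i + n + 1)] := by
  induction n with
  | zero => intro a b m i _; exact ⟨a i, [], Or.inl rfl, rfl⟩
  | succ n ih =>
    intro a b m i h
    have e : i + 1 + n = i + (n + 1) := by omega
    obtain ⟨c, r, h1, h2⟩ := ih b a (fun j => (m j).reverse) (i + 1) (by rw [e]; exact h.symm)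
    rw [e] at h1 h2
    refine ⟨c, a i :: a (i + 1) :: (m (i + 1) ++ r), h1.symm, ?_⟩
    simp only [zig]
    rw [h2, h]
    simp

theorem mem_zig (n : ℕ) (y : V) : ∀ (a b : ℕ → V) (m : ℕ → List V) (i : ℕ),
    a (i + n) = b (i + n) →
    (y ∈ zig n a b m i ↔ y = a (i + n) ∨ ∃ j, i ≤ j ∧ j < i + n ∧ (y = a j ∨ y = b j ∨ y ∈ m j)) := by
  induction n with
  | zero =>
    intro a b m i _
    simp only [zig, List.mem_singleton, Nat.add_zero]
    constructor
    · exact Or.inl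
    · rintro (h | ⟨j, h1, h2, _⟩)
      · exact h
      · omega
  | succ n ih =>
    intro a b m i h
    have e : i + 1 + n = i + (n + 1) := by omega
    have h1 := ih b a (fun j => (m j).reverse) (i + 1) (by rw [e]; exact h.symm)
    rw [e] at h1
    simp only [zig, List.mem_cons, List.mem_append, h1, List.mem_reverse]
    constructor
    · rintro (h2 | h2 | h2 | h2 | ⟨j, h2, h3, h4⟩)
      · exact Or.inr ⟨i, le_rfl, by omega, Or.inl h2⟩
      · exact Or.inr ⟨i, le_rfl, by omega, Or.inr (Or.inr h2)⟩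
      · exact Or.inr ⟨i, le_rfl, by omega, Or.inr (Or.inl h2)⟩
      · exact Or.inl (h2.trans h.symm)
      · exact Or.inr ⟨j, by omega, h3, by tauto⟩
    · rintro (h2 | ⟨j, h2, h3, h4⟩)
      · exact Or.inr (Or.inr (Or.inr (Or.inl (h2.trans h))))
      · rcases Nat.eq_or_lt_of_le h2 with rfl | h5
        · tauto
        · exact Or.inr (Or.inr (Or.inr (Or.inr ⟨j, h5, h3, by tauto⟩)))

theorem nodup_zig (n : ℕ) : ∀ (a b : ℕ → V) (m : ℕ → List V) (i : ℕ),
    a (i + n) = b (i + n) →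
    (∀ j k, i ≤ j → j < k → k ≤ i + n → a j ≠ a k ∧ b j ≠ b k ∧ a j ≠ b k ∧ b j ≠ a k) →
    (∀ j, i ≤ j → j < i + n → a j ≠ b j ∧ (m j).Nodup) →
    (∀ j k, i ≤ j → j < i + n → i ≤ k → k ≤ i + n → a k ∉ m j ∧ b k ∉ m j) →
    (∀ j k, i ≤ j → j < k → k < i + n → List.Disjoint (m j) (m k)) →
    (zig n a b m i).Nodup := by
  induction n with
  | zero => intro a b m i _ _ _ _ _; exact List.nodup_singleton _
  | succ n ih =>
    intro a b m i h h1 h2 h3 h4
    have e : i + 1 + n = i + (n + 1) := by omega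
    have h5 := ih b a (fun j => (m j).reverse) (i + 1) (by rw [e]; exact h.symm)
      (fun j k hj hjk hk => by have := h1 j k (by omega) hjk (by omega); tauto)
      (fun j hj hj' => ⟨(h2 j (by omega) (by omega)).1.symm,
        List.nodup_reverse.2 (h2 j (by omega) (by omega)).2⟩)
      (fun j k hj hj' hk hk' => by
        simp only [List.mem_reverse]
        exact (h3 j k (by omega) (by omega) (by omega) (by omega)).symm)
      (fun j k hj hjk hk => by
        intro v hv hv'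
        exact h4 j k (by omega) hjk (by omega) (List.mem_reverse.1 hv) (List.mem_reverse.1 hv'))
    have h6 := fun y => mem_zig n y b a (fun j => (m j).reverse) (i + 1) (by rw [e]; exact h.symm)
    simp only [e, List.mem_reverse] at h6
    have hi := h2 i le_rfl (by omega)
    have hii := h3 i i le_rfl (by omega) le_rfl (by omega)
    simp only [zig, List.nodup_cons, List.mem_append, List.mem_cons, not_or, List.nodup_append, h6]
    refine ⟨⟨hii.1, hi.1, (h1 i _ le_rfl (by omega) le_rfl).2.2.1, ?_⟩, hi.2,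
      ⟨⟨(h1 i _ le_rfl (by omega) le_rfl).2.1, ?_⟩, h5⟩, ?_⟩
    · rintro ⟨j, a1, a2, a3 | a3 | a3⟩
      · exact (h1 i j le_rfl (by omega) (by omega)).2.2.1 a3
      · exact (h1 i j le_rfl (by omega) (by omega)).1 a3
      · exact (h3 j i (by omega) a2 le_rfl (by omega)).1 a3
    · rintro ⟨j, a1, a2, a3 | a3 | a3⟩
      · exact (h1 i j le_rfl (by omega) (by omega)).2.1 a3
      · exact (h1 i j le_rfl (by omega) (by omega)).2.2.2 a3
      · exact (h3 j i (by omega) a2 le_rfl (by omega)).2 a3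
    · rintro y hy z (rfl | rfl | ⟨j, a1, a2, rfl | rfl | a3⟩) rfl
      · exact hii.2 hy
      · exact (h3 i _ le_rfl (by omega) (by omega) le_rfl).2 hy
      · exact (h3 i j le_rfl (by omega) (by omega) (by omega)).2 hy
      · exact (h3 i j le_rfl (by omega) (by omega) (by omega)).1 hy
      · exact h4 i j le_rfl (by omega) a2 hy a3

end Pool.Agent.MP_d6d719_co

end MrgPart0

-- ======== part 1: formerly Pool.Agent.MP_d6d719_co.Absorb
section MrgPart1

set_option autoImplicit false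

open Finset
open scoped Classical

namespace Pool.Agent.MP_d6d719_co

variable {V : Type} {G : SimpleGraph V} {bad : V → V → V → Prop}

variable (G bad) in
/-- Any small family of pairs of terminals outside `U` can be linked inside `U`. -/
def Conn (U : Finset V) (t k : ℕ) : Prop :=
  ∀ (ι : Type) (Tf Tb : ι → Term V) (I : Finset ι), Set.InjOn (fun i => (Tf i).x) I →
    Set.InjOn (fun i => (Tb i).x) I → (∀ i ∈ I, (Tf i).Valid G ∧ (Tb i).Valid G) →
    (∀ i ∈ I, (Tf i).x ∉ U ∧ (Tb i).x ∉ U) → I.card ≤ t →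
    ∃ m : ι → List V, (∀ i ∈ I, Link G bad (Tf i) (m i) (Tb i) ∧ (m i).Nodup ∧
      (m i).length = k ∧ ∀ v ∈ m i, v ∈ U) ∧
      ∀ i ∈ I, ∀ j ∈ I, i ≠ j → List.Disjoint (m i) (m j)

instance instNonemptyTerm [h : Nonempty V] : Nonempty (Term V) :=
  h.elim fun v => ⟨⟨v, v, v⟩⟩

theorem CW.adj_getD {l : List V} (h : CW G bad l) (d : V) (i : ℕ) (hi : i + 1 < l.length) :
    G.Adj (l.getD i d) (l.getD (i + 1) d) := by
  induction l generalizing i with
  | nil => simp at hi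
  | cons x l ih =>
    cases i with
    | zero =>
      match l, h, hi with
      | y :: l, h, _ => exact h.adj
    | succ i => simpa using ih h.tail i (by simpa using hi)

theorem ends_term {l : List V} (h : CW G bad l) (h2 : 2 ≤ l.length) :
    ∃ T : Term V, T.Valid G ∧ Ends T l ∧ T.x ∈ l := by
  obtain ⟨r, x, rfl⟩ : ∃ r x, l = r ++ [x] := by
    rcases List.eq_nil_or_concat l with rfl | ⟨r, x, rfl⟩
    · simp at h2
    · exact ⟨r, x, by simp⟩
  obtain ⟨r', c, rfl⟩ : ∃ r' c, r = r' ++ [c] := by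
    rcases List.eq_nil_or_concat r with rfl | ⟨r', c, rfl⟩
    · simp at h2
    · exact ⟨r', c, by simp⟩
  have h3 : CW G bad [c, x] := CW.right (l := r') (by simpa using h)
  exact ⟨⟨x, c, c⟩, ⟨h3.symm, h3.symm⟩, ⟨c, r', Or.inl rfl, by simp⟩, by simp⟩

theorem starts_term {l : List V} (h : CW G bad l) (h2 : 2 ≤ l.length) :
    ∃ T : Term V, T.Valid G ∧ Starts T l ∧ T.x ∈ l := by
  match l, h, h2 with
  | x :: c :: r, h, _ => exact ⟨⟨x, c, c⟩, ⟨h.adj, h.adj⟩, ⟨c, r, Or.inl rfl, rfl⟩, by simp⟩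

/-- Extension of a family of nonempty walks through a connector. -/
theorem extend [Nonempty V] {ι : Type} {U : Finset V} {t k : ℕ} (hC : Conn G bad U t k)
    (hn : ∀ v, ∃ a, G.Adj v a) (l : ι → List V) (I : Finset ι) (hI : I.card ≤ t)
    (hl : ∀ i ∈ I, CW G bad (l i) ∧ l i ≠ [] ∧ ∀ v ∈ l i, v ∉ U)
    (hd : ∀ i ∈ I, ∀ j ∈ I, i ≠ j → List.Disjoint (l i) (l j)) :
    ∃ m : ι → List V, (∀ i ∈ I, CW G bad (l i ++ m i) ∧ (m i).Nodup ∧
      (m i).length = k ∧ ∀ v ∈ m i, v ∈ U) ∧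
      ∀ i ∈ I, ∀ j ∈ I, i ≠ j → List.Disjoint (m i) (m j) := by
  have h1 : ∀ i ∈ I, ∃ T : Term V, T.Valid G ∧ T.x ∈ l i ∧
      ∀ m, CW G bad (T.a :: T.x :: m) → CW G bad (l i ++ m) := by
    intro i hi
    obtain ⟨a1, a2, -⟩ := hl i hi
    by_cases h2 : 2 ≤ (l i).length
    · obtain ⟨r, x, e⟩ : ∃ r x, l i = r ++ [x] := by
        rcases List.eq_nil_or_concat (l i) with h | ⟨r, x, h⟩
        · exact absurd h a2
        · exact ⟨r, x, by simpa using h⟩
      obtain ⟨r', c, rfl⟩ : ∃ r' c, r = r' ++ [c] := by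
        rcases List.eq_nil_or_concat r with rfl | ⟨r', c, rfl⟩
        · simp [e] at h2
        · exact ⟨r', c, by simp⟩
      rw [e] at a1 ⊢
      have h3 : CW G bad [c, x] := CW.right (l := r') (by simpa using a1)
      refine ⟨⟨x, c, c⟩, ⟨h3.symm, h3.symm⟩, by simp, fun m hm => ?_⟩
      have := CW.overlap (l := r') (a := c) (x := x) (by simpa using a1) hm
      simpa using this
    · obtain ⟨x, e⟩ : ∃ x, l i = [x] := by
        match h : l i, a2, h2 with
        | [x], _, _ => exact ⟨x, rfl⟩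
        | _ :: _ :: _, _, h2 => simp at h2
      obtain ⟨a, ha⟩ := hn x
      rw [e]
      exact ⟨⟨x, a, a⟩, ⟨ha, ha⟩, by simp, fun m hm => hm.tail⟩
  choose! T hT using h1
  have hinj : Set.InjOn (fun i => (T i).x) I := by
    intro i hi j hj hij
    by_contra hne
    have a1 := (hT i hi).2.1
    have a2 := (hT j hj).2.1
    simp only at hij
    rw [hij] at a1
    exact hd i hi j hj hne a1 a2
  obtain ⟨m, hm, hm2⟩ := hC ι T T I hinj hinj (fun i hi => ⟨(hT i hi).1, (hT i hi).1⟩)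
    (fun i hi => ⟨(hl i hi).2.2 _ (hT i hi).2.1, (hl i hi).2.2 _ (hT i hi).2.1⟩) hI
  refine ⟨m, fun i hi => ⟨?_, (hm i hi).2⟩, hm2⟩
  refine (hT i hi).2.2 _ ?_
  exact CW.left (l := (T i).a :: (T i).x :: m i) ((hm i hi).1 _ (Or.inl rfl) _ (Or.inl rfl))

theorem cycles [Nonempty V] {R U1 U2 : Finset V} {t k : ℕ} (h1 : Conn G bad U1 t k) (h2 : Conn G bad U2 t k)
    (hn : ∀ v, ∃ a, G.Adj v a) (hk : 1 ≤ k) (hR : R.card ≤ t) (d1 : Disjoint R U1)
    (d2 : Disjoint R U2) (d12 : Disjoint U1 U2) :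
    ∃ x : V → ℕ → V, (∀ v ∈ R, x v 0 = v ∧ x v (2 * k + 1) = v ∧
      (∀ i ≤ 2 * k, G.Adj (x v i) (x v (i + 1))) ∧ ¬ bad v (x v (2 * k)) (x v 1) ∧
      ∀ i, 1 ≤ i → i ≤ 2 * k → x v i ∈ U1 ∪ U2) ∧
      ∀ v ∈ R, ∀ w ∈ R, ∀ i j, 1 ≤ i → i ≤ 2 * k → 1 ≤ j → j ≤ 2 * k →
        x v i = x w j → v = w ∧ i = j := by
  obtain ⟨m1, hm1, hd1⟩ := extend h1 hn (fun v => [v]) R hR
    (fun v hv => ⟨trivial, by simp, by simpa using disjoint_left.1 d1 hv⟩)
    (fun v _ w _ hvw => by simpa using hvw.symm)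
  have h3 : ∀ v ∈ R, ∃ T : Term V, T.Valid G ∧ Ends T ([v] ++ m1 v) ∧ T.x ∈ m1 v := by
    intro v hv
    obtain ⟨a1, a2, a3, a4⟩ := hm1 v hv
    obtain ⟨T, b1, b2, b3⟩ := ends_term a1 (by simp; omega)
    refine ⟨T, b1, b2, ?_⟩
    obtain ⟨c, r, -, e⟩ := b2
    rcases r with _ | ⟨y, r⟩
    · simp only [List.singleton_append, List.nil_append, List.cons.injEq] at e
      rw [e.2]; simp
    · simp only [List.cons_append, List.nil_append, List.cons.injEq] at e
      rw [e.2]; simp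
  choose! T hT using h3
  have h4 : ∀ v ∈ R, ∃ y r, m1 v = y :: r := by
    intro v hv
    have := (hm1 v hv).2.2.1
    match h : m1 v, this with
    | [], this => simp at this; omega
    | y :: r, _ => exact ⟨y, r, rfl⟩
  choose! y r hy using h4
  have hadj : ∀ v ∈ R, G.Adj v (y v) := by
    intro v hv
    have := (hm1 v hv).1
    rw [hy v hv] at this
    exact CW.adj this
  obtain ⟨m2, hm2, hd2⟩ := h2 V T (fun v => ⟨v, y v, y v⟩) R
    (fun v hv w hw hvw => by
      by_contra hne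
      have a1 := (hT v hv).2.2
      simp only at hvw
      rw [hvw] at a1
      exact hd1 v hv w hw hne a1 (hT w hw).2.2)
    (fun v _ w _ hvw => hvw) (fun v hv => ⟨(hT v hv).1, hadj v hv, hadj v hv⟩)
    (fun v hv => ⟨disjoint_left.1 d12 ((hm1 v hv).2.2.2 _ (hT v hv).2.2),
      disjoint_left.1 d2 hv⟩) hR
  have hcw : ∀ v ∈ R, CW G bad ([v] ++ m1 v ++ m2 v ++ [v, y v]) := fun v hv =>
    glue (hm1 v hv).1 (hT v hv).2.1 (hm2 v hv).1 (hadj v hv) ⟨y v, [], Or.inl rfl, rfl⟩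
  have hlen : ∀ v ∈ R, (m1 v ++ m2 v).length = 2 * k := fun v hv => by
    rw [List.length_append, (hm1 v hv).2.2.1, (hm2 v hv).2.2.1]; omega
  have hmem : ∀ v ∈ R, ∀ z ∈ m1 v ++ m2 v, z ∈ U1 ∪ U2 := fun v hv z hz => by
    rcases List.mem_append.1 hz with h | h
    · exact mem_union_left _ ((hm1 v hv).2.2.2 z h)
    · exact mem_union_right _ ((hm2 v hv).2.2.2 z h)
  have hnd : ∀ v ∈ R, (m1 v ++ m2 v).Nodup := fun v hv =>
    List.Nodup.append (hm1 v hv).2.1 (hm2 v hv).2.1 fun z hz hz2 =>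
      disjoint_left.1 d12 ((hm1 v hv).2.2.2 z hz) ((hm2 v hv).2.2.2 z hz2)
  have hdj : ∀ v ∈ R, ∀ w ∈ R, v ≠ w → List.Disjoint (m1 v ++ m2 v) (m1 w ++ m2 w) := by
    intro v hv w hw hvw z h3 h4
    rcases List.mem_append.1 h3 with h3 | h3 <;> rcases List.mem_append.1 h4 with h4 | h4
    · exact hd1 v hv w hw hvw h3 h4
    · exact disjoint_left.1 d12 ((hm1 v hv).2.2.2 z h3) ((hm2 w hw).2.2.2 z h4)
    · exact disjoint_left.1 d12 ((hm1 w hw).2.2.2 z h4) ((hm2 v hv).2.2.2 z h3)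
    · exact hd2 v hv w hw hvw h3 h4
  have hget : ∀ v ∈ R, ∀ i, 1 ≤ i → i ≤ 2 * k → ∃ h : i - 1 < (m1 v ++ m2 v).length,
      ((v :: (m1 v ++ m2 v)) ++ [v, y v]).getD i v = (m1 v ++ m2 v)[i - 1] := by
    intro v hv i a1 a2
    have a3 := hlen v hv
    obtain ⟨j, rfl⟩ : ∃ j, i = j + 1 := ⟨i - 1, by omega⟩
    refine ⟨by omega, ?_⟩
    simp only [List.cons_append, List.getD_cons_succ, Nat.add_sub_cancel]
    rw [List.getD_append _ _ _ _ (by omega), List.getD_eq_getElem]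
  refine ⟨fun v i => ((v :: (m1 v ++ m2 v)) ++ [v, y v]).getD i v, fun v hv => ⟨rfl, ?_, ?_, ?_, ?_⟩,
    ?_⟩
  · have a3 := hlen v hv
    beta_reduce
    rw [List.getD_append_right _ _ _ _ (by simp only [List.length_cons]; omega)]
    simp only [List.length_cons, a3, Nat.sub_self]
    rfl
  · intro i hi
    have a3 := hlen v hv
    refine CW.adj_getD (bad := bad) (by simpa using hcw v hv) v i ?_
    simp only [List.length_append, List.length_cons] at a3 ⊢
    omega
  · have a3 := hlen v hv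
    obtain ⟨q, z, e⟩ : ∃ q z, m1 v ++ m2 v = q ++ [z] := by
      rcases List.eq_nil_or_concat (m1 v ++ m2 v) with h | ⟨q, z, h⟩
      · rw [h] at a3; simp at a3; omega
      · exact ⟨q, z, by simpa using h⟩
    have a4 : CW G bad ((v :: q) ++ z :: v :: y v :: []) := by
      have := hcw v hv
      rw [List.append_assoc [v], e] at this
      simpa using this
    have a5 := a4.triple
    have e1 : ((v :: (m1 v ++ m2 v)) ++ [v, y v]).getD (2 * k) v = z := by
      rw [e] at a3 ⊢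
      simp only [List.length_append, List.length_singleton] at a3
      have : (v :: (q ++ [z])) ++ [v, y v] = (v :: q) ++ z :: [v, y v] := by simp
      rw [this, List.getD_append_right _ _ _ _ (by simp only [List.length_cons]; omega)]
      simp only [List.length_cons, a3, Nat.sub_self]
      rfl
    have e2 : ((v :: (m1 v ++ m2 v)) ++ [v, y v]).getD 1 v = y v := by
      rw [hy v hv]; rfl
    simp only [e1, e2]
    exact a5
  · intro i a1 a2
    obtain ⟨h, e⟩ := hget v hv i a1 a2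
    simp only [e]
    exact hmem v hv _ (List.getElem_mem h)
  · intro v hv w hw i j a1 a2 a3 a4 e
    obtain ⟨h, e1⟩ := hget v hv i a1 a2
    obtain ⟨h', e2⟩ := hget w hw j a3 a4
    simp only [e1, e2] at e
    have hvw : v = w := by
      by_contra hne
      exact hdj v hv w hw hne (List.getElem_mem h) (e ▸ List.getElem_mem h')
    subst hvw
    have := (List.Nodup.getElem_inj_iff (hnd v hv)).1 e
    exact ⟨rfl, by omega⟩

theorem absorbers [Nonempty V] (hs : ∀ v a b, bad v a b → bad v b a) {R U U3 : Finset V}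
    {t k k' : ℕ} (h3 : Conn G bad U3 t k') (hk : 1 ≤ k) (hR : R.card * k ≤ t)
    (d1 : Disjoint R U) (d3 : Disjoint R U3) (d13 : Disjoint U U3) (x : V → ℕ → V)
    (hx : ∀ v ∈ R, x v 0 = v ∧ x v (2 * k + 1) = v ∧
      (∀ i ≤ 2 * k, G.Adj (x v i) (x v (i + 1))) ∧ ¬ bad v (x v (2 * k)) (x v 1) ∧
      ∀ i, 1 ≤ i → i ≤ 2 * k → x v i ∈ U)
    (hinj : ∀ v ∈ R, ∀ w ∈ R, ∀ i j, 1 ≤ i → i ≤ 2 * k → 1 ≤ j → j ≤ 2 * k →
      x v i = x w j → v = w ∧ i = j) :
    ∃ (S E : V → Term V) (P0 P1 : V → List V), (∀ v ∈ R, (S v).Valid G ∧ (E v).Valid G ∧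
      (CW G bad (P0 v) ∧ Starts (S v) (P0 v) ∧ Ends (E v) (P0 v) ∧ (P0 v).Nodup) ∧
      (CW G bad (P1 v) ∧ Starts (S v) (P1 v) ∧ Ends (E v) (P1 v) ∧ (P1 v).Nodup) ∧
      (∀ y, y ∈ P1 v ↔ y = v ∨ y ∈ P0 v) ∧ ∀ y ∈ P0 v, y ∈ U ∪ U3) ∧
      ∀ v ∈ R, ∀ w ∈ R, v ≠ w → List.Disjoint (P0 v) (P0 w) := by
  obtain ⟨n, rfl⟩ : ∃ n, k = n + 1 := ⟨k - 1, by omega⟩
  set a : V → ℕ → V := x with ha
  set b : V → ℕ → V := fun v i => x v (2 * n + 4 - i) with hb
  have hadj : ∀ v ∈ R, ∀ j, 1 ≤ j → j ≤ 1 + n →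
      G.Adj (a v j) (a v (j + 1)) ∧ G.Adj (b v j) (b v (j + 1)) := by
    intro v hv j h1 h2
    refine ⟨(hx v hv).2.2.1 j (by omega), ?_⟩
    have := ((hx v hv).2.2.1 (2 * n + 4 - (j + 1)) (by omega)).symm
    rwa [show 2 * n + 4 - (j + 1) + 1 = 2 * n + 4 - j by omega] at this
  obtain ⟨m, hm, hmd⟩ := h3 (V × ℕ)
    (fun q => ⟨a q.1 q.2, a q.1 (q.2 - 1), a q.1 (q.2 + 1)⟩)
    (fun q => ⟨b q.1 q.2, b q.1 (q.2 - 1), b q.1 (q.2 + 1)⟩) (R ×ˢ Ico 2 (n + 2))
    (by
      rintro ⟨v, i⟩ h1 ⟨w, j⟩ h2 h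
      simp only [coe_product, Set.mem_prod, mem_coe, mem_Ico] at h1 h2
      obtain ⟨rfl, rfl⟩ := hinj v h1.1 w h2.1 i j (by omega) (by omega) (by omega) (by omega) h
      rfl)
    (by
      rintro ⟨v, i⟩ h1 ⟨w, j⟩ h2 h
      simp only [coe_product, Set.mem_prod, mem_coe, mem_Ico] at h1 h2
      obtain ⟨rfl, h4⟩ := hinj v h1.1 w h2.1 (2 * n + 4 - i) (2 * n + 4 - j) (by omega) (by omega)
        (by omega) (by omega) h
      obtain rfl : i = j := by omega
      rfl)
    (by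
      rintro ⟨v, i⟩ h1
      simp only [mem_product, mem_Ico] at h1
      obtain ⟨j, rfl⟩ : ∃ j, i = j + 1 := ⟨i - 1, by omega⟩
      have a1 := hadj v h1.1 j (by omega) (by omega)
      have a2 := hadj v h1.1 (j + 1) (by omega) (by omega)
      exact ⟨⟨a1.1.symm, a2.1⟩, a1.2.symm, a2.2⟩)
    (by
      rintro ⟨v, i⟩ h1
      simp only [mem_product, mem_Ico] at h1
      exact ⟨disjoint_left.1 d13 ((hx v h1.1).2.2.2.2 i (by omega) (by omega)),
        disjoint_left.1 d13 ((hx v h1.1).2.2.2.2 _ (by omega) (by omega))⟩)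
    (by
      rw [card_product, Nat.card_Ico]
      exact le_trans (Nat.mul_le_mul_left _ (by omega)) hR)
  have hI : ∀ v ∈ R, ∀ j, 2 ≤ j → j < 2 + n → (v, j) ∈ R ×ˢ Ico 2 (n + 2) := fun v hv j h1 h2 =>
    mem_product.2 ⟨hv, mem_Ico.2 ⟨h1, by omega⟩⟩
  have hab : ∀ v, a v (2 + n) = b v (2 + n) := fun v => by
    simp only [hb]; rw [show 2 * n + 4 - (2 + n) = 2 + n by omega]
  have hb1 : ∀ v ∈ R, b v 1 = v := fun v hv => by
    simp only [hb]; rw [show 2 * n + 4 - 1 = 2 * (n + 1) + 1 by omega]; exact (hx v hv).2.1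
  have haU : ∀ v ∈ R, ∀ j, 1 ≤ j → j ≤ 2 + n → a v j ∈ U := fun v hv j h1 h2 =>
    (hx v hv).2.2.2.2 j h1 (by omega)
  have hbU : ∀ v ∈ R, ∀ j, 2 ≤ j → j ≤ 2 + n → b v j ∈ U := fun v hv j h1 h2 =>
    (hx v hv).2.2.2.2 _ (by omega) (by omega)
  have hmU : ∀ v ∈ R, ∀ j, 2 ≤ j → j < 2 + n → ∀ y ∈ m (v, j), y ∈ U3 := fun v hv j h1 h2 =>
    (hm _ (hI v hv j h1 h2)).2.2.2
  have hz0 := fun v y => mem_zig n y (a v) (b v) (fun j => m (v, j)) 2 (hab v)
  have hz1 := fun v y => mem_zig n y (b v) (a v) (fun j => (m (v, j)).reverse) 2 (hab v).symm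
  have hz01 : ∀ v y, y ∈ zig n (b v) (a v) (fun j => (m (v, j)).reverse) 2 ↔
      y ∈ zig n (a v) (b v) (fun j => m (v, j)) 2 := by
    intro v y
    rw [hz0, hz1, hab v]
    simp only [List.mem_reverse, or_left_comm]
  have hzU : ∀ v ∈ R, ∀ y ∈ zig n (a v) (b v) (fun j => m (v, j)) 2,
      (∃ i, 2 ≤ i ∧ i ≤ 2 * (n + 1) ∧ y = x v i) ∨ ∃ j, 2 ≤ j ∧ j < 2 + n ∧ y ∈ m (v, j) := by
    intro v hv y hy
    rcases (hz0 v y).1 hy with h | ⟨j, h1, h2, h | h | h⟩
    · exact Or.inl ⟨2 + n, by omega, by omega, h⟩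
    · exact Or.inl ⟨j, by omega, by omega, h⟩
    · exact Or.inl ⟨2 * n + 4 - j, by omega, by omega, h⟩
    · exact Or.inr ⟨j, h1, h2, h⟩
  have hP : ∀ v ∈ R, ∀ y ∈ a v 1 :: zig n (a v) (b v) (fun j => m (v, j)) 2,
      (∃ i, 1 ≤ i ∧ i ≤ 2 * (n + 1) ∧ y = x v i) ∨ ∃ j, 2 ≤ j ∧ j < 2 + n ∧ y ∈ m (v, j) := by
    intro v hv y hy
    rcases List.mem_cons.1 hy with h | h
    · exact Or.inl ⟨1, le_rfl, by omega, h⟩
    · rcases hzU v hv y h with ⟨i, h1, h2, h4⟩ | h
      · exact Or.inl ⟨i, by omega, h2, h4⟩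
      · exact Or.inr h
  have hPU : ∀ v ∈ R, ∀ y ∈ a v 1 :: zig n (a v) (b v) (fun j => m (v, j)) 2, y ∈ U ∪ U3 := by
    intro v hv y hy
    rcases hP v hv y hy with ⟨i, h1, h2, rfl⟩ | ⟨j, h1, h2, h⟩
    · exact mem_union_left _ ((hx v hv).2.2.2.2 i h1 h2)
    · exact mem_union_right _ (hmU v hv j h1 h2 y h)
  have hnd : ∀ v ∈ R, (zig n (a v) (b v) (fun j => m (v, j)) 2).Nodup ∧
      (zig n (b v) (a v) (fun j => (m (v, j)).reverse) 2).Nodup := by
    intro v hv
    have c1 : ∀ j k, 2 ≤ j → j < k → k ≤ 2 + n →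
        a v j ≠ a v k ∧ b v j ≠ b v k ∧ a v j ≠ b v k ∧ b v j ≠ a v k := by
      intro j k h1 h2 h4
      refine ⟨fun h => ?_, fun h => ?_, fun h => ?_, fun h => ?_⟩ <;>
      · have := (hinj v hv v hv _ _ (by omega) (by omega) (by omega) (by omega) h).2
        omega
    have c2 : ∀ j, 2 ≤ j → j < 2 + n → a v j ≠ b v j := by
      intro j h1 h2 h
      have := (hinj v hv v hv _ _ (by omega) (by omega) (by omega) (by omega) h).2
      omega
    have c3 : ∀ j k, 2 ≤ j → j < 2 + n → 2 ≤ k → k ≤ 2 + n →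
        a v k ∉ m (v, j) ∧ b v k ∉ m (v, j) := fun j k h1 h2 h4 h5 =>
      ⟨fun h => disjoint_left.1 d13 (haU v hv k (by omega) h5) (hmU v hv j h1 h2 _ h),
        fun h => disjoint_left.1 d13 (hbU v hv k h4 h5) (hmU v hv j h1 h2 _ h)⟩
    have c4 : ∀ j k, 2 ≤ j → j < k → k < 2 + n → List.Disjoint (m (v, j)) (m (v, k)) :=
      fun j k h1 h2 h4 => hmd _ (hI v hv j h1 (by omega)) _ (hI v hv k (by omega) h4)
        (by simp; omega)
    refine ⟨nodup_zig n _ _ _ 2 (hab v) c1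
      (fun j h1 h2 => ⟨c2 j h1 h2, (hm _ (hI v hv j h1 h2)).2.1⟩) c3 c4,
      nodup_zig n _ _ _ 2 (hab v).symm (fun j k h1 h2 h4 => by have := c1 j k h1 h2 h4; tauto)
      (fun j h1 h2 => ⟨(c2 j h1 h2).symm, List.nodup_reverse.2 (hm _ (hI v hv j h1 h2)).2.1⟩)
      (fun j k h1 h2 h4 h5 => by simpa only [List.mem_reverse] using (c3 j k h1 h2 h4 h5).symm)
      (fun j k h1 h2 h4 y hy hy2 =>
        c4 j k h1 h2 h4 (List.mem_reverse.1 hy) (List.mem_reverse.1 hy2))⟩
  have hn1 : ∀ v ∈ R, a v 1 ∉ zig n (a v) (b v) (fun j => m (v, j)) 2 := by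
    intro v hv h
    rcases hzU v hv _ h with ⟨i, h1, h2, h4⟩ | ⟨j, h1, h2, h4⟩
    · have := (hinj v hv v hv _ _ (by omega) (by omega) (by omega) (by omega) h4).2
      omega
    · exact disjoint_left.1 d13 (haU v hv 1 le_rfl (by omega)) (hmU v hv j h1 h2 _ h4)
  have hlink : ∀ v ∈ R, ∀ j, 1 ≤ j → j < 1 + n →
      Link G bad ⟨a v (j + 1), a v j, a v (j + 2)⟩ (m (v, j + 1))
        ⟨b v (j + 1), b v j, b v (j + 2)⟩ := fun v hv j h1 h2 =>
    (hm _ (hI v hv (j + 1) (by omega) (by omega))).1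
  refine ⟨fun v => ⟨a v 1, v, a v 2⟩, fun v => ⟨a v (1 + n + 1), a v (1 + n), b v (1 + n)⟩,
    fun v => a v 1 :: zig n (a v) (b v) (fun j => m (v, j)) 2,
    fun v => a v 1 :: b v 1 :: zig n (b v) (a v) (fun j => (m (v, j)).reverse) 2,
    fun v hv => ⟨?_, ?_, ⟨?_, ?_, ?_, ?_⟩, ⟨?_, ?_, ?_, ?_⟩, ?_, hPU v hv⟩, ?_⟩
  · refine ⟨?_, (hadj v hv 1 le_rfl (by omega)).1⟩
    have := ((hx v hv).2.2.1 0 (by omega)).symm
    rwa [(hx v hv).1] at this
  · have := hadj v hv (1 + n) (by omega) le_rfl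
    refine ⟨this.1.symm, ?_⟩
    have e := hab v
    rw [show 2 + n = 1 + n + 1 by omega] at e
    simp only [e]
    exact this.2.symm
  · exact zig_cw hs n _ _ _ 1 (hadj v hv) (hlink v hv)
  · obtain ⟨r, hr⟩ := zig_head n (a v) (b v) (fun j => m (v, j)) 2
    exact ⟨a v 2, r, Or.inr rfl, by beta_reduce; rw [hr]⟩
  · obtain ⟨c, r, h1, h2⟩ := zig_ends n (a v) (b v) (fun j => m (v, j)) 1
      (by rw [show 1 + n + 1 = 2 + n by omega]; exact hab v)
    exact ⟨c, r, h1, h2⟩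
  · exact List.nodup_cons.2 ⟨hn1 v hv, (hnd v hv).1⟩
  · have h1 := zig_cw hs n (b v) (a v) (fun j => (m (v, j)).reverse) 1
      (fun j h1 h2 => (hadj v hv j h1 h2).symm) (fun j h1 h2 => (hlink v hv j h1 h2).symm hs)
    obtain ⟨r, hr⟩ := zig_head n (b v) (a v) (fun j => (m (v, j)).reverse) 2
    beta_reduce
    rw [show (1 : ℕ) + 1 = 2 from rfl, hr] at h1
    rw [hr]
    refine ⟨?_, ?_, h1⟩
    · rw [hb1 v hv]
      have := ((hx v hv).2.2.1 0 (by omega)).symm
      rwa [(hx v hv).1] at this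
    · rw [hb1 v hv]
      intro hbad
      exact (hx v hv).2.2.2.1 (hs _ _ _ hbad)
  · exact ⟨b v 1, _, Or.inl (hb1 v hv), rfl⟩
  · have e : a v (1 + n + 1) = b v (1 + n + 1) := by
      rw [show 1 + n + 1 = 2 + n by omega]; exact hab v
    obtain ⟨c, r, h1, h2⟩ := zig_ends n (b v) (a v) (fun j => (m (v, j)).reverse) 1 e.symm
    refine ⟨c, a v 1 :: r, h1.symm, ?_⟩
    beta_reduce
    rw [show (1 : ℕ) + 1 = 2 from rfl] at h2
    rw [h2, e]
    rfl
  · have c1 : v ∉ U ∪ U3 := fun h => (mem_union.1 h).elim (disjoint_left.1 d1 hv)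
      (disjoint_left.1 d3 hv)
    beta_reduce
    rw [hb1 v hv]
    simp only [List.nodup_cons, List.mem_cons, hz01, not_or]
    refine ⟨⟨fun h => c1 (hPU v hv v (by rw [← h]; simp [h])), hn1 v hv⟩,
      fun h => c1 (hPU v hv v (List.mem_cons_of_mem _ h)), (hnd v hv).2⟩
  · intro y
    beta_reduce
    rw [hb1 v hv]
    simp only [List.mem_cons, hz01]
    tauto
  · intro v hv w hw hvw y h1 h2
    rcases hP v hv y h1 with ⟨i, a1, a2, a3⟩ | ⟨i, a1, a2, a3⟩ <;>
      rcases hP w hw y h2 with ⟨j, b1, b2, b3⟩ | ⟨j, b1, b2, b3⟩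
    · exact hvw (hinj v hv w hw i j a1 a2 b1 b2 (a3.symm.trans b3)).1
    · exact disjoint_left.1 d13 (a3 ▸ (hx v hv).2.2.2.2 i a1 a2) (hmU w hw j b1 b2 y b3)
    · exact disjoint_left.1 d13 (b3 ▸ (hx w hw).2.2.2.2 j b1 b2) (hmU v hv i a1 a2 y a3)
    · exact hmd _ (hI v hv i a1 a2) _ (hI w hw j b1 b2) (by simp [hvw]) a3 b3

end Pool.Agent.MP_d6d719_co

end MrgPart1

-- ======== part 2: formerly Pool.Agent.MP_d6d719_co.Join
section MrgPart2

set_option autoImplicit false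

open Finset
open scoped Classical

namespace Pool.Agent.MP_d6d719_co

variable {V : Type} {G : SimpleGraph V} {bad : V → V → V → Prop}

theorem Starts.mem {T : Term V} {l : List V} (h : Starts T l) : T.x ∈ l := by
  obtain ⟨c, r, -, rfl⟩ := h
  simp

theorem Ends.mem {T : Term V} {l : List V} (h : Ends T l) : T.x ∈ l := by
  obtain ⟨c, r, -, rfl⟩ := h
  simp

theorem exists_enum (R : Finset V) (hR : R.Nonempty) :
    ∃ (s : ℕ) (r : ℕ → V), s + 1 = R.card ∧ (∀ i ≤ s, ∀ j ≤ s, r i = r j → i = j) ∧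
      (∀ i ≤ s, r i ∈ R) ∧ ∀ v ∈ R, ∃ i ≤ s, r i = v := by
  obtain ⟨d, hd⟩ := hR
  have h1 : 0 < R.card := card_pos.2 ⟨d, hd⟩
  have h2 := R.length_toList
  refine ⟨R.card - 1, fun i => R.toList.getD i d, by omega, fun i hi j hj h => ?_,
    fun i hi => ?_, fun v hv => ?_⟩
  · simp only at h
    rw [List.getD_eq_getElem _ _ (by omega), List.getD_eq_getElem _ _ (by omega)] at h
    exact (List.Nodup.getElem_inj_iff R.nodup_toList).1 h
  · simp only
    rw [List.getD_eq_getElem _ _ (by omega)]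
    exact mem_toList.1 (List.getElem_mem _)
  · obtain ⟨i, hi, e⟩ := List.getElem_of_mem (mem_toList.2 hv)
    exact ⟨i, by omega, by simp only; rw [List.getD_eq_getElem _ _ hi, e]⟩

variable (G bad) in
/-- An absorbing structure for `R` with vertex set `A`. -/
def Absorber (R A : Finset V) (S E : Term V) : Prop :=
  S.Valid G ∧ E.Valid G ∧ S.x ∈ A ∧ E.x ∈ A ∧ ∀ R' ⊆ R, ∃ l, CW G bad l ∧ Starts S l ∧ Ends E l ∧
    l.Nodup ∧ ∀ y, y ∈ l ↔ y ∈ A ∨ y ∈ R'

theorem chain {R U U4 : Finset V} {t k : ℕ} (h4 : Conn G bad U4 t k) (hR : R.card ≤ t)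
    (hne : R.Nonempty) (d1 : Disjoint R U) (d4 : Disjoint R U4) (d14 : Disjoint U U4)
    (S E : V → Term V) (P0 P1 : V → List V)
    (h : ∀ v ∈ R, (S v).Valid G ∧ (E v).Valid G ∧
      (CW G bad (P0 v) ∧ Starts (S v) (P0 v) ∧ Ends (E v) (P0 v) ∧ (P0 v).Nodup) ∧
      (CW G bad (P1 v) ∧ Starts (S v) (P1 v) ∧ Ends (E v) (P1 v) ∧ (P1 v).Nodup) ∧
      (∀ y, y ∈ P1 v ↔ y = v ∨ y ∈ P0 v) ∧ ∀ y ∈ P0 v, y ∈ U)
    (hd : ∀ v ∈ R, ∀ w ∈ R, v ≠ w → List.Disjoint (P0 v) (P0 w)) :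
    ∃ A ⊆ U ∪ U4, ∃ S E, Absorber G bad R A S E := by
  obtain ⟨s, r, hs, hinj, hr, hsurj⟩ := exists_enum R hne
  have hSm : ∀ i ≤ s, (S (r i)).x ∈ P0 (r i) := fun i hi => (h _ (hr i hi)).2.2.1.2.1.mem
  have hEm : ∀ i ≤ s, (E (r i)).x ∈ P0 (r i) := fun i hi => (h _ (hr i hi)).2.2.1.2.2.1.mem
  have hU : ∀ i ≤ s, ∀ y ∈ P0 (r i), y ∈ U := fun i hi => (h _ (hr i hi)).2.2.2.2.2
  have hd' : ∀ i ≤ s, ∀ j ≤ s, ∀ y ∈ P0 (r i), y ∈ P0 (r j) → i = j := by
    intro i hi j hj y h1 h2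
    by_contra hij
    exact hd _ (hr i hi) _ (hr j hj) (fun e => hij (hinj i hi j hj e)) h1 h2
  obtain ⟨m, hm, hmd⟩ := h4 ℕ (fun i => E (r i)) (fun i => S (r (i + 1))) (range s)
    (fun i hi j hj e => by
      simp only [coe_range, Set.mem_Iio] at hi hj e
      exact hd' i (by omega) j (by omega) _ (hEm i (by omega)) (e ▸ hEm j (by omega)))
    (fun i hi j hj e => by
      simp only [coe_range, Set.mem_Iio] at hi hj e
      have := hd' (i + 1) (by omega) (j + 1) (by omega) _ (hSm (i + 1) (by omega))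
        (e ▸ hSm (j + 1) (by omega))
      omega)
    (fun i hi => by
      rw [mem_range] at hi
      exact ⟨(h _ (hr i (by omega))).2.1, (h _ (hr (i + 1) (by omega))).1⟩)
    (fun i hi => by
      rw [mem_range] at hi
      exact ⟨disjoint_left.1 d14 (hU i (by omega) _ (hEm i (by omega))),
        disjoint_left.1 d14 (hU (i + 1) (by omega) _ (hSm (i + 1) (by omega)))⟩)
    (by rw [card_range]; omega)
  simp only [mem_range] at hm hmd
  refine ⟨(cat (fun i => P0 (r i)) m s).toFinset, ?_, S (r 0), E (r s),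
    (h _ (hr 0 (by omega))).1, (h _ (hr s le_rfl)).2.1, ?_, ?_, fun R' hR' => ?_⟩
  · intro y hy
    rcases (mem_cat s y).1 (List.mem_toFinset.1 hy) with ⟨i, hi, h1⟩ | ⟨i, hi, h1⟩
    · exact mem_union_left _ (hU i hi y h1)
    · exact mem_union_right _ ((hm i hi).2.2.2 y h1)
  · exact List.mem_toFinset.2 ((mem_cat s _).2 (Or.inl ⟨0, by omega, hSm 0 (by omega)⟩))
  · exact List.mem_toFinset.2 ((mem_cat s _).2 (Or.inl ⟨s, le_rfl, hEm s le_rfl⟩))
  · set l : ℕ → List V := fun i => if r i ∈ R' then P1 (r i) else P0 (r i) with hl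
    have hl1 : ∀ i ≤ s, CW G bad (l i) ∧ Starts (S (r i)) (l i) ∧ Ends (E (r i)) (l i) ∧
        (l i).Nodup := by
      intro i hi
      simp only [hl]
      split_ifs
      · exact (h _ (hr i hi)).2.2.2.1
      · exact (h _ (hr i hi)).2.2.1
    have hl2 : ∀ i ≤ s, ∀ y, y ∈ l i ↔ (y = r i ∧ y ∈ R') ∨ y ∈ P0 (r i) := by
      intro i hi y
      simp only [hl]
      split_ifs with h1
      · rw [(h _ (hr i hi)).2.2.2.2.1]
        constructor
        · rintro (rfl | h2)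
          · exact Or.inl ⟨rfl, h1⟩
          · exact Or.inr h2
        · tauto
      · constructor
        · exact Or.inr
        · rintro (⟨rfl, h2⟩ | h2)
          · exact absurd h2 h1
          · exact h2
    obtain ⟨a1, a2, a3⟩ := cat_cw (G := G) (bad := bad) (l := l) (m := m) (S := fun i => S (r i))
      (E := fun i => E (r i)) s (fun i hi => ⟨(hl1 i hi).1, (hl1 i hi).2.1, (hl1 i hi).2.2.1⟩)
      (fun i hi => (hm i hi).1)
    refine ⟨cat l m s, a1, a2, a3, nodup_cat s (fun i hi => (hl1 i hi).2.2.2)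
      (fun i hi => (hm i hi).2.1) ?_ hmd ?_, fun y => ?_⟩
    · intro i hi j hj hij y h1 h2
      rcases (hl2 i hi y).1 h1 with ⟨b1, b2⟩ | b1 <;> rcases (hl2 j hj y).1 h2 with ⟨c1, c2⟩ | c1
      · exact hij (hinj i hi j hj (b1.symm.trans c1))
      · exact disjoint_left.1 d1 (hR' b2) (hU j hj y c1)
      · exact disjoint_left.1 d1 (hR' c2) (hU i hi y b1)
      · exact hij (hd' i hi j hj y b1 c1)
    · intro i hi j hj y h1 h2
      rcases (hl2 i hi y).1 h1 with ⟨b1, b2⟩ | b1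
      · exact disjoint_left.1 d4 (hR' b2) ((hm j hj).2.2.2 y h2)
      · exact disjoint_left.1 d14 (hU i hi y b1) ((hm j hj).2.2.2 y h2)
    · rw [List.mem_toFinset, mem_cat, mem_cat]
      constructor
      · rintro (⟨i, hi, h1⟩ | h1)
        · rcases (hl2 i hi y).1 h1 with ⟨b1, b2⟩ | b1
          · exact Or.inr b2
          · exact Or.inl (Or.inl ⟨i, hi, b1⟩)
        · exact Or.inl (Or.inr h1)
      · rintro ((⟨i, hi, h1⟩ | h1) | h1)
        · exact Or.inl ⟨i, hi, (hl2 i hi y).2 (Or.inr h1)⟩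
        · exact Or.inr h1
        · obtain ⟨i, hi, rfl⟩ := hsurj y (hR' h1)
          exact Or.inl ⟨i, hi, (hl2 i hi _).2 (Or.inl ⟨rfl, h1⟩)⟩

theorem exists_absorber [Nonempty V] (hs : ∀ v a b, bad v a b → bad v b a)
    (hn : ∀ v, ∃ a, G.Adj v a) {R U1 U2 U3 U4 : Finset V} {t k : ℕ}
    (h1 : Conn G bad U1 t k) (h2 : Conn G bad U2 t k) (h3 : Conn G bad U3 t k)
    (h4 : Conn G bad U4 t k) (hk : 1 ≤ k) (hR : R.card * k ≤ t) (hne : R.Nonempty)
    (d1 : Disjoint R U1) (d2 : Disjoint R U2) (d3 : Disjoint R U3) (d4 : Disjoint R U4)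
    (d12 : Disjoint U1 U2) (d13 : Disjoint U1 U3) (d14 : Disjoint U1 U4) (d23 : Disjoint U2 U3)
    (d24 : Disjoint U2 U4) (d34 : Disjoint U3 U4) :
    ∃ A ⊆ U1 ∪ U2 ∪ U3 ∪ U4, ∃ S E, Absorber G bad R A S E := by
  have hR' : R.card ≤ t := le_trans (Nat.le_mul_of_pos_right _ hk) hR
  obtain ⟨x, hx, hinj⟩ := cycles h1 h2 hn hk hR' d1 d2 d12
  obtain ⟨S, E, P0, P1, a1, a2⟩ := absorbers hs h3 hk hR (disjoint_union_right.2 ⟨d1, d2⟩) d3
    (disjoint_union_left.2 ⟨d13, d23⟩) x hx hinj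
  exact chain h4 hR' hne (by simp only [disjoint_union_right]; tauto) d4
    (by simp only [disjoint_union_left]; tauto) S E P0 P1 a1 a2

variable (G bad) in
/-- A compatible Hamilton cycle, as a list. -/
def HamList : Prop :=
  ∃ x y r, CW G bad ((x :: y :: r) ++ [x, y]) ∧ (x :: y :: r).Nodup ∧ ∀ v, v ∈ x :: y :: r

variable (G bad) in
/-- A cover of `U` by `s` disjoint compatible paths. -/
def Cover (U : Finset V) (s : ℕ) : Prop :=
  ∃ l : ℕ → List V, (∀ i < s, CW G bad (l i) ∧ l i ≠ [] ∧ (l i).Nodup) ∧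
    (∀ i < s, ∀ j < s, i ≠ j → List.Disjoint (l i) (l j)) ∧ ∀ y, y ∈ U ↔ ∃ i < s, y ∈ l i

theorem join [Nonempty V] (hn : ∀ v, ∃ a, G.Adj v a) {R A R1 R2 U : Finset V} {S E : Term V}
    {t k s : ℕ} (hA : Absorber G bad R A S E) (dA : Disjoint A R) (h1 : Conn G bad R1 t k)
    (h2 : Conn G bad R2 t k) (hk : 1 ≤ k) (s1 : R1 ⊆ R) (s2 : R2 ⊆ R) (d12 : Disjoint R1 R2)
    (hU : ∀ y, y ∈ U ↔ y ∉ A ∧ y ∉ R) (hC : Cover G bad U s) (hst : s + 1 ≤ t) :
    HamList G bad := by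
  obtain ⟨l, hl, hld, hlU⟩ := hC
  have hlU' : ∀ i < s, ∀ y ∈ l i, y ∉ A ∧ y ∉ R := fun i hi y hy =>
    (hU y).1 ((hlU y).2 ⟨i, hi, hy⟩)
  obtain ⟨m1, hm1, hd1⟩ := extend h1 hn l (range s) (by rw [card_range]; omega)
    (fun i hi => ⟨(hl i (mem_range.1 hi)).1, (hl i (mem_range.1 hi)).2.1,
      fun y hy h => (hlU' i (mem_range.1 hi) y hy).2 (s1 h)⟩)
    (fun i hi j hj => hld i (mem_range.1 hi) j (mem_range.1 hj))
  simp only [mem_range] at hm1 hd1
  have hlen : ∀ i < s, 2 ≤ (l i ++ m1 i).length := by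
    intro i hi
    have := List.length_pos_iff.2 (hl i hi).2.1
    rw [List.length_append, (hm1 i hi).2.2.1]
    omega
  choose! S1 hS1 using fun i hi => starts_term (hm1 i hi).1 (hlen i hi)
  choose! E1 hE1 using fun i hi => ends_term (hm1 i hi).1 (hlen i hi)
  have hq : ∀ i < s, ∀ y ∈ l i ++ m1 i, y ∉ A ∧ y ∉ R2 := by
    intro i hi y hy
    rcases List.mem_append.1 hy with h | h
    · exact ⟨(hlU' i hi y h).1, fun h3 => (hlU' i hi y h).2 (s2 h3)⟩
    · exact ⟨fun h3 => disjoint_left.1 dA h3 (s1 ((hm1 i hi).2.2.2 y h)),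
        disjoint_left.1 d12 ((hm1 i hi).2.2.2 y h)⟩
  have hqd : ∀ i < s, ∀ j < s, ∀ y ∈ l i ++ m1 i, y ∈ l j ++ m1 j → i = j := by
    intro i hi j hj y h3 h4
    by_contra hij
    rcases List.mem_append.1 h3 with h3 | h3 <;> rcases List.mem_append.1 h4 with h4 | h4
    · exact hld i hi j hj hij h3 h4
    · exact (hlU' i hi y h3).2 (s1 ((hm1 j hj).2.2.2 y h4))
    · exact (hlU' j hj y h4).2 (s1 ((hm1 i hi).2.2.2 y h3))
    · exact hd1 i hi j hj hij h3 h4
  set S2 : ℕ → Term V := fun i => if i = 0 ∨ i = s + 1 then S else S1 (i - 1) with hS2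
  set E2 : ℕ → Term V := fun i => if i = 0 then E else E1 (i - 1) with hE2
  have hS3 : ∀ i, S2 (i + 1) = if i = s then S else S1 i := fun i => by simp [hS2]
  obtain ⟨b1, b2, b3, b4, b5⟩ := hA
  have hA2 : ∀ y ∈ A, y ∉ R2 := fun y hy h => disjoint_left.1 dA hy (s2 h)
  obtain ⟨m2, hm2, hd2⟩ := h2 ℕ E2 (fun i => S2 (i + 1)) (range (s + 1))
    (fun i hi j hj e => by
      simp only [coe_range, Set.mem_Iio, hE2] at hi hj e
      split_ifs at e with c1 c2 c2
      · omega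
      · exact absurd (e ▸ b4) (hq (j - 1) (by omega) _ (hE1 (j - 1) (by omega)).2.2).1
      · exact absurd (e ▸ b4) (hq (i - 1) (by omega) _ (hE1 (i - 1) (by omega)).2.2).1
      · have := hqd (i - 1) (by omega) (j - 1) (by omega) _ (hE1 (i - 1) (by omega)).2.2
          (e ▸ (hE1 (j - 1) (by omega)).2.2)
        omega)
    (fun i hi j hj e => by
      simp only [coe_range, Set.mem_Iio, hS3] at hi hj e
      split_ifs at e with c1 c2 c2
      · omega
      · exact absurd (e ▸ b3) (hq j (by omega) _ (hS1 j (by omega)).2.2).1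
      · exact absurd (e ▸ b3) (hq i (by omega) _ (hS1 i (by omega)).2.2).1
      · exact hqd i (by omega) j (by omega) _ (hS1 i (by omega)).2.2
          (e ▸ (hS1 j (by omega)).2.2))
    (fun i hi => by
      rw [mem_range] at hi
      simp only [hS3, hE2]
      constructor
      · split_ifs with c
        · exact b2
        · exact (hE1 (i - 1) (by omega)).1
      · split_ifs with c
        · exact b1
        · exact (hS1 i (by omega)).1)
    (fun i hi => by
      rw [mem_range] at hi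
      simp only [hS3, hE2]
      constructor
      · split_ifs with c
        · exact hA2 _ b4
        · exact (hq (i - 1) (by omega) _ (hE1 (i - 1) (by omega)).2.2).2
      · split_ifs with c
        · exact hA2 _ b3
        · exact (hq i (by omega) _ (hS1 i (by omega)).2.2).2)
    (by rw [card_range]; omega)
  simp only [mem_range] at hm2 hd2
  obtain ⟨l0, c1, c2, c3, c4, c5⟩ := b5 (R.filter fun y => (∀ i < s, y ∉ m1 i) ∧
    ∀ i < s + 1, y ∉ m2 i) (filter_subset _ _)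
  simp only [mem_filter] at c5
  set L : ℕ → List V := fun i => if i = 0 then l0 else l (i - 1) ++ m1 (i - 1) with hL
  have hL0 : L 0 = l0 := rfl
  have hLs : ∀ i, L (i + 1) = l i ++ m1 i := fun i => by simp [hL]
  obtain ⟨a1, a2, a3⟩ := cat_cw (G := G) (bad := bad) (l := L) (m := m2) (S := S2) (E := E2) s
    (fun i hi => by
      rcases i with _ | i
      · exact ⟨c1, c2, c3⟩
      · have e1 : S2 (i + 1) = S1 i := by simp only [hS2]; rw [if_neg (by omega)]; rfl
        have e2 : E2 (i + 1) = E1 i := by simp only [hE2]; rw [if_neg (by omega)]; rfl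
        rw [hLs, e1, e2]
        exact ⟨(hm1 i (by omega)).1, (hS1 i (by omega)).2.1, (hE1 i (by omega)).2.1⟩)
    (fun i hi => (hm2 i (by omega)).1)
  have e0 : S2 0 = S := by simp [hS2]
  have e1 : S2 (s + 1) = S := by simp [hS2]
  rw [e0] at a2
  have hLm : ∀ i ≤ s, ∀ j ≤ s, List.Disjoint (L i) (m2 j) := by
    intro i hi j hj y h3 h4
    rcases i with _ | i
    · rcases (c5 y).1 h3 with h5 | h5
      · exact hA2 y h5 ((hm2 j (by omega)).2.2.2 y h4)
      · exact h5.2.2 j (by omega) h4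
    · rw [hLs] at h3
      exact (hq i (by omega) y h3).2 ((hm2 j (by omega)).2.2.2 y h4)
  have hL0d : ∀ i < s, List.Disjoint l0 (l i ++ m1 i) := by
    intro i hi y h3 h4
    rcases (c5 y).1 h3 with h5 | h5
    · exact (hq i hi y h4).1 h5
    · rcases List.mem_append.1 h4 with h6 | h6
      · exact (hlU' i hi y h6).2 h5.1
      · exact h5.2.1 i hi h6
  have hnd : (cat L m2 s ++ m2 s).Nodup := by
    refine List.Nodup.append (nodup_cat s (fun i hi => ?_) (fun i hi => (hm2 i (by omega)).2.1)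
      (fun i hi j hj hij => ?_) (fun i hi j hj => hd2 i (by omega) j (by omega))
      (fun i hi j hj => hLm i hi j (by omega))) (hm2 s (by omega)).2.1 ?_
    · rcases i with _ | i
      · exact c4
      · rw [hLs]
        exact List.Nodup.append (hl i (by omega)).2.2 (hm1 i (by omega)).2.1 fun y h3 h4 =>
          (hlU' i (by omega) y h3).2 (s1 ((hm1 i (by omega)).2.2.2 y h4))
    · rcases i with _ | i <;> rcases j with _ | j
      · exact absurd rfl hij
      · rw [hLs]; exact hL0d j (by omega)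
      · rw [hLs]; exact (hL0d i (by omega)).symm
      · rw [hLs, hLs]
        intro y h3 h4
        exact hij (by rw [hqd i (by omega) j (by omega) y h3 h4])
    · intro y h3 h4
      rcases (mem_cat s y).1 h3 with ⟨i, hi, h5⟩ | ⟨i, hi, h5⟩
      · exact hLm i hi s le_rfl h5 h4
      · exact hd2 i (by omega) s (by omega) (by omega) h5 h4
  have hall : ∀ y, y ∈ cat L m2 s ++ m2 s := by
    intro y
    rw [List.mem_append, mem_cat]
    by_cases h3 : y ∈ l0
    · exact Or.inl (Or.inl ⟨0, by omega, h3⟩)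
    · rw [c5] at h3
      push Not at h3
      by_cases h4 : y ∈ R
      · by_cases h5 : ∀ i < s, y ∉ m1 i
        · obtain ⟨i, hi, h6⟩ := h3.2 h4 h5
          rcases Nat.lt_or_ge i s with h7 | h7
          · exact Or.inl (Or.inr ⟨i, h7, h6⟩)
          · obtain rfl : i = s := by omega
            exact Or.inr h6
        · push Not at h5
          obtain ⟨i, hi, h6⟩ := h5
          exact Or.inl (Or.inl ⟨i + 1, by omega, by rw [hLs]; exact List.mem_append_right _ h6⟩)
      · obtain ⟨i, hi, h6⟩ := (hlU y).1 ((hU y).2 ⟨h3.1, h4⟩)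
        exact Or.inl (Or.inl ⟨i + 1, by omega, by rw [hLs]; exact List.mem_append_left _ h6⟩)
  have hlk := (hm2 s (by omega)).1
  rw [e1] at hlk
  obtain ⟨c, r, hc, e⟩ := a2
  have a4 : CW G bad (S.x :: c :: r) := e ▸ a1
  have a5 := glue a1 a3 hlk (l' := [S.x, c]) a4.adj ⟨c, [], hc, rfl⟩
  rw [e] at a5 hnd hall
  exact ⟨S.x, c, r ++ m2 s, a5, hnd, hall⟩

end Pool.Agent.MP_d6d719_co

end MrgPart2

-- ======== part 3: formerly Pool.Agent.MP_d6d719_co.Forest
section MrgPart3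

set_option autoImplicit false

open Finset
open scoped Classical

namespace Pool.Agent.MP_d6d719_co

variable {V : Type} {G : SimpleGraph V} {bad : V → V → V → Prop}

theorem cw_of_chain {arc : V → V → Prop} (h1 : ∀ u v, arc u v → G.Adj u v)
    (h2 : ∀ u v w, arc u v → arc v w → ¬ bad v u w) {l : List V} (h : l.IsChain arc) :
    CW G bad l := by
  induction l with
  | nil => trivial
  | cons x l ih =>
    match l, h, ih with
    | [], _, _ => trivial
    | [y], h, _ => exact h1 _ _ (List.isChain_cons_cons.1 h).1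
    | y :: z :: t, h, ih =>
      obtain ⟨a1, a2⟩ := List.isChain_cons_cons.1 h
      exact ⟨h1 _ _ a1, h2 _ _ _ a1 (List.isChain_cons_cons.1 a2).1, ih a2⟩

theorem forest_aux {arc : V → V → Prop} (lev : V → ℕ) (hl : ∀ u v, arc u v → lev u < lev v)
    (hf : ∀ u v w, arc u v → arc u w → v = w) (U : Finset V) :
    ∃ l : ℕ → List V, (∀ i < (U.filter fun v => ¬ ∃ u ∈ U, arc u v).card,
      (l i).IsChain arc ∧ l i ≠ [] ∧ (l i).Nodup) ∧
      (∀ i < (U.filter fun v => ¬ ∃ u ∈ U, arc u v).card,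
        ∀ j < (U.filter fun v => ¬ ∃ u ∈ U, arc u v).card, i ≠ j → List.Disjoint (l i) (l j)) ∧
      ∀ y, y ∈ U ↔ ∃ i < (U.filter fun v => ¬ ∃ u ∈ U, arc u v).card, y ∈ l i := by
  induction U using Finset.induction_on_max_value lev with
  | empty => exact ⟨fun _ => [], by simp, by simp, by simp⟩
  | insert v U hv hmax ih =>
    obtain ⟨l, a1, a2, a3⟩ := ih
    set s := (U.filter fun v => ¬ ∃ u ∈ U, arc u v).card with hs
    have e1 : ∀ y ∈ U, (∃ u ∈ insert v U, arc u y) ↔ ∃ u ∈ U, arc u y := by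
      intro y hy
      constructor
      · rintro ⟨u, hu, h⟩
        rcases mem_insert.1 hu with rfl | hu
        · exact absurd (hl _ _ h) (not_lt.2 (hmax y hy))
        · exact ⟨u, hu, h⟩
      · rintro ⟨u, hu, h⟩
        exact ⟨u, mem_insert_of_mem hu, h⟩
    have e2 : (U.filter fun y => ¬ ∃ u ∈ insert v U, arc u y) =
        U.filter fun y => ¬ ∃ u ∈ U, arc u y := filter_congr fun y hy => by rw [e1 y hy]
    have hvl : ∀ i < s, v ∉ l i := fun i hi h => hv ((a3 v).2 ⟨i, hi, h⟩)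
    by_cases hc : ∃ u ∈ insert v U, arc u v
    · rw [filter_insert, if_neg (not_not.2 hc), e2, ← hs]
      obtain ⟨u, hu, huv⟩ := hc
      have hu' : u ∈ U := by
        rcases mem_insert.1 hu with rfl | hu
        · exact absurd (hl _ _ huv) (lt_irrefl _)
        · exact hu
      obtain ⟨i, hi, hui⟩ := (a3 u).1 hu'
      obtain ⟨r, t, e⟩ := List.append_of_mem hui
      have ht : t = [] := by
        rcases t with _ | ⟨z, t⟩
        · rfl
        · have b1 := (a1 i hi).1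
          rw [e] at b1
          have b2 := (List.isChain_cons_cons.1 (List.isChain_append.1 b1).2.1).1
          have b3 := hf _ _ _ huv b2
          exact absurd (by rw [e, b3]; simp) (hvl i hi)
      subst ht
      have hmem : ∀ j < s, ∀ y, y ∈ Function.update l i (l i ++ [v]) j ↔
          y ∈ l j ∨ (j = i ∧ y = v) := by
        intro j hj y
        by_cases hji : j = i
        · subst hji; simp
        · simp [hji]
      refine ⟨Function.update l i (l i ++ [v]), fun j hj => ?_, fun j hj k hk hjk y h1 h2 => ?_,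
        fun y => ?_⟩
      · by_cases hji : j = i
        · subst hji
          rw [Function.update_self]
          refine ⟨?_, by simp, List.Nodup.append (a1 j hj).2.2 (List.nodup_singleton _)
            (by simpa using hvl j hj)⟩
          have b1 := (a1 j hj).1
          rw [e] at b1 ⊢
          rw [List.isChain_append]
          exact ⟨b1, by simp, by simpa using huv⟩
        · rw [Function.update_of_ne hji]
          exact a1 j hj
      · rcases (hmem j hj y).1 h1 with h1 | h1 <;> rcases (hmem k hk y).1 h2 with h2 | h2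
        · exact a2 j hj k hk hjk h1 h2
        · exact hvl j hj (h2.2 ▸ h1)
        · exact hvl k hk (h1.2 ▸ h2)
        · exact hjk (h1.1.trans h2.1.symm)
      · rw [mem_insert, a3]
        constructor
        · rintro (h | ⟨j, hj, h⟩)
          · exact ⟨i, hi, (hmem i hi y).2 (Or.inr ⟨rfl, h⟩)⟩
          · exact ⟨j, hj, (hmem j hj y).2 (Or.inl h)⟩
        · rintro ⟨j, hj, h⟩
          rcases (hmem j hj y).1 h with h | h
          · exact Or.inr ⟨j, hj, h⟩
          · exact Or.inl h.2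
    · rw [filter_insert, if_pos hc, e2, card_insert_of_notMem (fun h => hv (mem_filter.1 h).1),
        ← hs]
      have hmem : ∀ j < s + 1, ∀ y, y ∈ Function.update l s [v] j ↔
          (j < s ∧ y ∈ l j) ∨ (j = s ∧ y = v) := by
        intro j hj y
        by_cases hji : j = s
        · subst hji; simp
        · have : j < s := by omega
          simp [hji, this]
      refine ⟨Function.update l s [v], fun j hj => ?_, fun j hj k hk hjk y h1 h2 => ?_,
        fun y => ?_⟩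
      · by_cases hji : j = s
        · subst hji
          rw [Function.update_self]
          simp
        · rw [Function.update_of_ne hji]
          exact a1 j (by omega)
      · rcases (hmem j hj y).1 h1 with h1 | h1 <;> rcases (hmem k hk y).1 h2 with h2 | h2
        · exact a2 j h1.1 k h2.1 hjk h1.2 h2.2
        · exact hvl j h1.1 (h2.2 ▸ h1.2)
        · exact hvl k h2.1 (h1.2 ▸ h2.2)
        · exact hjk (h1.1.trans h2.1.symm)
      · rw [mem_insert, a3]
        constructor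
        · rintro (h | ⟨j, hj, h⟩)
          · exact ⟨s, by omega, (hmem s (by omega) y).2 (Or.inr ⟨rfl, h⟩)⟩
          · exact ⟨j, by omega, (hmem j (by omega) y).2 (Or.inl ⟨hj, h⟩)⟩
        · rintro ⟨j, hj, h⟩
          rcases (hmem j hj y).1 h with h | h
          · exact Or.inr ⟨j, h.1, h.2⟩
          · exact Or.inl h.2

theorem forest {arc : V → V → Prop} (lev : V → ℕ) (hl : ∀ u v, arc u v → lev u < lev v)
    (hf : ∀ u v w, arc u v → arc u w → v = w) (h1 : ∀ u v, arc u v → G.Adj u v)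
    (h2 : ∀ u v w, arc u v → arc v w → ¬ bad v u w) (U : Finset V) :
    Cover G bad U (U.filter fun v => ¬ ∃ u ∈ U, arc u v).card := by
  obtain ⟨l, a1, a2, a3⟩ := forest_aux lev hl hf U
  exact ⟨l, fun i hi => ⟨cw_of_chain h1 h2 (a1 i hi).1, (a1 i hi).2⟩, a2, a3⟩

end Pool.Agent.MP_d6d719_co

end MrgPart3

-- ======== part 4: formerly Pool.Agent.MP_d6d719_co.Kernel
section MrgPart4

set_option autoImplicit false

open Finset
open scoped Classical

namespace Pool.Agent.MP_d6d719_co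

variable {α β : Type*}

/-- Feasible integer kernels. -/
structure Feas (X : Finset α) (Y : Finset β) (B : α → β → Prop) (a b C : ℤ)
    (ρ : α → β → ℤ) : Prop where
  nn : ∀ x y, 0 ≤ ρ x y
  le : ∀ x y, ρ x y ≤ C
  supp : ∀ x y, ρ x y ≠ 0 → ¬ B x y
  row : ∀ x ∈ X, ∑ y ∈ Y, ρ x y ≤ b
  col : ∀ y ∈ Y, ∑ x ∈ X, ρ x y ≤ a

/-- Unit matrices. -/
noncomputable def un (p : α) (q : β) : α → β → ℤ := fun x y => if x = p ∧ y = q then 1 else 0

theorem un_row {Y : Finset β} (p : α) {q : β} (hq : q ∈ Y) (x : α) :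
    ∑ y ∈ Y, un p q x y = if x = p then 1 else 0 := by
  unfold un
  by_cases h : x = p <;> simp [h, hq]

theorem un_col {X : Finset α} {p : α} (hp : p ∈ X) (q : β) (y : β) :
    ∑ x ∈ X, un p q x y = if y = q then 1 else 0 := by
  unfold un
  by_cases h : y = q <;> simp [h, hp]

theorem un_tot {X : Finset α} {Y : Finset β} {p : α} {q : β} (hp : p ∈ X) (hq : q ∈ Y) :
    ∑ x ∈ X, ∑ y ∈ Y, un p q x y = 1 := by
  simp [un_row p hq, hp]

variable {X : Finset α} {Y : Finset β} {B : α → β → Prop} {a b C : ℤ} {ρ : α → β → ℤ}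

theorem Feas.aug1 (h : Feas X Y B a b C ρ) {p : α} {q : β} (hp : p ∈ X) (hq : q ∈ Y)
    (h1 : ∑ y ∈ Y, ρ p y < b) (h2 : ∑ x ∈ X, ρ x q < a) (h3 : ¬ B p q) (h4 : ρ p q < C) :
    Feas X Y B a b C (fun x y => ρ x y + un p q x y) := by
  refine ⟨fun x y => ?_, fun x y => ?_, fun x y => ?_, fun x hx => ?_, fun y hy => ?_⟩
  · have := h.nn x y
    unfold un; split_ifs <;> omega
  · have := h.le x y
    unfold un; split_ifs with c
    · rw [c.1, c.2]; omega
    · omega
  · unfold un; split_ifs with c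
    · rw [c.1, c.2]; exact fun _ => h3
    · rw [add_zero]; exact h.supp x y
  · rw [sum_add_distrib, un_row p hq]
    have := h.row x hx
    split_ifs with c
    · rw [c]; omega
    · omega
  · rw [sum_add_distrib, un_col hp]
    have := h.col y hy
    split_ifs with c
    · rw [c]; omega
    · omega

theorem Feas.aug3 (h : Feas X Y B a b C ρ) {p p' : α} {q q' : β} (hp : p ∈ X) (hq : q ∈ Y)
    (hp' : p' ∈ X) (hq' : q' ∈ Y) (hpp : p ≠ p') (hqq : q ≠ q')
    (h1 : ∑ y ∈ Y, ρ p y < b) (h2 : ∑ x ∈ X, ρ x q < a) (h3 : ¬ B p q') (h4 : ρ p q' < C)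
    (h5 : ¬ B p' q) (h6 : ρ p' q < C) (h7 : ρ p' q' ≠ 0) :
    Feas X Y B a b C (fun x y => ρ x y + un p q' x y - un p' q' x y + un p' q x y) := by
  have h8 := h.nn p' q'
  refine ⟨fun x y => ?_, fun x y => ?_, fun x y => ?_, fun x hx => ?_, fun y hy => ?_⟩
  · have := h.nn x y
    by_cases c2 : x = p' ∧ y = q'
    · obtain ⟨rfl, rfl⟩ := c2
      unfold un
      split_ifs <;> omega
    · simp only [un, if_neg c2]
      split_ifs <;> omega
  · have := h.le x y
    by_cases c1 : x = p ∧ y = q'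
    · obtain ⟨rfl, rfl⟩ := c1
      simp only [un, hpp, false_and, if_false]
      split_ifs <;> omega
    · by_cases c3 : x = p' ∧ y = q
      · obtain ⟨rfl, rfl⟩ := c3
        simp only [un, if_neg c1]
        split_ifs <;> omega
      · simp only [un, if_neg c1, if_neg c3]
        split_ifs <;> omega
  · by_cases c1 : x = p ∧ y = q'
    · rw [c1.1, c1.2]; exact fun _ => h3
    · by_cases c3 : x = p' ∧ y = q
      · rw [c3.1, c3.2]; exact fun _ => h5
      · by_cases c2 : x = p' ∧ y = q'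
        · rw [c2.1, c2.2]; exact fun _ => h.supp _ _ h7
        · simp only [un, if_neg c1, if_neg c2, if_neg c3, add_zero, sub_zero]
          exact h.supp x y
  · rw [sum_add_distrib, sum_sub_distrib, sum_add_distrib, un_row p hq', un_row p' hq',
      un_row p' hq]
    have := h.row x hx
    by_cases c : x = p
    · rw [if_pos c, c]; omega
    · rw [if_neg c]; omega
  · rw [sum_add_distrib, sum_sub_distrib, sum_add_distrib, un_col hp, un_col hp', un_col hp']
    have := h.col y hy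
    by_cases c : y = q
    · rw [if_pos c, c]; omega
    · rw [if_neg c]; omega

theorem card_free {Y : Finset β} {P : β → Prop} {f : β → ℤ} {b C : ℤ} (hC : 0 < C)
    (h0 : ∀ y, 0 ≤ f y) (h1 : ∑ y ∈ Y, f y ≤ b)
    (h2 : 2 * C * ((Y.filter P).card : ℤ) + 2 * b ≤ C * b) :
    2 * (Y.card : ℤ) ≤ 2 * (Y.filter fun y => ¬ P y ∧ f y < C).card + b := by
  have h3 : Y ⊆ Y.filter P ∪ Y.filter (fun y => C ≤ f y) ∪ Y.filter fun y => ¬ P y ∧ f y < C := by
    intro y hy
    simp only [mem_union, mem_filter, hy, true_and]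
    by_cases hP : P y
    · exact Or.inl (Or.inl hP)
    · rcases lt_or_ge (f y) C with h | h
      · exact Or.inr ⟨hP, h⟩
      · exact Or.inl (Or.inr h)
  have h4 := (card_le_card h3).trans ((card_union_le _ _).trans
    (Nat.add_le_add_right (card_union_le _ _) _))
  have h5 : (Y.card : ℤ) ≤ (Y.filter P).card + (Y.filter fun y => C ≤ f y).card +
      (Y.filter fun y => ¬ P y ∧ f y < C).card := by exact_mod_cast h4
  have h6 : ((Y.filter fun y => C ≤ f y).card : ℤ) * C ≤ b := by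
    have := sum_le_sum (s := Y.filter fun y => C ≤ f y) (f := fun _ => C) (g := f)
      fun y hy => (mem_filter.1 hy).2
    rw [sum_const, nsmul_eq_mul] at this
    exact this.trans ((sum_le_sum_of_subset_of_nonneg (filter_subset _ _)
      fun y _ _ => h0 y).trans h1)
  by_contra hc
  push Not at hc
  nlinarith

theorem Feas.step (h : Feas X Y B a b C ρ) (hC : 0 < C) (ha : 0 ≤ a) (hb : 0 ≤ b)
    (hX : (X.card : ℤ) ≤ a) (hY : (Y.card : ℤ) ≤ b)
    (h1 : ∀ x ∈ X, 2 * C * ((Y.filter (B x ·)).card : ℤ) + 2 * b ≤ C * b)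
    (h2 : ∀ y ∈ Y, 2 * C * ((X.filter (B · y)).card : ℤ) + 2 * a ≤ C * a)
    (hlt : ∑ x ∈ X, ∑ y ∈ Y, ρ x y + a * b < b * X.card + a * Y.card) :
    ∃ ρ', Feas X Y B a b C ρ' ∧ ∑ x ∈ X, ∑ y ∈ Y, ρ' x y = ∑ x ∈ X, ∑ y ∈ Y, ρ x y + 1 := by
  obtain ⟨p, hp, hp2⟩ : ∃ p ∈ X, ∑ y ∈ Y, ρ p y < b := by
    by_contra hc
    push Not at hc
    have := sum_le_sum hc
    rw [sum_const, nsmul_eq_mul] at this
    nlinarith
  obtain ⟨q, hq, hq2⟩ : ∃ q ∈ Y, ∑ x ∈ X, ρ x q < a := by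
    by_contra hc
    push Not at hc
    have := sum_le_sum hc
    rw [sum_const, nsmul_eq_mul, sum_comm] at this
    nlinarith
  have key : ∀ p ∈ X, ∀ q ∈ Y, ∑ y ∈ Y, ρ p y < b → ∑ x ∈ X, ρ x q < a → ¬ B p q → ρ p q < C →
      ∃ ρ', Feas X Y B a b C ρ' ∧ ∑ x ∈ X, ∑ y ∈ Y, ρ' x y = ∑ x ∈ X, ∑ y ∈ Y, ρ x y + 1 :=
    fun p hp q hq a1 a2 a3 a4 => ⟨_, h.aug1 hp hq a1 a2 a3 a4, by
      simp only [sum_add_distrib, un_tot hp hq]⟩
  set T := Y.filter fun y => ¬ B p y ∧ ρ p y < C with hT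
  set S := X.filter fun x => ¬ B x q ∧ ρ x q < C with hS
  by_cases c1 : ∃ y ∈ T, ∑ x ∈ X, ρ x y < a
  · obtain ⟨y, hy, hy2⟩ := c1
    obtain ⟨a1, a2, a3⟩ := mem_filter.1 hy
    exact key p hp y a1 hp2 hy2 a2 a3
  by_cases c2 : ∃ x ∈ S, ∑ y ∈ Y, ρ x y < b
  · obtain ⟨x, hx, hx2⟩ := c2
    obtain ⟨a1, a2, a3⟩ := mem_filter.1 hx
    exact key x a1 q hq hx2 hq2 a2 a3
  push Not at c1 c2
  by_cases c3 : ∃ x ∈ S, ∃ y ∈ T, ρ x y ≠ 0
  · obtain ⟨x, hx, y, hy, h3⟩ := c3
    obtain ⟨a1, a2, a3⟩ := mem_filter.1 hy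
    obtain ⟨b1, b2, b3⟩ := mem_filter.1 hx
    refine ⟨_, h.aug3 hp hq b1 a1 (fun e => ?_) (fun e => ?_) hp2 hq2 a2 a3 b2 b3 h3, ?_⟩
    · have := c2 x hx
      rw [← e] at this
      omega
    · have := c1 y hy
      rw [← e] at this
      omega
    · simp only [sum_add_distrib, sum_sub_distrib, un_tot hp a1, un_tot b1 a1, un_tot b1 hq]
      ring
  push Not at c3
  exfalso
  have d1 := card_free hC (h.nn p) hp2.le (h1 p hp)
  have d2 := card_free (f := fun x => ρ x q) hC (fun x => h.nn x q) hq2.le (h2 q hq)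
  have d3 : ∑ x ∈ S, ∑ y ∈ Y, ρ x y + ∑ x ∈ X \ S, ∑ y ∈ Y, ρ x y = ∑ x ∈ X, ∑ y ∈ Y, ρ x y := by
    rw [add_comm]; exact sum_sdiff (filter_subset _ _)
  have d4 : (S.card : ℤ) * b ≤ ∑ x ∈ S, ∑ y ∈ Y, ρ x y := by
    have := sum_le_sum c2
    rwa [sum_const, nsmul_eq_mul] at this
  have d5 : (T.card : ℤ) * a ≤ ∑ x ∈ X \ S, ∑ y ∈ Y, ρ x y := by
    have e1 := sum_le_sum c1
    rw [sum_const, nsmul_eq_mul, sum_comm, ← sum_sdiff (filter_subset _ _ : S ⊆ X)] at e1
    have e2 : ∑ x ∈ S, ∑ y ∈ T, ρ x y = 0 :=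
      sum_eq_zero fun x hx => sum_eq_zero fun y hy => c3 x hx y hy
    rw [e2, add_zero] at e1
    exact e1.trans (sum_le_sum fun x _ =>
      sum_le_sum_of_subset_of_nonneg (filter_subset _ _) fun y _ _ => h.nn x y)
  nlinarith

theorem kernel (hC : 0 < C) (ha : 0 ≤ a) (hb : 0 ≤ b)
    (hX : (X.card : ℤ) ≤ a) (hY : (Y.card : ℤ) ≤ b)
    (h1 : ∀ x ∈ X, 2 * C * ((Y.filter (B x ·)).card : ℤ) + 2 * b ≤ C * b)
    (h2 : ∀ y ∈ Y, 2 * C * ((X.filter (B · y)).card : ℤ) + 2 * a ≤ C * a) :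
    ∃ ρ, Feas X Y B a b C ρ ∧ b * X.card + a * Y.card ≤ ∑ x ∈ X, ∑ y ∈ Y, ρ x y + a * b := by
  have key : ∀ k : ℕ, ∀ ρ, Feas X Y B a b C ρ →
      b * X.card + a * Y.card ≤ ∑ x ∈ X, ∑ y ∈ Y, ρ x y + a * b + k →
      ∃ ρ, Feas X Y B a b C ρ ∧ b * X.card + a * Y.card ≤ ∑ x ∈ X, ∑ y ∈ Y, ρ x y + a * b := by
    intro k
    induction k with
    | zero => exact fun ρ h3 h4 => ⟨ρ, h3, by simpa using h4⟩
    | succ k ih =>
      intro ρ h3 h4
      by_cases h5 : b * X.card + a * Y.card ≤ ∑ x ∈ X, ∑ y ∈ Y, ρ x y + a * b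
      · exact ⟨ρ, h3, h5⟩
      · obtain ⟨ρ', a1, a2⟩ := h3.step hC ha hb hX hY h1 h2 (not_le.1 h5)
        refine ih ρ' a1 ?_
        push_cast at h4
        linarith
  refine key (b * X.card + a * Y.card).toNat (fun _ _ => 0)
    ⟨fun _ _ => le_rfl, fun _ _ => hC.le, fun _ _ h => absurd rfl h, by simpa using fun _ _ => hb,
      by simpa using fun _ _ => ha⟩ ?_
  have := Int.self_le_toNat (b * X.card + a * Y.card)
  have := mul_nonneg ha hb
  simp only [sum_const_zero]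
  linarith

end Pool.Agent.MP_d6d719_co

end MrgPart4

-- ======== part 5: formerly Pool.Agent.MP_d6d719_co.Birk
section MrgPart5

set_option autoImplicit false

open Finset
open scoped Classical

namespace Pool.Agent.MP_d6d719_co

theorem subBirkhoff {V : Type*} [Fintype V] (M : V → V → ℝ) (h0 : ∀ v x, 0 ≤ M v x)
    (hr : ∀ v, ∑ x, M v x ≤ 1) (hc : ∀ x, ∑ v, M v x ≤ 1) :
    ∃ w : Equiv.Perm (V ⊕ V) → ℝ, (∀ σ, 0 ≤ w σ) ∧ ∑ σ, w σ = 1 ∧
      ∀ v x, ∑ σ, w σ * (if σ (Sum.inl v) = Sum.inl x then 1 else 0) = M v x := by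
  let N : Matrix (V ⊕ V) (V ⊕ V) ℝ := fun i j => match i, j with
    | Sum.inl v, Sum.inl x => M v x
    | Sum.inl v, Sum.inr x => if v = x then 1 - ∑ y, M v y else 0
    | Sum.inr v, Sum.inl x => if v = x then 1 - ∑ y, M y v else 0
    | Sum.inr v, Sum.inr x => M x v
  have hN : N ∈ doublyStochastic ℝ (V ⊕ V) := by
    rw [mem_doublyStochastic_iff_sum]
    refine ⟨?_, ?_, ?_⟩
    · rintro (v | v) (x | x)
      · exact h0 v x
      · simp only [N]; split_ifs
        · linarith [hr v]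
        · exact le_rfl
      · simp only [N]; split_ifs
        · linarith [hc v]
        · exact le_rfl
      · exact h0 x v
    · rintro (v | v) <;> simp [N, Fintype.sum_sum_type]
    · rintro (v | v) <;> simp [N, Fintype.sum_sum_type]
  obtain ⟨w, h1, h2, h3⟩ := exists_eq_sum_perm_of_mem_doublyStochastic hN
  refine ⟨w, h1, h2, fun v x => ?_⟩
  have := congrFun (congrFun h3 (Sum.inl v)) (Sum.inl x)
  simp only [Matrix.sum_apply, Matrix.smul_apply, smul_eq_mul, PEquiv.toMatrix_apply,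
    Equiv.toPEquiv_apply, Option.mem_def, Option.some.injEq] at this
  exact this

section prod

variable {ι Ω : Type*} [Fintype ι] [Fintype Ω] (w : ι → Ω → ℝ)

/-- Expectation under a finite product weight. -/
noncomputable def PE (f : (ι → Ω) → ℝ) : ℝ := ∑ σ : ι → Ω, (∏ j, w j (σ j)) * f σ

variable {w}

theorem PE_add (f g : (ι → Ω) → ℝ) : PE w (fun σ => f σ + g σ) = PE w f + PE w g := by
  simp [PE, mul_add, sum_add_distrib]

theorem PE_sub (f g : (ι → Ω) → ℝ) : PE w (fun σ => f σ - g σ) = PE w f - PE w g := by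
  simp [PE, mul_sub, sum_sub_distrib]

theorem PE_mul (c : ℝ) (f : (ι → Ω) → ℝ) : PE w (fun σ => c * f σ) = c * PE w f := by
  simp [PE, mul_sum, mul_left_comm]

theorem PE_sum {κ : Type*} (s : Finset κ) (f : κ → (ι → Ω) → ℝ) :
    PE w (fun σ => ∑ i ∈ s, f i σ) = ∑ i ∈ s, PE w (f i) := by
  simp only [PE, mul_sum]
  exact sum_comm

theorem PE_mono (h0 : ∀ j s, 0 ≤ w j s) {f g : (ι → Ω) → ℝ} (h : ∀ σ, f σ ≤ g σ) :
    PE w f ≤ PE w g :=
  sum_le_sum fun σ _ => mul_le_mul_of_nonneg_left (h σ) (prod_nonneg fun j _ => h0 j _)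

theorem PE_prod (g : ι → Ω → ℝ) :
    PE w (fun σ => ∏ j, g j (σ j)) = ∏ j, ∑ s, w j s * g j s := by
  unfold PE
  simp only [← prod_mul_distrib]
  rw [Finset.prod_univ_sum, Fintype.piFinset_univ]

theorem PE_const (h1 : ∀ j, ∑ s, w j s = 1) (c : ℝ) : PE w (fun _ => c) = c := by
  have := PE_prod (w := w) (fun _ _ => 1)
  simp only [prod_const_one, mul_one, h1] at this
  have h2 := PE_mul (w := w) c (fun _ => 1)
  simp only [mul_one] at h2
  rw [h2, this, mul_one]

theorem PE_indep (h1 : ∀ j, ∑ s, w j s = 1) (k : ι) (f : (ι → Ω) → ℝ) (g : Ω → ℝ)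
    (hf : ∀ σ s, f (Function.update σ k s) = f σ) :
    PE w (fun σ => f σ * g (σ k)) = PE w f * ∑ s, w k s * g s := by
  have key : ∀ g : Ω → ℝ, PE w (fun σ => f σ * g (σ k)) = (∑ s, w k s * g s) *
      ∑ τ : {j // j ≠ k} → Ω, (∏ j : {j // j ≠ k}, w j (τ j)) *
        (∑ s, w k s * f ((Equiv.funSplitAt k Ω).symm (s, τ))) := by
    intro g
    unfold PE
    rw [← (Equiv.funSplitAt k Ω).symm.sum_comp, Fintype.sum_prod_type, sum_mul]
    refine sum_congr rfl fun s _ => ?_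
    rw [mul_sum]
    refine sum_congr rfl fun τ _ => ?_
    have e1 : (Equiv.funSplitAt k Ω).symm (s, τ) k = s := by simp
    have e2 : ∀ j : {j // j ≠ k}, (Equiv.funSplitAt k Ω).symm (s, τ) j = τ j := fun j => by
      simp [j.2]
    have e3 : ∀ s', f ((Equiv.funSplitAt k Ω).symm (s', τ)) =
        f ((Equiv.funSplitAt k Ω).symm (s, τ)) := by
      intro s'
      rw [← hf _ s]
      congr 1
      funext j
      by_cases hj : j = k
      · subst hj; simp
      · simp [hj]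
    rw [Fintype.prod_eq_mul_prod_subtype_ne _ k]
    simp only [e1, e2, e3, ← sum_mul, h1]
    ring
  have h2 := key fun _ => 1
  simp only [mul_one, h1, one_mul] at h2
  rw [key, ← h2, mul_comm]

theorem PE_exists (h0 : ∀ j s, 0 ≤ w j s) (h1 : ∀ j, ∑ s, w j s = 1) (f : (ι → Ω) → ℝ) :
    ∃ σ, PE w f ≤ f σ := by
  by_contra hc
  push Not at hc
  have h2 := PE_const (w := w) h1 1
  obtain ⟨σ, hσ⟩ : ∃ σ : ι → Ω, 0 < ∏ j, w j (σ j) := by
    by_contra h3
    push Not at h3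
    have : PE w (fun _ => 1) ≤ 0 := sum_nonpos fun σ _ => by simpa using h3 σ
    linarith
  have h4 : PE w f < PE w (fun _ => PE w f) :=
    sum_lt_sum (fun σ _ => mul_le_mul_of_nonneg_left (hc σ).le (prod_nonneg fun j _ => h0 j _))
      ⟨σ, mem_univ _, mul_lt_mul_of_pos_left (hc σ) hσ⟩
  rw [PE_const h1] at h4
  exact lt_irrefl _ h4

end prod

end Pool.Agent.MP_d6d719_co

end MrgPart5

-- ======== part 6: formerly Pool.Agent.MP_d6d719_co.CoverAbs
section MrgPart6

set_option autoImplicit false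

open Finset
open scoped Classical

namespace Pool.Agent.MP_d6d719_co

variable {V : Type} [Fintype V] {G : SimpleGraph V} {bad : V → V → V → Prop}

theorem symBirk (par : V → Prop) (Z : V → V → ℝ) (hsym : ∀ v x, Z v x = Z x v)
    (h0 : ∀ v x, 0 ≤ Z v x) (hr : ∀ v, ∑ x, Z v x ≤ 1)
    (hpar : ∀ v x, Z v x ≠ 0 → (par v ↔ ¬ par x)) :
    ∃ (w : Equiv.Perm (V ⊕ V) → ℝ) (I : Equiv.Perm (V ⊕ V) → V → V → Prop),
      (∀ s, 0 ≤ w s) ∧ ∑ s, w s = 1 ∧ (∀ s v x, I s v x → I s x v) ∧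
      (∀ s v x y, I s v x → I s v y → x = y) ∧ (∀ s v x, I s v x → Z v x ≠ 0) ∧
      ∀ v x, ∑ s, w s * (if I s v x then 1 else 0) = Z v x := by
  obtain ⟨w, h1, h2, h3⟩ := subBirkhoff Z h0 hr (fun x => by simpa only [hsym _ x] using hr x)
  refine ⟨w, fun s v x => Z v x ≠ 0 ∧ ((par v ∧ s (Sum.inl v) = Sum.inl x) ∨
    (par x ∧ s (Sum.inl x) = Sum.inl v)), h1, h2, fun s v x h => ⟨hsym v x ▸ h.1, h.2.symm⟩,
    ?_, fun s v x h => h.1, fun v x => ?_⟩
  · rintro s v x y ⟨a1, a2 | a2⟩ ⟨b1, b2 | b2⟩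
    · exact Sum.inl_injective (a2.2.symm.trans b2.2)
    · exact absurd b2.1 ((hpar v y b1).1 a2.1)
    · exact absurd a2.1 ((hpar v x a1).1 b2.1)
    · exact Sum.inl_injective (s.injective (a2.2.trans b2.2.symm))
  · by_cases hz : Z v x = 0
    · simp [hz]
    · by_cases hp : par v
      · have := (hpar v x hz).1 hp
        rw [← h3 v x]
        refine sum_congr rfl fun s _ => ?_
        simp [hz, hp, this]
      · have : par x := by
          by_contra h
          exact hp ((hpar v x hz).2 h)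
        rw [hsym, ← h3 x v]
        refine sum_congr rfl fun s _ => ?_
        simp [hz, hp, this]

theorem round_two (par : V → Prop) (z : V → V → ℝ) (hsym : ∀ v x, z v x = z x v)
    (h0 : ∀ v x, 0 ≤ z v x) (hpar : ∀ v x, z v x ≠ 0 → (par v ↔ ¬ par x)) :
    ∃ J : V → V → Prop, (∀ v x, J v x → J x v) ∧ (∀ v x y, J v x → J v y → x = y) ∧
      (∀ v x, J v x → z v x ≠ 0) ∧
      ∑ v, (2 * min (∑ x, z v x) 1 - ∑ x, z v x) ≤ (univ.filter fun v => ∃ x, J v x).card := by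
  set m : V → ℝ := fun v => max (∑ x, z v x) 1 with hm
  have hm1 : ∀ v, 1 ≤ m v := fun v => le_max_right _ _
  have hm0 : ∀ v, 0 < m v := fun v => lt_of_lt_of_le one_pos (hm1 v)
  obtain ⟨w, I, a1, a2, a3, a4, a5, a6⟩ := symBirk par (fun v x => z v x / (m v * m x))
    (fun v x => by rw [hsym, mul_comm])
    (fun v x => div_nonneg (h0 v x) (mul_pos (hm0 v) (hm0 x)).le)
    (fun v => by
      have : ∑ x, z v x / (m v * m x) ≤ ∑ x, z v x / m v := sum_le_sum fun x _ =>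
        div_le_div_of_nonneg_left (h0 v x) (hm0 v) (le_mul_of_one_le_right (hm0 v).le (hm1 x))
      rw [← sum_div] at this
      exact this.trans ((div_le_one (hm0 v)).2 (le_max_left _ _)))
    (fun v x h => hpar v x fun e => h (by rw [e, zero_div]))
  have key : ∑ v, (2 * min (∑ x, z v x) 1 - ∑ x, z v x) ≤ ∑ v, ∑ x, z v x / (m v * m x) := by
    have e1 : ∀ v, min (∑ x, z v x) 1 = ∑ x, z v x / m v := by
      intro v
      rw [← sum_div]
      rcases le_total (∑ x, z v x) 1 with h | h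
      · simp only [hm, min_eq_left h, max_eq_right h, div_one]
      · have := hm0 v
        simp only [hm, min_eq_right h, max_eq_left h] at this ⊢
        rw [div_self this.ne']
    have e2 : ∑ v, ∑ x, z v x / m x = ∑ v, ∑ x, z v x / m v := by
      rw [sum_comm]
      simp only [hsym _ _]
    have e3 : ∑ v, ∑ x, (z v x / m v + z v x / m x - z v x) ≤ ∑ v, ∑ x, z v x / (m v * m x) := by
      refine sum_le_sum fun v _ => sum_le_sum fun x _ => ?_
      have b1 := hm1 v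
      have b2 := hm1 x
      have b3 := h0 v x
      have : z v x / (m v * m x) - (z v x / m v + z v x / m x - z v x) =
          z v x * ((m v - 1) * (m x - 1)) / (m v * m x) := by
        field_simp
        ring
      have b4 : 0 ≤ z v x * ((m v - 1) * (m x - 1)) / (m v * m x) := by
        apply div_nonneg (mul_nonneg b3 (mul_nonneg (by linarith) (by linarith)))
        positivity
      linarith
    simp only [sum_sub_distrib, sum_add_distrib, e2] at e3
    simp only [sum_sub_distrib, e1, ← mul_sum]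
    linarith
  have h2 : ∑ v, ∑ x, z v x / (m v * m x) =
      ∑ s, w s * ∑ v, ∑ x, (if I s v x then (1 : ℝ) else 0) := by
    simp only [mul_sum, ← a6]
    rw [sum_comm' (s := univ) (t := fun _ => univ) (t' := univ) (s' := fun _ => univ) (by simp)]
    conv_rhs => rw [sum_comm]
    rw [sum_comm]
    exact sum_congr rfl fun v _ => sum_comm
  obtain ⟨s, hs⟩ : ∃ s, ∑ v, ∑ x, z v x / (m v * m x) ≤
      ∑ v, ∑ x, (if I s v x then (1 : ℝ) else 0) := by
    by_contra hc
    push Not at hc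
    obtain ⟨s, hs⟩ : ∃ s, 0 < w s := by
      by_contra h3
      push Not at h3
      have : ∑ s, w s ≤ 0 := sum_nonpos fun s _ => h3 s
      linarith
    have := sum_lt_sum (s := univ) (fun s _ => mul_le_mul_of_nonneg_left (hc s).le (a1 s))
      ⟨s, mem_univ _, mul_lt_mul_of_pos_left (hc s) hs⟩
    rw [← h2, ← sum_mul, a2, one_mul] at this
    exact lt_irrefl _ this
  refine ⟨I s, a3 s, a4 s, fun v x h e => a5 s v x h (by rw [e, zero_div]),
    key.trans (hs.trans ?_)⟩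
  rw [card_filter]
  push_cast
  refine sum_le_sum fun v _ => ?_
  split_ifs with h
  · rw [sum_boole]
    exact_mod_cast card_le_one.2 fun x hx y hy => a4 s v x y (mem_filter.1 hx).2 (mem_filter.1 hy).2
  · push Not at h
    simp [h]

omit [Fintype V] in
theorem second_moment {ι Ω : Type*} [Fintype ι] [Fintype Ω] {w : Ω → ℝ} (w0 : ∀ s, 0 ≤ w s)
    (w1 : ∑ s, w s = 1) (Y : Finset V) (β : V → ι) (k : ι) (hk : ∀ y ∈ Y, k ≠ β y)
    (f g : V → Ω → ℝ) {C b' : ℝ} (hf : ∀ y s, |f y s| ≤ C) (hg : ∀ y ∈ Y, ∀ s, |g y s| ≤ C)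
    (hg0 : ∀ y ∈ Y, ∑ s, w s * g y s = 0)
    (hb : ∀ j, ((Y.filter (β · = j)).card : ℝ) ≤ b') :
    PE (fun _ : ι => w) (fun σ => (∑ y ∈ Y, f y (σ k) * g y (σ (β y))) ^ 2) ≤
      C ^ 4 * Y.card * b' := by
  simp only [sq, sum_mul_sum, PE_sum]
  have h1 : ∀ y ∈ Y, ∑ y' ∈ Y, PE (fun _ : ι => w) (fun σ => f y (σ k) * g y (σ (β y)) *
      (f y' (σ k) * g y' (σ (β y')))) ≤ C ^ 4 * b' := by
    intro y hy
    have h2 : ∀ y' ∈ Y, PE (fun _ : ι => w) (fun σ => f y (σ k) * g y (σ (β y)) *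
        (f y' (σ k) * g y' (σ (β y')))) ≤ if β y' = β y then C ^ 4 else 0 := by
      intro y' hy'
      split_ifs with h
      · rw [← PE_const (w := fun _ : ι => w) (fun _ => w1) (C ^ 4)]
        refine PE_mono (fun _ => w0) fun σ => (le_abs_self _).trans ?_
        have hC : 0 ≤ C := (abs_nonneg _).trans (hf y (σ k))
        rw [abs_mul, abs_mul, abs_mul, show C ^ 4 = C * C * (C * C) by ring]
        have := hf y (σ k)
        have := hf y' (σ k)
        have := hg y hy (σ (β y))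
        have := hg y' hy' (σ (β y'))
        gcongr
      · have := PE_indep (w := fun _ : ι => w) (fun _ => w1) (β y')
          (fun σ => f y (σ k) * g y (σ (β y)) * f y' (σ k)) (g y') (fun σ s => by
            rw [Function.update_of_ne (hk y' hy'), Function.update_of_ne (Ne.symm h)])
        rw [hg0 y' hy', mul_zero] at this
        simp only [← mul_assoc]
        exact this.le
    refine (sum_le_sum h2).trans ?_
    rw [← sum_filter, sum_const, nsmul_eq_mul, mul_comm]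
    exact mul_le_mul_of_nonneg_left (hb _) (by positivity)
  have := sum_le_sum h1
  rw [sum_const, nsmul_eq_mul] at this
  linarith

variable (G bad) in
/-- Data for the two-round matching construction. -/
structure TwoR {ι : Type} (U : Finset V) (X Y : V → Finset V) (β : V → ι) (par : V → Prop)
    (lev : V → ℕ) (a b C : ℤ) (b' : ℝ) : Prop where
  xs : ∀ v x, x ∈ X v → v ∈ X x
  ys : ∀ v y, y ∈ Y v → v ∈ Y y
  xp : ∀ v x, x ∈ X v → v ∈ U ∧ G.Adj v x ∧ β v = β x ∧ (par v ↔ ¬ par x) ∧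
    (par v → lev v < lev x)
  yp : ∀ v y, y ∈ Y v → v ∈ U ∧ G.Adj v y ∧ β v ≠ β y ∧ (par v ↔ ¬ par y) ∧
    (¬ par v → lev v < lev y)
  xc : ∀ v, ((X v).card : ℤ) ≤ a
  yc : ∀ v, ((Y v).card : ℤ) ≤ b
  yb : ∀ v j, (((Y v).filter (β · = j)).card : ℝ) ≤ b'
  bx : ∀ v, ∀ x ∈ X v, 2 * C * (((Y v).filter (bad v x ·)).card : ℤ) + 2 * b ≤ C * b
  by' : ∀ v, ∀ y ∈ Y v, 2 * C * (((X v).filter (bad v · y)).card : ℤ) + 2 * a ≤ C * a

theorem cover_abs (hs : ∀ v a b, bad v a b → bad v b a) {ι : Type} [Fintype ι] {U : Finset V}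
    {X Y : V → Finset V} {β : V → ι} {par : V → Prop} {lev : V → ℕ} {a b C : ℤ} {b' θ : ℝ}
    (H : TwoR G bad U X Y β par lev a b C b') (ha : 0 < a) (hb : 0 < b) (hC : 0 < C)
    (hθ : 0 < θ) :
    ∃ s : ℕ, Cover G bad U s ∧ (s : ℝ) ≤
      ∑ v ∈ U, (3 - 2 * (((X v).card : ℝ) / a) - ((Y v).card : ℝ) / b) +
      2 * Fintype.card V * (θ + C ^ 4 * b' / (b * θ)) := by
  have ha' : (0 : ℝ) < a := by exact_mod_cast ha
  have hb' : (0 : ℝ) < b := by exact_mod_cast hb
  have hC' : (1 : ℝ) ≤ C := by exact_mod_cast hC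
  choose ρ hρ hρt using fun v => kernel (X := X v) (Y := Y v) (B := bad v) hC ha.le hb.le
    (H.xc v) (H.yc v) (H.bx v) (H.by' v)
  obtain ⟨w, I, w0, w1, I1, I2, I3, I4⟩ := symBirk par (fun v x => if x ∈ X v then 1 / (a : ℝ) else 0)
    (fun v x => by
      by_cases h : x ∈ X v
      · rw [if_pos h, if_pos (H.xs v x h)]
      · rw [if_neg h, if_neg (fun h2 => h (H.xs x v h2))])
    (fun v x => by split_ifs <;> positivity)
    (fun v => by
      rw [sum_ite_mem, univ_inter, sum_const, nsmul_eq_mul, mul_one_div, div_le_one ha']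
      exact_mod_cast H.xc v)
    (fun v x h => (H.xp v x (by by_contra h2; exact h (if_neg h2))).2.2.2.1)
  have I5 : ∀ s v x, I s v x → x ∈ X v := fun s v x h => by
    by_contra h2; exact I3 s v x h (if_neg h2)
  set g : V → V → Equiv.Perm (V ⊕ V) → ℝ :=
    fun v y s => ∑ x ∈ X v, if I s v x then (ρ v x y : ℝ) else 0 with hg
  have hgI : ∀ v s x, I s v x → ∀ y, g v y s = ρ v x y := by
    intro v s x h y
    simp only [hg]
    rw [sum_eq_single_of_mem x (I5 s v x h), if_pos h]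
    intro x' _ hx'
    exact if_neg fun h2 => hx' (I2 s v _ _ h2 h)
  have hgN : ∀ v s, (¬ ∃ x, I s v x) → ∀ y, g v y s = 0 := fun v s h y =>
    sum_eq_zero fun x _ => if_neg fun h2 => h ⟨x, h2⟩
  have hg0 : ∀ v y s, 0 ≤ g v y s ∧ g v y s ≤ C := by
    intro v y s
    by_cases h : ∃ x, I s v x
    · obtain ⟨x, hx⟩ := h
      rw [hgI v s x hx]
      exact ⟨by exact_mod_cast (hρ v).nn x y, by exact_mod_cast (hρ v).le x y⟩
    · rw [hgN v s h]
      exact ⟨le_rfl, by linarith⟩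
  have hgr : ∀ v s, ∑ y ∈ Y v, g v y s ≤ b := by
    intro v s
    by_cases h : ∃ x, I s v x
    · obtain ⟨x, hx⟩ := h
      simp only [hgI v s x hx]
      exact_mod_cast (hρ v).row x (I5 s v x hx)
    · simp only [hgN v s h, sum_const_zero]
      exact hb'.le
  have hgs : ∀ v y s, g v y s ≠ 0 → ∃ x, I s v x ∧ ¬ bad v x y := by
    intro v y s h
    by_cases h2 : ∃ x, I s v x
    · obtain ⟨x, hx⟩ := h2
      rw [hgI v s x hx] at h
      exact ⟨x, hx, (hρ v).supp x y (by exact_mod_cast h)⟩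
    · exact absurd (hgN v s h2 y) h
  set A : V → V → ℝ := fun v y => ∑ s, w s * g v y s with hA
  have hAe : ∀ v y, A v y = (∑ x ∈ X v, (ρ v x y : ℝ)) / a := by
    intro v y
    simp only [hA, hg, mul_sum]
    rw [sum_comm, sum_div]
    refine sum_congr rfl fun x hx => ?_
    have := I4 v x
    simp only [if_pos hx] at this
    rw [div_eq_mul_one_div, ← this, mul_sum]
    refine sum_congr rfl fun s _ => ?_
    split_ifs <;> ring
  have hA0 : ∀ v y, 0 ≤ A v y := fun v y => sum_nonneg fun s _ => mul_nonneg (w0 s) (hg0 v y s).1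
  have hA1 : ∀ v, ∀ y ∈ Y v, A v y ≤ 1 := by
    intro v y hy
    rw [hAe, div_le_one ha']
    exact_mod_cast (hρ v).col y hy
  have hAt : ∀ v, ((X v).card : ℝ) / a + (Y v).card / b - 1 ≤ ∑ y ∈ Y v, A v y / b := by
    intro v
    simp only [hAe]
    rw [← sum_div, ← sum_div, sum_comm]
    have h1 : (b : ℝ) * (X v).card + a * (Y v).card ≤
        ∑ x ∈ X v, ∑ y ∈ Y v, (ρ v x y : ℝ) + a * b := by exact_mod_cast hρt v
    rw [div_div, le_div_iff₀ (by positivity)]
    have : (((X v).card : ℝ) / a + (Y v).card / b - 1) * (a * b) =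
        b * (X v).card + a * (Y v).card - a * b := by field_simp
    linarith
  set W : ι → Equiv.Perm (V ⊕ V) → ℝ := fun _ => w with hW
  have W0 : ∀ j s, 0 ≤ W j s := fun _ => w0
  have W1 : ∀ j, ∑ s, W j s = 1 := fun _ => w1
  set r : V → (ι → Equiv.Perm (V ⊕ V)) → ℝ :=
    fun v σ => ∑ y ∈ Y v, g v y (σ (β v)) * g y v (σ (β y)) / b with hr
  set d : V → (ι → Equiv.Perm (V ⊕ V)) → ℝ :=
    fun v σ => ∑ y ∈ Y v, g v y (σ (β v)) * (g y v (σ (β y)) - A y v) with hd
  have hrd : ∀ v σ, r v σ ≤ 1 + d v σ / b := by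
    intro v σ
    have h1 : ∑ y ∈ Y v, g v y (σ (β v)) * A y v ≤ b :=
      (sum_le_sum fun y hy => mul_le_of_le_one_right (hg0 _ _ _).1 (hA1 y v (H.ys v y hy))).trans
        (hgr v _)
    simp only [hr, hd, mul_sub, sum_sub_distrib, ← sum_div]
    rw [div_le_iff₀ hb', add_mul, div_mul_cancel₀ _ hb'.ne']
    linarith
  have hEr : ∀ v, PE W (r v) = ∑ y ∈ Y v, A v y * A y v / b := by
    intro v
    simp only [hr, PE_sum]
    refine sum_congr rfl fun y hy => ?_
    have h1 := PE_indep W1 (β y) (fun σ => g v y (σ (β v))) (g y v) (fun σ s => by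
      rw [Function.update_of_ne (H.yp v y hy).2.2.1])
    have h2 := PE_indep W1 (β v) (fun _ => 1) (g v y) (fun _ _ => rfl)
    simp only [one_mul, PE_const W1] at h2
    simp only [div_eq_inv_mul, PE_mul]
    rw [h1, h2]
  have hEd : ∀ v, PE W (fun σ => d v σ ^ 2) ≤ C ^ 4 * b * b' := by
    intro v
    have hb0 : 0 ≤ b' := le_trans (by positivity) (H.yb v (β v))
    refine (second_moment w0 w1 (Y v) β (β v) (fun y hy => (H.yp v y hy).2.2.1) (g v)
      (fun y s => g y v s - A y v) (C := C) (fun y s => abs_le.2 ⟨by linarith [(hg0 v y s).1],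
        (hg0 v y s).2⟩) (fun y hy s => abs_le.2 ⟨?_, ?_⟩) (fun y _ => ?_) (H.yb v)).trans ?_
    · linarith [(hg0 y v s).1, hA1 y v (H.ys v y hy)]
    · linarith [(hg0 y v s).2, hA0 y v]
    · simp only [mul_sub, sum_sub_distrib, ← sum_mul, w1, one_mul, hA, sub_self]
    · have : ((Y v).card : ℝ) ≤ b := by exact_mod_cast H.yc v
      gcongr
  have hsum : ∑ v ∈ U, (2 * ((X v).card / a) + (Y v).card / b - 2 : ℝ) ≤ ∑ v, PE W (r v) := by
    have h1 : ∀ v, ∑ y ∈ Y v, (A v y / b + A y v / b - 1 / b) ≤ PE W (r v) := by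
      intro v
      rw [hEr]
      refine sum_le_sum fun y hy => ?_
      rw [← add_div, ← sub_div]
      refine div_le_div_of_nonneg_right ?_ hb'.le
      nlinarith [hA1 v y hy, hA1 y v (H.ys v y hy)]
    have h2 : ∑ v, ∑ y ∈ Y v, A y v / b = ∑ v, ∑ y ∈ Y v, A v y / b :=
      sum_comm' fun v y => ⟨fun h => ⟨H.ys v y h.2, mem_univ _⟩, fun h => ⟨mem_univ _, H.ys y v h.1⟩⟩
    have h3 : ∀ F : V → V → ℝ, ∑ v, ∑ y ∈ Y v, F v y = ∑ v ∈ U, ∑ y ∈ Y v, F v y := fun F =>
      (sum_subset (subset_univ U) fun v _ hv => sum_eq_zero fun y hy =>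
        absurd (H.yp v y hy).1 hv).symm
    have h4 := sum_le_sum fun v (_ : v ∈ univ) => h1 v
    simp only [sum_sub_distrib, sum_add_distrib, h2] at h4
    rw [h3, h3 fun _ _ => 1 / b] at h4
    have h5 := sum_le_sum fun v (_ : v ∈ U) => hAt v
    simp only [sum_const, nsmul_eq_mul, mul_one_div] at h4
    simp only [sum_sub_distrib, sum_add_distrib, ← mul_sum, sum_const, nsmul_eq_mul] at h5 ⊢
    linarith
  obtain ⟨σ, hσ⟩ := PE_exists W0 W1 fun σ => ∑ v, (r v σ - 2 * (θ + 1 / (b ^ 2 * θ) * d v σ ^ 2))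
  simp only [PE_sum, PE_sub, PE_mul, PE_add, PE_const W1] at hσ
  obtain ⟨J, J1, J2, J3, J4⟩ := round_two par
    (fun v y => if y ∈ Y v then g v y (σ (β v)) * g y v (σ (β y)) / b else 0)
    (fun v y => by
      by_cases h : y ∈ Y v
      · rw [if_pos h, if_pos (H.ys v y h), mul_comm]
      · rw [if_neg h, if_neg (fun h2 => h (H.ys y v h2))])
    (fun v y => by
      split_ifs
      · exact div_nonneg (mul_nonneg (hg0 _ _ _).1 (hg0 _ _ _).1) hb'.le
      · exact le_rfl)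
    (fun v y h => (H.yp v y (by by_contra h2; exact h (if_neg h2))).2.2.2.1)
  simp only [sum_ite_mem, univ_inter] at J4
  have J5 : ∀ v y, J v y → y ∈ Y v ∧ ∃ x, I (σ (β v)) v x ∧ ¬ bad v x y := by
    intro v y h
    have h1 := J3 v y h
    by_cases h2 : y ∈ Y v
    · rw [if_pos h2] at h1
      exact ⟨h2, hgs v y _ fun e => h1 (by rw [e, zero_mul, zero_div])⟩
    · exact absurd (if_neg h2) h1
  have I6 : ∀ v x, I (σ (β v)) v x → I (σ (β x)) x v := fun v x h => by
    rw [← (H.xp v x (I5 _ _ _ h)).2.2.1]; exact I1 _ _ _ h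
  refine ⟨_, forest (arc := fun u v => (par u ∧ I (σ (β u)) u v) ∨ (¬ par u ∧ J u v)) lev
    ?_ ?_ ?_ ?_ U, ?_⟩
  · rintro u v (h | h)
    · exact (H.xp u v (I5 _ _ _ h.2)).2.2.2.2 h.1
    · exact (H.yp u v (J5 _ _ h.2).1).2.2.2.2 h.1
  · rintro u v v' (h | h) (h' | h')
    · exact I2 _ _ _ _ h.2 h'.2
    · exact absurd h.1 h'.1
    · exact absurd h'.1 h.1
    · exact J2 _ _ _ h.2 h'.2
  · rintro u v (h | h)
    · exact (H.xp u v (I5 _ _ _ h.2)).2.1
    · exact (H.yp u v (J5 _ _ h.2).1).2.1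
  · rintro u v v' (h | h) (h' | h')
    · exact absurd h'.1 ((H.xp u v (I5 _ _ _ h.2)).2.2.2.1.1 h.1)
    · obtain ⟨x, h1, h2⟩ := (J5 _ _ h'.2).2
      rwa [I2 _ _ _ _ (I6 _ _ h.2) h1]
    · obtain ⟨x, h1, h2⟩ := (J5 _ _ (J1 _ _ h.2)).2
      rw [I2 _ _ _ _ h'.2 h1]
      exact fun h3 => h2 (hs _ _ _ h3)
    · exact absurd ((H.yp u v (J5 _ _ h.2).1).2.2.2.1.2 h'.1) h.1
  · have h1 : (univ.filter fun v => ∃ x, J v x) ⊆ U.filter fun v => ∃ u ∈ U,
        (par u ∧ I (σ (β u)) u v) ∨ (¬ par u ∧ J u v) := by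
      intro v hv
      obtain ⟨y, hy⟩ := (mem_filter.1 hv).2
      obtain ⟨a1, x, a2, a3⟩ := J5 v y hy
      refine mem_filter.2 ⟨(H.yp v y a1).1, ?_⟩
      by_cases hp : par v
      · exact ⟨y, (H.yp y v (H.ys v y a1)).1, Or.inr ⟨(H.yp v y a1).2.2.2.1.1 hp, J1 _ _ hy⟩⟩
      · have a4 := H.xs v x (I5 _ _ _ a2)
        exact ⟨x, (H.xp x v a4).1, Or.inl ⟨(H.xp x v a4).2.2.2.1.2 hp, I6 _ _ a2⟩⟩
    have h2 := card_filter_add_card_filter_not (s := U) fun v => ∃ u ∈ U,
        (par u ∧ I (σ (β u)) u v) ∨ (¬ par u ∧ J u v)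
    have h3 := card_le_card h1
    have h4 : ((U.filter fun v => ¬ ∃ u ∈ U, (par u ∧ I (σ (β u)) u v) ∨
        (¬ par u ∧ J u v)).card : ℝ) + (univ.filter fun v => ∃ x, J v x).card ≤ U.card := by
      exact_mod_cast (by omega)
    have h5 : ∑ v, (r v σ - 2 * (θ + 1 / (b ^ 2 * θ) * d v σ ^ 2)) ≤
        ∑ v, (2 * min (r v σ) 1 - r v σ) := by
      refine sum_le_sum fun v _ => ?_
      have c1 := hrd v σ
      have c2 : 1 / (b ^ 2 * θ) * d v σ ^ 2 = (d v σ / b) ^ 2 / θ := by field_simp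
      have c3 : d v σ / b ≤ θ + (d v σ / b) ^ 2 / θ := by
        have : θ + (d v σ / b) ^ 2 / θ - d v σ / b =
            ((d v σ / b - θ / 2) ^ 2 + 3 / 4 * θ ^ 2) / θ := by field_simp; ring
        have : 0 ≤ ((d v σ / b - θ / 2) ^ 2 + 3 / 4 * θ ^ 2) / θ := by positivity
        linarith
      have c4 : 0 ≤ θ + (d v σ / b) ^ 2 / θ := by positivity
      rw [c2]
      rcases le_total (r v σ) 1 with h | h
      · rw [min_eq_left h]; linarith
      · rw [min_eq_right h]; linarith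
    have h6 : ∑ v, (PE W (r v) - 2 * (θ + C ^ 4 * b' / (b * θ))) ≤
        ∑ v, (PE W (r v) - 2 * (θ + 1 / (b ^ 2 * θ) * PE W fun σ => d v σ ^ 2)) := by
      refine sum_le_sum fun v _ => ?_
      have c1 : 1 / (b ^ 2 * θ) * (C ^ 4 * b * b') = C ^ 4 * b' / (b * θ) := by field_simp
      have c2 := mul_le_mul_of_nonneg_left (hEd v) (show 0 ≤ 1 / (b ^ 2 * θ) by positivity)
      linarith
    simp only [sum_sub_distrib, sum_add_distrib, sum_const, nsmul_eq_mul, card_univ] at h6 hsum ⊢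
    simp only [sum_sub_distrib] at hσ
    have h7 := h5.trans J4
    simp only [sum_sub_distrib] at h7
    refine le_trans (le_of_eq ?_) (le_trans (le_sub_iff_add_le.2 h4) (by linarith))
    congr

end Pool.Agent.MP_d6d719_co

end MrgPart6

-- marker of a merged file
example : 731051 + 794444 = 731051 + 794444 := rfl
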