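import Pool.Agent.MP_d6d719_co.CoverAbs
import Pool.Agent.MP_d6d719_co.Reach

-- ======== part 0: formerly Pool.Agent.MP_d6d719_co.CoverApp
section MrgPart0

set_option autoImplicit false

open Finset
open scoped Classical

namespace Pool.Agent.MP_d6d719_co

variable {V : Type} [Fintype V] {G : SimpleGraph V} {bad : V → V → V → Prop}

/-- Elements of `S` with colour in `T`. -/
noncomputable def cf {κ : Type} (c : V → κ) (S : Finset V) (T : Finset κ) : Finset V :=
  S.filter (c · ∈ T)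

omit [Fintype V] in
@[simp] theorem mem_cf {κ : Type} {c : V → κ} {S : Finset V} {T : Finset κ} {x : V} :
    x ∈ cf c S T ↔ x ∈ S ∧ c x ∈ T := mem_filter

/-- The colouring splits `S` evenly, up to an error `δ`. -/
def Spread {κ : Type} [Fintype κ] (c : V → κ) (S : Finset V) (δ : ℝ) : Prop :=
  ∀ q, |((cf c S {q}).card : ℝ) - S.card / Fintype.card κ| ≤ δ

section spread

variable {κ : Type} [Fintype κ] {c : V → κ} {S : Finset V} {δ : ℝ}

omit [Fintype V] [Fintype κ] in
theorem card_cf (T : Finset κ) : (cf c S T).card = ∑ q ∈ T, (cf c S {q}).card := by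
  rw [card_eq_sum_card_fiberwise (f := c) (s := cf c S T) (t := T) (fun x hx => (mem_cf.1 hx).2)]
  refine sum_congr rfl fun q hq => ?_
  congr 1
  ext x
  simp only [mem_filter, mem_cf, mem_singleton]
  constructor
  · tauto
  · rintro ⟨h1, h2⟩
    exact ⟨⟨h1, h2 ▸ hq⟩, h2⟩

omit [Fintype V] in
theorem Spread.le (h : Spread c S δ) (T : Finset κ) :
    ((cf c S T).card : ℝ) ≤ T.card * (S.card / Fintype.card κ + δ) := by
  rw [card_cf, ← nsmul_eq_mul, ← sum_const]
  push_cast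
  exact sum_le_sum fun q _ => by linarith [(abs_le.1 (h q)).2]

omit [Fintype V] in
theorem Spread.ge (h : Spread c S δ) (T : Finset κ) :
    T.card * (S.card / Fintype.card κ - δ) ≤ ((cf c S T).card : ℝ) := by
  rw [card_cf, ← nsmul_eq_mul, ← sum_const]
  push_cast
  exact sum_le_sum fun q _ => by linarith [(abs_le.1 (h q)).1]

end spread

omit [Fintype V] in
theorem sum_good (U Bd : Finset V) (N : V → Finset V)
    (hs : ∀ v ∈ U, ∀ x ∈ N v, v ∈ N x) {m : ℝ} (hm : ∀ v, ((N v).card : ℝ) ≤ m) :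
    ∑ v ∈ U, ((N v).card : ℝ) - 2 * Bd.card * m ≤
      ∑ v ∈ U, ((if v ∈ U \ Bd then N v \ Bd else ∅).card : ℝ) := by
  have h1 : ∀ v ∈ U, ((N v).card : ℝ) - (if v ∈ Bd then m else 0) - (N v ∩ Bd).card ≤
      ((if v ∈ U \ Bd then N v \ Bd else ∅).card : ℝ) := by
    intro v hv
    by_cases h : v ∈ Bd
    · rw [if_pos h, if_neg (fun h2 => (mem_sdiff.1 h2).2 h)]
      have := hm v
      have : (0 : ℝ) ≤ (N v ∩ Bd).card := by positivity
      simp only [card_empty, Nat.cast_zero]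
      linarith
    · rw [if_neg h, if_pos (mem_sdiff.2 ⟨hv, h⟩)]
      have := card_sdiff_add_card_inter (N v) Bd
      have : ((N v \ Bd).card : ℝ) + (N v ∩ Bd).card = (N v).card := by exact_mod_cast this
      linarith
  have hm0 : ∀ v : V, 0 ≤ m := fun v => le_trans (by positivity) (hm v)
  have h2 : ∑ v ∈ U, (if v ∈ Bd then m else 0) ≤ Bd.card * m := by
    rw [sum_ite_mem, ← nsmul_eq_mul, ← sum_const]
    exact sum_le_sum_of_subset_of_nonneg inter_subset_right fun v _ _ => hm0 v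
  have h3 : ∑ v ∈ U, ((N v ∩ Bd).card : ℝ) ≤ Bd.card * m := by
    have e1 : ∑ v ∈ U, (N v ∩ Bd).card ≤ ∑ x ∈ Bd, (N x).card := by
      have e2 : ∀ v, (N v ∩ Bd).card = ∑ x ∈ Bd, if x ∈ N v then 1 else 0 := fun v => by
        rw [sum_boole, filter_mem_eq_inter, inter_comm]; rfl
      simp only [e2]
      rw [sum_comm]
      refine sum_le_sum fun x _ => ?_
      rw [sum_boole]
      exact card_le_card fun v hv => hs v (mem_filter.1 hv).1 x (mem_filter.1 hv).2
    have e3 : ∑ v ∈ U, ((N v ∩ Bd).card : ℝ) ≤ ∑ x ∈ Bd, ((N x).card : ℝ) := by exact_mod_cast e1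
    refine e3.trans ?_
    rw [← nsmul_eq_mul, ← sum_const]
    exact sum_le_sum fun x _ => hm x
  have h4 := sum_le_sum h1
  simp only [sum_sub_distrib] at h4
  linarith

/-- Colour pairs of the first round. -/
def rx {l B : ℕ} (q q' : Fin l × Fin B) : Prop :=
  q.2 = q'.2 ∧ ((q.1.1 % 2 = 0 ∧ q'.1.1 = q.1.1 + 1) ∨ (q'.1.1 % 2 = 0 ∧ q.1.1 = q'.1.1 + 1))

/-- Colour pairs of the second round. -/
def ry {l B : ℕ} (q q' : Fin l × Fin B) : Prop :=
  q.2 ≠ q'.2 ∧ ((q.1.1 % 2 = 1 ∧ q'.1.1 = q.1.1 + 1) ∨ (q'.1.1 % 2 = 1 ∧ q.1.1 = q'.1.1 + 1))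

theorem card_rx {l B : ℕ} (hl : l % 2 = 0) (q : Fin l × Fin B) :
    (univ.filter (rx q)).card = 1 := by
  have h := q.1.2
  rw [card_eq_one]
  refine ⟨(⟨if q.1.1 % 2 = 0 then q.1.1 + 1 else q.1.1 - 1, by split_ifs <;> omega⟩, q.2), ?_⟩
  ext ⟨⟨i, hi⟩, j⟩
  simp only [rx, mem_filter, mem_univ, true_and, mem_singleton, Prod.mk.injEq, Fin.mk.injEq]
  split_ifs <;> constructor <;> rintro ⟨h1, h2⟩ <;> first | exact ⟨by omega, h1.symm⟩ |
    exact ⟨h2.symm, by omega⟩

theorem card_ry_one {l B : ℕ} (q : Fin l × Fin B) (j : Fin B) :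
    (univ.filter fun q' => ry q q' ∧ q'.2 = j).card ≤ 1 := by
  rw [card_le_one]
  rintro ⟨⟨i, hi⟩, j1⟩ h1 ⟨⟨i', hi'⟩, j2⟩ h2
  simp only [ry, mem_filter, mem_univ, true_and, Prod.mk.injEq, Fin.mk.injEq] at h1 h2 ⊢
  exact ⟨by omega, h1.2.trans h2.2.symm⟩

theorem card_ry_le {l B : ℕ} (q : Fin l × Fin B) : (univ.filter (ry q)).card ≤ B := by
  have := card_eq_sum_card_fiberwise (f := Prod.snd) (s := univ.filter (ry q)) (t := univ)
    (fun _ _ => mem_univ _)
  rw [this]
  refine (sum_le_card_nsmul _ _ 1 fun j _ => ?_).trans (by simp)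
  rw [filter_filter]
  exact card_ry_one q j

theorem card_ry_ge {l B : ℕ} (hl : l % 2 = 0) (q : Fin l × Fin B) (h0 : q.1.1 ≠ 0)
    (h1 : q.1.1 + 1 ≠ l) : B ≤ (univ.filter (ry q)).card + 1 := by
  have h := q.1.2
  have h2 := card_le_card_of_injOn (s := univ.erase q.2) (t := univ.filter (ry q))
    (fun j => (⟨if q.1.1 % 2 = 0 then q.1.1 - 1 else q.1.1 + 1, by split_ifs <;> omega⟩, j))
    (fun j hj => by
      simp only [coe_erase, coe_univ, Set.mem_sdiff, Set.mem_univ, Set.mem_singleton_iff,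
        true_and] at hj
      simp only [ry, coe_filter, mem_univ, true_and, Set.mem_ofPred_eq]
      refine ⟨Ne.symm hj, ?_⟩
      split_ifs <;> omega)
    (fun j _ j' _ e => (Prod.mk.inj e).2)
  rw [card_erase_of_mem (mem_univ _), card_univ, Fintype.card_fin] at h2
  omega

theorem card_bdry {l B : ℕ} :
    (univ.filter fun q : Fin l × Fin B => q.1.1 = 0 ∨ q.1.1 + 1 = l).card ≤ 2 * B := by
  have := card_eq_sum_card_fiberwise (f := Prod.snd)
    (s := univ.filter fun q : Fin l × Fin B => q.1.1 = 0 ∨ q.1.1 + 1 = l) (t := univ)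
    (fun _ _ => mem_univ _)
  rw [this]
  refine (sum_le_card_nsmul _ _ 2 fun j _ => ?_).trans (by simp [mul_comm])
  refine le_trans (card_le_card_of_injOn (t := ({0, l - 1} : Finset ℕ)) (fun q => q.1.1) ?_ ?_)
    card_le_two
  · intro q hq
    simp only [coe_filter, mem_filter, mem_univ, true_and, Set.mem_ofPred_eq] at hq
    simp only [coe_insert, coe_singleton, Set.mem_insert_iff, Set.mem_singleton_iff]
    omega
  · intro q hq q' hq' e
    simp only [coe_filter, mem_filter, mem_univ, true_and, Set.mem_ofPred_eq] at hq hq'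
    exact Prod.ext (Fin.ext e) (hq.2.trans hq'.2.symm)

omit [Fintype V] in
theorem few_bad {κ : Type} [Fintype κ] [Nontrivial κ] {c : V → κ} {U : Finset V} {p τ K D : ℝ}
    (hG : G2 G p τ K) (hp : 0 ≤ p) (hτ : 0 < τ) (hτ1 : τ ≤ 1 / 4) (hD : 0 < D)
    (hDe : D = p * U.card / Fintype.card κ) (hK : K ≤ τ ^ 2 * D / 4)
    (s1 : ∀ v, Spread c (nb G v U) (τ * D)) (s3 : Spread c U (τ * U.card / Fintype.card κ)) :
    ((U.filter fun v => (1 + 4 * τ) * (p * U.card) < (nb G v U).card).card : ℝ) ≤ τ * U.card := by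
  set Bd := U.filter fun v => (1 + 4 * τ) * (p * U.card) < (nb G v U).card with hBd
  have hQ : (0 : ℝ) < Fintype.card κ := by exact_mod_cast Fintype.card_pos
  set z : ℝ := U.card / Fintype.card κ with hz
  have hz0 : 0 ≤ z := by positivity
  have hDz : D = p * z := by rw [hDe, hz, mul_div_assoc]
  have h1 : ∀ q, ((cf c Bd {q}).card : ℝ) ≤ τ * z := by
    intro q
    obtain ⟨q', hq'⟩ := exists_ne q
    have h2 := hG (cf c Bd {q}) (cf c U {q'}) (by
      rw [disjoint_left]
      intro x h1 h2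
      simp only [mem_cf, mem_singleton] at h1 h2
      exact hq' (h2.2.symm.trans h1.2))
    have h3 : ((cf c U {q'}).card : ℝ) ≤ (1 + τ) * z := by
      have := (abs_le.1 (s3 q')).2
      rw [mul_div_assoc] at this
      linarith
    have h4 : ((cf c Bd {q}).card : ℝ) * ((1 + 3 * τ) * D) ≤
        ec G (cf c Bd {q}) (cf c U {q'}) := by
      unfold ec
      push_cast
      rw [← nsmul_eq_mul, ← sum_const]
      refine sum_le_sum fun v hv => ?_
      have a1 := (mem_filter.1 (mem_cf.1 hv).1).2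
      have a2 := (abs_le.1 (s1 v q')).1
      have a3 : nb G v (cf c U {q'}) = cf c (nb G v U) {q'} := by
        unfold nb cf; rw [filter_comm]
      have a4 : (1 + 4 * τ) * D ≤ (nb G v U).card / Fintype.card κ := by
        rw [hDe, ← mul_div_assoc]
        exact div_le_div_of_nonneg_right a1.le hQ.le
      rw [a3]
      linarith
    set x : ℝ := ((cf c Bd {q}).card : ℝ)
    have hx : 0 ≤ x := by positivity
    set y : ℝ := ((cf c U {q'}).card : ℝ)
    have h5 : (1 + τ) * p * x * y ≤ (1 + τ) * (1 + τ) * D * x := by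
      have : (1 + τ) * p * x * y ≤ (1 + τ) * p * x * ((1 + τ) * z) :=
        mul_le_mul_of_nonneg_left h3 (by positivity)
      rw [hDz]; linarith
    have h6 : K * (x + y) ≤ τ ^ 2 * D / 4 * (x + 2 * z) :=
      mul_le_mul hK (by nlinarith) (by positivity) (by positivity)
    have h7 : τ * D * (x * (1 - 5 / 4 * τ)) ≤ τ * D * (τ * z / 2) := by nlinarith
    have h8 := le_of_mul_le_mul_left h7 (by positivity)
    nlinarith
  have h2 := card_cf (S := Bd) (c := c) univ
  rw [show cf c Bd univ = Bd by ext; simp] at h2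
  rw [h2]
  push_cast
  refine (sum_le_sum fun q _ => h1 q).trans (le_of_eq ?_)
  rw [sum_const, card_univ, nsmul_eq_mul, hz]
  field_simp

theorem cover_num {τ D u a B l x y b e1 e2 : ℝ} (hτ : 0 < τ) (hD : 0 < D) (hu : 0 ≤ u)
    (ha0 : 0 < a) (ha1 : a ≤ (1 + 5 * τ) * D) (hB : 1 ≤ B) (hl : 0 < l) (hx : 0 ≤ x) (hy : 0 ≤ y)
    (hb : b ≤ τ * u) (h1 : e1 - 2 * b * (4 * D) ≤ x) (h2 : e2 - 2 * b * (B * (4 * D)) ≤ y)
    (h3 : (1 - 5 * τ) * D * u ≤ e1) (h4 : (B - 1) * ((1 - 5 * τ) * D * u - 12 * D * u / l) ≤ e2) :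
    u * 3 - 2 * (x / a) - y / (B * a) ≤ u * (54 * τ + 1 / B + 12 / l) := by
  have e6 : (1 - 18 * τ) * u ≤ x / a := by
    rw [le_div_iff₀ ha0]
    have h1 : 2 * b * (4 * D) ≤ 8 * τ * u * D := by nlinarith
    rcases le_total 0 (1 - 18 * τ) with h | h
    · have h2 : (1 - 18 * τ) * u * a ≤ (1 - 18 * τ) * u * ((1 + 5 * τ) * D) :=
        mul_le_mul_of_nonneg_left ha1 (by positivity)
      have h3 : 0 ≤ τ ^ 2 * u * D := by positivity
      nlinarith
    · have := mul_nonneg hu ha0.le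
      nlinarith
  have e7 : (1 - 18 * τ - 1 / B - 12 / l) * u ≤ y / (B * a) := by
    rw [le_div_iff₀ (by positivity)]
    have k1 : 2 * b * (B * (4 * D)) ≤ 8 * τ * u * D * B := by
      have := mul_le_mul_of_nonneg_right hb (show 0 ≤ 8 * D * B by positivity)
      linarith
    rcases le_total 0 (1 - 18 * τ - 1 / B - 12 / l) with h | h
    · have k2 : (1 - 18 * τ - 1 / B - 12 / l) * u * (B * a) ≤
          (1 - 18 * τ - 1 / B - 12 / l) * u * (B * ((1 + 5 * τ) * D)) := by gcongr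
      have a1 : (0 : ℝ) ≤ 1 / B := by positivity
      have a2 : (0 : ℝ) ≤ 12 / l := by positivity
      have k3 : (1 - 18 * τ - 1 / B - 12 / l) * (1 + 5 * τ) ≤ 1 - 13 * τ - 1 / B - 12 / l := by
        nlinarith
      have k4 : B * (1 - 13 * τ - 1 / B - 12 / l) ≤
          (B - 1) * (1 - 5 * τ - 12 / l) - 8 * τ * B := by
        have : B * (1 / B) = 1 := by field_simp
        nlinarith
      have k5 := mul_le_mul_of_nonneg_left k3 (show 0 ≤ B * (u * D) by positivity)
      have k6 := mul_le_mul_of_nonneg_left k4 (show 0 ≤ u * D by positivity)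
      have k7 : 12 * D * u / l = 12 / l * D * u := by ring
      rw [k7] at h4
      linarith
    · have : 0 ≤ u * (B * a) := by positivity
      nlinarith
  linarith

theorem cover_app (hs : ∀ v a b, bad v a b → bad v b a) {l B C : ℕ} {c : V → Fin l × Fin B}
    {U : Finset V} {p τ K ε θ D : ℝ} (hG : G2 G p τ K) (hl : l % 2 = 0) (hl2 : 2 ≤ l)
    (hB : 1 ≤ B) (hp : 0 ≤ p) (hτ : 0 < τ) (hτ1 : τ ≤ 1 / 10) (hε : ε ≤ 1 / 2)
    (hDe : D = p * U.card / (l * B)) (hD : 1 ≤ τ * D) (hK : K ≤ τ ^ 2 * D / 4) (hC : 0 < C)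
    (hCε : τ + 1 / C ≤ ε) (hθ : 0 < θ)
    (d1 : ∀ v, ((nb G v U).card : ℝ) ≤ 3 * (p * U.card))
    (d2 : (1 - 4 * τ) * (p * U.card) * U.card ≤ ∑ v ∈ U, ((nb G v U).card : ℝ))
    (d3 : ∀ v a, G.Adj v a →
      (((nb G v U).filter (bad v a ·)).card : ℝ) ≤ (1 / 2 - ε) * (p * U.card))
    (s1 : ∀ v, Spread c (nb G v U) (τ * D))
    (s2 : ∀ v a, G.Adj v a → Spread c ((nb G v U).filter (bad v a ·)) (τ * D))
    (s3 : Spread c U (τ * U.card / (l * B))) :
    ∃ s : ℕ, Cover G bad U s ∧ (s : ℝ) ≤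
      Fintype.card V * (54 * τ + 1 / B + 12 / l + 2 * (θ + C ^ 4 / (B * θ))) := by
  have hQ : (Fintype.card (Fin l × Fin B) : ℝ) = l * B := by simp
  have hl' : (2 : ℝ) ≤ l := by exact_mod_cast hl2
  have hB' : (1 : ℝ) ≤ B := by exact_mod_cast hB
  have hC' : (0 : ℝ) < C := by exact_mod_cast hC
  have hD0 : 0 < D := by
    by_contra h
    nlinarith
  have : Nontrivial (Fin l) := Fin.nontrivial_iff_two_le.2 hl2
  have : Nonempty (Fin B) := ⟨⟨0, hB⟩⟩
  obtain ⟨Bd, hBd, hgood⟩ : ∃ Bd : Finset V, (Bd.card : ℝ) ≤ τ * U.card ∧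
      ∀ v ∈ U \ Bd, ((nb G v U).card : ℝ) ≤ (1 + 4 * τ) * (p * U.card) :=
    ⟨_, few_bad hG hp hτ (by linarith) hD0 (hQ ▸ hDe) hK s1 (hQ ▸ s3), fun v hv => by
      by_contra h
      exact (mem_sdiff.1 hv).2 (mem_filter.2 ⟨(mem_sdiff.1 hv).1, not_le.1 h⟩)⟩
  have hu0 : (0 : ℝ) ≤ U.card := by positivity
  have hdiv : ∀ x y : ℝ, x ≤ y * (p * U.card) → x / (l * B) ≤ y * D := fun x y h => by
    rw [hDe, ← mul_div_assoc]
    exact div_le_div_of_nonneg_right h (by positivity)
  have hle : ∀ (S : Finset V) (T : Finset (Fin l × Fin B)) (y : ℝ), Spread c S (τ * D) →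
      (S.card : ℝ) ≤ y * (p * U.card) → ((cf c S T).card : ℝ) ≤ T.card * ((y + τ) * D) := by
    intro S T y h1 h2
    refine (h1.le T).trans (mul_le_mul_of_nonneg_left ?_ (by positivity))
    rw [hQ]
    linarith [hdiv _ _ h2]
  obtain ⟨a, ha1, ha2, ha3⟩ : ∃ a : ℤ, (a : ℝ) ≤ (1 + 5 * τ) * D ∧ D ≤ a ∧
      ∀ z : ℤ, (z : ℝ) ≤ (1 + 5 * τ) * D → z ≤ a :=
    ⟨⌊(1 + 5 * τ) * D⌋, Int.floor_le _, by linarith [Int.lt_floor_add_one ((1 + 5 * τ) * D)],
      fun z hz => Int.le_floor.2 hz⟩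
  have ha0 : (0 : ℝ) < a := by linarith
  obtain ⟨Nx, hNx⟩ : ∃ Nx : V → Finset V, ∀ v, Nx v = cf c (nb G v U) (univ.filter (rx (c v))) :=
    ⟨_, fun _ => rfl⟩
  obtain ⟨Ny, hNy⟩ : ∃ Ny : V → Finset V, ∀ v, Ny v = cf c (nb G v U) (univ.filter (ry (c v))) :=
    ⟨_, fun _ => rfl⟩
  have mNx : ∀ v x, x ∈ Nx v ↔ x ∈ U ∧ G.Adj v x ∧ rx (c v) (c x) := fun v x => by
    simp [hNx, nb, and_assoc]
  have mNy : ∀ v x, x ∈ Ny v ↔ x ∈ U ∧ G.Adj v x ∧ ry (c v) (c x) := fun v x => by
    simp [hNy, nb, and_assoc]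
  obtain ⟨X, hX⟩ : ∃ X : V → Finset V, ∀ v, X v = if v ∈ U \ Bd then Nx v \ Bd else ∅ :=
    ⟨_, fun _ => rfl⟩
  obtain ⟨Y, hY⟩ : ∃ Y : V → Finset V, ∀ v, Y v = if v ∈ U \ Bd then Ny v \ Bd else ∅ :=
    ⟨_, fun _ => rfl⟩
  have mX : ∀ v x, x ∈ X v ↔ v ∈ U \ Bd ∧ x ∈ Nx v ∧ x ∉ Bd := fun v x => by
    rw [hX]; split_ifs with h <;> simp [h]
  have mY : ∀ v x, x ∈ Y v ↔ v ∈ U \ Bd ∧ x ∈ Ny v ∧ x ∉ Bd := fun v x => by
    rw [hY]; split_ifs with h <;> simp [h]
  have rxs : ∀ q q' : Fin l × Fin B, rx q q' → rx q' q := fun q q' h => ⟨h.1.symm, h.2.symm⟩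
  have rys : ∀ q q' : Fin l × Fin B, ry q q' → ry q' q := fun q q' h => ⟨h.1.symm, h.2.symm⟩
  have hcell : ∀ v (Z : Finset V) (T : Finset (Fin l × Fin B)) (m : ℕ), T.card ≤ m →
      (∀ x ∈ Z, v ∈ U \ Bd ∧ x ∈ cf c (nb G v U) T) → (Z.card : ℤ) ≤ m * a := by
    intro v Z T m hT hZ
    rcases Z.eq_empty_or_nonempty with rfl | ⟨x, hx⟩
    · simp only [card_empty, Nat.cast_zero]
      exact mul_nonneg (by positivity) (by exact_mod_cast ha0.le)
    have h1 : Z.card ≤ ∑ q ∈ T, (cf c (nb G v U) {q}).card := by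
      rw [← card_cf]
      exact card_le_card fun y hy => (hZ y hy).2
    have h2 : ∀ q ∈ T, ((cf c (nb G v U) {q}).card : ℤ) ≤ a := by
      intro q _
      refine ha3 _ ?_
      have := hle _ {q} _ (s1 v) (hgood v (hZ x hx).1)
      simp only [card_singleton, Nat.cast_one, one_mul] at this
      push_cast
      linarith
    have h3 := sum_le_sum h2
    rw [sum_const, nsmul_eq_mul] at h3
    have h4 : (Z.card : ℤ) ≤ ∑ q ∈ T, ((cf c (nb G v U) {q}).card : ℤ) := by
      exact_mod_cast h1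
    have h5 : (T.card : ℤ) * a ≤ m * a :=
      mul_le_mul_of_nonneg_right (by exact_mod_cast hT) (by exact_mod_cast ha0.le)
    linarith
  have hbad : ∀ v x (Z : Finset V) (T : Finset (Fin l × Fin B)) (m : ℕ), T.card ≤ m →
      G.Adj v x → (∀ y ∈ Z, y ∈ cf c (nb G v U) T ∧ bad v x y) →
      2 * (C : ℤ) * (Z.card : ℤ) + 2 * (m * a) ≤ C * (m * a) := by
    intro v x Z T m hT hx hZ
    have h1 := hle _ T _ (s2 v x hx) (d3 v x hx)
    have h2 : (Z.card : ℝ) ≤ (cf c ((nb G v U).filter (bad v x ·)) T).card := by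
      exact_mod_cast card_le_card fun y hy =>
        mem_cf.2 ⟨mem_filter.2 ⟨(mem_cf.1 (hZ y hy).1).1, (hZ y hy).2⟩, (mem_cf.1 (hZ y hy).1).2⟩
    have h3 : (T.card : ℝ) ≤ m := by exact_mod_cast hT
    have h4 : (T.card : ℝ) * ((1 / 2 - ε + τ) * D) ≤ m * ((1 / 2 - 1 / C) * a) := by
      have : 0 ≤ 1 / 2 - ε + τ := by linarith
      exact mul_le_mul h3 (mul_le_mul (by linarith) ha2 hD0.le (by linarith)) (by positivity)
        (by positivity)
    have h5 : 2 * (C : ℝ) * (m * ((1 / 2 - 1 / C) * a)) + 2 * (m * a) = C * (m * a) := by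
      field_simp; ring
    have h6 : 2 * (C : ℝ) * (Z.card : ℝ) + 2 * (m * a) ≤ C * (m * a) := by
      have := mul_le_mul_of_nonneg_left (h2.trans (h1.trans h4)) (show 0 ≤ 2 * (C : ℝ) by positivity)
      linarith
    exact_mod_cast h6
  obtain ⟨s, hs1, hs2⟩ := cover_abs hs (U := U) (X := X) (Y := Y) (β := fun v => (c v).2)
    (par := fun v => (c v).1.1 % 2 = 0) (lev := fun v => (c v).1.1) (a := a) (b := B * a) (C := C)
    (b' := a) (θ := θ)
    { xs := fun v x h => by
        rw [mX, mNx] at h ⊢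
        exact ⟨mem_sdiff.2 ⟨h.2.1.1, h.2.2⟩, ⟨(mem_sdiff.1 h.1).1, h.2.1.2.1.symm,
          rxs _ _ h.2.1.2.2⟩, (mem_sdiff.1 h.1).2⟩
      ys := fun v x h => by
        rw [mY, mNy] at h ⊢
        exact ⟨mem_sdiff.2 ⟨h.2.1.1, h.2.2⟩, ⟨(mem_sdiff.1 h.1).1, h.2.1.2.1.symm,
          rys _ _ h.2.1.2.2⟩, (mem_sdiff.1 h.1).2⟩
      xp := fun v x h => by
        rw [mX, mNx] at h
        have := h.2.1.2.2.2
        exact ⟨(mem_sdiff.1 h.1).1, h.2.1.2.1, h.2.1.2.2.1, by omega, by omega⟩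
      yp := fun v x h => by
        rw [mY, mNy] at h
        have := h.2.1.2.2.2
        exact ⟨(mem_sdiff.1 h.1).1, h.2.1.2.1, h.2.1.2.2.1, by omega, by omega⟩
      xc := fun v => by
        have := hcell v (X v) _ 1 (card_rx hl (c v)).le fun x hx =>
          ⟨((mX v x).1 hx).1, hNx v ▸ ((mX v x).1 hx).2.1⟩
        simpa using this
      yc := fun v => hcell v (Y v) _ B (card_ry_le (c v)) fun x hx =>
          ⟨((mY v x).1 hx).1, hNy v ▸ ((mY v x).1 hx).2.1⟩
      yb := fun v j => by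
        have := fun Z => hcell v Z _ 1 (card_ry_one (c v) j)
        simp only [Nat.cast_one, one_mul] at this
        exact_mod_cast this _ fun x hx => by
          simp only [mem_filter] at hx
          have h1 := (mY v x).1 hx.1
          have h2 := (mNy v x).1 h1.2.1
          exact ⟨h1.1, mem_cf.2 ⟨mem_filter.2 ⟨h2.1, h2.2.1⟩,
            mem_filter.2 ⟨mem_univ _, h2.2.2, hx.2⟩⟩⟩
      bx := fun v x hx => hbad v x _ _ B (card_ry_le (c v))
        ((mNx v x).1 ((mX v x).1 hx).2.1).2.1 fun y hy =>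
          ⟨hNy v ▸ ((mY v y).1 (mem_filter.1 hy).1).2.1, (mem_filter.1 hy).2⟩
      by' := fun v y hy => by
        have := hbad v y ((X v).filter (bad v · y)) _ 1 (card_rx hl (c v)).le
          ((mNy v y).1 ((mY v y).1 hy).2.1).2.1 fun x hx =>
            ⟨hNx v ▸ ((mX v x).1 (mem_filter.1 hx).1).2.1, hs _ _ _ (mem_filter.1 hx).2⟩
        simpa using this }
    (by exact_mod_cast ha0) (mul_pos (by exact_mod_cast hB) (by exact_mod_cast ha0))
    (by exact_mod_cast hC) hθ
  refine ⟨s, hs1, hs2.trans ?_⟩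
  clear hs2 hcell hbad
  have e1 := sum_good U Bd Nx (m := 4 * D) (fun v hv x hx => by
    rw [mNx] at hx ⊢; exact ⟨hv, hx.2.1.symm, rxs _ _ hx.2.2⟩) (fun v => by
    have := hle _ (univ.filter (rx (c v))) _ (s1 v) (d1 v)
    rw [card_rx hl, ← hNx] at this
    simp only [Nat.cast_one, one_mul] at this
    nlinarith)
  have e2 := sum_good U Bd Ny (m := B * (4 * D)) (fun v hv x hx => by
    rw [mNy] at hx ⊢; exact ⟨hv, hx.2.1.symm, rys _ _ hx.2.2⟩) (fun v => by
    rw [hNy]
    refine (hle _ (univ.filter (ry (c v))) _ (s1 v) (d1 v)).trans ?_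
    exact mul_le_mul (by exact_mod_cast card_ry_le (c v)) (by nlinarith) (by positivity)
      (by positivity))
  simp only [← hX] at e1
  simp only [← hY] at e2
  have e3 : (1 - 5 * τ) * D * U.card ≤ ∑ v ∈ U, (((nb G v U).card : ℝ) / (l * B) - τ * D) := by
    rw [sum_sub_distrib, ← sum_div, sum_const, nsmul_eq_mul]
    have := div_le_div_of_nonneg_right d2 (show (0 : ℝ) ≤ l * B by positivity)
    have h2 : (1 - 4 * τ) * (p * U.card) * U.card / (l * B) = (1 - 4 * τ) * D * U.card := by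
      rw [hDe]; ring
    linarith
  have e4 : (1 - 5 * τ) * D * U.card ≤ ∑ v ∈ U, ((Nx v).card : ℝ) := by
    refine e3.trans (sum_le_sum fun v _ => ?_)
    have := (s1 v).ge (univ.filter (rx (c v)))
    rw [card_rx hl, hQ, ← hNx] at this
    simpa using this
  have e5 : (B - 1) * ((1 - 5 * τ) * D * U.card - 12 * D * U.card / l) ≤
      ∑ v ∈ U, ((Ny v).card : ℝ) := by
    obtain ⟨T, hT1, hT2⟩ : ∃ T : Finset (Fin l × Fin B), T.card ≤ 2 * B ∧
        ∀ q ∉ T, q.1.1 ≠ 0 ∧ q.1.1 + 1 ≠ l := ⟨_, card_bdry, fun q hq => by simpa using hq⟩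
    have h1 : ∀ v ∈ U, (B - 1) * ((((nb G v U).card : ℝ) / (l * B) - τ * D) -
        if v ∈ cf c U T then 3 * D else 0) ≤ ((Ny v).card : ℝ) := by
      intro v hv
      have h0 : (0 : ℝ) ≤ (Ny v).card := by positivity
      split_ifs with h
      · have := hdiv _ _ (d1 v)
        nlinarith
      · have h' := hT2 _ fun h2 => h (mem_cf.2 ⟨hv, h2⟩)
        have h2 := (s1 v).ge (univ.filter (ry (c v)))
        have h3 : (B : ℝ) ≤ (univ.filter (ry (c v))).card + 1 := by
          exact_mod_cast card_ry_ge hl (c v) h'.1 h'.2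
        rw [hQ, ← hNy] at h2
        rcases le_total 0 (((nb G v U).card : ℝ) / (l * B) - τ * D) with h4 | h4
        · nlinarith
        · nlinarith
    refine le_trans ?_ (sum_le_sum h1)
    rw [← mul_sum, sum_sub_distrib, sum_ite_mem, sum_const, nsmul_eq_mul,
      inter_eq_right.2 (fun x hx => (mem_cf.1 hx).1)]
    refine mul_le_mul_of_nonneg_left ?_ (by linarith)
    have h2 := s3.le T
    have h3 : (T.card : ℝ) ≤ 2 * B := by exact_mod_cast hT1
    rw [hQ] at h2
    have h4 : U.card / ((l : ℝ) * B) + τ * U.card / (l * B) ≤ 2 * U.card / (l * B) := by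
      rw [← add_div]
      exact div_le_div_of_nonneg_right (by nlinarith) (by positivity)
    have h5 := h2.trans (mul_le_mul h3 h4 (by positivity) (by positivity))
    have h6 : 2 * (B : ℝ) * (2 * U.card / (l * B)) = 4 * U.card / l := by field_simp; ring
    have h7 : 12 * D * U.card / l = 4 * U.card / l * (3 * D) := by ring
    rw [h6] at h5
    have h8 := mul_le_mul_of_nonneg_right h5 (show 0 ≤ 3 * D by positivity)
    linarith
  have hn : (U.card : ℝ) ≤ Fintype.card V := by exact_mod_cast card_le_univ U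
  have e6 := cover_num hτ hD0 hu0 ha0 ha1 hB' (by linarith) (sum_nonneg fun _ _ => by positivity)
    (sum_nonneg fun _ _ => by positivity) hBd e1 e2 e4 e5
  simp only [sum_sub_distrib, ← mul_sum, ← sum_div, sum_const, nsmul_eq_mul]
  push_cast
  have e8 : (C : ℝ) ^ 4 * a / (B * a * θ) = C ^ 4 / (B * θ) := by field_simp
  rw [e8]
  have e9 : U.card * (54 * τ + 1 / B + 12 / l) ≤ Fintype.card V * (54 * τ + 1 / B + 12 / l) :=
    mul_le_mul_of_nonneg_right hn (by positivity)
  linarith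

end Pool.Agent.MP_d6d719_co

end MrgPart0

-- ======== part 1: formerly Pool.Agent.MP_d6d719_co.Tail
section MrgPart1

set_option autoImplicit false

open Finset
open scoped Classical

namespace Pool.Agent.MP_d6d719_co

section tail

variable {ι Ω : Type*} [Fintype ι] [Fintype Ω] {w : ι → Ω → ℝ}

theorem PE_exp (h0 : ∀ j s, 0 ≤ w j s) (h1 : ∀ j, ∑ s, w j s = 1) (S : Finset ι)
    (P : ι → Ω → Prop) [∀ i s, Decidable (P i s)] {q : ℝ}
    (hq : ∀ i ∈ S, ∑ s, w i s * (if P i s then 1 else 0) = q) (t : ℝ) :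
    PE w (fun σ => Real.exp (t * (S.filter fun i => P i (σ i)).card)) ≤
      Real.exp (q * S.card * (Real.exp t - 1)) := by
  have e1 : (fun σ : ι → Ω => Real.exp (t * (S.filter fun i => P i (σ i)).card)) =
      fun σ => ∏ i, if i ∈ S then (if P i (σ i) then Real.exp t else 1) else 1 := by
    funext σ
    rw [Fintype.prod_ite_mem, prod_ite, prod_const_one, mul_one, prod_const, ← Real.exp_nat_mul,
      mul_comm]
  rw [e1, PE_prod (fun i s => if i ∈ S then (if P i s then Real.exp t else 1) else 1)]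
  have e2 : Real.exp (q * S.card * (Real.exp t - 1)) =
      ∏ i, if i ∈ S then Real.exp (q * (Real.exp t - 1)) else 1 := by
    rw [Fintype.prod_ite_mem, prod_const, ← Real.exp_nat_mul]
    congr 1; ring
  rw [e2]
  refine prod_le_prod (fun i _ => sum_nonneg fun s _ => mul_nonneg (h0 i s) ?_) fun i _ => ?_
  · split_ifs <;> positivity
  · split_ifs with h
    · have e3 : ∑ s, w i s * (if P i s then Real.exp t else 1) =
          ∑ s, (w i s + w i s * (if P i s then 1 else 0) * (Real.exp t - 1)) :=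
        sum_congr rfl fun s _ => by split_ifs <;> ring
      rw [e3, sum_add_distrib, ← sum_mul, h1, hq i h]
      linarith [Real.add_one_le_exp (q * (Real.exp t - 1))]
    · simp [h1]

theorem PE_markov (h0 : ∀ j s, 0 ≤ w j s) (E : (ι → Ω) → Prop) [DecidablePred E] (f : (ι → Ω) → ℝ) (a : ℝ)
    (h : ∀ σ, E σ → a ≤ f σ) :
    PE w (fun σ => if E σ then 1 else 0) ≤ Real.exp (-a) * PE w fun σ => Real.exp (f σ) := by
  rw [← PE_mul]
  refine PE_mono h0 fun σ => ?_
  split_ifs with h2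
  · rw [← Real.exp_add]
    exact Real.one_le_exp (by linarith [h σ h2])
  · positivity

theorem tail_up (h0 : ∀ j s, 0 ≤ w j s) (h1 : ∀ j, ∑ s, w j s = 1) (S : Finset ι)
    (P : ι → Ω → Prop) [∀ i s, Decidable (P i s)] {q : ℝ} (hq0 : 0 ≤ q)
    (hq : ∀ i ∈ S, ∑ s, w i s * (if P i s then 1 else 0) = q) {t z : ℝ} (ht : 0 ≤ t)
    (ht1 : t ≤ 1) (E : (ι → Ω) → Prop) [DecidablePred E]
    (hE : ∀ σ, E σ → q * S.card * (1 + t) + z ≤ (S.filter fun i => P i (σ i)).card) :
    PE w (fun σ => if E σ then 1 else 0) ≤ Real.exp (-(t * z)) := by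
  refine (PE_markov h0 E _ (t * (q * S.card * (1 + t) + z)) fun σ h =>
    mul_le_mul_of_nonneg_left (hE σ h) ht).trans ?_
  refine (mul_le_mul_of_nonneg_left (PE_exp h0 h1 S P hq t) (by positivity)).trans ?_
  rw [← Real.exp_add]
  refine Real.exp_le_exp.2 ?_
  have h2 := (abs_le.1 (Real.abs_exp_sub_one_sub_id_le (x := t) (by rw [abs_of_nonneg ht]; exact ht1))).2
  have h3 : 0 ≤ q * S.card := by positivity
  nlinarith

theorem tail_lo (h0 : ∀ j s, 0 ≤ w j s) (h1 : ∀ j, ∑ s, w j s = 1) (S : Finset ι)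
    (P : ι → Ω → Prop) [∀ i s, Decidable (P i s)] {q : ℝ} (hq0 : 0 ≤ q)
    (hq : ∀ i ∈ S, ∑ s, w i s * (if P i s then 1 else 0) = q) {t z : ℝ} (ht : 0 ≤ t)
    (ht1 : t ≤ 1) (E : (ι → Ω) → Prop) [DecidablePred E]
    (hE : ∀ σ, E σ → ((S.filter fun i => P i (σ i)).card : ℝ) ≤ q * S.card * (1 - t) - z) :
    PE w (fun σ => if E σ then 1 else 0) ≤ Real.exp (-(t * z)) := by
  refine (PE_markov h0 E (fun σ => -t * (S.filter fun i => P i (σ i)).card)
    (-t * (q * S.card * (1 - t) - z)) fun σ h => by nlinarith [hE σ h]).trans ?_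
  refine (mul_le_mul_of_nonneg_left (PE_exp h0 h1 S P hq (-t)) (by positivity)).trans ?_
  rw [← Real.exp_add]
  refine Real.exp_le_exp.2 ?_
  have h2 := (abs_le.1 (Real.abs_exp_sub_one_sub_id_le (x := -t)
    (by rw [abs_neg, abs_of_nonneg ht]; exact ht1))).2
  have h3 : 0 ≤ q * S.card := by positivity
  nlinarith

end tail

variable {V : Type} [Fintype V]

theorem exists_spread {κ I : Type} [Fintype κ] [Nonempty κ] (J : Finset I) (S : I → Finset V)
    (δ : I → ℝ) {t z : ℝ} (ht : 0 ≤ t) (ht1 : t ≤ 1)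
    (h : ∀ i ∈ J, t * ((S i).card / Fintype.card κ) + z ≤ δ i)
    (hs : J.card * (Fintype.card κ * (2 * Real.exp (-(t * z)))) < 1) :
    ∃ c : V → κ, ∀ i ∈ J, Spread c (S i) (δ i) := by
  have hQ : (0 : ℝ) < Fintype.card κ := by exact_mod_cast Fintype.card_pos
  set w : V → κ → ℝ := fun _ _ => 1 / Fintype.card κ with hw
  have h0 : ∀ j s, 0 ≤ w j s := fun _ _ => by positivity
  have h1 : ∀ j, ∑ s, w j s = 1 := fun _ => by
    simp only [hw, sum_const, card_univ, nsmul_eq_mul]; field_simp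
  have hq : ∀ q : κ, ∀ v, ∑ s, w v s * (if s ∈ ({q} : Finset κ) then 1 else 0) =
      1 / Fintype.card κ := fun q v => by simp [hw]
  obtain ⟨c, hc⟩ := PE_exists h0 h1 fun c => -1 * ∑ i ∈ J, ∑ q,
    ((if δ i < ((cf c (S i) {q}).card : ℝ) - (S i).card / Fintype.card κ then 1 else 0) +
      if ((cf c (S i) {q}).card : ℝ) - (S i).card / Fintype.card κ < -δ i then 1 else 0)
  simp only [PE_mul, PE_sum, PE_add] at hc
  have h2 : ∑ i ∈ J, ∑ q : κ, (PE w (fun c => if δ i < ((cf c (S i) {q}).card : ℝ) -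
      (S i).card / Fintype.card κ then 1 else 0) + PE w fun c => if ((cf c (S i) {q}).card : ℝ) -
      (S i).card / Fintype.card κ < -δ i then 1 else 0) ≤
      J.card * (Fintype.card κ * (2 * Real.exp (-(t * z)))) := by
    rw [← nsmul_eq_mul, ← sum_const]
    refine sum_le_sum fun i hi => ?_
    rw [← nsmul_eq_mul, ← card_univ, ← sum_const, two_mul]
    have h3 := h i hi
    refine sum_le_sum fun q _ => add_le_add
      (tail_up h0 h1 (S i) (fun _ s => s ∈ ({q} : Finset κ)) (by positivity) (fun v _ => hq q v)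
        ht ht1 _ fun σ hσ => ?_)
      (tail_lo h0 h1 (S i) (fun _ s => s ∈ ({q} : Finset κ)) (by positivity) (fun v _ => hq q v)
        ht ht1 _ fun σ hσ => ?_)
    · rw [one_div_mul_eq_div, show (S i).filter (fun v => σ v ∈ ({q} : Finset κ)) = cf σ (S i) {q}
        by ext; simp]
      rw [card_univ] at hσ
      linarith
    · rw [one_div_mul_eq_div, show (S i).filter (fun v => σ v ∈ ({q} : Finset κ)) = cf σ (S i) {q}
        by ext; simp]
      rw [card_univ] at hσ
      linarith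
  refine ⟨c, fun i hi q => ?_⟩
  by_contra hcon
  have h3 : (1 : ℝ) ≤ ∑ i ∈ J, ∑ q,
      ((if δ i < ((cf c (S i) {q}).card : ℝ) - (S i).card / Fintype.card κ then 1 else 0) +
        if ((cf c (S i) {q}).card : ℝ) - (S i).card / Fintype.card κ < -δ i then 1 else 0) := by
    refine le_trans (le_trans ?_ (single_le_sum (fun q _ => ?_) (mem_univ q)))
      (single_le_sum (fun i _ => sum_nonneg fun q _ => ?_) hi)
    · rw [abs_le, not_and_or, not_le, not_le] at hcon
      rcases hcon with h4 | h4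
      · rw [if_pos h4]; split_ifs <;> norm_num
      · rw [if_pos h4]; split_ifs <;> norm_num
    · split_ifs <;> norm_num
    · split_ifs <;> norm_num
  linarith

theorem exists_spread3 {κ : Type} [Fintype κ] [Nonempty κ] (G : SimpleGraph V)
    (bad : V → V → V → Prop) (U : Finset V) {t z D δ δ' : ℝ} (ht : 0 ≤ t) (ht1 : t ≤ 1)
    (hD : ∀ v, ((nb G v U).card : ℝ) ≤ D) (h1 : t * (D / Fintype.card κ) + z ≤ δ)
    (h2 : t * (U.card / Fintype.card κ) + z ≤ δ')
    (hs : (Fintype.card V * (Fintype.card V + 1) + 1) *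
      (Fintype.card κ * (2 * Real.exp (-(t * z)))) < 1) :
    ∃ c : V → κ, (∀ v, Spread c (nb G v U) δ) ∧
      (∀ v a, Spread c ((nb G v U).filter (bad v a ·)) δ) ∧ Spread c U δ' := by
  obtain ⟨c, hc⟩ := exists_spread (κ := κ) (univ : Finset (Option (V × Option V)))
    (fun i => match i with
      | none => U
      | some (v, none) => nb G v U
      | some (v, some a) => (nb G v U).filter (bad v a ·))
    (fun i => match i with
      | none => δ'
      | some _ => δ) ht ht1 (by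
      rintro (_ | ⟨v, _ | a⟩) _
      · exact h2
      · refine le_trans ?_ h1
        have := hD v
        simp only
        gcongr
      · refine le_trans ?_ h1
        have : (((nb G v U).filter (bad v a ·)).card : ℝ) ≤ D :=
          le_trans (by exact_mod_cast card_filter_le _ _) (hD v)
        simp only
        gcongr)
    (by simpa using hs)
  exact ⟨c, fun v => hc (some (v, none)) (mem_univ _), fun v a => hc (some (v, some a)) (mem_univ _),
    hc none (mem_univ _)⟩

end Pool.Agent.MP_d6d719_co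

end MrgPart1

-- ======== part 2: formerly Pool.Agent.MP_d6d719_co.h74.Defs
section MrgPart2

set_option autoImplicit false

open Finset

namespace Pool.Agent.MP_d6d719_co.H74

section Count

variable {α β : Type*}

open Classical in
/-- Elements of `Y` related to `x`. -/
noncomputable def nb (R : α → β → Prop) (x : α) (Y : Finset β) : Finset β := Y.filter (R x)

/-- Number of elements of `Y` related to `x`. -/
noncomputable def deg (R : α → β → Prop) (x : α) (Y : Finset β) : ℝ := (nb R x Y).card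

/-- Number of related pairs in `X × Y`. -/
noncomputable def ec (R : α → β → Prop) (X : Finset α) (Y : Finset β) : ℝ := ∑ x ∈ X, deg R x Y

/-- Small sets expand. -/
def Small (g : α → β → Prop) (a D s : ℝ) : Prop :=
  ∀ (X : Finset α) (Y : Finset β), X.Nonempty → (Y.card : ℝ) ≤ s → (Y.card : ℝ) ≤ D * X.card →
    ec g X Y < a * X.card

/-- Small sets span few edges. -/
def Sparse (g : α → β → Prop) (κ s : ℝ) : Prop :=
  ∀ (X : Finset α) (Y : Finset β), (X.card : ℝ) + Y.card ≤ s →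
    ec g X Y ≤ (1 + κ) * (X.card + Y.card) + 6

variable {R R' : α → β → Prop} {x : α} {y : β} {X X' : Finset α} {Y Y' : Finset β}

@[simp] theorem mem_nb : y ∈ nb R x Y ↔ y ∈ Y ∧ R x y := by
  classical
  simp [nb]

theorem nb_subset : nb R x Y ⊆ Y := fun _ h => (mem_nb.1 h).1

theorem deg_nonneg : 0 ≤ deg R x Y := Nat.cast_nonneg _

theorem deg_le_card : deg R x Y ≤ Y.card := Nat.cast_le.2 (card_le_card nb_subset)

theorem deg_le_of_subset {S : Finset β} (h : ∀ y ∈ Y, R x y → y ∈ S) : deg R x Y ≤ S.card :=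
  Nat.cast_le.2 (card_le_card fun y hy => h y (mem_nb.1 hy).1 (mem_nb.1 hy).2)

theorem le_deg_of_subset {S : Finset β} (h : ∀ y ∈ S, y ∈ Y ∧ R x y) : (S.card : ℝ) ≤ deg R x Y :=
  Nat.cast_le.2 (card_le_card fun y hy => mem_nb.2 (h y hy))

theorem deg_mono' {x' : α} (h : ∀ y ∈ Y, R x y → y ∈ Y' ∧ R' x' y) : deg R x Y ≤ deg R' x' Y' :=
  le_deg_of_subset fun y hy => h y (mem_nb.1 hy).1 (mem_nb.1 hy).2

theorem deg_mono (h : Y ⊆ Y') : deg R x Y ≤ deg R x Y' := deg_mono' fun _ hy hr => ⟨h hy, hr⟩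

theorem deg_mono_rel (h : ∀ y, R x y → R' x y) : deg R x Y ≤ deg R' x Y :=
  deg_mono' fun y hy hr => ⟨hy, h y hr⟩

theorem deg_le_add {Y₁ Y₂ : Finset β} (h : ∀ y ∈ Y, R x y → y ∈ Y₁ ∨ y ∈ Y₂) :
    deg R x Y ≤ deg R x Y₁ + deg R x Y₂ := by
  classical
  have h1 : nb R x Y ⊆ nb R x Y₁ ∪ nb R x Y₂ := fun y hy => by
    obtain ⟨a, b⟩ := mem_nb.1 hy
    rcases h y a b with c | c
    · exact mem_union_left _ (mem_nb.2 ⟨c, b⟩)
    · exact mem_union_right _ (mem_nb.2 ⟨c, b⟩)
  have := (card_le_card h1).trans (card_union_le _ _)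
  unfold deg
  exact_mod_cast this

theorem deg_le_add_card {Y₁ Y₂ : Finset β} (h : ∀ y ∈ Y, R x y → y ∈ Y₁ ∨ y ∈ Y₂) :
    deg R x Y ≤ deg R x Y₁ + Y₂.card := (deg_le_add h).trans (by linarith [@deg_le_card _ _ R x Y₂])

theorem exists_of_deg_pos (h : 0 < deg R x Y) : ∃ y ∈ Y, R x y := by
  have : 0 < (nb R x Y).card := by
    unfold deg at h
    exact_mod_cast h
  obtain ⟨y, hy⟩ := card_pos.1 this
  exact ⟨y, mem_nb.1 hy⟩

theorem deg_eq_zero (h : ∀ y ∈ Y, ¬ R x y) : deg R x Y = 0 :=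
  le_antisymm (not_lt.1 fun h0 => by
    obtain ⟨y, a, b⟩ := exists_of_deg_pos h0
    exact h y a b) deg_nonneg

open Classical in
theorem deg_eq_sum : deg R x Y = ∑ y ∈ Y, if R x y then (1 : ℝ) else 0 := by
  unfold deg nb
  rw [card_filter]
  push_cast
  rfl

theorem ec_nonneg : 0 ≤ ec R X Y := sum_nonneg fun _ _ => deg_nonneg

theorem ec_flip : ec (fun y x => R x y) Y X = ec R X Y := by
  classical
  unfold ec
  simp only [deg_eq_sum]
  exact sum_comm

theorem ec_mono (hX : X ⊆ X') (hY : Y ⊆ Y') : ec R X Y ≤ ec R X' Y' :=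
  (sum_le_sum fun _ _ => deg_mono hY).trans
    (sum_le_sum_of_subset_of_nonneg hX fun _ _ _ => deg_nonneg)

theorem ec_mono_rel (h : ∀ x y, R x y → R' x y) : ec R X Y ≤ ec R' X Y :=
  sum_le_sum fun x _ => deg_mono_rel (h x)

theorem ec_le_of_deg {a : ℝ} (h : ∀ x ∈ X, deg R x Y ≤ a) : ec R X Y ≤ a * X.card := by
  have := sum_le_sum h
  rw [sum_const, nsmul_eq_mul] at this
  unfold ec
  linarith

theorem le_ec_of_deg {a : ℝ} (h : ∀ x ∈ X, a ≤ deg R x Y) : a * X.card ≤ ec R X Y := by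
  have := sum_le_sum h
  rw [sum_const, nsmul_eq_mul] at this
  unfold ec
  linarith

theorem exists_of_ec_pos (h : 0 < ec R X Y) : ∃ x ∈ X, ∃ y ∈ Y, R x y := by
  by_contra hc
  push Not at hc
  have : ec R X Y = 0 := sum_eq_zero fun x hx => deg_eq_zero (hc x hx)
  linarith

theorem ec_eq_zero (h : ∀ x ∈ X, ∀ y ∈ Y, ¬ R x y) : ec R X Y = 0 :=
  sum_eq_zero fun x hx => deg_eq_zero (h x hx)

open Classical in
theorem ec_eq_card : ec R X Y = (((X ×ˢ Y).filter (fun e => R e.1 e.2)).card : ℝ) := by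
  unfold ec
  simp only [deg_eq_sum]
  rw [card_filter, sum_product]
  push_cast
  rfl

theorem deg_map {γ : Type*} (f : γ ↪ β) (Z : Finset γ) :
    deg R x (Z.map f) = deg (fun x z => R x (f z)) x Z := by
  classical
  simp only [deg_eq_sum, sum_map]

theorem ec_map {γ δ : Type*} (f : γ ↪ α) (f' : δ ↪ β) (Z : Finset γ) (Z' : Finset δ) :
    ec R (Z.map f) (Z'.map f') = ec (fun z z' => R (f z) (f' z')) Z Z' := by
  classical
  unfold ec
  simp only [sum_map, deg_eq_sum]

theorem Small.pull {γ δ : Type*} {g : α → β → Prop} {a D s : ℝ} (h : Small g a D s)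
    (f : γ ↪ α) (f' : δ ↪ β) : Small (fun z z' => g (f z) (f' z')) a D s := by
  intro X Y h1 h2 h3
  have := h (X.map f) (Y.map f') (by simpa using h1) (by simpa using h2) (by simpa using h3)
  rwa [ec_map, card_map] at this

theorem Sparse.flip {g : α → β → Prop} {κ s : ℝ} (h : Sparse g κ s) :
    Sparse (fun y x => g x y) κ s := by
  intro X Y h1
  rw [ec_flip]
  have := h Y X (by linarith)
  linarith

end Count

section Windows

variable {ι : Type*} [DecidableEq ι]

/-- The points at distance less than `l` from `c` along `σ`. -/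
noncomputable def win (σ : Equiv.Perm ι) (l : ℕ) (c : ι) : Finset ι :=
  (Finset.Ioo (-(l : ℤ)) l).image (fun i : ℤ => (σ ^ i) c)

/-- Union of windows. -/
noncomputable def wins (σ : Equiv.Perm ι) (l : ℕ) (C : Finset ι) : Finset ι := C.biUnion (win σ l)

/-- Few points have many neighbours in a small number of windows. -/
def FewBad (g : ι → ι → Prop) (l q : ℕ) (a b : ℝ) : Prop :=
  ∀ (σ : Equiv.Perm ι) (B : Finset ι),
    (∀ x ∈ B, ∃ C : Finset ι, C.card ≤ q ∧ a ≤ deg g x (wins σ l C)) → (B.card : ℝ) ≤ b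

open Classical in
/-- A small set of pairs determined by a sparse subrelation contains few further related pairs. -/
def Boost {δ : Type*} (g : ι → ι → Prop) (NB : δ → Finset (ι × ι) → Finset (ι × ι))
    (m β t : ℝ) : Prop :=
  ∀ (ω : δ) (H : Finset (ι × ι)), (∀ e ∈ H, g e.1 e.2) → (H.card : ℝ) ≤ m →
    ((NB ω H).card : ℝ) ≤ β → (((NB ω H \ H).filter (fun e => g e.1 e.2)).card : ℝ) ≤ t

theorem mem_win {σ : Equiv.Perm ι} {l : ℕ} {c x : ι} :
    x ∈ win σ l c ↔ ∃ i : ℤ, -(l : ℤ) < i ∧ i < l ∧ (σ ^ i) c = x := by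
  simp [win, and_assoc]

theorem mem_wins {σ : Equiv.Perm ι} {l : ℕ} {C : Finset ι} {x : ι} :
    x ∈ wins σ l C ↔ ∃ c ∈ C, x ∈ win σ l c := by
  simp [wins]

theorem card_win_le (σ : Equiv.Perm ι) (l : ℕ) (c : ι) : (win σ l c).card ≤ 2 * l := by
  refine card_image_le.trans ?_
  rw [Int.card_Ioo]
  omega

theorem card_wins_le (σ : Equiv.Perm ι) (l : ℕ) (C : Finset ι) :
    (wins σ l C).card ≤ 2 * l * C.card := by
  refine card_biUnion_le.trans ?_
  have := sum_le_sum (s := C) fun c _ => card_win_le σ l c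
  rw [sum_const, smul_eq_mul] at this
  linarith

theorem win_symm {σ : Equiv.Perm ι} {l : ℕ} {c x : ι} (h : x ∈ win σ l c) : c ∈ win σ l x := by
  obtain ⟨i, h1, h2, rfl⟩ := mem_win.1 h
  refine mem_win.2 ⟨-i, by omega, by omega, ?_⟩
  rw [← Equiv.Perm.mul_apply, ← zpow_add]
  simp

theorem self_mem_win {σ : Equiv.Perm ι} {l : ℕ} (hl : 0 < l) (c : ι) : c ∈ win σ l c :=
  mem_win.2 ⟨0, by omega, by omega, rfl⟩

theorem win_inv (σ : Equiv.Perm ι) (l : ℕ) (c : ι) : win σ⁻¹ l c = win σ l c := by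
  ext x
  simp only [mem_win]
  constructor
  · rintro ⟨i, h1, h2, h3⟩
    exact ⟨-i, by omega, by omega, by simpa using h3⟩
  · rintro ⟨i, h1, h2, h3⟩
    exact ⟨-i, by omega, by omega, by simpa using h3⟩

theorem wins_mono {σ : Equiv.Perm ι} {l : ℕ} {C C' : Finset ι} (h : C ⊆ C') :
    wins σ l C ⊆ wins σ l C' := biUnion_subset_biUnion_of_subset_left _ h

end Windows

section Graph

variable {V : Type*} (G : SimpleGraph V)

/-- Small sets expand. -/
def G3 (a D s : ℝ) : Prop :=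
  ∀ X Y : Finset V, Disjoint X Y → X.Nonempty → (Y.card : ℝ) ≤ s → (Y.card : ℝ) ≤ D * X.card →
    ec G.Adj X Y < a * X.card

/-- Small sets span few edges. -/
def G4 (κ s : ℝ) : Prop :=
  ∀ X Y : Finset V, Disjoint X Y → (X.card : ℝ) + Y.card ≤ s →
    ec G.Adj X Y ≤ (1 + κ) * (X.card + Y.card) + 6

/-- The window property for every pair of disjoint embeddings. -/
def G5 (ι : Type*) [DecidableEq ι] (l q : ℕ) (a b : ℝ) : Prop :=
  ∀ o i : ι ↪ V, (∀ u w, o u ≠ i w) → FewBad (fun u w => G.Adj (o u) (i w)) l q a b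

/-- The booster property for every pair of disjoint embeddings. -/
def G6 {ι δ : Type*} [DecidableEq ι] (NB : δ → Finset (ι × ι) → Finset (ι × ι)) (m β t : ℝ) :
    Prop :=
  ∀ o i : ι ↪ V, (∀ u w, o u ≠ i w) → Boost (fun u w => G.Adj (o u) (i w)) NB m β t

variable {G}

theorem disjoint_map_of {α β : Type*} {o : α ↪ V} {i : β ↪ V} (h : ∀ u w, o u ≠ i w)
    (X : Finset α) (Y : Finset β) : Disjoint (X.map o) (Y.map i) := by
  rw [disjoint_left]
  intro v h1 h2
  obtain ⟨a, -, rfl⟩ := mem_map.1 h1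
  obtain ⟨b, -, e⟩ := mem_map.1 h2
  exact h a b e.symm

theorem G3.pull {α β : Type*} {a D s : ℝ} (h : G3 G a D s) (o : α ↪ V) (i : β ↪ V)
    (hd : ∀ u w, o u ≠ i w) : Small (fun u w => G.Adj (o u) (i w)) a D s := by
  intro X Y h1 h2 h3
  have := h _ _ (disjoint_map_of hd X Y) (by simpa using h1) (by simpa using h2)
    (by simpa using h3)
  rwa [ec_map, card_map] at this

theorem G4.pull {α β : Type*} {κ s : ℝ} (h : G4 G κ s) (o : α ↪ V) (i : β ↪ V)
    (hd : ∀ u w, o u ≠ i w) : Sparse (fun u w => G.Adj (o u) (i w)) κ s := by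
  intro X Y h1
  have := h _ _ (disjoint_map_of hd X Y) (by simpa using h1)
  rwa [ec_map, card_map, card_map] at this

end Graph

end Pool.Agent.MP_d6d719_co.H74

end MrgPart2

-- ======== part 3: formerly Pool.Agent.MP_d6d719_co.h74.Perm
section MrgPart3

set_option autoImplicit false

open Finset Equiv Equiv.Perm

namespace Pool.Agent.MP_d6d719_co.H74

variable {ι : Type*} [Fintype ι] [DecidableEq ι] {σ ρ : Perm ι} {x y c : ι}

/-- The orbit of a point. -/
def orb (σ : Perm ι) (x : ι) : Finset ι := univ.filter (σ.SameCycle x)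

/-- The length of the cycle through a point. -/
def per (σ : Perm ι) (x : ι) : ℕ := (orb σ x).card

theorem mem_orb : y ∈ orb σ x ↔ σ.SameCycle x y := by simp [orb]

theorem orb_eq (h : σ.SameCycle x y) : orb σ x = orb σ y := by
  ext z
  simp only [mem_orb]
  exact ⟨fun a => h.symm.trans a, fun a => h.trans a⟩

theorem per_eq (h : σ.SameCycle x y) : per σ x = per σ y := by unfold per; rw [orb_eq h]

omit [Fintype ι] [DecidableEq ι] in
theorem sc_apply (σ : Perm ι) (x : ι) : σ.SameCycle x (σ x) := ⟨1, rfl⟩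

omit [Fintype ι] [DecidableEq ι] in
theorem sc_pow (σ : Perm ι) (x : ι) (k : ℕ) : σ.SameCycle x ((σ ^ k) x) := ⟨k, by simp⟩

omit [DecidableEq ι] in
theorem sc_nat (h : σ.SameCycle x y) : ∃ k : ℕ, (σ ^ k) x = y := by
  obtain ⟨k, -, hk⟩ := h.exists_pow_eq'
  exact ⟨k, hk⟩

theorem per_eq_min (σ : Perm ι) (x : ι) : per σ x = Function.minimalPeriod σ x := by
  have hp : x ∈ Function.periodicPts σ := σ.injective.mem_periodicPts x
  have : orb σ x = (range (Function.minimalPeriod σ x)).image (fun i => (σ ^ i) x) := by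
    ext y
    simp only [mem_orb, mem_image, mem_range]
    constructor
    · intro h
      obtain ⟨k, hk⟩ := sc_nat h
      refine ⟨k % Function.minimalPeriod σ x,
        Nat.mod_lt _ (Function.minimalPeriod_pos_of_mem_periodicPts hp), ?_⟩
      rw [← hk, ← iterate_eq_pow, ← iterate_eq_pow, Function.iterate_mod_minimalPeriod_eq]
    · rintro ⟨k, -, rfl⟩
      exact sc_pow σ x k
  unfold per
  rw [this, card_image_of_injOn, card_range]
  intro i hi j hj e
  exact Function.iterate_injOn_Iio_minimalPeriod (f := σ) (x := x) (by simpa using hi)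
    (by simpa using hj) e

theorem per_pos (σ : Perm ι) (x : ι) : 0 < per σ x :=
  card_pos.2 ⟨x, mem_orb.2 (SameCycle.refl _ _)⟩

theorem pow_per (σ : Perm ι) (x : ι) : (σ ^ per σ x) x = x := by
  rw [per_eq_min]
  exact Function.iterate_minimalPeriod (f := σ) (x := x)

theorem pow_inj {i j : ℕ} (hi : i < per σ x) (hj : j < per σ x) (e : (σ ^ i) x = (σ ^ j) x) :
    i = j := by
  rw [per_eq_min] at hi hj
  exact Function.iterate_injOn_Iio_minimalPeriod (f := σ) (x := x) hi hj e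

theorem sc_lt (h : σ.SameCycle x y) : ∃ k < per σ x, (σ ^ k) x = y := by
  obtain ⟨k, hk⟩ := sc_nat h
  refine ⟨k % per σ x, Nat.mod_lt _ (per_pos σ x), ?_⟩
  rw [← hk, per_eq_min, ← iterate_eq_pow, ← iterate_eq_pow, Function.iterate_mod_minimalPeriod_eq]

theorem mem_win_of_sc {l : ℕ} (h : σ.SameCycle x y) (hl : per σ x ≤ l) : y ∈ win σ l x := by
  obtain ⟨k, h1, h2⟩ := sc_lt h
  exact mem_win.2 ⟨k, by omega, by omega, by simpa using h2⟩

theorem ne_of_per (h : 2 ≤ per σ x) : σ x ≠ x := fun e => by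
  have := pow_inj (σ := σ) (x := x) (i := 1) (j := 0) (by omega) (by omega) (by simpa using e)
  omega

omit [Fintype ι] in
theorem sc_of_mem_win {l : ℕ} (h : y ∈ win σ l x) : σ.SameCycle x y := by
  obtain ⟨i, -, -, e⟩ := mem_win.1 h
  exact ⟨i, e⟩

/-- `c` is the only point of its `σ`-cycle that may be moved by `ρ`. -/
def Solo (σ ρ : Perm ι) (c : ι) : Prop := ∀ y, σ.SameCycle c y → y ≠ c → ρ y = y

omit [DecidableEq ι] in
theorem Solo.follow (h : Solo σ ρ c) (hy : σ.SameCycle c y) : (σ * ρ).SameCycle y c := by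
  obtain ⟨k, hk⟩ := sc_nat hy.symm
  induction k generalizing y with
  | zero => rw [← hk]; exact SameCycle.refl _ _
  | succ k ih =>
    by_cases e : y = c
    · rw [e]
    · have h1 : (σ * ρ) y = σ y := by rw [mul_apply, h y hy e]
      exact (h1 ▸ sc_apply (σ * ρ) y).trans
        (ih (hy.trans (sc_apply σ y)) (by rw [← hk, pow_succ, mul_apply]))

omit [DecidableEq ι] in
theorem Solo.step (h : Solo σ ρ (ρ c)) : (σ * ρ).SameCycle c (ρ c) :=
  (sc_apply (σ * ρ) c).trans (h.follow (sc_apply σ _))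

omit [DecidableEq ι] in
theorem merge_orbit (h : ∀ y, ρ.SameCycle c y → y ≠ c → Solo σ ρ y) :
    (∀ y, ρ.SameCycle c y → (σ * ρ).SameCycle c y) ∧ (σ * ρ).SameCycle c (σ c) := by
  have key : ∀ y, ρ.SameCycle c y → (σ * ρ).SameCycle c y := by
    intro y hy
    obtain ⟨k, rfl⟩ := sc_nat hy
    induction k with
    | zero => exact SameCycle.refl _ _
    | succ k ih =>
      rw [pow_succ', mul_apply] at hy ⊢
      by_cases e : ρ ((ρ ^ k) c) = c
      · rw [e]
      · exact (ih (sc_pow ρ c k)).trans (h _ hy e).step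
  refine ⟨key, (key (ρ⁻¹ c) ⟨-1, rfl⟩).trans ?_⟩
  have : (σ * ρ) (ρ⁻¹ c) = σ c := by simp
  exact this ▸ sc_apply (σ * ρ) _

omit [DecidableEq ι] in
theorem keep_orbit {σ' : Perm ι} (h : ∀ z, σ.SameCycle x z → σ'.SameCycle z (σ z))
    (hy : σ.SameCycle x y) : σ'.SameCycle x y := by
  obtain ⟨k, rfl⟩ := sc_nat hy
  induction k with
  | zero => exact SameCycle.refl _ _
  | succ k ih =>
    rw [pow_succ', mul_apply]
    exact (ih (sc_pow σ x k)).trans (h _ (sc_pow σ x k))

omit [DecidableEq ι] in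
theorem sc_congr {σ' : Perm ι} (h : ∀ z, σ.SameCycle x z → σ' z = σ z) :
    σ'.SameCycle x y ↔ σ.SameCycle x y := by
  have key : ∀ k : ℕ, (σ' ^ k) x = (σ ^ k) x := by
    intro k
    induction k with
    | zero => rfl
    | succ k ih => rw [pow_succ', pow_succ', mul_apply, mul_apply, ih, h _ (sc_pow σ x k)]
  constructor
  · intro hy
    obtain ⟨k, rfl⟩ := sc_nat hy
    rw [key]
    exact sc_pow σ x k
  · intro hy
    obtain ⟨k, rfl⟩ := sc_nat hy
    rw [← key]
    exact sc_pow σ' x k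

theorem orb_congr {σ' : Perm ι} (h : ∀ z, σ.SameCycle x z → σ' z = σ z) : orb σ' x = orb σ x := by
  ext y
  simp only [mem_orb, sc_congr h]

omit [DecidableEq ι] in
theorem mem_of_sc {T : Finset ι} (h : ∀ z ∈ T, σ z ∈ T) (hx : x ∈ T) (hy : σ.SameCycle x y) :
    y ∈ T := by
  obtain ⟨k, rfl⟩ := sc_nat hy
  induction k with
  | zero => exact hx
  | succ k ih => rw [pow_succ', mul_apply]; exact h _ (ih (sc_pow σ x k))

omit [Fintype ι] [DecidableEq ι] in
theorem apply_mem_of_supp {T : Finset ι} (h : ∀ z, z ∉ T → σ z = z) (hx : x ∈ T) : σ x ∈ T := by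
  by_contra hc
  exact hc ((σ.injective (h _ hc)).symm ▸ hx)

/-- The short cycles inside `T`. -/
def shorts (σ : Perm ι) (T : Finset ι) (L : ℕ) : Finset (Finset ι) :=
  (T.filter (fun x => per σ x < L)).image (orb σ)

section Exchange

variable {C T : Finset ι} {L : ℕ}

theorem solo_of_short (hC : ∀ x, x ∉ C → ρ x = x)
    (hfar : ∀ a ∈ C, ∀ b ∈ C, a ≠ b → b ∉ win σ L a) (hc : c ∈ C) (h : per σ c < L) :
    Solo σ ρ c := fun y hy hne =>
  hC y fun hyC => hfar c hc y hyC (Ne.symm hne) (mem_win_of_sc hy h.le)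

theorem long_of_long (hC : ∀ x, x ∉ C → ρ x = x)
    (hfar : ∀ a ∈ C, ∀ b ∈ C, a ≠ b → b ∉ win σ L a) (hc : c ∈ C) (h : L ≤ per σ c) :
    L ≤ per (σ * ρ) (σ c) := by
  have key : ∀ i, i < L → (σ * ρ).SameCycle (σ c) ((σ ^ (i + 1)) c) := by
    intro i
    induction i with
    | zero => exact fun _ => by simpa using SameCycle.refl _ _
    | succ i ih =>
      intro hi
      have h1 : (σ ^ (i + 1)) c ∉ C := fun hm => by
        refine hfar c hc _ hm (fun e => ?_)
          (mem_win.2 ⟨(i + 1 : ℕ), by omega, by omega, by rw [zpow_natCast]⟩)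
        have := pow_inj (σ := σ) (x := c) (i := 0) (j := i + 1) (by omega) (by omega) e
        omega
      have h2 : (σ * ρ) ((σ ^ (i + 1)) c) = (σ ^ (i + 1 + 1)) c := by
        rw [mul_apply, hC _ h1, pow_succ' σ (i + 1), mul_apply]
      exact (ih (by omega)).trans (h2 ▸ sc_apply (σ * ρ) _)
  have h3 : (range L).image (fun i => (σ ^ (i + 1)) c) ⊆ orb (σ * ρ) (σ c) := by
    intro y hy
    obtain ⟨i, hi, rfl⟩ := mem_image.1 hy
    exact mem_orb.2 (key i (mem_range.1 hi))
  have h4 := card_le_card h3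
  rwa [card_image_of_injOn, card_range] at h4
  intro i hi j hj e
  simp only [pow_succ', mul_apply] at e
  exact pow_inj (lt_of_lt_of_le (mem_range.1 hi) h) (lt_of_lt_of_le (mem_range.1 hj) h)
    (σ.injective e)

omit [DecidableEq ι] in
theorem exists_cut (hC : ∀ x, x ∉ C → ρ x = x) (hc : c ∈ C) (h : σ.SameCycle x c) :
    ∃ c' ∈ C, (σ * ρ).SameCycle x c' := by
  obtain ⟨k, hk⟩ := sc_nat h
  clear h
  induction k generalizing x with
  | zero => exact ⟨c, hc, hk ▸ SameCycle.refl _ _⟩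
  | succ k ih =>
    by_cases e : x ∈ C
    · exact ⟨x, e, SameCycle.refl _ _⟩
    · obtain ⟨c', a, b⟩ := ih (x := σ x) (by rw [← hk, pow_succ, mul_apply])
      have h1 : (σ * ρ) x = σ x := by rw [mul_apply, hC x e]
      exact ⟨c', a, (h1 ▸ sc_apply (σ * ρ) x).trans b⟩

theorem exch_lower (hC : ∀ x, x ∉ C → ρ x = x)
    (hfar : ∀ a ∈ C, ∀ b ∈ C, a ≠ b → b ∉ win σ L a) (hCT : C ⊆ T) {lo : ℕ} (hlo : lo ≤ L)
    (h : ∀ x ∈ T, lo ≤ per σ x) (hx : x ∈ T) : lo ≤ per (σ * ρ) x := by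
  by_cases e : ∃ c ∈ C, σ.SameCycle x c
  · obtain ⟨c, a, b⟩ := e
    obtain ⟨c, hc, b⟩ := exists_cut hC a b
    have hc' : ρ c ∈ C := apply_mem_of_supp hC hc
    rw [per_eq b, per_eq (sc_apply (σ * ρ) c), mul_apply]
    rcases le_or_gt L (per σ (ρ c)) with h1 | h1
    · exact hlo.trans (long_of_long hC hfar hc' h1)
    · have h2 := solo_of_short hC hfar hc' h1
      refine (h _ (hCT hc')).trans (card_le_card fun y hy => mem_orb.2 ?_)
      exact (h2.follow (sc_apply σ _)).trans (h2.follow (mem_orb.1 hy)).symm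
  · push Not at e
    unfold per
    rw [orb_congr (σ := σ) fun z hz => by rw [mul_apply, hC z fun hm => e z hm hz]]
    exact h x hx

theorem exch_count (hC : ∀ x, x ∉ C → ρ x = x)
    (hfar : ∀ a ∈ C, ∀ b ∈ C, a ≠ b → b ∉ win σ L a) (hCT : C ⊆ T)
    (hcyc : ∀ a ∈ C, ∀ b ∈ C, ρ.SameCycle a b) {u : ι} (hu : u ∈ C) (hu1 : ρ u ≠ u)
    (hu2 : per σ u < L) : (shorts (σ * ρ) T L).card < (shorts σ T L).card := by
  have hmem : ∀ c ∈ C, per σ c < L → orb σ c ∈ shorts σ T L := fun c hc h =>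
    mem_image_of_mem _ (mem_filter.2 ⟨hCT hc, h⟩)
  have hone : ∀ c ∈ C, per (σ * ρ) c < L → per σ (ρ c) < L ∧ (σ * ρ).SameCycle c (ρ c) := by
    intro c hc h
    have hc' : ρ c ∈ C := apply_mem_of_supp hC hc
    have h1 : per σ (ρ c) < L := by
      by_contra h1
      have := long_of_long hC hfar hc' (not_lt.1 h1)
      rw [per_eq (sc_apply (σ * ρ) c), mul_apply] at h
      omega
    exact ⟨h1, (solo_of_short hC hfar hc' h1).step⟩
  have hall : ∀ c ∈ C, per (σ * ρ) c < L → (σ * ρ).SameCycle c u := by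
    intro c hc h
    obtain ⟨k, hk⟩ := sc_nat (hcyc c hc u hu)
    rw [← hk]
    clear hk
    induction k with
    | zero => exact SameCycle.refl _ _
    | succ k ih =>
      rw [pow_succ', mul_apply]
      exact ih.trans (hone _ (mem_of_sc (fun z => apply_mem_of_supp hC) hc (sc_pow ρ c k))
        (per_eq ih ▸ h)).2
  have hsub : ∀ O ∈ shorts (σ * ρ) T L, (O ∈ shorts σ T L ∧ ∀ c ∈ C, O ≠ orb σ c) ∨
      (O = orb (σ * ρ) u ∧ per (σ * ρ) u < L) := by
    intro O hO
    obtain ⟨x, hx, rfl⟩ := mem_image.1 hO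
    obtain ⟨h1, h2⟩ := mem_filter.1 hx
    by_cases e : ∃ c ∈ C, σ.SameCycle x c
    · obtain ⟨c, a, b⟩ := e
      obtain ⟨c, hc, b⟩ := exists_cut hC a b
      have h3 := b.trans (hall c hc (per_eq b ▸ h2))
      exact Or.inr ⟨orb_eq h3, per_eq h3 ▸ h2⟩
    · push Not at e
      have h3 : orb (σ * ρ) x = orb σ x :=
        orb_congr (σ := σ) fun z hz => by rw [mul_apply, hC z fun hm => e z hm hz]
      refine Or.inl ⟨?_, fun c hc h4 => e c hc ?_⟩
      · rw [h3]
        refine mem_image_of_mem _ (mem_filter.2 ⟨h1, ?_⟩)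
        unfold per at h2 ⊢
        rwa [h3] at h2
      · rw [← mem_orb, ← h3, h4]
        exact mem_orb.2 (SameCycle.refl _ _)
  have hpos := card_pos.2 ⟨_, hmem u hu hu2⟩
  by_cases hs : per (σ * ρ) u < L
  · have hu' : ρ u ∈ C := apply_mem_of_supp hC hu
    have h1 := (hone u hu hs).1
    have h2 : orb σ (ρ u) ≠ orb σ u := fun e => by
      have h3 : σ.SameCycle u (ρ u) := by
        rw [← mem_orb, ← e]
        exact mem_orb.2 (SameCycle.refl _ _)
      exact hu1 (ρ.injective (solo_of_short hC hfar hu hu2 _ h3 hu1))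
    have h3 : shorts (σ * ρ) T L ⊆
        insert (orb (σ * ρ) u) (((shorts σ T L).erase (orb σ u)).erase (orb σ (ρ u))) := by
      intro O hO
      rcases hsub O hO with h | h
      · exact mem_insert_of_mem (mem_erase.2 ⟨h.2 _ hu', mem_erase.2 ⟨h.2 _ hu, h.1⟩⟩)
      · exact h.1 ▸ mem_insert_self _ _
    have h4 := (card_le_card h3).trans (card_insert_le _ _)
    have h5 : orb σ (ρ u) ∈ (shorts σ T L).erase (orb σ u) := mem_erase.2 ⟨h2, hmem _ hu' h1⟩
    have h6 := card_pos.2 ⟨_, h5⟩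
    rw [card_erase_of_mem h5] at h4
    rw [card_erase_of_mem (hmem u hu hu2)] at h4 h6
    omega
  · have h3 : shorts (σ * ρ) T L ⊆ (shorts σ T L).erase (orb σ u) := by
      intro O hO
      rcases hsub O hO with h | h
      · exact mem_erase.2 ⟨h.2 _ hu, h.1⟩
      · exact absurd h.2 hs
    have h4 := card_le_card h3
    rw [card_erase_of_mem (hmem u hu hu2)] at h4
    omega

end Exchange

section Lists

omit [Fintype ι] in
theorem rel_formPerm {R : ι → ι → Prop} {a : ι} {t : List ι} (hn : (a :: t).Nodup)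
    (hc : List.IsChain R (a :: t ++ [a])) (hx : x ∈ a :: t) : R x ((a :: t).formPerm x) := by
  obtain ⟨i, hi, rfl⟩ := List.getElem_of_mem hx
  rw [List.formPerm_apply_getElem _ hn]
  have h1 := List.isChain_iff_getElem.1 hc i (by simp at hi ⊢; omega)
  rw [List.getElem_append_left hi] at h1
  rcases Nat.lt_or_ge (i + 1) (a :: t).length with h | h
  · rw [List.getElem_append_left h] at h1
    simpa only [Nat.mod_eq_of_lt h] using h1
  · rw [List.getElem_append_right h] at h1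
    have e : i + 1 = (a :: t).length := by omega
    simpa only [e, Nat.mod_self, List.getElem_cons_zero, Nat.sub_self] using h1

omit [Fintype ι] in
theorem formPerm_mid {l r : List ι} {a b : ι} (hn : (l ++ a :: b :: r).Nodup) :
    (l ++ a :: b :: r).formPerm a = b := by
  have h1 : l.length + 1 < (l ++ a :: b :: r).length := by simp
  have := List.formPerm_apply_lt_getElem _ hn l.length h1
  simpa using this

theorem sc_of_formPerm {l : List ι} (hn : l.Nodup) (h : ∀ z ∈ l, ρ z = l.formPerm z) (hx : x ∈ l) :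
    ρ.SameCycle x y ↔ y ∈ l := by
  have h0 : ∀ z, l.formPerm.SameCycle x z → z ∈ l := fun z hz => List.mem_toFinset.1
    (mem_of_sc (T := l.toFinset) (fun w hw => List.mem_toFinset.2
      (List.formPerm_apply_mem_of_mem (List.mem_toFinset.1 hw))) (List.mem_toFinset.2 hx) hz)
  rw [sc_congr (σ := l.formPerm) fun z hz => h z (h0 z hz)]
  exact ⟨h0 y, fun hy => hn.isCycleOn_formPerm.2 hx hy⟩

omit [Fintype ι] in
theorem exists_fam {κ : Type*} (T : Finset κ) (L : κ → List ι)
    (hd : ∀ k ∈ T, ∀ k' ∈ T, k ≠ k' → ∀ x ∈ L k, x ∉ L k') :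
    ∃ ρ : Perm ι, (∀ x, (∀ k ∈ T, x ∉ L k) → ρ x = x) ∧
      ∀ k ∈ T, ∀ x ∈ L k, ρ x = (L k).formPerm x := by
  classical
  induction T using Finset.induction_on with
  | empty => exact ⟨1, fun _ _ => rfl, by simp⟩
  | insert k T hk ih =>
    obtain ⟨ρ, h1, h2⟩ := ih fun a ha b hb => hd a (mem_insert_of_mem ha) b (mem_insert_of_mem hb)
    refine ⟨(L k).formPerm * ρ, fun x hx => ?_, fun a ha x hx => ?_⟩
    · rw [mul_apply, h1 x fun a ha => hx a (mem_insert_of_mem ha),
        List.formPerm_apply_of_notMem (hx k (mem_insert_self _ _))]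
    · rcases mem_insert.1 ha with rfl | ha'
      · rw [mul_apply, h1 x fun b hb => hd a ha b (mem_insert_of_mem hb)
          (fun e => hk (e ▸ hb)) x hx]
      · rw [mul_apply, h2 a ha' x hx, List.formPerm_apply_of_notMem]
        exact hd a ha k (mem_insert_self _ _) (fun e => hk (e ▸ ha')) _
          (List.formPerm_apply_mem_of_mem hx)

end Lists

end Pool.Agent.MP_d6d719_co.H74

end MrgPart3

-- ======== part 4: formerly Pool.Agent.MP_d6d719_co.Gnp
section MrgPart4

set_option autoImplicit false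

open Finset MeasureTheory
open scoped Classical

namespace Pool.Agent.MP_d6d719_co

variable {V : Type} [Fintype V]

/-- Pseudorandomness: degrees and edge distribution. -/
def Pseudo (G : SimpleGraph V) (p τ K : ℝ) : Prop :=
  (∀ v, (1 - τ) * (p * Fintype.card V) ≤ (nb G v univ).card ∧
    ((nb G v univ).card : ℝ) ≤ (1 + τ) * (p * Fintype.card V)) ∧ G2 G p τ K

omit [Fintype V] in
theorem exists_edges {X Y : Finset V} (h : Disjoint X Y) : ∃ S : Finset (Sym2 V),
    S.card = X.card * Y.card ∧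
    ∀ ω : Sym2 V → Bool, ec (gr ω) X Y = (S.filter fun e => ω e = true).card := by
  have hinj : Set.InjOn (fun q : V × V => s(q.1, q.2)) (X ×ˢ Y : Finset (V × V)) := by
    rintro ⟨a, b⟩ h1 ⟨c, d⟩ h2 e
    simp only [coe_product, Set.mem_prod, mem_coe] at h1 h2
    rcases Sym2.eq_iff.1 e with h3 | h3
    · exact Prod.ext h3.1 h3.2
    · exact absurd ((show a = d from h3.1) ▸ h1.1) (disjoint_right.1 h h2.2)
  refine ⟨(X ×ˢ Y).image fun q => s(q.1, q.2), by rw [card_image_of_injOn hinj, card_product],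
    fun ω => ?_⟩
  rw [filter_image, card_image_of_injOn (hinj.mono (coe_subset.2 (filter_subset _ _))),
    card_filter, sum_product]
  refine sum_congr rfl fun x hx => ?_
  rw [nb, card_filter]
  refine sum_congr rfl fun y hy => ?_
  have : x ≠ y := fun e => disjoint_left.1 h hx (e ▸ hy)
  simp [gr_adj, this]

theorem Ex_eq_PE {E : Type} [Fintype E] (p : ℝ) (g : (E → Bool) → ℝ) :
    Ex p g = PE (fun _ b => if b then p else 1 - p) g := rfl

theorem ec_up {p t z : ℝ} (h0 : 0 ≤ p) (h1 : p ≤ 1) (ht : 0 ≤ t) (ht1 : t ≤ 1) {X Y : Finset V}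
    (h : Disjoint X Y) (E : SimpleGraph V → Prop)
    (hE : ∀ G, E G → p * (X.card * Y.card) * (1 + t) + z ≤ ec G X Y) :
    Ex p (fun ω : Sym2 V → Bool => ind (E (gr ω))) ≤ Real.exp (-(t * z)) := by
  obtain ⟨S, hS, hS2⟩ := exists_edges h
  rw [Ex_eq_PE]
  refine tail_up (fun _ b => by split_ifs <;> linarith) (fun _ => by simp) S
    (fun _ b => b = true) h0 (fun _ _ => by simp) ht ht1 (fun ω => E (gr ω)) fun ω hω => ?_
  have := hE _ hω
  rw [hS2] at this
  rw [hS]
  push_cast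
  exact this

theorem ec_lo {p t z : ℝ} (h0 : 0 ≤ p) (h1 : p ≤ 1) (ht : 0 ≤ t) (ht1 : t ≤ 1) {X Y : Finset V}
    (h : Disjoint X Y) (E : SimpleGraph V → Prop)
    (hE : ∀ G, E G → (ec G X Y : ℝ) ≤ p * (X.card * Y.card) * (1 - t) - z) :
    Ex p (fun ω : Sym2 V → Bool => ind (E (gr ω))) ≤ Real.exp (-(t * z)) := by
  obtain ⟨S, hS, hS2⟩ := exists_edges h
  rw [Ex_eq_PE]
  refine tail_lo (fun _ b => by split_ifs <;> linarith) (fun _ => by simp) S
    (fun _ b => b = true) h0 (fun _ _ => by simp) ht ht1 (fun ω => E (gr ω)) fun ω hω => ?_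
  have := hE _ hω
  rw [hS2] at this
  rw [hS]
  push_cast
  exact this

theorem ec_single (G : SimpleGraph V) (v : V) : ec G {v} (univ.erase v) = (nb G v univ).card := by
  rw [ec, sum_singleton]
  congr 1
  ext x
  simp only [nb, mem_filter, mem_erase, mem_univ, and_true, true_and, and_iff_right_iff_imp]
  exact fun h => h.ne'

theorem sum_pow_card (x : ℝ) : ∑ X : Finset V, x ^ X.card = (1 + x) ^ Fintype.card V := by
  have := prod_one_add (s := (univ : Finset V)) (f := fun _ => x)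
  simp only [prod_const, card_univ, powerset_univ] at this
  exact this.symm

theorem Ex_not_pseudo {p τ K : ℝ} (h0 : 0 ≤ p) (h1 : p ≤ 1) (hτ : 0 ≤ τ) (hτ1 : τ ≤ 1)
    (hd : 4 ≤ τ * (p * Fintype.card V)) :
    Ex p (fun ω : Sym2 V → Bool => ind (¬ Pseudo (gr ω) p τ K)) ≤
      2 * Fintype.card V * Real.exp (-(τ ^ 2 * (p * Fintype.card V) / 8)) +
      (Real.exp (2 * Fintype.card V * Real.exp (-(τ * K))) - 1) := by
  set n : ℝ := (Fintype.card V : ℝ) with hn
  set B : Finset V × Finset V → SimpleGraph V → Prop := fun q G => Disjoint q.1 q.2 ∧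
    (1 + τ) * p * q.1.card * q.2.card + K * (q.1.card + q.2.card) < ec G q.1 q.2 with hB
  have e1 : ∀ G : SimpleGraph V, ind (¬ Pseudo G p τ K) ≤
      ∑ v, (ind (((nb G v univ).card : ℝ) < (1 - τ) * (p * n)) +
        ind ((1 + τ) * (p * n) < (nb G v univ).card)) +
      ∑ q ∈ univ.erase (∅, ∅), ind (B q G) := by
    intro G
    have a1 : 0 ≤ ∑ v, (ind (((nb G v univ).card : ℝ) < (1 - τ) * (p * n)) +
        ind ((1 + τ) * (p * n) < (nb G v univ).card)) :=
      sum_nonneg fun v _ => add_nonneg (ind_nonneg _) (ind_nonneg _)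
    have a2 : 0 ≤ ∑ q ∈ univ.erase (∅, ∅), ind (B q G) := sum_nonneg fun q _ => ind_nonneg _
    by_cases h : Pseudo G p τ K
    · rw [ind_of_not (not_not.2 h)]
      linarith
    rw [ind_of h]
    rcases not_and_or.1 h with h | h
    · obtain ⟨v, hv⟩ := not_forall.1 h
      have a3 := single_le_sum (f := fun v => ind (((nb G v univ).card : ℝ) < (1 - τ) * (p * n)) +
        ind ((1 + τ) * (p * n) < (nb G v univ).card))
        (fun v _ => add_nonneg (ind_nonneg _) (ind_nonneg _)) (mem_univ v)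
      rcases not_and_or.1 hv with hv | hv
      · rw [ind_of (not_le.1 hv)] at a3
        linarith [ind_nonneg ((1 + τ) * (p * n) < (nb G v univ).card)]
      · rw [ind_of (P := (1 + τ) * (p * n) < (nb G v univ).card) (not_le.1 hv)] at a3
        linarith [ind_nonneg (((nb G v univ).card : ℝ) < (1 - τ) * (p * n))]
    · unfold G2 at h
      push Not at h
      obtain ⟨X, Y, h2, h3⟩ := h
      have a3 := single_le_sum (f := fun q => ind (B q G)) (s := univ.erase (∅, ∅))
        (fun q _ => ind_nonneg _) (a := (X, Y)) (mem_erase.2 ⟨fun e => by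
          obtain ⟨rfl, rfl⟩ := Prod.mk.inj e
          simp [ec] at h3, mem_univ _⟩)
      rw [ind_of (P := B (X, Y) G) ⟨h2, h3⟩] at a3
      linarith
  refine (Ex_mono h0 h1 fun ω => e1 (gr ω)).trans ?_
  rw [Ex_add, Ex_sum, Ex_sum]
  refine add_le_add ?_ ?_
  · rw [mul_comm 2 n, mul_assoc, hn, ← nsmul_eq_mul, ← card_univ, ← sum_const, two_mul]
    refine sum_le_sum fun v _ => ?_
    rw [Ex_add, card_univ, ← hn]
    have hc : (((univ.erase v).card : ℕ) : ℝ) = n - 1 := by
      rw [card_erase_of_mem (mem_univ v), card_univ, Nat.cast_sub (Fintype.card_pos_iff.2 ⟨v⟩)]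
      simp [hn]
    have e : τ ^ 2 * (p * n) / 8 = τ / 2 * (τ * (p * n) / 4) := by ring
    rw [e]
    refine add_le_add
      (ec_lo h0 h1 (by linarith) (by linarith) (X := {v}) (Y := univ.erase v) (by simp)
        (fun G => ((nb G v univ).card : ℝ) < (1 - τ) * (p * n)) fun G hG => ?_)
      (ec_up h0 h1 (by linarith) (by linarith) (X := {v}) (Y := univ.erase v) (by simp)
        (fun G => (1 + τ) * (p * n) < (nb G v univ).card) fun G hG => ?_)
    · rw [ec_single, hc, card_singleton]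
      push_cast
      nlinarith [mul_nonneg h0 hτ]
    · rw [ec_single, hc, card_singleton]
      push_cast
      nlinarith [mul_nonneg h0 hτ]
  · set x := Real.exp (-(τ * K)) with hx
    have hx0 : 0 ≤ x := by positivity
    have a1 : ∀ q ∈ (univ : Finset (Finset V × Finset V)).erase (∅, ∅),
        Ex p (fun ω : Sym2 V → Bool => ind (B q (gr ω))) ≤ x ^ q.1.card * x ^ q.2.card := by
      intro q _
      by_cases hq : Disjoint q.1 q.2
      · refine (ec_up (z := K * (q.1.card + q.2.card)) h0 h1 hτ hτ1 hq (B q)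
          fun G hG => by linarith [hG.2]).trans (le_of_eq ?_)
        rw [hx, ← Real.exp_nat_mul, ← Real.exp_nat_mul, ← Real.exp_add]
        congr 1; ring
      · have : ∀ G, ind (B q G) = 0 := fun G => ind_of_not fun h => hq h.1
        simp only [this, Ex_const]
        positivity
    refine (sum_le_sum a1).trans ?_
    rw [sum_erase_eq_sub (mem_univ _), Fintype.sum_prod_type]
    simp only [← mul_sum, ← sum_mul, sum_pow_card, card_empty, pow_zero, mul_one]
    have a2 : (1 + x) ^ Fintype.card V ≤ Real.exp (n * x) := by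
      rw [hn, Real.exp_nat_mul]
      exact pow_le_pow_left₀ (by positivity) (by linarith [Real.add_one_le_exp x]) _
    have a3 : Real.exp (2 * n * x) = Real.exp (n * x) * Real.exp (n * x) := by
      rw [← Real.exp_add]; congr 1; ring
    rw [a3]
    have := mul_le_mul a2 a2 (by positivity) (by positivity)
    linarith

theorem prob_not_pseudo (p : unitInterval) {τ K : ℝ} (hτ : 0 ≤ τ) (hτ1 : τ ≤ 1)
    (hd : 4 ≤ τ * (p * Fintype.card V)) :
    (SimpleGraph.binomialRandom V p).real {G | ¬ Pseudo G p τ K} ≤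
      2 * Fintype.card V * Real.exp (-(τ ^ 2 * (p * Fintype.card V) / 8)) +
      (Real.exp (2 * Fintype.card V * Real.exp (-(τ * K))) - 1) := by
  have := measurableSingletonClass_graph (V := V)
  refine le_trans (le_of_eq ?_) (Ex_not_pseudo p.2.1 p.2.2 hτ hτ1 hd)
  rw [← integral_binomialRandom p fun G => ind (¬ Pseudo G p τ K),
    ← integral_indicator_one (Set.toFinite _).measurableSet]
  congr 1

end Pool.Agent.MP_d6d719_co

end MrgPart4

-- ======== part 5: formerly Pool.Agent.MP_d6d719_co.Dense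
section MrgPart5

set_option autoImplicit false

open Finset
open scoped Classical

namespace Pool.Agent.MP_d6d719_co

variable {V : Type*} [Fintype V] {G : SimpleGraph V} {bad : V → V → V → Prop}
  {W : ℕ → Finset V} {Z : Finset V}

variable (G bad W Z) in
/-- In-neighbours of `v` among the reached edges. -/
noncomputable def inn (T : Term V) (j : ℕ) (v : V) : Finset V :=
  univ.filter fun u => Reach G bad W Z T j u v

variable (G bad W Z) in
/-- Out-neighbours of `v` among the reached edges. -/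
noncomputable def outn (T : Term V) (j : ℕ) (v : V) : Finset V :=
  univ.filter fun z => Reach G bad W Z T j v z

variable (G bad W Z) in
/-- Reached vertices. -/
noncomputable def R1 (T : Term V) (j : ℕ) : Finset V :=
  univ.filter fun v => ∃ u, Reach G bad W Z T j u v

theorem R1_subset (T : Term V) (j : ℕ) : R1 G bad W Z T j ⊆ W j := by
  intro v hv
  obtain ⟨u, h⟩ := (mem_filter.1 hv).2
  exact h.mem.1

theorem card_ES_in (T : Term V) (j : ℕ) :
    (ES G bad W Z T j).card = ∑ v ∈ R1 G bad W Z T j, (inn G bad W Z T j v).card := by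
  rw [card_eq_sum_card_fiberwise (f := Prod.snd) (t := R1 G bad W Z T j)]
  · refine sum_congr rfl fun v _ => ?_
    refine card_bij (fun e _ => e.1) ?_ ?_ ?_
    · rintro ⟨a, b⟩ he
      simp only [ES, mem_filter, mem_univ, true_and] at he
      obtain ⟨h1, rfl⟩ := he
      exact mem_filter.2 ⟨mem_univ _, h1⟩
    · rintro ⟨a, b⟩ he ⟨a', b'⟩ he' h
      simp only [ES, mem_filter, mem_univ, true_and] at he he' h
      rw [Prod.mk.injEq]
      exact ⟨h, he.2.trans he'.2.symm⟩
    · intro u hu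
      exact ⟨(u, v), by simpa [ES, inn] using hu, rfl⟩
  · rintro ⟨a, b⟩ he
    simp only [ES, coe_filter, mem_univ, true_and, Set.mem_ofPred_eq] at he
    exact mem_coe.2 (mem_filter.2 ⟨mem_univ _, a, he⟩)

theorem card_ES_out (T : Term V) (j : ℕ) :
    (ES G bad W Z T (j + 1)).card
      = ∑ v ∈ R1 G bad W Z T j, (outn G bad W Z T (j + 1) v).card := by
  rw [card_eq_sum_card_fiberwise (f := Prod.fst) (t := R1 G bad W Z T j)]
  · refine sum_congr rfl fun v _ => ?_
    refine card_bij (fun e _ => e.2) ?_ ?_ ?_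
    · rintro ⟨a, b⟩ he
      simp only [ES, mem_filter, mem_univ, true_and] at he
      obtain ⟨h1, rfl⟩ := he
      exact mem_filter.2 ⟨mem_univ _, h1⟩
    · rintro ⟨a, b⟩ he ⟨a', b'⟩ he' h
      simp only [ES, mem_filter, mem_univ, true_and] at he he' h
      rw [Prod.mk.injEq]
      exact ⟨he.2.trans he'.2.symm, h⟩
    · intro u hu
      exact ⟨(v, u), by simpa [ES, outn] using hu, rfl⟩
  · rintro ⟨a, b⟩ he
    simp only [ES, coe_filter, mem_univ, true_and, Set.mem_ofPred_eq] at he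
    exact mem_coe.2 (mem_filter.2 ⟨mem_univ _, he.prev⟩)

variable {p τ K w ε : ℝ}

theorem lower_ES (hs : ∀ v a b, bad v a b → bad v b a) {dd : ℝ} {j : ℕ}
    (hL0 : LP G bad w dd τ ε (W j)) (hL1 : LP G bad w dd τ ε (W (j + 1))) (T : Term V)
    (S : Finset V) (hS : S ⊆ R1 G bad W Z T j)
    (hS2 : ∀ v ∈ S, ∀ z, G.Adj v z → ∃ u, Reach G bad W Z T j u v ∧ ¬ bad v z u) :
    (1 / 2 + ε - τ) * dd * ((R1 G bad W Z T j).card - S.card) + (1 - τ) * dd * S.card
      - Z.card * ((1 + τ) * dd) ≤ (ES G bad W Z T (j + 1)).card := by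
  have h1 : ∀ v ∈ R1 G bad W Z T j, (if v ∈ S then (1 - τ) * dd else (1 / 2 + ε - τ) * dd)
      ≤ (outn G bad W Z T (j + 1) v).card + ((nb G v Z).card : ℝ) := by
    intro v hv
    obtain ⟨u, hu⟩ := (mem_filter.1 hv).2
    split_ifs with hvS
    · refine (hL1.lo v).trans ?_
      have : nb G v (W (j + 1)) ⊆ outn G bad W Z T (j + 1) v ∪ nb G v Z := by
        intro z hz
        simp only [nb, mem_filter, mem_union, outn, mem_univ, true_and] at hz ⊢
        by_cases hzZ : z ∈ Z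
        · exact Or.inr ⟨hzZ, hz.2⟩
        · obtain ⟨u', hu', hb⟩ := hS2 v hvS z hz.2
          exact Or.inl (Reach.step j u' v z hu' hz.1 hzZ hz.2 fun h => hb (hs _ _ _ h))
      exact_mod_cast (card_le_card this).trans (card_union_le _ _)
    · refine (hL1.ok1 hu.mem.2.2.symm).trans ?_
      have : (nb G v (W (j + 1))).filter (fun b => ¬ bad v u b)
          ⊆ outn G bad W Z T (j + 1) v ∪ nb G v Z := by
        intro z hz
        simp only [nb, mem_filter, mem_union, outn, mem_univ, true_and] at hz ⊢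
        by_cases hzZ : z ∈ Z
        · exact Or.inr ⟨hzZ, hz.1.2⟩
        · exact Or.inl (Reach.step j u v z hu hz.1.1 hzZ hz.1.2 hz.2)
      exact_mod_cast (card_le_card this).trans (card_union_le _ _)
  have h2 := sum_le_sum h1
  rw [sum_add_distrib, sum_ite, sum_const, sum_const, nsmul_eq_mul, nsmul_eq_mul] at h2
  have h3 : (R1 G bad W Z T j).filter (· ∈ S) = S := by
    ext v; simp only [mem_filter]; exact ⟨fun h => h.2, fun h => ⟨hS h, h⟩⟩
  have h4 : (((R1 G bad W Z T j).filter (· ∉ S)).card : ℝ)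
      = (R1 G bad W Z T j).card - S.card := by
    have := card_filter_add_card_filter_not (s := R1 G bad W Z T j) (· ∈ S)
    rw [h3] at this
    have h : (S.card : ℝ) + ((R1 G bad W Z T j).filter (· ∉ S)).card
        = (R1 G bad W Z T j).card := by exact_mod_cast this
    linarith
  rw [h3, h4] at h2
  have h5 : ∑ v ∈ R1 G bad W Z T j, ((nb G v Z).card : ℝ) ≤ Z.card * ((1 + τ) * dd) := by
    have e1 : ∑ v ∈ R1 G bad W Z T j, ((nb G v Z).card : ℝ) = ec G (R1 G bad W Z T j) Z := by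
      unfold ec; push_cast; rfl
    rw [e1, ec_comm]
    unfold ec
    push_cast
    rw [← nsmul_eq_mul, ← sum_const]
    refine sum_le_sum fun z _ => le_trans ?_ (hL0.hi z)
    exact_mod_cast card_le_card (nb_mono z (R1_subset T j))
  rw [card_ES_out]
  push_cast
  linarith

theorem upper_ES (hG : G2 G p τ K) {j : ℕ} (hd : Disjoint (W j) (W (j + 1))) (T : Term V)
    (c : ℝ) (S : Finset V) (hS : S ⊆ R1 G bad W Z T (j + 1))
    (hS2 : ∀ v ∈ R1 G bad W Z T (j + 1), v ∉ S → ((inn G bad W Z T (j + 1) v).card : ℝ) ≤ c) :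
    ((ES G bad W Z T (j + 1)).card : ℝ) ≤ (1 + τ) * p * (R1 G bad W Z T j).card * S.card
      + K * ((R1 G bad W Z T j).card + S.card)
      + c * ((R1 G bad W Z T (j + 1)).card - S.card) := by
  rw [card_ES_in, ← sum_sdiff hS]
  push_cast
  have h1 : ∑ v ∈ R1 G bad W Z T (j + 1) \ S, ((inn G bad W Z T (j + 1) v).card : ℝ)
      ≤ c * ((R1 G bad W Z T (j + 1)).card - S.card) := by
    have := sum_le_sum (s := R1 G bad W Z T (j + 1) \ S)
      (fun v hv => hS2 v (mem_sdiff.1 hv).1 (mem_sdiff.1 hv).2)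
    rw [sum_const, nsmul_eq_mul, card_sdiff_of_subset hS, Nat.cast_sub (card_le_card hS)] at this
    linarith
  have h2 : ∑ v ∈ S, ((inn G bad W Z T (j + 1) v).card : ℝ) ≤ ec G S (R1 G bad W Z T j) := by
    unfold ec
    push_cast
    refine sum_le_sum fun v _ => ?_
    have : inn G bad W Z T (j + 1) v ⊆ nb G v (R1 G bad W Z T j) := by
      intro u hu
      have hu' := (mem_filter.1 hu).2
      exact mem_filter.2 ⟨mem_filter.2 ⟨mem_univ _, hu'.prev⟩, hu'.mem.2.2.symm⟩
    exact_mod_cast card_le_card this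
  rw [ec_comm] at h2
  have h3 := hG (R1 G bad W Z T j) S
    (hd.mono (R1_subset T j) (hS.trans (R1_subset T (j + 1))))
  linarith

theorem arith_step {ε τ s s' x y x' z k : ℝ} (hε : 0 < ε) (hε1 : ε ≤ 1 / 10) (hτ : 0 ≤ τ)
    (hτε : 640 * τ ≤ ε ^ 2) (hy0 : 0 ≤ y) (hyx : y ≤ x) (hx : x ≤ 1 + τ) (hx'0 : 0 ≤ x')
    (hx' : x' ≤ 1 + τ) (hz : z ≤ τ) (_hk0 : 0 ≤ k) (hk : k ≤ τ)
    (h1 : (1 / 2 + ε - τ) * (x - y) + (1 - τ) * y - z * (1 + τ) ≤ s')
    (h2 : s ≤ (1 + τ) * x' * y + k * (x' + y) + (1 / 2 - ε) * (x - y))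
    (h3 : (1 / 2 + ε - τ) * x' - z * (1 + τ) ≤ s) :
    s - 10 * τ ≤ s' ∧ (1 / 2 + ε / 3 ≤ s ∨ (1 + ε / 2) * s - 10 * τ ≤ s') := by
  have hτ1 : τ ≤ ε / 6400 := by nlinarith
  have hτ2 : τ ≤ 1 / 64000 := by linarith
  have a1 : z * (1 + τ) ≤ 2 * τ := by nlinarith
  have a2 : k * (x' + y) ≤ 3 * τ := by nlinarith
  have a3 : 0 ≤ x - y := by linarith
  constructor
  · have b1 : (1 + τ) * x' * y ≤ (1 + 3 * τ) * y := by
      have : (1 + τ) * x' ≤ 1 + 3 * τ := by nlinarith
      nlinarith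
    have b2 : τ * y ≤ τ * (1 + τ) := mul_le_mul_of_nonneg_left (by linarith) hτ
    nlinarith
  · by_cases hc : x' ≤ 1 - ε
    · right
      have b1 : (1 + ε / 2) * ((1 + τ) * x') ≤ 1 - τ := by
        have : (1 + τ) * x' ≤ (1 + τ) * (1 - ε) := mul_le_mul_of_nonneg_left hc (by linarith)
        nlinarith
      have b2 : (1 + ε / 2) * ((1 + τ) * x' * y) ≤ (1 - τ) * y := by nlinarith
      have b3 : (1 + ε / 2) * ((1 / 2 - ε) * (x - y)) ≤ (1 / 2 + ε - τ) * (x - y) := by
        have : (1 + ε / 2) * (1 / 2 - ε) ≤ 1 / 2 + ε - τ := by nlinarith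
        nlinarith
      have b4 : (1 + ε / 2) * (k * (x' + y)) ≤ 4 * τ := by nlinarith
      have b5 := mul_le_mul_of_nonneg_left h2 (show 0 ≤ 1 + ε / 2 by linarith)
      nlinarith
    · left
      push Not at hc
      have : (1 / 2 + ε - τ) * (1 - ε) ≤ (1 / 2 + ε - τ) * x' :=
        mul_le_mul_of_nonneg_left hc.le (by linarith)
      nlinarith

theorem dens_step (hs : ∀ v a b, bad v a b → bad v b a) (hG : G2 G p τ K) (hp : 0 < p)
    (hw : 0 < w) (hε : 0 < ε) (hε1 : ε ≤ 1 / 10) (hτ : 0 ≤ τ) (hτε : 640 * τ ≤ ε ^ 2)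
    (hK0 : 0 ≤ K) (hK : K ≤ τ * (p * w)) (hZ : (Z.card : ℝ) ≤ τ * w) {j : ℕ}
    (hL0 : LP G bad w (p * w) τ ε (W j)) (hL1 : LP G bad w (p * w) τ ε (W (j + 1)))
    (hL2 : LP G bad w (p * w) τ ε (W (j + 2))) (hd : Disjoint (W j) (W (j + 1))) (T : Term V) :
    (ES G bad W Z T (j + 1)).card / (p * w * w) - 10 * τ
        ≤ (ES G bad W Z T (j + 2)).card / (p * w * w) ∧
      (1 / 2 + ε / 3 ≤ (ES G bad W Z T (j + 1)).card / (p * w * w) ∨
        (1 + ε / 2) * ((ES G bad W Z T (j + 1)).card / (p * w * w)) - 10 * τ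
          ≤ (ES G bad W Z T (j + 2)).card / (p * w * w)) := by
  set S := (R1 G bad W Z T (j + 1)).filter
    fun v => (1 / 2 - ε) * (p * w) < (inn G bad W Z T (j + 1) v).card with hSdef
  have hS : S ⊆ R1 G bad W Z T (j + 1) := filter_subset _ _
  have h1 := lower_ES (Z := Z) hs hL1 hL2 T S hS (by
    intro v hv z hz
    by_contra hcon
    push Not at hcon
    have h3 : inn G bad W Z T (j + 1) v ⊆ (nb G v (W j)).filter (bad v z ·) := by
      intro u hu
      have hu' := (mem_filter.1 hu).2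
      obtain ⟨u', hu''⟩ := hu'.prev
      exact mem_filter.2 ⟨mem_filter.2 ⟨hu''.mem.1, hu'.mem.2.2.symm⟩, hcon u hu'⟩
    have h4 : ((inn G bad W Z T (j + 1) v).card : ℝ)
        ≤ ((nb G v (W j)).filter (bad v z ·)).card := by exact_mod_cast card_le_card h3
    have h5 := hL0.bd v z hz
    have h6 := (mem_filter.1 hv).2
    linarith)
  have h2 := upper_ES (Z := Z) (bad := bad) hG hd T ((1 / 2 - ε) * (p * w)) S hS (by
    intro v hv hvS
    by_contra hcon
    push Not at hcon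
    exact hvS (mem_filter.2 ⟨hv, hcon⟩))
  have h3 := lower_ES (Z := Z) hs hL0 hL1 T ∅ (empty_subset _) (by simp)
  have c1 : ((R1 G bad W Z T (j + 1)).card : ℝ) ≤ (1 + τ) * w :=
    le_trans (by exact_mod_cast card_le_card (R1_subset T _)) hL1.size
  have c0 : ((R1 G bad W Z T j).card : ℝ) ≤ (1 + τ) * w :=
    le_trans (by exact_mod_cast card_le_card (R1_subset T _)) hL0.size
  have c2 : (S.card : ℝ) ≤ (R1 G bad W Z T (j + 1)).card := by exact_mod_cast card_le_card hS
  have hA : 0 < p * w * w := by positivity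
  have hpw : 0 < p * w := by positivity
  refine arith_step (x := (R1 G bad W Z T (j + 1)).card / w) (y := S.card / w)
    (x' := (R1 G bad W Z T j).card / w) (z := Z.card / w) (k := K / (p * w)) hε hε1 hτ hτε
    (by positivity) (by gcongr) (by rwa [div_le_iff₀ hw]) (by positivity)
    (by rwa [div_le_iff₀ hw]) (by rwa [div_le_iff₀ hw]) (by positivity)
    (by rwa [div_le_iff₀ hpw]) ?_ ?_ ?_
  · rw [le_div_iff₀ hA]
    refine le_trans (le_of_eq ?_) h1
    field_simp
  · rw [div_le_iff₀ hA]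
    refine h2.trans (le_of_eq ?_)
    field_simp
  · rw [le_div_iff₀ hA]
    refine le_trans (le_of_eq ?_) h3
    simp only [card_empty, Nat.cast_zero]
    field_simp
    ring

theorem dens (hs : ∀ v a b, bad v a b → bad v b a) (hG : G2 G p τ K) (hp : 0 < p)
    (hw : 0 < w) (hε : 0 < ε) (hε1 : ε ≤ 1 / 10) (hτ : 0 ≤ τ) (hτε : 640 * τ ≤ ε ^ 2)
    (hK0 : 0 ≤ K) (hK : K ≤ τ * (p * w)) (hZ : (Z.card : ℝ) ≤ τ * w) {h r : ℕ}
    (hL : ∀ j ≤ h, LP G bad w (p * w) τ ε (W j))
    (hW : ∀ i j, i < j → j ≤ h → Disjoint (W i) (W j)) (T : Term V)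
    (hR : ε * w / 4 ≤ (R1 G bad W Z T r).card) (t : ℕ) (ht : r + 1 + t ≤ h) :
    min (1 / 2 + ε / 3 - 10 * τ * t) (ε / 16 + t * (ε ^ 2 / 64))
      ≤ (ES G bad W Z T (r + 1 + t)).card / (p * w * w) := by
  have hA : 0 < p * w * w := by positivity
  have hτ1 : τ ≤ ε / 6400 := by nlinarith
  induction t with
  | zero =>
    refine min_le_of_right_le ?_
    have h3 := lower_ES (Z := Z) hs (hL r (by omega)) (hL (r + 1) (by omega)) T ∅
      (empty_subset _) (by simp)
    rw [le_div_iff₀ hA]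
    refine le_trans ?_ h3
    simp only [card_empty, Nat.cast_zero]
    have hpw : 0 < p * w := by positivity
    have a1 : (1 / 2) * (p * w) * (ε * w / 4)
        ≤ (1 / 2 + ε - τ) * (p * w) * (R1 G bad W Z T r).card := by
      have : (1 / 2) * (p * w) ≤ (1 / 2 + ε - τ) * (p * w) := by nlinarith
      exact mul_le_mul this hR (by positivity) (by nlinarith)
    have a2 : (Z.card : ℝ) * ((1 + τ) * (p * w)) ≤ τ * w * (2 * (p * w)) :=
      mul_le_mul hZ (by nlinarith) (by positivity) (by positivity)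
    have a3 : τ * (p * w * w) ≤ ε / 6400 * (p * w * w) := by gcongr
    nlinarith
  | succ t ih =>
    have ih' := ih (by omega)
    obtain ⟨h1, h2⟩ := dens_step (Z := Z) (j := r + t) hs hG hp hw hε hε1 hτ hτε hK0 hK hZ
      (hL _ (by omega)) (hL _ (by omega)) (hL _ (by omega)) (hW _ _ (by omega) (by omega)) T
    have e1 : r + t + 1 = r + 1 + t := by omega
    have e2 : r + t + 2 = r + 1 + (t + 1) := by omega
    rw [e1, e2] at h1 h2
    push_cast
    have ht0 : (0 : ℝ) ≤ t := by positivity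
    by_cases hc : 1 / 2 + ε / 3 - 10 * τ * t ≤ (ES G bad W Z T (r + 1 + t)).card / (p * w * w)
    · exact min_le_of_left_le (by linarith)
    · push Not at hc
      have h3 : ε / 16 + t * (ε ^ 2 / 64) ≤ (ES G bad W Z T (r + 1 + t)).card / (p * w * w) := by
        rcases min_le_iff.1 ih' with h | h
        · linarith
        · exact h
      rcases h2 with h2 | h2
      · nlinarith
      · refine min_le_of_right_le ?_
        have h4 : ε / 16 ≤ (ES G bad W Z T (r + 1 + t)).card / (p * w * w) := by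
          nlinarith [sq_nonneg ε]
        nlinarith

/-- Numerical hypotheses of the connecting lemma. -/
structure Par (n : ℕ) (p τ K w ε : ℝ) (r N h : ℕ) : Prop where
  hp : 0 < p
  hw : 0 < w
  hε : 0 < ε
  hε1 : ε ≤ 1 / 10
  hτ : 0 ≤ τ
  hτε : 640 * τ ≤ ε ^ 2
  hK0 : 0 ≤ K
  hK : K ≤ τ * (p * w)
  hK2 : (8 * h + 9) * K ≤ ε * (p * w) / 4
  hr : n < 2 ^ r
  hN : 64 ≤ N * ε ^ 2
  hN2 : 120 * τ * N ≤ ε
  hh : h = r + 1 + N

theorem exists_good {ι : Type*} {r N h : ℕ} (hs : ∀ v a b, bad v a b → bad v b a)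
    (hG : G2 G p τ K) (P : Par (Fintype.card V) p τ K w ε r N h)
    (hL : ∀ j ≤ h, LP G bad w (p * w) τ ε (W j))
    (hW : ∀ i j, i < j → j ≤ h → Disjoint (W i) (W j))
    (T : ι → Term V) (X : Finset ι)
    (hinj : Set.InjOn (fun i => (T i).x) X) (hv : ∀ i ∈ X, (T i).Valid G)
    (hout : ∀ i ∈ X, (T i).x ∉ W 0) (hZ : (Z.card : ℝ) + 1 ≤ τ * w)
    (hX : (Z.card : ℝ) + 1 ≤ (4 * h + 4) * X.card) :
    ∃ i ∈ X, (1 / 2 + ε / 4) * (p * w * w) ≤ (ES G bad W Z (T i) h).card := by
  have hε := P.hε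
  have hε1 := P.hε1
  have hτ := P.hτ
  have hτε := P.hτε
  have hw := P.hw
  have hp := P.hp
  have hτ1 : τ ≤ ε / 6400 := by nlinarith
  have hh0 : (0 : ℝ) ≤ h := by positivity
  obtain ⟨Y, hY, h1, h2⟩ := halving (Z := Z) (g := 8 * h + 8) hG hp hw.le (by linarith)
    (by linarith) hτ P.hK0 (by have := P.hK2; linarith) (by linarith) hL hW T X hinj hv hout
    (by nlinarith) (by linarith) r (by have := P.hh; omega)
  have hXn : X.card ≤ Fintype.card V := by
    rw [← card_image_of_injOn hinj]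
    exact card_le_univ _
  have hY1 : Y.card ≤ 1 := by
    by_contra hcon
    have : 2 ^ r * 1 ≤ 2 ^ r * (Y.card - 1) := Nat.mul_le_mul_left _ (by omega)
    have := P.hr
    omega
  have h3 : ε * w / 4 ≤ (RS G bad W Z T Y r).card := by
    rcases min_le_iff.1 h2 with h | h
    · exfalso
      have a1 : ((RS G bad W Z T Y r).card : ℝ) ≤ Fintype.card V := by
        exact_mod_cast card_le_univ _
      have a2 : (Fintype.card V : ℝ) < 2 ^ r := by exact_mod_cast P.hr
      have a3 : (0 : ℝ) ≤ Z.card := by positivity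
      have a4 : (0 : ℝ) < 2 ^ r := by positivity
      nlinarith
    · exact h
  have h4 : (RS G bad W Z T Y r).Nonempty := by
    rw [← card_pos]
    have : (0 : ℝ) < (RS G bad W Z T Y r).card := lt_of_lt_of_le (by positivity) h3
    exact_mod_cast this
  obtain ⟨v, hv'⟩ := h4
  obtain ⟨i, hi, -⟩ := (mem_filter.1 hv').2
  have h5 : RS G bad W Z T Y r ⊆ R1 G bad W Z (T i) r := by
    intro v hv
    obtain ⟨i', hi', u, hu⟩ := (mem_filter.1 hv).2
    have : i' = i := card_le_one.1 hY1 _ hi' _ hi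
    subst this
    exact mem_filter.2 ⟨mem_univ _, u, hu⟩
  have h6 := dens (Z := Z) hs hG hp hw hε hε1 hτ hτε P.hK0 P.hK (by linarith) hL hW (T i)
    (h3.trans (by exact_mod_cast card_le_card h5)) N P.hh.ge
  rw [← P.hh] at h6
  refine ⟨i, hY hi, ?_⟩
  rw [← le_div_iff₀ (by positivity)]
  refine le_trans (le_min ?_ ?_) h6
  · have := P.hN2; linarith
  · have := P.hN; linarith

end Pool.Agent.MP_d6d719_co

end MrgPart5

-- ======== part 6: formerly Pool.Agent.MP_d6d719_co.Conn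
section MrgPart6

set_option autoImplicit false

open Finset
open scoped Classical

namespace Pool.Agent.MP_d6d719_co

variable {V : Type*} [Fintype V] {G : SimpleGraph V} {bad : V → V → V → Prop}

/-- A family of pairwise disjoint good layers. -/
structure Res (G : SimpleGraph V) (bad : V → V → V → Prop) (w dd τ ε : ℝ) (W : ℕ → Finset V)
    (L : ℕ) : Prop where
  lp : ∀ j < L, LP G bad w dd τ ε (W j)
  dj : ∀ i < L, ∀ j < L, i ≠ j → Disjoint (W i) (W j)

/-- The pairs of terminals indexed by `J` are linked by disjoint paths inside the layers. -/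
def Linked (G : SimpleGraph V) (bad : V → V → V → Prop) {ι : Type*} (Tf Tb : ι → Term V)
    (J : Finset ι) (W : ℕ → Finset V) (L len : ℕ) (m : ι → List V) : Prop :=
  (∀ i ∈ J, Link G bad (Tf i) (m i) (Tb i) ∧ (m i).Nodup ∧ (m i).length = len ∧
    ∀ v ∈ m i, ∃ j < L, v ∈ W j) ∧
  ∀ i ∈ J, ∀ j ∈ J, i ≠ j → List.Disjoint (m i) (m j)

variable {p τ K w ε : ℝ} {r N h : ℕ}

theorem link_one (hs : ∀ v a b, bad v a b → bad v b a)
    (P : Par (Fintype.card V) p τ K w ε r N h) {W : ℕ → Finset V}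
    (hR : Res G bad w (p * w) τ ε W (2 * h)) {Z : Finset V} {T T' : Term V}
    (hT : T.Valid G) (hT' : T'.Valid G)
    (h1 : (1 / 2 + ε / 4) * (p * w * w) ≤ (ES G bad W Z T h).card)
    (h2 : (1 / 2 + ε / 4) * (p * w * w) ≤ (ES G bad (fun j => W (2 * h - 1 - j)) Z T' h).card) :
    ∃ m : List V, Link G bad T m T' ∧ m.Nodup ∧ m.length = 2 * h ∧
      ∀ v ∈ m, v ∉ Z ∧ ∃ j < 2 * h, v ∈ W j := by
  have hh : 2 ≤ h := by
    have h3 := P.hN
    have h4 := P.hh
    rcases Nat.eq_zero_or_pos N with h0 | h0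
    · rw [h0] at h3; norm_num at h3
    · omega
  obtain ⟨k, rfl⟩ : ∃ k, h = k + 1 := ⟨h - 1, by omega⟩
  set A := (W k ×ˢ W (k + 1)).filter (fun e => G.Adj e.1 e.2) with hA
  have hAc : (A.card : ℝ) ≤ (1 + τ) * w * ((1 + τ) * (p * w)) := by
    have e1 : A.card = ∑ u ∈ W k, (nb G u (W (k + 1))).card := by
      rw [hA, card_filter, sum_product]
      exact sum_congr rfl fun u _ => by rw [nb, card_filter]
    rw [e1]
    push_cast
    have := sum_le_sum (s := W k) (fun u _ => (hR.lp (k + 1) (by omega)).hi u)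
    rw [sum_const, nsmul_eq_mul] at this
    refine this.trans (mul_le_mul_of_nonneg_right (hR.lp k (by omega)).size ?_)
    have := P.hτ; have := P.hp; have := P.hw
    positivity
  set E1 := ES G bad W Z T (k + 1)
  set E2 := (ES G bad (fun j => W (2 * (k + 1) - 1 - j)) Z T' (k + 1)).image Prod.swap with hE2
  have hE2c : E2.card = (ES G bad (fun j => W (2 * (k + 1) - 1 - j)) Z T' (k + 1)).card :=
    card_image_of_injective _ Prod.swap_injective
  have hs1 : E1 ⊆ A := by
    rintro ⟨u, v⟩ he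
    have he' := (mem_filter.1 he).2
    obtain ⟨u', hu'⟩ := he'.prev
    exact mem_filter.2 ⟨mem_product.2 ⟨hu'.mem.1, he'.mem.1⟩, he'.mem.2.2⟩
  have hs2 : E2 ⊆ A := by
    intro e he
    obtain ⟨⟨u, v⟩, he1, rfl⟩ := mem_image.1 he
    have he' := (mem_filter.1 he1).2
    obtain ⟨u', hu'⟩ := he'.prev
    have a1 := hu'.mem.1
    have a2 := he'.mem.1
    simp only at a1 a2
    rw [show 2 * (k + 1) - 1 - k = k + 1 by omega] at a1
    rw [show 2 * (k + 1) - 1 - (k + 1) = k by omega] at a2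
    exact mem_filter.2 ⟨mem_product.2 ⟨a2, a1⟩, he'.mem.2.2.symm⟩
  have hne : ¬ Disjoint E1 E2 := by
    intro hd
    have a1 := card_le_card (union_subset hs1 hs2)
    rw [card_union_of_disjoint hd, hE2c] at a1
    have a2 : (E1.card : ℝ) + (ES G bad (fun j => W (2 * (k + 1) - 1 - j)) Z T' (k + 1)).card
        ≤ A.card := by exact_mod_cast a1
    have hε := P.hε
    have hε1 := P.hε1
    have hτ := P.hτ
    have hτε := P.hτε
    have hτ1 : τ ≤ ε / 6400 := by nlinarith
    have hA0 : 0 < p * w * w := by have := P.hp; have := P.hw; positivity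
    have a3 : (1 + τ) * (1 + τ) < 1 + ε / 2 := by nlinarith
    nlinarith
  obtain ⟨⟨u, v⟩, he1, he2⟩ := not_disjoint_iff.1 hne
  obtain ⟨⟨v', u'⟩, he3, he4⟩ := mem_image.1 he2
  simp only [Prod.swap_prod_mk, Prod.mk.injEq] at he4
  obtain ⟨rfl, rfl⟩ := he4
  obtain ⟨m1, l1, a1, a2, a3, a4, a5⟩ := Reach.path hT (h := k + 1)
    (fun i j hij hj => hR.dj i (by omega) j (by omega) (by omega)) le_rfl (mem_filter.1 he1).2
  obtain ⟨m2, l2, b1, b2, b3, b4, b5⟩ := Reach.path hT' (h := k + 1)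
    (W := fun j => W (2 * (k + 1) - 1 - j))
    (fun i j hij hj => hR.dj _ (by omega) _ (by omega) (by omega)) le_rfl (mem_filter.1 he3).2
  simp only at a1 a5 b1 b5
  refine ⟨m1 ++ m2.reverse, fun c hc c' hc' => ?_, ?_, by simp [a2, b2]; omega, ?_⟩
  · have c1 := a5 c hc
    have c2 := (b5 c' hc').reverse hs
    have e2 : (c' :: (l2 ++ [v', u'])).reverse = u' :: v' :: (l2.reverse ++ [c']) := by simp
    rw [e2] at c2
    have c3 := CW.overlap (l := c :: l1) c1 c2
    have e3 : m2.reverse ++ [T'.x] = v' :: l2.reverse := by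
      have := congrArg List.reverse b1
      simpa using this
    have e4 : c :: T.x :: (m1 ++ m2.reverse ++ [T'.x, c'])
        = c :: l1 ++ u' :: v' :: (l2.reverse ++ [c']) := by
      calc c :: T.x :: (m1 ++ m2.reverse ++ [T'.x, c'])
          = c :: ((T.x :: m1) ++ ((m2.reverse ++ [T'.x]) ++ [c'])) := by simp
        _ = _ := by rw [a1, e3]; simp
    rw [e4]
    exact c3
  · rw [List.nodup_append]
    refine ⟨a3, List.nodup_reverse.2 b3, ?_⟩
    rintro x hx y hy rfl
    obtain ⟨-, i, hi, hi2⟩ := a4 x hx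
    obtain ⟨-, j, hj, hj2⟩ := b4 x (List.mem_reverse.1 hy)
    exact disjoint_left.1 (hR.dj i (by omega) (2 * (k + 1) - 1 - j) (by omega) (by omega)) hi2 hj2
  · intro x hx
    rcases List.mem_append.1 hx with hx | hx
    · obtain ⟨c1, i, hi, hi2⟩ := a4 x hx
      exact ⟨c1, i, by omega, hi2⟩
    · obtain ⟨c1, j, hj, hj2⟩ := b4 x (List.mem_reverse.1 hx)
      exact ⟨c1, _, by omega, hj2⟩

theorem conn_round {ι : Type*} (hs : ∀ v a b, bad v a b → bad v b a) (hG : G2 G p τ K)
    (P : Par (Fintype.card V) p τ K w ε r N h) {W : ℕ → Finset V}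
    (hR : Res G bad w (p * w) τ ε W (2 * h)) (Tf Tb : ι → Term V) (I : Finset ι)
    (hf : Set.InjOn (fun i => (Tf i).x) I) (hb : Set.InjOn (fun i => (Tb i).x) I)
    (hv : ∀ i ∈ I, (Tf i).Valid G ∧ (Tb i).Valid G)
    (hout : ∀ i ∈ I, ∀ j < 2 * h, (Tf i).x ∉ W j ∧ (Tb i).x ∉ W j)
    (hI : 2 * h * (I.card : ℝ) + 1 ≤ τ * w) :
    ∃ J ⊆ I, I.card ≤ 2 * J.card ∧ ∃ m, Linked G bad Tf Tb J W (2 * h) (2 * h) m := by
  have hh : 2 ≤ h := by
    have h3 := P.hN
    have h4 := P.hh
    rcases Nat.eq_zero_or_pos N with h0 | h0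
    · rw [h0] at h3; norm_num at h3
    · omega
  obtain ⟨J, hJ, hmax⟩ := exists_max_image
    (I.powerset.filter fun J => ∃ m, Linked G bad Tf Tb J W (2 * h) (2 * h) m) card
    ⟨∅, by simp [Linked]⟩
  obtain ⟨hJI, m, hm⟩ := mem_filter.1 hJ
  rw [mem_powerset] at hJI
  refine ⟨J, hJI, ?_, m, hm⟩
  by_contra hcon
  push Not at hcon
  set Z := J.biUnion fun i => (m i).toFinset with hZ
  have hZc : Z.card ≤ 2 * h * J.card := by
    refine card_biUnion_le.trans ?_
    rw [mul_comm, ← smul_eq_mul, ← sum_const]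
    exact sum_le_sum fun i hi => (List.toFinset_card_le _).trans (hm.1 i hi).2.2.1.le
  have hZc' : (Z.card : ℝ) ≤ 2 * h * J.card := by exact_mod_cast hZc
  have hJc : (J.card : ℝ) ≤ I.card := by exact_mod_cast card_le_card hJI
  have hh0 : (0 : ℝ) ≤ h := by positivity
  have hZ1 : (Z.card : ℝ) + 1 ≤ τ * w := by nlinarith
  have key : ∀ (T : ι → Term V) (W' : ℕ → Finset V), Set.InjOn (fun i => (T i).x) I →
      (∀ i ∈ I, (T i).Valid G) → (∀ i ∈ I, (T i).x ∉ W' 0) →
      (∀ j ≤ h, LP G bad w (p * w) τ ε (W' j)) →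
      (∀ i j, i < j → j ≤ h → Disjoint (W' i) (W' j)) →
      2 * ((I \ J).filter fun i =>
        ¬ (1 / 2 + ε / 4) * (p * w * w) ≤ (ES G bad W' Z (T i) h).card).card < (I \ J).card := by
    intro T W' h1 h2 h3 h4 h5
    by_contra hc
    rw [not_lt] at hc
    set X := (I \ J).filter fun i =>
      ¬ (1 / 2 + ε / 4) * (p * w * w) ≤ (ES G bad W' Z (T i) h).card with hX
    have hXI : X ⊆ I := (filter_subset _ _).trans sdiff_subset
    have hc2 := card_sdiff_of_subset hJI
    obtain ⟨i, hi, hi2⟩ := exists_good (Z := Z) hs hG P h4 h5 T X (h1.mono hXI)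
      (fun i hi => h2 i (hXI hi)) (fun i hi => h3 i (hXI hi)) hZ1 (by
        have a1 : J.card + 1 ≤ 2 * X.card := by omega
        have a2 : (J.card : ℝ) + 1 ≤ 2 * X.card := by exact_mod_cast a1
        have a3 : (0 : ℝ) ≤ J.card := by positivity
        nlinarith)
    exact (mem_filter.1 hi).2 hi2
  have k1 := key Tf W hf (fun i hi => (hv i hi).1) (fun i hi => (hout i hi 0 (by omega)).1)
    (fun j hj => hR.lp j (by omega))
    (fun i j hij hj => hR.dj i (by omega) j (by omega) (by omega))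
  have k2 := key Tb (fun j => W (2 * h - 1 - j)) hb (fun i hi => (hv i hi).2)
    (fun i hi => (hout i hi _ (by omega)).2) (fun j hj => hR.lp _ (by omega))
    (fun i j hij hj => hR.dj _ (by omega) _ (by omega) (by omega))
  obtain ⟨i, hi, hi2⟩ := exists_mem_notMem_of_card_lt_card (s := ((I \ J).filter fun i =>
        ¬ (1 / 2 + ε / 4) * (p * w * w) ≤ (ES G bad W Z (Tf i) h).card) ∪ ((I \ J).filter fun i =>
        ¬ (1 / 2 + ε / 4) * (p * w * w) ≤ (ES G bad (fun j => W (2 * h - 1 - j)) Z (Tb i) h).card))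
      (t := I \ J) (lt_of_le_of_lt (card_union_le _ _) (by omega))
  simp only [mem_union, mem_filter, hi, true_and, not_or, not_not] at hi2
  obtain ⟨hiI, hiJ⟩ := mem_sdiff.1 hi
  obtain ⟨m0, a1, a2, a3, a4⟩ := link_one hs P hR (hv i hiI).1 (hv i hiI).2 hi2.1 hi2.2
  have hdis : ∀ j ∈ J, List.Disjoint m0 (m j) := fun j hj v hv1 hv2 =>
    (a4 v hv1).1 (mem_biUnion.2 ⟨j, hj, List.mem_toFinset.2 hv2⟩)
  have hne : ∀ j ∈ J, j ≠ i := fun j hj hji => hiJ (hji ▸ hj)
  have := hmax (insert i J) (mem_filter.2 ⟨mem_powerset.2 (insert_subset hiI hJI),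
    Function.update m i m0, ?_, ?_⟩)
  · rw [card_insert_of_notMem hiJ] at this
    omega
  · intro j hj
    rcases mem_insert.1 hj with rfl | hj
    · rw [Function.update_self]
      exact ⟨a1, a2, a3, fun v hv => (a4 v hv).2⟩
    · rw [Function.update_of_ne (hne j hj)]
      exact hm.1 j hj
  · intro j hj k hk hjk
    rcases mem_insert.1 hj with hj' | hj' <;> rcases mem_insert.1 hk with hk' | hk'
    · exact absurd (hj'.trans hk'.symm) hjk
    · rw [hj', Function.update_self, Function.update_of_ne (hne k hk')]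
      exact hdis k hk'
    · rw [hk', Function.update_self, Function.update_of_ne (hne j hj')]
      exact (hdis j hj').symm
    · rw [Function.update_of_ne (hne j hj'), Function.update_of_ne (hne k hk')]
      exact hm.2 j hj' k hk' hjk

theorem conn {ι : Type*} (hs : ∀ v a b, bad v a b → bad v b a) (hG : G2 G p τ K)
    (P : Par (Fintype.card V) p τ K w ε r N h) (Tf Tb : ι → Term V) (ρ : ℕ) :
    ∀ (W : ℕ → Finset V) (_ : Res G bad w (p * w) τ ε W (2 * h * ρ)) (I : Finset ι)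
    (_ : Set.InjOn (fun i => (Tf i).x) I) (_ : Set.InjOn (fun i => (Tb i).x) I)
    (_ : ∀ i ∈ I, (Tf i).Valid G ∧ (Tb i).Valid G)
    (_ : ∀ i ∈ I, ∀ j < 2 * h * ρ, (Tf i).x ∉ W j ∧ (Tb i).x ∉ W j)
    (_ : 2 * h * (I.card : ℝ) + 1 ≤ τ * w) (_ : I.card < 2 ^ ρ),
    ∃ m, Linked G bad Tf Tb I W (2 * h * ρ) (2 * h) m := by
  induction ρ with
  | zero =>
    intro W _ I _ _ _ _ _ hc
    have : I = ∅ := card_eq_zero.1 (by simpa using hc)
    subst this
    exact ⟨fun _ => [], by simp [Linked]⟩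
  | succ ρ ih =>
    intro W hR I hf hb hv hout hI hc
    have hle : 2 * h ≤ 2 * h * (ρ + 1) := Nat.le_mul_of_pos_right _ (by omega)
    have he : 2 * h * (ρ + 1) = 2 * h * ρ + 2 * h := by ring
    obtain ⟨J, hJ, hJc, m1, hm1⟩ := conn_round hs hG P (W := W)
      ⟨fun j hj => hR.lp j (by omega), fun i hi j hj => hR.dj i (by omega) j (by omega)⟩
      Tf Tb I hf hb hv (fun i hi j hj => hout i hi j (by omega)) hI
    have hsd : I \ J ⊆ I := sdiff_subset
    obtain ⟨m2, hm2⟩ := ih (fun j => W (j + 2 * h))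
      ⟨fun j hj => hR.lp _ (by omega),
        fun i hi j hj hij => hR.dj _ (by omega) _ (by omega) (by omega)⟩
      (I \ J) (hf.mono hsd) (hb.mono hsd) (fun i hi => hv i (hsd hi))
      (fun i hi j hj => hout i (hsd hi) _ (by omega))
      (by
        have : ((I \ J).card : ℝ) ≤ I.card := by exact_mod_cast card_le_card hsd
        have hh0 : (0 : ℝ) ≤ h := by positivity
        nlinarith)
      (by rw [card_sdiff_of_subset hJ]; rw [pow_succ] at hc; omega)
    have hd : ∀ i ∈ J, ∀ j ∈ I \ J, List.Disjoint (m1 i) (m2 j) := by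
      intro i hi j hj v h1 h2
      obtain ⟨a, ha, ha2⟩ := (hm1.1 i hi).2.2.2 v h1
      obtain ⟨b, hb, hb2⟩ := (hm2.1 j hj).2.2.2 v h2
      exact disjoint_left.1 (hR.dj a (by omega) (b + 2 * h) (by omega) (by omega)) ha2 hb2
    refine ⟨fun i => if i ∈ J then m1 i else m2 i, fun i hi => ?_, fun i hi j hj hij => ?_⟩
    · by_cases hiJ : i ∈ J
      · simp only [if_pos hiJ]
        obtain ⟨a1, a2, a3, a4⟩ := hm1.1 i hiJ
        refine ⟨a1, a2, a3, fun v hv => ?_⟩
        obtain ⟨j, hj, hj2⟩ := a4 v hv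
        exact ⟨j, by omega, hj2⟩
      · simp only [if_neg hiJ]
        obtain ⟨a1, a2, a3, a4⟩ := hm2.1 i (mem_sdiff.2 ⟨hi, hiJ⟩)
        refine ⟨a1, a2, a3, fun v hv => ?_⟩
        obtain ⟨j, hj, hj2⟩ := a4 v hv
        exact ⟨j + 2 * h, by omega, hj2⟩
    · by_cases hiJ : i ∈ J <;> by_cases hjJ : j ∈ J
      · simp only [if_pos hiJ, if_pos hjJ]; exact hm1.2 i hiJ j hjJ hij
      · simp only [if_pos hiJ, if_neg hjJ]; exact hd i hiJ j (mem_sdiff.2 ⟨hj, hjJ⟩)
      · simp only [if_neg hiJ, if_pos hjJ]; exact (hd j hjJ i (mem_sdiff.2 ⟨hi, hiJ⟩)).symm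
      · simp only [if_neg hiJ, if_neg hjJ]
        exact hm2.2 i (mem_sdiff.2 ⟨hi, hiJ⟩) j (mem_sdiff.2 ⟨hj, hjJ⟩) hij

end Pool.Agent.MP_d6d719_co

end MrgPart6

-- marker of a merged file
example : 731051 + 189404 = 731051 + 189404 := rfl
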