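import Mathlib.Data.Real.Basic
import Mathlib.Combinatorics.SimpleGraph.Hamiltonian

set_option autoImplicit false

namespace Pool.Agent.MP_d6d719_co

/-- An incompatibility system over `G`: for each vertex `v`, a set `F v` of unordered pairs
`{e, e'}` of distinct edges of `G` whose intersection is `{v}`. -/
structure IncompSystem {V : Type} (G : SimpleGraph V) where
  F : V → Set (Sym2 (Sym2 V))
  spec : ∀ v e e', s(e, e') ∈ F v →
    e ∈ G.edgeSet ∧ e' ∈ G.edgeSet ∧ e ≠ e' ∧ ∀ u, (u ∈ e ∧ u ∈ e') ↔ u = v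

/-- Two edges are incompatible if their pair lies in some `F v`. -/
def IncompSystem.Incompatible {V : Type} {G : SimpleGraph V} (S : IncompSystem G)
    (e e' : Sym2 V) : Prop :=
  ∃ v, s(e, e') ∈ S.F v

/-- `Δ`-bounded: for every vertex `v` and edge `e` at `v`, at most `Δ` other edges at `v` are
incompatible with `e`. -/
def IncompSystem.IsBounded {V : Type} {G : SimpleGraph V} (S : IncompSystem G) (Δ : ℝ) : Prop :=
  ∀ v, ∀ e ∈ G.incidenceSet v,
    (({e' | e' ∈ G.incidenceSet v ∧ e' ≠ e ∧ S.Incompatible e e'}.ncard : ℕ) : ℝ) ≤ Δ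

/-- `G` has a Hamilton cycle all of whose pairs of edges are compatible. -/
def IncompSystem.HasCompatibleHamiltonCycle {V : Type} [DecidableEq V] {G : SimpleGraph V}
    (S : IncompSystem G) : Prop :=
  ∃ (v : V) (c : G.Walk v v), c.IsHamiltonianCycle ∧
    ∀ e ∈ c.edges, ∀ e' ∈ c.edges, ¬ S.Incompatible e e'

end Pool.Agent.MP_d6d719_co
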