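import Mathlib.Probability.Combinatorics.BinomialRandomGraph.Defs
import Pool.Agent.MP_d6d719_co.Defs

set_option autoImplicit false

open Filter Topology

namespace Pool.Agent.MP_d6d719_co

/-- `μ` is admissible: for every `p = p(n)` with `np / log n → ∞`, a.a.s. every `μ n p`-bounded
incompatibility system over `G(n,p)` admits a compatible Hamilton cycle. -/
def Admissible (μ : ℝ) : Prop :=
  ∀ p : ℕ → unitInterval, Tendsto (fun n : ℕ => n * (p n : ℝ) / Real.log n) atTop atTop →
    Tendsto (fun n : ℕ => (SimpleGraph.binomialRandom (Fin n) (p n)).real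
      {G | ∀ S : IncompSystem G, S.IsBounded (μ * n * p n) → S.HasCompatibleHamiltonCycle})
      atTop (𝓝 1)

end Pool.Agent.MP_d6d719_co
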