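import Pool.Agent.MP_d6d719_co.h91.Params2
import Pool.Agent.MP_d6d719_co.Conn
import Pool.Agent.MP_d6d719_co.Defs

-- ======== part 0: formerly Pool.Agent.MP_d6d719_co.h91.BuildA
section MrgPart0

set_option autoImplicit false

open Finset
open scoped Classical

namespace Pool.Agent.MP_d6d719_co.H91

variable {V : Type}

/-- the exit of the short path entered at `v` -/
def ex (S : St V) (v : V) : V := (S.fin (v, true)).1

/-- `v` is an end of a short frozen path -/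
structure Po (D : Dt V) (S : St V) (v : V) : Prop where
  pt : v ∈ D.Pt
  un : S.t (v, true) = (v, true)
  lam : S.lam (v, true) ≤ 5
  fin : S.fin (v, true) = (ex S v, true)
  pt' : ex S v ∈ D.Pt
  cl : ∀ u, S.cl u = S.cl (v, true) → u ∈ D.Fz ∨ u = (v, true) ∨ u = (ex S v, true)

variable {D : Dt V} {S : St V} {H : V → V → Prop} {v : V}

theorem Po.ex_ex (h : Po D S v) : ex S (ex S v) = v := by
  rw [ex, ← h.fin, S.fin_fin_un h.un]

theorem Po.ex_ne (h : Po D S v) : ex S v ≠ v := fun e =>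
  S.fin_ne_un h.un (by rw [h.fin, e])

theorem Po.ex (h : Po D S v) : Po D S (ex S v) where
  pt := h.pt'
  un := h.fin ▸ S.fin_un _
  lam := by rw [← h.fin, S.lam_fin_un h.un]; exact h.lam
  fin := by rw [h.ex_ex, ← h.fin, S.fin_fin_un h.un]
  pt' := h.ex_ex.symm ▸ h.pt
  cl u hu := by
    rw [h.ex_ex]
    exact (h.cl u (by rw [hu, ← h.fin, S.cl_fin])).imp_right Or.symm

theorem Po.ex_inj {w : V} (h : Po D S v) (h' : Po D S w) (e : H91.ex S v = H91.ex S w) : v = w := by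
  rw [← h.ex_ex, e, h'.ex_ex]

theorem Po.fz (h : Po D S v) : (v, false) ∈ D.Fz :=
  (h.cl _ (S.cl_fl (v, true))).resolve_right (by simp [fl])

/-- add the ends of the paths entered at the vertices of a list -/
noncomputable def addU (S : St V) (U : Finset V) : List V → Finset V
  | [] => U
  | y :: l => insert y (insert (ex S y) (addU S U l))

theorem mem_addU {U : Finset V} {l : List V} :
    v ∈ addU S U l ↔ v ∈ U ∨ ∃ y ∈ l, v = y ∨ v = ex S y := by
  induction l with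
  | nil => simp [addU]
  | cons y l ih =>
    simp only [addU, mem_insert, ih, List.mem_cons, exists_eq_or_imp, or_assoc]
    exact ⟨fun h => by rcases h with h | h | h | h <;> simp only [h, true_or, or_true],
      fun h => by rcases h with h | h | h | h <;> simp only [h, true_or, or_true]⟩

theorem card_addU (U : Finset V) (l : List V) : #(addU S U l) ≤ #U + 2 * l.length := by
  induction l with
  | nil => simp [addU]
  | cons y l ih =>
    have := card_insert_le y (insert (ex S y) (addU S U l))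
    have := card_insert_le (ex S y) (addU S U l)
    simp only [addU, List.length_cons]
    omega

theorem addU_append (U : Finset V) (l l' : List V) :
    addU S U (l ++ l') = addU S (addU S U l') l := by
  induction l with
  | nil => rfl
  | cons y l ih => simp only [List.cons_append, addU, ih]

variable (D S) in
/-- a list of entries of distinct new paths -/
def Fr (U : Finset V) : List V → Prop
  | [] => True
  | y :: l => Po D S y ∧ y ∉ addU S U l ∧ Fr U l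

theorem Fr.mem {U : Finset V} {l : List V} (h : Fr D S U l) (hv : v ∈ l) : Po D S v ∧ v ∉ U := by
  induction l with
  | nil => cases hv
  | cons y l ih =>
    rcases List.mem_cons.1 hv with rfl | hv
    exacts [⟨h.1, fun a => h.2.1 (mem_addU.2 (Or.inl a))⟩, ih h.2.2 hv]

theorem Fr.nodup {U : Finset V} {l : List V} (h : Fr D S U l) : l.Nodup := by
  induction l with
  | nil => simp
  | cons y l ih =>
    exact List.nodup_cons.2 ⟨fun a => h.2.1 (mem_addU.2 (Or.inr ⟨y, a, Or.inl rfl⟩)), ih h.2.2⟩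

theorem Fr.ne_ex {U : Finset V} {l : List V} (h : Fr D S U l) (hv : v ∈ l) {w : V} (hw : w ∈ l) :
    v ≠ ex S w := by
  induction l with
  | nil => cases hv
  | cons y l ih =>
    rcases List.mem_cons.1 hv with rfl | hv' <;> rcases List.mem_cons.1 hw with rfl | hw'
    · exact h.1.ex_ne.symm
    · exact fun e => h.2.1 (mem_addU.2 (Or.inr ⟨w, hw', Or.inr e⟩))
    · exact fun e => h.1.ex_ne (by
        have := h.2.1
        by_contra h3
        exact this (mem_addU.2 (Or.inr ⟨v, hv', Or.inr (by rw [e, h.1.ex_ex])⟩)))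
    · exact ih h.2.2 hv' hw'

theorem fr_append {U : Finset V} {l l' : List V} :
    Fr D S U (l ++ l') ↔ Fr D S (addU S U l') l ∧ Fr D S U l' := by
  induction l with
  | nil => simp [Fr]
  | cons y l ih => simp only [List.cons_append, Fr, ih, addU_append, and_assoc]

theorem Fr.rebase {U U' : Finset V} {l : List V} (h : Fr D S U l) (h' : ∀ y ∈ l, y ∉ U') :
    Fr D S U' l := by
  induction l with
  | nil => trivial
  | cons y l ih =>
    exact ⟨h.1, fun a => (mem_addU.1 a).elim (h' y (by simp)) fun b => h.2.1 (mem_addU.2 (.inr b)),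
      ih h.2.2 fun z hz => h' z (by simp [hz])⟩

/-- walks from `a` entering the vertices of a list (last one first) and leaving by `φ` -/
inductive PW (H : V → V → Prop) (φ : V → V) (a : V) : List V → V → Prop
  | nil : PW H φ a [] a
  | cons {l : List V} {u y : V} : PW H φ a l u → H u y → PW H φ a (y :: l) (φ y)

theorem PW.last {φ : V → V} {a u : V} {l : List V} (h : PW H φ a l u) :
    u = a ∨ ∃ y ∈ l, u = φ y := by
  cases h with
  | nil => exact Or.inl rfl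
  | cons => exact Or.inr ⟨_, by simp, rfl⟩

theorem PW.chain {a u : V} {l : List V} (h : PW H id a l u) :
    List.IsChain (fun x y => H y x) (l ++ [a]) ∧ (l ++ [a]).head? = some u := by
  induction h with
  | nil => simp
  | cons h1 h2 ih =>
    refine ⟨List.IsChain.cons ih.1 fun z hz => ?_, rfl⟩
    exact Option.some.inj (ih.2.symm.trans hz) ▸ h2

/-- the data of the extension lemma -/
def FD (P : Pm) (D : Dt V) (H : V → V → Prop) (T U : Finset V) (Sp : V → Prop) (n : ℕ)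
    (p : V → V) : Prop :=
  Inv H D.Pt T P.Dg P.m p ∧ #(Usd T p) ≤ n ∧ (∀ y ∈ T, p y = y → y ∉ U) ∧
    ∀ y ∈ T, p y ≠ y → Sp (p y)

variable [Fintype V] {P : Pm} {T1 T2 : Finset V}

omit [Fintype V] in
theorem SK.po (hS : SK D S T1 T2) (h : v ∈ D.R ∪ T1 ∪ T2) : Po D S v := by
  obtain ⟨a1, -, a2, a3, a4, a5, a6⟩ := hS.en v h
  have e : S.fin (v, true) = (ex S v, true) := Prod.ext rfl a4
  exact ⟨a1, a2, a3, e, a5, fun u hu => e ▸ a6 u hu⟩

theorem half (hP : HP P D.Pt D.R H) {T U : Finset V} (hT : EX H D.Pt T P.Dg P.m)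
    (po : ∀ y ∈ T, Po D S y ∧ ex S y ∉ T) {φ : V → V} (hφ : φ = id ∨ φ = ex S)
    (xc : ∀ v ∈ U, Po D S v ∧ ex S v ∈ U) {Sp : V → Prop} (sp : ∀ v, Sp v → v ∈ U) {n : ℕ}
    {p0 : V → V} (h : FD P D H T U Sp n p0) (hn : n ≤ P.m) {a : V} (ha : a ∈ U) (ha' : ¬ Sp a) :
    ∃ X ⊆ D.Pt, #X = P.m ∧ ∀ x ∈ X, ∃ l p, PW H φ a l x ∧ Fr D S U l ∧ l.length = P.l ∧
      (∀ y ∈ l, y ∈ T) ∧ ∀ U' : Finset V, (∀ y ∈ T, y ∈ U' → y ∈ U ∨ y ∈ l) →
      FD P D H T U' (fun v => Sp v ∨ v = a ∨ ∃ y ∈ l, v = φ y) (n + P.l) p := by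
  obtain ⟨h1, h2, h3, h4⟩ := h
  have f1 : ∀ y ∈ T, y ∉ U → φ y ∉ U := fun y hy a b => by
    rcases hφ with rfl | rfl
    exacts [a b, a ((po y hy).1.ex_ex ▸ (xc _ b).2)]
  obtain ⟨X, x1, x2, x3⟩ := tree hT hP.hD hP.hm hP.ir (fun y z => z = φ y)
    (by
      rintro y hy _ rfl
      rcases hφ with rfl | rfl
      exacts [(po y hy).1.pt, (po y hy).1.pt'])
    (by
      rintro y hy y' hy' _ rfl e
      rcases hφ with rfl | rfl
      exacts [e, (po y hy).1.ex_inj (po y' hy').1 e])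
    h1 (h2.trans hn) (xc a ha).1.pt
    (by
      rintro y hy e _ rfl
      exact ⟨fun e' => f1 y hy (h3 y hy e) (e' ▸ ha),
        fun y' hy' b e' => f1 y hy (h3 y hy e) (e' ▸ sp _ (h4 y' hy' b))⟩)
    (fun y hy b e => ha' (e ▸ h4 y hy b))
    (fun j x p => ∃ l, PW H φ a l x ∧ Fr D S U l ∧ l.length = j ∧ (∀ y ∈ l, y ∈ T ∧ p y ≠ y) ∧
      ∀ y, p y ≠ p0 y → p y = a ∨ ∃ z ∈ l, p y = φ z) ⟨[], .nil, trivial, rfl, by simp, by simp⟩
    (by
      rintro j - x p y ⟨l, c1, c2, c3, c4, c5⟩ hy e e0 hxy -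
      refine ⟨_, rfl, y :: l, c1.cons hxy, ⟨(po y hy).1, fun b => ?_, c2⟩, by simp [c3],
        fun z hz => ?_, fun z hz => ?_⟩
      · rcases mem_addU.1 b with b | ⟨z, b1, rfl | rfl⟩
        exacts [h3 y hy e0 b, (c4 y b1).2 e, (po z (c4 z b1).1).2 hy]
      · by_cases b : z = y
        · rw [b, Function.update_self]
          exact ⟨hy, fun e' => hP.ir y (e' ▸ hxy)⟩
        · rw [Function.update_of_ne b]
          exact c4 z ((List.mem_cons.1 hz).resolve_left b)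
      · suffices h : ∀ w, (w = a ∨ ∃ z ∈ l, w = φ z) → w = a ∨ ∃ z ∈ y :: l, w = φ z by
          by_cases b : z = y
          · rw [b, Function.update_self]
            exact h _ c1.last
          · rw [Function.update_of_ne b] at hz ⊢
            exact h _ (c5 z hz)
        exact fun w => Or.imp_right fun ⟨z, b1, b2⟩ => ⟨z, by simp [b1], b2⟩)
  refine ⟨X, x1, x2, fun x hx => ?_⟩
  obtain ⟨p, ⟨l, c1, c2, c3, c4, c5⟩, d1, d2, d3⟩ := x3 x hx
  refine ⟨l, p, c1, c2, c3, fun y hy => (c4 y hy).1, fun U' hU => ⟨d1, by omega,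
    fun y hy e b => (hU y hy b).elim (h3 y hy ?_) fun b => (c4 y b).2 e, fun y hy e => ?_⟩⟩
  · by_contra b
    exact b ((d2 y b).symm.trans e)
  · by_cases b : p y = p0 y
    exacts [Or.inl (b ▸ h4 y hy (b ▸ e)), Or.inr (c5 y b)]

variable (P D H T1 T2) in
/-- the extension data after `r` requests -/
def FD2 (U : Finset V) (Sp : V → Prop) (r : ℕ) : Prop :=
  (∃ p, FD P D H T1 U Sp (r * P.l) p) ∧ (∃ p, FD P D H T2 U Sp (r * P.l) p) ∧
    #U ≤ 2 + 2 * (2 * P.l + P.J + 1) * r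

omit [Fintype V] in
theorem FD2.mono {U : Finset V} {Sp Sp' : V → Prop} {r : ℕ} (h : FD2 D H P T1 T2 U Sp r)
    (h' : ∀ v, Sp v → Sp' v) : FD2 D H P T1 T2 U Sp' r :=
  ⟨h.1.imp fun _ a => ⟨a.1, a.2.1, a.2.2.1, fun y b c => h' _ (a.2.2.2 y b c)⟩,
    h.2.1.imp fun _ a => ⟨a.1, a.2.1, a.2.2.1, fun y b c => h' _ (a.2.2.2 y b c)⟩, h.2.2⟩

variable (P D S H T1 T2) in
/-- the standing hypotheses, for at most `M + 1` requests -/
structure Ctx (M : ℕ) : Prop where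
  sk : SK D S T1 T2
  hp : HP P D.Pt D.R H
  e1 : EX H D.Pt T1 P.Dg P.m
  e2 : EX H D.Pt T2 P.Dg P.m
  hm : M * P.l ≤ P.m
  hN : ((2 + 2 * (2 * P.l + P.J + 1) * M : ℕ) : ℝ) ≤ 4 * P.ε * Fintype.card V

theorem path {M r : ℕ} (c : Ctx D S H P T1 T2 M) (hr : r ≤ M) {φ : V → V}
    (hφ : φ = id ∨ φ = ex S) {U : Finset V} (xc : ∀ v ∈ U, Po D S v ∧ ex S v ∈ U) {Sp : V → Prop}
    (sp : ∀ v, Sp v → v ∈ U) (h : FD2 D H P T1 T2 U Sp r) {a b : V} (ha : a ∈ U) (ha' : ¬ Sp a)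
    (hb : b ∈ U) (hb' : ¬ Sp b) : ∃ l1 l2 x y, PW H φ a l1 x ∧ PW H φ b l2 y ∧ H x y ∧
      Fr D S U (l2 ++ l1) ∧ l1.length = P.l + P.J ∧ l2.length = P.l ∧
      FD2 D H P T1 T2 (addU S U (l2 ++ l1))
        (fun v => Sp v ∨ v = a ∨ v = b ∨ ∃ y ∈ l2 ++ l1, v = φ y) (r + 1) := by
  obtain ⟨⟨p1, h1⟩, ⟨p2, h2⟩, h3⟩ := h
  have hS := c.sk
  have hP := c.hp
  have hm := (Nat.mul_le_mul_right P.l hr).trans c.hm
  have eT : ∀ y ∈ T1 ∪ T2, ex S y ∉ D.R ∧ ex S y ∉ T1 ∧ ex S y ∉ T2 := fun y hy => by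
    simpa only [mem_union, not_or, and_assoc, ex] using hS.et y hy
  have pR : ∀ y ∈ D.R, Po D S y := fun y hy => hS.po (by simp [hy])
  obtain ⟨X1, x1, x2, x3⟩ := half hP c.e1 (fun y hy => ⟨hS.po (by simp [hy]),
    (eT y (by simp [hy])).2.1⟩) hφ xc sp h1 hm ha ha'
  obtain ⟨X2, y1, y2, y3⟩ := half hP c.e2 (fun y hy => ⟨hS.po (by simp [hy]),
    (eT y (by simp [hy])).2.2⟩) hφ xc sp h2 hm hb hb'
  have n0 := hP.hn
  obtain ⟨j, -, x, W, y, -, e, -⟩ | ⟨-, X, z1, z2, z3⟩ := grow (Lo := D.R \ U) (Tg := ∅)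
    (Sm := D.R) hP.e2 hP.fs (by omega) hP.rx hP.hb hP.hε hP.hγ hP.hγ1 hP.hn hP.hJ hP.hR
    (fun y => s(y, ex S y)) φ sdiff_subset sdiff_subset (empty_subset _)
    (fun e => by
      induction e using Sym2.ind with
      | _ u v =>
        refine (Nat.pow_le_pow_left ((card_le_card (t := {u, v}) fun y hy => ?_).trans card_le_two)
          2).trans (by omega)
        simp only [mem_filter] at hy
        rcases Sym2.eq_iff.1 hy.2 with h | h <;> simp [h.1])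
    (by
      refine le_trans ?_ c.hN
      exact_mod_cast (card_le_card fun y hy => by
        simp only [union_empty, mem_sdiff, not_and, not_not] at hy
        exact hy.2 hy.1).trans (h3.trans (by gcongr)))
    (by
      rcases hφ with rfl | rfl
      exacts [Set.injOn_id _, fun u hu v hv => (pR u (mem_sdiff.1 hu).1).ex_inj
        (pR v (mem_sdiff.1 hv).1)])
    (fun y hy => by
      rcases hφ with rfl | rfl
      exacts [(mem_sdiff.1 hy).1, hS.er y (mem_sdiff.1 hy).1])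
    (fun j x W => ∃ l l0 p, PW H φ a (l ++ l0) x ∧ Fr D S U (l ++ l0) ∧ l0.length = P.l ∧
      l.length = j ∧ (∀ y ∈ l0, y ∈ T1) ∧ (∀ y ∈ l, y ∈ D.R) ∧
      W = (l.map fun y => s(y, ex S y)).toFinset ∧ ∀ U' : Finset V,
      (∀ y ∈ T1, y ∈ U' → y ∈ U ∨ y ∈ l0) →
      FD P D H T1 U' (fun v => Sp v ∨ v = a ∨ ∃ y ∈ l0, v = φ y) (r * P.l + P.l) p)
    (by
      rintro j hj x _ ⟨l, l0, p, -, -, -, a1, -, -, rfl, -⟩
      exact (List.toFinset_card_le _).trans (by simp; omega))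
    (by
      rintro j - x _ y ⟨l, l0, p, a1, a2, a3, a4, a5, a6, rfl, a7⟩ hy hxy hW
      rw [mem_sdiff] at hy
      refine ⟨_, y :: l, l0, p, a1.cons hxy, ⟨pR y hy.1, fun b => ?_, a2⟩, a3, by simp [a4], a5,
        by simpa [hy.1] using a6, rfl, a7⟩
      simp only [List.mem_toFinset, List.mem_map, not_exists, not_and] at hW
      rcases mem_addU.1 b with b | ⟨z, b1, b2⟩
      · exact hy.2 b
      rcases List.mem_append.1 b1 with b1 | b1 <;> rcases b2 with rfl | rfl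
      · exact hW y b1 rfl
      · exact hW z b1 (by rw [(pR z (a6 z b1)).ex_ex, Sym2.eq_swap])
      · exact disjoint_left.1 hS.d1 hy.1 (a5 y b1)
      · exact (eT z (by simp [a5 z b1])).1 hy.1)
    x1 (x2 ▸ hP.r1m) (fun x hx => by
      obtain ⟨l, p, a1, a2, a3, a4, a5⟩ := x3 x hx
      exact ⟨_, [], l, p, a1, a2, a3, rfl, a4, by simp, rfl, a5⟩)
  · simp at e
  obtain ⟨x, hx, y, hy, hxy, -⟩ := junction hP.sy hP.e2 hP.fs hP.hε hP.hn id y1 (y2 ▸ hP.r1m)
    (fun e => by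
      have : #{y ∈ X2 | id y = e} ≤ 1 := card_le_one.2 fun u hu v hv =>
        (mem_filter.1 hu).2.trans (mem_filter.1 hv).2.symm
      exact (Nat.pow_le_pow_left this 2).trans (by omega)) z1 z2 (fun _ => ∅) (fun _ _ => by simp)
  obtain ⟨_, l, l0, p, a1, a2, a3, a4, a5, a6, -, a7⟩ := z3 x hx
  obtain ⟨l2, q, b1, b2, b3, b4, b5⟩ := y3 y hy
  have key : ∀ v z, z ∈ l2 ++ (l ++ l0) → v = z ∨ v = ex S z →
      (v ∈ T1 → v ∈ l0) ∧ (v ∈ T2 → v ∈ l2 ∧ z ∈ l2) := fun v z h1 h2 => by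
    simp only [List.mem_append] at h1
    rcases h1 with h1 | h1 | h1 <;> rcases h2 with rfl | rfl
    · exact ⟨fun h => (disjoint_left.1 hS.d3 h (b4 v h1)).elim, fun _ => ⟨h1, h1⟩⟩
    · have := eT z (by simp [b4 z h1])
      exact ⟨fun h => (this.2.1 h).elim, fun h => (this.2.2 h).elim⟩
    · exact ⟨fun h => (disjoint_left.1 hS.d1 (a6 v h1) h).elim,
        fun h => (disjoint_left.1 hS.d2 (a6 v h1) h).elim⟩
    · exact ⟨fun h => (disjoint_left.1 hS.d1 (hS.er z (a6 z h1)) h).elim,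
        fun h => (disjoint_left.1 hS.d2 (hS.er z (a6 z h1)) h).elim⟩
    · exact ⟨fun _ => h1, fun h => (disjoint_left.1 hS.d3 (a5 v h1) h).elim⟩
    · have := eT z (by simp [a5 z h1])
      exact ⟨fun h => (this.2.1 h).elim, fun h => (this.2.2 h).elim⟩
  have nd : ∀ z ∈ l ++ l0, z ∉ l2 := fun z h1 h2 => (List.mem_append.1 h1).elim
    (fun h => disjoint_left.1 hS.d2 (a6 z h) (b4 z h2))
    fun h => disjoint_left.1 hS.d3 (a5 z h) (b4 z h2)
  refine ⟨l ++ l0, l2, x, y, a1, b1, hxy, fr_append.2 ⟨b2.rebase fun v hv b => ?_, a2⟩,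
    by simp [a3, a4, add_comm], b3, ⟨p, ?_⟩, ⟨q, ?_⟩, (card_addU _ _).trans ?_⟩
  · rcases mem_addU.1 b with b | ⟨z, c1, c2⟩
    exacts [(b2.mem hv).2 b, nd z c1 ((key v z (List.mem_append_right _ c1) c2).2 (b4 v hv)).2]
  · obtain ⟨c1, c2, c3, c4⟩ := a7 (addU S U (l2 ++ (l ++ l0))) fun v hv b =>
      (mem_addU.1 b).imp_right fun ⟨z, c1, c2⟩ => (key v z c1 c2).1 hv
    exact ⟨c1, by rwa [add_one_mul], c3, fun v d1 d2 => (c4 v d1 d2).imp_right
      (Or.imp_right fun ⟨z, d3, d4⟩ => Or.inr ⟨z, by simp [d3], d4⟩)⟩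
  · obtain ⟨c1, c2, c3, c4⟩ := b5 (addU S U (l2 ++ (l ++ l0))) fun v hv b =>
      (mem_addU.1 b).imp_right fun ⟨z, c1, c2⟩ => ((key v z c1 c2).2 hv).1
    exact ⟨c1, by rwa [add_one_mul], c3, fun v d1 d2 => (c4 v d1 d2).imp_right fun d =>
      Or.inr (d.imp_right fun ⟨z, d3, d4⟩ => ⟨z, by simp [d3], d4⟩)⟩
  · simp only [List.length_append, a3, a4, b3]
    nlinarith

end Pool.Agent.MP_d6d719_co.H91

end MrgPart0

-- ======== part 1: formerly Pool.Agent.MP_d6d719_co.h91.BuildB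
section MrgPart1

set_option autoImplicit false

open Finset
open scoped Classical

namespace Pool.Agent.MP_d6d719_co.H91

variable {V : Type}

/-- states of the construction: used ports `U`, handles `Hd`, pending ports, dummies -/
structure BS (D : Dt V) (S : St V) (H : V → V → Prop) (L : ℕ) (S' : St V) (U Hd : Finset V)
    (Pe Dm : V → Prop) : Prop where
  fm : ∀ u ∈ D.Fz, S.t u ≠ u
  xc : ∀ v ∈ U, Po D S v ∧ ex S v ∈ U
  off : ∀ u : V × Bool, (u.2 = true → u.1 ∉ U) → S'.t u = S.t u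
  on : ∀ v ∈ U, ∃ w ∈ U, S'.t (v, true) = (w, true) ∧ (w ≠ v → H v w)
  fr : ∀ v, (v ∈ U ∧ S'.t (v, true) = (v, true)) ↔ Dm v ∨ Pe v
  dp : ∀ v, Dm v → ¬ Pe v
  hd : ∀ q ∈ Hd, q ∈ U ∧ S'.t (q, true) ≠ (q, true) ∧ (S'.t (q, true)).1 ∈ Hd ∧
    S'.lam (q, true) ≤ L ∧ (∃ v, Dm v ∧ S'.fin (q, true) = (v, true)) ∧
    ∀ q' ∈ Hd, S'.cl (q', true) = S'.cl (q, true) → q' = q ∨ (q', true) = S'.t (q, true)

/-- links are kept -/
def Ext (S S' : St V) : Prop := ∀ u, S.t u ≠ u → S'.t u = S.t u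

theorem Ext.trans {S S' S'' : St V} (h : Ext S S') (h' : Ext S' S'') : Ext S S'' := fun u hu =>
  (h' u (by rwa [h u hu])).trans (h u hu)

theorem Ext.fin {S S' : St V} (h : Ext S S') {w e : V × Bool} (h1 : S.fin w = e)
    (h2 : S'.t e = e) : S'.fin w = e ∧ S'.lam w = S.lam w :=
  have := S.ext_fin S' h w (h1 ▸ h2)
  ⟨this.2.trans h1, this.1⟩

variable {D : Dt V} {S S' : St V} {H : V → V → Prop} {L : ℕ} {U Hd : Finset V} {Pe Dm : V → Prop}
  {v : V}

namespace BS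

variable (h : BS D S H L S' U Hd Pe Dm)
include h

theorem dm (hv : Dm v) : v ∈ U ∧ S'.t (v, true) = (v, true) := (h.fr v).2 (Or.inl hv)

theorem pe (hv : Pe v) : v ∈ U ∧ S'.t (v, true) = (v, true) := (h.fr v).2 (Or.inr hv)

theorem fz {u : V × Bool} (hu : u ∈ D.Fz) : S'.t u = S.t u :=
  h.off u fun e a => h.fm u hu (by rw [show u = (u.1, true) from Prod.ext rfl e, (h.xc _ a).1.un])

theorem ex_not (hv : Po D S v) (hv' : v ∉ U) : ex S v ∉ U := fun a => hv' (hv.ex_ex ▸ (h.xc _ a).2)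

theorem fresh (hv : Po D S v) (hv' : v ∉ U) :
    S'.fin (v, true) = (ex S v, true) ∧ S'.lam (v, true) ≤ 5 := by
  have := S.agree_cl S' (· = S.cl (v, true)) (u := (v, true)) (fun u hu => by
    rcases hv.cl u hu with a | rfl | rfl
    exacts [h.fz a, h.off _ fun _ => hv', h.off _ fun _ => h.ex_not hv hv']) rfl
  exact ⟨this.2.trans hv.fin, this.1 ▸ hv.lam⟩

theorem congr {Pe' Dm' : V → Prop} (h1 : ∀ v, Dm v ∨ Pe v ↔ Dm' v ∨ Pe' v) (h2 : ∀ v, Dm v → Dm' v)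
    (h3 : ∀ v, Dm' v → ¬ Pe' v) : BS D S H L S' U Hd Pe' Dm' :=
  { h with
    fr := fun v => (h.fr v).trans (h1 v)
    dp := h3
    hd := fun q hq => by
      obtain ⟨a1, a2, a3, a4, ⟨v, a5, a6⟩, a7⟩ := h.hd q hq
      exact ⟨a1, a2, a3, a4, ⟨v, h2 v a5, a6⟩, a7⟩ }

theorem congr' {Pe' : V → Prop} (h1 : ∀ v, Pe v ↔ Pe' v) : BS D S H L S' U Hd Pe' Dm :=
  (funext fun v => propext (h1 v) : Pe = Pe') ▸ h

theorem add (hv : Po D S v) (hv' : v ∉ U) : BS D S H L S' (insert v (insert (ex S v) U)) Hd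
    (fun w => Pe w ∨ w = v ∨ w = ex S v) Dm := by
  have a1 := h.ex_not hv hv'
  have a2 : S'.t (v, true) = (v, true) := (h.off _ fun _ => hv').trans hv.un
  have a3 : S'.t (ex S v, true) = (ex S v, true) := (h.off (ex S v, true) fun _ => a1).trans hv.ex.un
  refine ⟨h.fm, fun w hw => ?_, fun u hu => h.off u fun e a => hu e (by simp [a]), fun w hw => ?_,
    fun w => ?_, fun w hw => ?_, fun q hq => ⟨by simp [(h.hd q hq).1], (h.hd q hq).2⟩⟩
  · simp only [mem_insert] at hw ⊢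
    rcases hw with rfl | rfl | hw
    exacts [⟨hv, by simp⟩, ⟨hv.ex, by simp [hv.ex_ex]⟩, ⟨(h.xc w hw).1, by simp [(h.xc w hw).2]⟩]
  · simp only [mem_insert] at hw
    rcases hw with rfl | rfl | hw
    exacts [⟨w, by simp, a2, by simp⟩, ⟨_, by simp, a3, by simp⟩,
      (h.on w hw).imp fun z hz => ⟨by simp [hz.1], hz.2⟩]
  · by_cases b1 : w = v
    · simp [b1, a2]
    by_cases b2 : w = ex S v
    · simp [b2, a3]
    simpa [b1, b2] using h.fr w
  · rintro (a | rfl | rfl)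
    exacts [h.dp w hw a, hv' (h.dm hw).1, a1 (h.dm hw).1]

theorem addl {l : List V} (hl : Fr D S U l) : BS D S H L S' (addU S U l) Hd
    (fun w => Pe w ∨ ∃ y ∈ l, w = y ∨ w = ex S y) Dm := by
  induction l with
  | nil => simpa [addU] using h
  | cons y l ih =>
    exact ((ih hl.2.2).add hl.1 hl.2.1).congr' fun w => by
      simp only [List.mem_cons, exists_eq_or_imp, or_assoc, or_comm, or_left_comm]

theorem hfin {q : V} (hq : q ∈ Hd) {e : V × Bool} (he : S'.t e = e)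
    (hc : S'.cl e = S'.cl (q, true)) : ∃ q' ∈ Hd, e = S'.fin (q', true) := by
  obtain ⟨a1, a2, a3, -⟩ := h.hd q hq
  obtain ⟨w, -, b, -⟩ := h.on q a1
  rcases S'.un_of_cl he hc with e | e
  exacts [⟨q, hq, e⟩, ⟨w, by rwa [b] at a3, by rw [e, (S'.fl_ma a2).2, b]⟩]

theorem hdm {q : V} (hq : q ∈ Hd) {e : V × Bool} (he : S'.t e = e)
    (hc : S'.cl e = S'.cl (q, true)) : ∃ v, Dm v ∧ e = (v, true) := by
  obtain ⟨q', a1, rfl⟩ := h.hfin hq he hc
  exact (h.hd q' a1).2.2.2.2.1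

theorem cl_ext {S'' : St V} (h1 : Ext S' S'') (h2 : ∀ v, Dm v → S''.t (v, true) = (v, true))
    {q : V} (hq : q ∈ Hd) {u : V × Bool} (hu : S''.cl u = S''.cl (q, true)) :
    S'.cl u = S'.cl (q, true) := by
  refine S''.cl_closed (fun u => S'.cl u = S'.cl (q, true)) (fun u a => by rwa [S'.cl_fl])
    (fun u a => ?_) rfl hu
  by_cases e : S'.t u = u
  · obtain ⟨v, b, rfl⟩ := h.hdm hq e a
    rwa [h2 v b]
  · rwa [h1 u e, S'.cl_t]

theorem link (hs : ∀ x y, H x y → H y x) {x y : V} (hx : Pe x) (hy : Pe y) (hxy : x ≠ y)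
    (hH : H x y) (hf : S'.fin (x, true) ≠ (y, true)) : ∃ S'' : St V,
    BS D S H L S'' U Hd (fun v => Pe v ∧ v ≠ x ∧ v ≠ y) Dm ∧ Ext S' S'' ∧
    (∀ w, S'.fin w = (x, true) → S''.fin w = S'.fin (y, true) ∧
      S''.lam w = S'.lam w + S'.lam (y, true)) ∧
    ((∃ v, Dm v ∧ S'.fin (x, true) = (v, true)) → (∃ v, Dm v ∧ S'.fin (y, true) = (v, true)) →
      S'.lam (x, true) ≤ L → S'.lam (y, true) ≤ L →
      BS D S H L S'' U (insert x (insert y Hd)) (fun v => Pe v ∧ v ≠ x ∧ v ≠ y) Dm) := by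
  obtain ⟨x1, x2⟩ := h.pe hx
  obtain ⟨y1, y2⟩ := h.pe hy
  set S'' := S'.link _ _ x2 y2 (fun e => hxy (Prod.mk.inj e).1) hf with hS
  have tx : S''.t (x, true) = (y, true) := by simp [hS, St.link]
  have ty : S''.t (y, true) = (x, true) := by rw [← tx, S''.inv]
  have tz : ∀ u, u ≠ (x, true) → u ≠ (y, true) → S''.t u = S'.t u := fun u a b => by
    simp [hS, St.link, a, b]
  have e1 : Ext S' S'' := fun u hu => tz u (fun e => hu (e ▸ x2)) fun e => hu (e ▸ y2)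
  have e2 : ∀ v, Dm v → S''.t (v, true) = (v, true) := fun v hv =>
    (tz (v, true) (fun e => h.dp v hv ((Prod.mk.inj e).1 ▸ hx))
      fun e => h.dp v hv ((Prod.mk.inj e).1 ▸ hy)).trans (h.dm hv).2
  have b : BS D S H L S'' U Hd (fun v => Pe v ∧ v ≠ x ∧ v ≠ y) Dm := by
    refine ⟨h.fm, h.xc, fun u hu => (tz u ?_ ?_).trans (h.off u hu), fun v hv => ?_, fun v => ?_,
      fun v hv a => h.dp v hv a.1, fun q hq => ?_⟩
    · rintro rfl; exact hu rfl x1
    · rintro rfl; exact hu rfl y1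
    · by_cases b1 : v = x
      · exact ⟨y, y1, b1 ▸ tx, fun _ => b1 ▸ hH⟩
      by_cases b2 : v = y
      · exact ⟨x, x1, b2 ▸ ty, fun _ => b2 ▸ hs _ _ hH⟩
      rw [tz _ (by simpa) (by simpa)]
      exact h.on v hv
    · by_cases b1 : v = x
      · simpa [b1, tx, hxy.symm] using fun a => h.dp x a hx
      by_cases b2 : v = y
      · simpa [b2, ty, hxy] using fun a => h.dp y a hy
      rw [tz _ (by simpa) (by simpa)]
      simpa [b1, b2] using h.fr v
    · obtain ⟨a1, a2, a3, a4, ⟨v, a5, a6⟩, a7⟩ := h.hd q hq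
      have := e1.fin a6 (e2 v a5)
      rw [e1 _ a2]
      exact ⟨a1, a2, a3, this.2 ▸ a4, ⟨v, a5, this.1⟩,
        fun q' hq' e => a7 q' hq' (h.cl_ext e1 e2 hq e)⟩
  refine ⟨S'', b, e1, fun w hw => by simp [hS, St.link, hw], ?_⟩
  rintro ⟨cx, c1, c2⟩ ⟨cy, c3, c4⟩ c5 c6
  have k : ∀ z, Pe z → ∀ q ∈ Hd, S''.cl (z, true) ≠ S''.cl (q, true) := fun z hz q hq e => by
    obtain ⟨v, a1, a2⟩ := h.hdm hq (h.pe hz).2 (h.cl_ext e1 e2 hq e)
    exact h.dp v a1 ((Prod.mk.inj a2).1 ▸ hz)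
  refine { b with hd := fun q hq => ?_ }
  simp only [mem_insert, forall_eq_or_imp] at hq ⊢
  rcases hq with rfl | rfl | hq
  · have := e1.fin c2 (e2 _ c1)
    exact ⟨x1, by simp [tx, hxy.symm], by simp [tx], this.2 ▸ c5, ⟨_, c1, this.1⟩, by simp,
      by simp [tx], fun q' hq' e => (k q hx q' hq' e.symm).elim⟩
  · have := e1.fin c4 (e2 _ c3)
    exact ⟨y1, by simp [ty, hxy], by simp [ty], this.2 ▸ c6, ⟨_, c3, this.1⟩, by simp [ty],
      by simp, fun q' hq' e => (k q hy q' hq' e.symm).elim⟩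
  · obtain ⟨a1, a2, a3, a4, a5, a6⟩ := b.hd q hq
    exact ⟨a1, a2, by simp [a3], a4, a5, fun e => (k x hx q hq e).elim,
      fun e => (k y hy q hq e).elim, a6⟩

theorem last {a u : V} {l : List V} (h1 : PW H (ex S) a l u) (h2 : Fr D S U l) : u = a ∨ u ∉ U :=
  h1.last.imp_right fun ⟨_, a1, a2⟩ => a2 ▸ h.ex_not (h2.mem a1).1 (h2.mem a1).2

theorem extend (hs : ∀ x y, H x y → H y x) {a u : V} {l : List V} (ha : Pe a)
    (h1 : PW H (ex S) a l u) (h2 : Fr D S U l) : ∃ S'' : St V,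
    BS D S H L S'' (addU S U l) Hd (fun v => (Pe v ∧ v ≠ a) ∨ v = u) Dm ∧ Ext S' S'' ∧
    ∀ w, S'.fin w = (a, true) → S''.fin w = (u, true) ∧ S''.lam w ≤ S'.lam w + 5 * l.length := by
  induction h1 with
  | nil =>
    refine ⟨S', h.congr' fun v => ?_, fun _ _ => rfl, fun w hw => ⟨hw, by simp⟩⟩
    by_cases e : v = a <;> simp [e, ha]
  | @cons l u y c1 c2 ih =>
    obtain ⟨S1, a1, a2, a3⟩ := ih h2.2.2
    have b1 := a1.fresh h2.1 h2.2.1
    have b2 := (a1.pe (v := u) (Or.inr rfl))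
    have b3 := a1.ex_not h2.1 h2.2.1
    obtain ⟨S2, d1, d2, d3, -⟩ := (a1.add h2.1 h2.2.1).link hs (x := u) (y := y) (by simp) (by simp)
      (fun e => h2.2.1 (e ▸ b2.1)) c2 fun e => b3 (by
        have := (S1.fin_eq_comm b2.2 e).symm.trans b1.1
        exact (Prod.mk.inj this).1 ▸ b2.1)
    refine ⟨S2, d1.congr' fun v => ⟨?_, ?_⟩, a2.trans d2, fun w hw => ?_⟩
    · rintro ⟨(e | e) | e | e, e1, e2⟩
      exacts [Or.inl e, (e1 e).elim, (e2 e).elim, Or.inr e]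
    · rintro (e | rfl)
      · have := (h.pe e.1).1
        exact ⟨Or.inl (Or.inl e), fun e' => (h.last c1 h2.2.2).elim (fun b => e.2 (e'.trans b))
          fun b => b (e' ▸ this), fun e' => h2.2.1 (mem_addU.2 (Or.inl (e' ▸ this)))⟩
      · exact ⟨by simp, fun e => b3 (e ▸ b2.1), h2.1.ex_ne⟩
    · have := d3 w (a3 w hw).1
      exact ⟨this.1.trans b1.1, by have := (a3 w hw).2; simp only [List.length_cons]; omega⟩

theorem cl_sub (hv : v ∈ U) {u : V × Bool} (hu : S'.cl u = S'.cl (v, true)) :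
    u ∈ D.Fz ∨ (u.2 = true ∧ u.1 ∈ U) := by
  obtain ⟨y, a1, a2⟩ := S'.cl_closed (fun u => ∃ y ∈ U, S.cl u = S.cl (y, true))
    (fun u a => by rwa [S.cl_fl]) (fun u a => by
      by_cases e : u.2 = true ∧ u.1 ∈ U
      · obtain ⟨w, b1, b2, -⟩ := h.on _ e.2
        exact ⟨w, b1, by rw [show u = (u.1, true) from Prod.ext rfl e.1, b2]⟩
      · rwa [h.off u (not_and.1 e), S.cl_t]) ⟨v, hv, rfl⟩ hu
  rcases (h.xc y a1).1.cl u a2 with a | rfl | rfl
  exacts [Or.inl a, Or.inr ⟨rfl, a1⟩, Or.inr ⟨rfl, (h.xc y a1).2⟩]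

theorem agree {S1 : St V} (h1 : ∀ u ∈ D.Fz, S1.t u = S.t u) (hv : v ∈ U)
    (h2 : ∀ z ∈ U, S'.cl (z, true) = S'.cl (v, true) → S1.t (z, true) = S'.t (z, true))
    {w : V × Bool} (hw : S'.cl w = S'.cl (v, true)) : S1.fin w = S'.fin w :=
  (S'.agree_cl S1 (· = S'.cl (v, true)) (fun u hu => (h.cl_sub hv hu).elim
    (fun a => (h1 u a).trans (h.fz a).symm) fun a => by
      rw [show u = (u.1, true) from Prod.ext rfl a.1] at hu ⊢
      exact h2 _ a.2 hu) hw).2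

end BS

theorem Po.fin_eq (h : Po D S v) {S1 : St V} (h1 : ∀ u ∈ D.Fz, S1.t u = S.t u) :
    S1.fin (v, true) = S1.fin (H91.ex S v, false) := by
  suffices k : ∀ u, S.fin u = (H91.ex S v, true) → S1.fin u = S1.fin (H91.ex S v, false) from
    k _ h.fin
  intro u
  induction u using S.ind with
  | h0 u a => exact fun b => by rw [← fl_fl u, ← (S.un u a).2, b]; rfl
  | h1 u a ih =>
    intro b
    have c : fl u ∈ D.Fz := by
      rcases h.cl (fl u) (by rw [S.cl_fl, S.cl_of_fin (b.trans h.fin.symm)]) with c | c | c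
      exacts [c, (a (c ▸ h.un)).elim, (a (c ▸ h.ex.un)).elim]
    rw [(S1.ma u (by rwa [h1 _ c])).2, h1 _ c, ih ((S.ma u a).2.symm.trans b)]

theorem enum_cycle {a : V} {l : List V} {n : ℕ} (hn : l.length + 1 = n) (nd : (a :: l).Nodup)
    (ch : List.IsChain H (a :: l ++ [a])) : ∃ c : ℕ → V, c 0 = a ∧ c n = a ∧
    (∀ i < n, ∀ j < n, c i = c j → i = j) ∧ (∀ j < n, H (c j) (c (j + 1))) ∧
    ∀ v, v ∈ l ↔ ∃ j, 0 < j ∧ j < n ∧ v = c j := by
  subst hn
  refine ⟨fun j => (a :: l).getD j a, rfl, List.getD_eq_default _ _ (by simp), fun i hi j hj e => ?_,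
    fun j hj => ?_, fun v => ⟨fun hv => ?_, ?_⟩⟩
  · simp only at e
    rw [List.getD_eq_getElem (a :: l) a hi, List.getD_eq_getElem (a :: l) a hj] at e
    exact nd.getElem_inj_iff.1 e
  · have k : ∀ i, ∀ hi : i < (a :: l ++ [a]).length, (a :: l).getD i a = (a :: l ++ [a])[i] :=
      fun i hi => by
      rw [List.getElem_append]
      split_ifs with b
      · exact List.getD_eq_getElem _ _ b
      · rw [List.getD_eq_default _ _ (not_lt.1 b), List.getElem_singleton]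
    simp only
    rw [k j (by simp; omega), k (j + 1) (by simp; omega)]
    exact List.isChain_iff_getElem.1 ch j _
  · obtain ⟨i, hi, rfl⟩ := List.getElem_of_mem hv
    exact ⟨i + 1, by omega, by omega, (List.getD_eq_getElem l a hi).symm⟩
  · rintro ⟨_ | j, a1, a2, rfl⟩
    · omega
    · simp only [List.getD_cons_succ]
      rw [List.getD_eq_getElem _ _ (by omega)]
      exact List.getElem_mem _

end Pool.Agent.MP_d6d719_co.H91

end MrgPart1

-- ======== part 2: formerly Pool.Agent.MP_d6d719_co.h91.Build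
section MrgPart2

set_option autoImplicit false

open Finset
open scoped Classical

namespace Pool.Agent.MP_d6d719_co.H91

variable {V : Type} [Fintype V] {D : Dt V} {S S' : St V} {H : V → V → Prop} {L M r : ℕ}
  {U Hd T1 T2 : Finset V} {Pe Dm : V → Prop} {P : Pm}

theorem ext2 (c : Ctx D S H P T1 T2 M) (hr : r ≤ M) (h : BS D S H L S' U Hd Pe Dm)
    (f : FD2 D H P T1 T2 U (fun v => v ∈ U ∧ ¬ Pe v) r) {a b : V} (ha : Pe a) (hb : Pe b)
    (hab : a ≠ b) : ∃ S'' U'' x y,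
    BS D S H L S'' U'' Hd (fun v => (Pe v ∧ v ≠ a ∧ v ≠ b) ∨ v = x ∨ v = y) Dm ∧ H x y ∧
    Ext S' S'' ∧ U ⊆ U'' ∧ (x = a ∨ x ∉ U) ∧ (y = b ∨ y ∉ U) ∧
    (∀ w, S'.fin w = (a, true) → S''.fin w = (x, true) ∧ S''.lam w ≤ S'.lam w + 5 * (P.l + P.J)) ∧
    (∀ w, S'.fin w = (b, true) → S''.fin w = (y, true) ∧ S''.lam w ≤ S'.lam w + 5 * (P.l + P.J)) ∧
    FD2 D H P T1 T2 U'' (fun v => v ∈ U'' ∧ ¬ (Pe v ∧ v ≠ a ∧ v ≠ b)) (r + 1) := by
  obtain ⟨l1, l2, x, y, a1, a2, a3, a4, a5, a6, a7⟩ := path c hr (Or.inr rfl) h.xc (fun _ h => h.1)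
    f (h.pe ha).1 (fun e => e.2 ha) (h.pe hb).1 fun e => e.2 hb
  obtain ⟨b1, b2⟩ := fr_append.1 a4
  obtain ⟨S1, c1, c2, c3⟩ := h.extend c.hp.sy ha a1 b2
  obtain ⟨S2, d1, d2, d3⟩ := c1.extend c.hp.sy (Or.inl ⟨hb, hab.symm⟩) a2 b1
  have e1 := h.last a1 b2
  have e2 : x ≠ b := fun e => e1.elim (fun e' => hab (e'.symm.trans e)) fun e' =>
    e' (e ▸ (h.pe hb).1)
  have e3 : U ⊆ addU S U (l2 ++ l1) := fun v hv => mem_addU.2 (Or.inl hv)
  rw [← addU_append] at d1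
  refine ⟨S2, _, x, y, d1.congr' fun v => ?_, a3, c2.trans d2, e3, e1,
    (c1.last a2 b1).imp_right fun e e' => e (mem_addU.2 (Or.inl e')), fun w hw => ?_,
    fun w hw => ?_, a7.mono ?_⟩
  · by_cases e : v = x
    · simp [e, e2]
    · simp [e, and_assoc]
  · have := d2.fin (c3 w hw).1 (d1.pe (Or.inl ⟨Or.inr rfl, e2⟩)).2
    exact ⟨this.1, this.2 ▸ a5 ▸ (c3 w hw).2⟩
  · have := c2.fin hw (c1.pe (Or.inl ⟨hb, hab.symm⟩)).2
    have k := d3 w this.1
    exact ⟨k.1, by omega⟩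
  · rintro v (e | rfl | rfl | ⟨z, e, rfl⟩)
    exacts [⟨e3 e.1, fun e' => e.2 e'.1⟩, ⟨e3 (h.pe ha).1, by simp⟩, ⟨e3 (h.pe hb).1, by simp⟩,
      ⟨mem_addU.2 (Or.inr ⟨z, e, Or.inr rfl⟩),
        fun e' => h.ex_not (a4.mem e).1 (a4.mem e).2 (h.pe e'.1).1⟩]

theorem connect (c : Ctx D S H P T1 T2 M) (hr : r ≤ M) (h : BS D S H L S' U Hd Pe Dm)
    (f : FD2 D H P T1 T2 U (fun v => v ∈ U ∧ ¬ Pe v) r) {a b ca cb : V} (ha : Pe a) (hb : Pe b)
    (hab : a ≠ b) (da : Dm ca) (db : Dm cb)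
    (fa : S'.fin (ca, true) = (a, true) ∧ S'.lam (ca, true) ≤ 5)
    (fb : S'.fin (cb, true) = (b, true) ∧ S'.lam (cb, true) ≤ 5) (hL : 5 + 5 * (P.l + P.J) ≤ L) :
    ∃ S'' U'' x y, BS D S H L S'' U'' Hd (fun v => Pe v ∧ v ≠ a ∧ v ≠ b) Dm ∧
    BS D S H L S'' U'' (insert x (insert y Hd)) (fun v => Pe v ∧ v ≠ a ∧ v ≠ b) Dm ∧
    Ext S' S'' ∧ U ⊆ U'' ∧ S''.fin (ca, true) = (cb, true) ∧
    FD2 D H P T1 T2 U'' (fun v => v ∈ U'' ∧ ¬ (Pe v ∧ v ≠ a ∧ v ≠ b)) (r + 1) ∧ x ≠ y ∧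
    ∀ z, z = x ∨ z = y → (z ∈ U → Pe z) ∧
      (S''.fin (z, true) = (ca, true) ∨ S''.fin (z, true) = (cb, true)) := by
  obtain ⟨S1, U1, x, y, a1, a2, a3, a4, a5, a6, a7, a8, a9⟩ := ext2 c hr h f ha hb hab
  have hxy : x ≠ y := fun e => c.hp.ir y (e ▸ a2)
  obtain ⟨b1, b2⟩ := a7 _ fa.1
  obtain ⟨b3, b4⟩ := a8 _ fb.1
  have c1 := S1.fin_eq_comm (a1.dm da).2 b1
  have c2 := S1.fin_eq_comm (a1.dm db).2 b3
  obtain ⟨S2, d1, d2, d3, d4⟩ := a1.link c.hp.sy (x := x) (y := y) (by simp) (by simp) hxy a2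
    fun e => a1.dp ca da (Or.inr (Or.inr (Prod.mk.inj (c1.symm.trans e)).1))
  have e : ∀ v, (((Pe v ∧ v ≠ a ∧ v ≠ b) ∨ v = x ∨ v = y) ∧ v ≠ x ∧ v ≠ y) ↔
      Pe v ∧ v ≠ a ∧ v ≠ b := fun v => ⟨fun k => k.1.resolve_right (not_or.2 k.2), fun k =>
    ⟨Or.inl k, fun e => a5.elim (fun e' => k.2.1 (e.trans e')) fun e' => e' (e ▸ (h.pe k.1).1),
      fun e => a6.elim (fun e' => k.2.2 (e.trans e')) fun e' => e' (e ▸ (h.pe k.1).1)⟩⟩
  refine ⟨S2, U1, x, y, d1.congr' e, (d4 ⟨_, da, c1⟩ ⟨_, db, c2⟩ ?_ ?_).congr' e, a3.trans d2, a4,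
    (d3 _ b1).1.trans c2, a9, hxy, ?_⟩
  · rw [← b1, S1.lam_fin_un (a1.dm da).2]; omega
  · rw [← b3, S1.lam_fin_un (a1.dm db).2]; omega
  · rintro z (rfl | rfl)
    exacts [⟨fun k => a5.resolve_right (not_not.2 k) ▸ ha, Or.inl (d2.fin c1 (d1.dm da).2).1⟩,
      ⟨fun k => a6.resolve_right (not_not.2 k) ▸ hb, Or.inr (d2.fin c2 (d1.dm db).2).1⟩]

theorem cyc (c : Ctx D S H P T1 T2 M) (hr : r ≤ M) (h : BS D S H L S' U Hd Pe Dm)
    (f : FD2 D H P T1 T2 U (fun v => v ∈ U ∧ ¬ Pe v) r) {a : V} (ha : Pe a) {n : ℕ}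
    (hn : n = 2 * P.l + P.J + 1) : ∃ (c : ℕ → V) (U' : Finset V), c 0 = a ∧ c n = a ∧
    (∀ i < n, ∀ j < n, c i = c j → i = j) ∧ (∀ j < n, H (c j) (c (j + 1))) ∧
    (∀ j, 0 < j → j < n → Po D S (c j) ∧ c j ∉ U) ∧ U ⊆ U' ∧
    BS D S H L S' U' Hd (fun v => (Pe v ∧ v ≠ a) ∨ ∃ j, 0 < j ∧ j < n ∧ v = ex S (c j))
      (fun v => Dm v ∨ ∃ j < n, v = c j) ∧ FD2 D H P T1 T2 U' (fun v => v ∈ U' ∧
      ¬ ((Pe v ∧ v ≠ a) ∨ ∃ j, 0 < j ∧ j < n ∧ v = ex S (c j))) (r + 1) := by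
  obtain ⟨l1, l2, x, y, a1, a2, a3, a4, a5, a6, a7⟩ := path c hr (Or.inl rfl) h.xc (fun _ h => h.1)
    f (h.pe ha).1 (fun e => e.2 ha) (h.pe ha).1 fun e => e.2 ha
  have pm : (l1.reverse ++ l2).Perm (l2 ++ l1) :=
    (l1.reverse_perm.append_right l2).trans List.perm_append_comm
  obtain ⟨c, b1, b2, b3, b4, b5⟩ := enum_cycle (H := H) (a := a) (l := l1.reverse ++ l2) (n := n)
    (by simp; omega) (List.nodup_cons.2 ⟨fun e => (a4.mem (pm.mem_iff.1 e)).2 (h.pe ha).1,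
      pm.nodup_iff.2 a4.nodup⟩) (by
      have := (List.isChain_reverse.2 a1.chain.1).append (a2.chain.1.imp fun _ _ => c.hp.sy _ _)
        (by rw [List.getLast?_reverse, a1.chain.2, a2.chain.2]; simpa using a3)
      simpa using this)
  simp only [pm.mem_iff] at b5
  have e1 : ∀ v, (∃ j, 0 < j ∧ j < n ∧ v = ex S (c j)) ↔ ∃ y ∈ l2 ++ l1, v = ex S y := fun v =>
    ⟨fun ⟨j, k1, k2, k3⟩ => ⟨_, (b5 _).2 ⟨j, k1, k2, rfl⟩, k3⟩, fun ⟨y, k1, k2⟩ =>
      ((b5 y).1 k1).elim fun j k => ⟨j, k.1, k.2.1, k.2.2 ▸ k2⟩⟩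
  have e2 : ∀ v, (∃ j < n, v = c j) ↔ v = a ∨ v ∈ l2 ++ l1 := fun v => by
    rw [b5]
    refine ⟨fun ⟨j, k1, k2⟩ => ?_, fun k => k.elim (fun e => ⟨0, by omega, e.trans b1.symm⟩)
      fun ⟨j, k⟩ => ⟨j, k.2⟩⟩
    rcases j.eq_zero_or_pos with rfl | e
    exacts [Or.inl (k2.trans b1), Or.inr ⟨j, e, k1, k2⟩]
  have e3 : ∀ v, v ∈ U ∧ ¬ Pe v ∨ v = a ∨ v ∈ l2 ++ l1 →
      ¬ ((Pe v ∧ v ≠ a) ∨ ∃ y ∈ l2 ++ l1, v = ex S y) := by
    have k : ∀ y ∈ l2 ++ l1, ex S y ∉ U := fun y hy => h.ex_not (a4.mem hy).1 (a4.mem hy).2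
    rintro v (e | rfl | e) (e' | ⟨y, e', e''⟩)
    exacts [e.2 e'.1, k y e' (e'' ▸ e.1), e'.2 rfl, k y e' (e'' ▸ (h.pe ha).1),
      (a4.mem e).2 (h.pe e'.1).1, a4.ne_ex e e' e'']
  refine ⟨c, _, b1, b2, b3, b4, fun j k1 k2 => a4.mem ((b5 _).2 ⟨j, k1, k2, rfl⟩),
    fun v hv => mem_addU.2 (Or.inl hv), ?_, a7.mono ?_⟩
  · simp only [e1, e2]
    refine (h.addl a4).congr (fun v => ?_) (fun _ => Or.inl) fun v hv => e3 v
      (hv.imp_left fun k => ⟨(h.dm k).1, h.dp v k⟩)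
    by_cases e : v = a
    · simp [e, ha]
    · simp only [e, ne_eq, not_false_iff, and_true, false_or, and_or_left, exists_or,
        exists_eq_right', or_assoc, or_left_comm]
  · simp only [e1]
    rintro v (e | e | e | ⟨z, e, rfl⟩)
    exacts [⟨mem_addU.2 (.inl e.1), e3 v (.inl e)⟩,
      ⟨mem_addU.2 (.inl (e ▸ (h.pe ha).1)), e3 v (.inr (.inl e))⟩,
      ⟨mem_addU.2 (.inl (e ▸ (h.pe ha).1)), e3 v (.inr (.inl e))⟩,
      ⟨mem_addU.2 (.inr ⟨_, e, .inl rfl⟩), e3 _ (.inr (.inr e))⟩]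

variable (D S H) in
/-- all switches built so far can be toggled -/
def TG (S' : St V) (A Dm : V → Prop) (a : V) : Prop :=
  ∀ (G : SimpleGraph V) (F : V → V → V → Prop), (∀ v a b, F v a b → F v b a) →
    (∀ x ∈ D.Pt, ∀ y ∈ D.Pt, H x y → Gam G F D.st x y) → ∀ S1 : St V, Good G F S1 →
    (∀ u ∈ D.Fz, S1.t u = S.t u) → (∀ v, A v → S1.t (v, true) = S'.t (v, true)) →
    (∀ v, Dm v → S1.fin (a, false) ≠ (v, true)) → ∃ S2 : St V, Good G F S2 ∧
      (∀ v, Dm v → S2.t (v, true) ≠ (v, true)) ∧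
      ∀ u, (∀ v, Dm v → u ≠ (v, true)) → S2.t u = S1.t u

omit [Fintype V] in
theorem BS.keep {S'' : St V} {U' Hd' : Finset V} {Pe' Dm' : V → Prop}
    (h : BS D S H L S' U Hd Pe Dm) (h' : BS D S H L S'' U' Hd' Pe' Dm') (e : Ext S' S'')
    (d : ∀ v, Dm v → Dm' v) {v : V} (hv : v ∈ U) (hv' : ¬ Pe v) :
    S''.t (v, true) = S'.t (v, true) ∧ ¬ Pe' v := by
  by_cases a : S'.t (v, true) = (v, true)
  · have := d v (((h.fr v).1 ⟨hv, a⟩).resolve_right hv')
    exact ⟨(h'.dm this).2.trans a.symm, h'.dp v this⟩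
  · exact ⟨e _ a, fun b => a ((e _ a).symm.trans (h'.pe b).2)⟩

omit [Fintype V] in
theorem gam_of {G : SimpleGraph V} {F : V → V → V → Prop} (t0 : D.t0 = S.t)
    (hH : ∀ x ∈ D.Pt, ∀ y ∈ D.Pt, H x y → Gam G F D.st x y) {S2 : St V}
    (h : ∀ u ∈ D.Fz, S2.t u = S.t u) {x y : V} (hx : Po D S x) (hy : Po D S y) (hxy : H x y) :
    Gam G F (fun v => (S2.t (v, false)).1) x y := by
  simpa only [Gam, Dt.st, t0, h _ hx.fz, h _ hy.fz] using hH x hx.pt y hy.pt hxy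

variable (D S H P T1 T2) in
/-- the state after `k` switches -/
def MS (h : ℕ) (y0 : V) (k : ℕ) : Prop := ∃ S' U Hd Dm a,
  BS D S H (10 * h) S' U Hd (fun v => v = a ∨ v = y0) Dm ∧ a ≠ y0 ∧
  FD2 D H P T1 T2 U (fun v => v ∈ U ∧ ¬ (v = a ∨ v = y0)) (k * h) ∧ 2 * k ≤ #Hd ∧
  TG D S H S' (fun v => v ∈ U ∧ v ∉ Hd ∧ ¬ (v = a ∨ v = y0)) Dm a

theorem MS.succ (cx : Ctx D S H P T1 T2 M) {h k : ℕ} (hh : 2 ≤ h)
    (hJ : 2 * h = 2 * P.l + P.J + 1) (hk : (k + 1) * h ≤ M) {y0 : V}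
    (ms : MS D S H T1 T2 P h y0 k) : MS D S H T1 T2 P h y0 (k + 1) := by
  obtain ⟨S', U, Hd, Dm, a, bs, ha, fd, hc, tg⟩ := ms
  rw [add_one_mul] at hk
  obtain ⟨c, U1, c0, cn, ci, ch, cp, u1, b1, f1⟩ := cyc cx (by omega) bs fd (Or.inl rfl) hJ
  set Pe : V → Prop := fun v => ((v = a ∨ v = y0) ∧ v ≠ a) ∨
    ∃ j, 0 < j ∧ j < 2 * h ∧ v = ex S (c j) with hPe
  set Dm1 : V → Prop := fun v => Dm v ∨ ∃ j < 2 * h, v = c j with hDm
  have ne : ∀ i j, 0 < i → i < 2 * h → 0 < j → j < 2 * h → i ≠ j → ex S (c i) ≠ ex S (c j) :=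
    fun i j a1 a2 a3 a4 a5 e => a5 (ci i a2 j a4 ((cp i a1 a2).1.ex_inj (cp j a3 a4).1 e))
  have nu : ∀ i, 0 < i → i < 2 * h → ex S (c i) ∉ U := fun i a1 a2 =>
    bs.ex_not (cp i a1 a2).1 (cp i a1 a2).2
  have dc : ∀ j < 2 * h, Dm1 (c j) := fun j hj => Or.inr ⟨j, hj, rfl⟩
  have con : ∀ {S1 U2 Pe'} r, r ≤ M → BS D S H (10 * h) S1 U2 Hd Pe' Dm1 → Ext S' S1 →
      FD2 D H P T1 T2 U2 (fun v => v ∈ U2 ∧ ¬ Pe' v) r → ∀ j, 0 < j → j < h → Pe' (ex S (c j)) →
      Pe' (ex S (c (2 * h - j))) → _ := fun {S1 _ Pe'} r a1 a2 a3 a4 j a5 a6 a7 a8 =>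
    have k : ∀ i, 0 < i → i < 2 * h → Pe' (ex S (c i)) → S1.fin (c i, true) = (ex S (c i), true) ∧
        S1.lam (c i, true) ≤ 5 := fun i k1 k2 hi =>
      have k3 := bs.fresh (cp i k1 k2).1 (cp i k1 k2).2
      And.imp_right (·.trans_le k3.2) (a3.fin k3.1 (a2.pe hi).2)
    connect cx a1 a2 a4 a7 a8 (ne _ _ a5 (by omega) (by omega) (by omega) (by omega))
      (dc _ (by omega)) (dc _ (by omega)) (k _ a5 (by omega) a7) (k _ (by omega) (by omega) a8)
      (by omega)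
  have loop : ∀ i, i + 2 ≤ h → ∃ S1 U2, BS D S H (10 * h) S1 U2 Hd (fun v => Pe v ∧
      ∀ j, 2 ≤ j → j < i + 2 → v ≠ ex S (c j) ∧ v ≠ ex S (c (2 * h - j))) Dm1 ∧ Ext S' S1 ∧
      U1 ⊆ U2 ∧ FD2 D H P T1 T2 U2 (fun v => v ∈ U2 ∧ ¬ (Pe v ∧ ∀ j, 2 ≤ j → j < i + 2 →
        v ≠ ex S (c j) ∧ v ≠ ex S (c (2 * h - j)))) (k * h + 1 + i) ∧
      ∀ j, 2 ≤ j → j < i + 2 → S1.fin (c j, true) = (c (2 * h - j), true) := by
    intro i hi
    induction i with
    | zero =>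
      exact ⟨S', U1, b1.congr' fun v => ⟨fun k => ⟨k, fun j _ _ => by omega⟩, (·.1)⟩,
        fun _ _ => rfl, Subset.rfl, f1.mono fun v k => ⟨k.1, fun k' => k.2 k'.1⟩,
        fun j _ _ => by omega⟩
    | succ i ih =>
      obtain ⟨S1, U2, a1, a2, a3, a4, a5⟩ := ih (by omega)
      obtain ⟨S2, U3, -, -, d1, -, d2, d3, d4, d5, -⟩ := con _ (by omega) a1 a2 a4 (i + 2)
        (by omega) (by omega)
        ⟨Or.inr ⟨_, by omega, by omega, rfl⟩, fun j _ _ => by constructor <;> apply ne <;> omega⟩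
        ⟨Or.inr ⟨_, by omega, by omega, rfl⟩, fun j _ _ => by constructor <;> apply ne <;> omega⟩
      have e : ∀ v, ((Pe v ∧ ∀ j, 2 ≤ j → j < i + 2 → v ≠ ex S (c j) ∧ v ≠ ex S (c (2 * h - j))) ∧
          v ≠ ex S (c (i + 2)) ∧ v ≠ ex S (c (2 * h - (i + 2)))) ↔ Pe v ∧ ∀ j, 2 ≤ j →
          j < i + 1 + 2 → v ≠ ex S (c j) ∧ v ≠ ex S (c (2 * h - j)) := fun v =>
        ⟨fun k => ⟨k.1.1, fun j k1 k2 => (Nat.lt_succ_iff_lt_or_eq.1 k2).elim (k.1.2 j k1)
          fun e => e ▸ k.2⟩, fun k => ⟨⟨k.1, fun j k1 k2 => k.2 j k1 (by omega)⟩,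
          k.2 _ (by omega) (by omega)⟩⟩
      refine ⟨S2, U3, d1.congr' e, a2.trans d2, a3.trans d3,
        d5.mono fun v k => ⟨k.1, fun k' => k.2 ((e v).2 k')⟩, fun j k1 k2 => ?_⟩
      rcases Nat.lt_succ_iff_lt_or_eq.1 k2 with e | rfl
      exacts [(d2.fin (a5 j k1 e) (d1.dm (dc _ (by omega))).2).1, d4]
  obtain ⟨S1, U2, a1, a2, a3, a4, a5⟩ := loop (h - 2) (by omega)
  obtain ⟨S2, U3, x, y, -, d1, d2, d3, -, d5, d6, d7⟩ := con _ (by omega) a1 a2 a4 1
    (by omega) (by omega)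
    ⟨Or.inr ⟨_, by omega, by omega, rfl⟩, fun j _ _ => by constructor <;> apply ne <;> omega⟩
    ⟨Or.inr ⟨_, by omega, by omega, rfl⟩, fun j _ _ => by constructor <;> apply ne <;> omega⟩
  have y1 := (bs.pe (v := y0) (Or.inr rfl)).1
  have e : ∀ v, ((Pe v ∧ ∀ j, 2 ≤ j → j < h - 2 + 2 → v ≠ ex S (c j) ∧ v ≠ ex S (c (2 * h - j))) ∧
      v ≠ ex S (c 1) ∧ v ≠ ex S (c (2 * h - 1))) ↔ v = ex S (c h) ∨ v = y0 := fun v => by
    constructor
    · rintro ⟨⟨k | ⟨j, k1, k2, rfl⟩, k3⟩, k4, k5⟩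
      · exact Or.inr (k.1.resolve_left k.2)
      by_contra k6
      have k7 : j ≠ h := fun e => k6 (Or.inl (e ▸ rfl))
      have k8 : j ≠ 1 := fun e => k4 (e ▸ rfl)
      have k9 : j ≠ 2 * h - 1 := fun e => k5 (e ▸ rfl)
      by_cases e : j < h
      · exact (k3 j (by omega) (by omega)).1 rfl
      · exact (k3 (2 * h - j) (by omega) (by omega)).2 (by congr; omega)
    · rintro (rfl | rfl)
      · exact ⟨⟨Or.inr ⟨_, by omega, by omega, rfl⟩, fun j _ _ => by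
          constructor <;> apply ne <;> omega⟩, by constructor <;> apply ne <;> omega⟩
      · have : ∀ i, 0 < i → i < 2 * h → v ≠ ex S (c i) := fun i k1 k2 e => nu i k1 k2 (e ▸ y1)
        exact ⟨⟨Or.inl ⟨Or.inr rfl, ha.symm⟩, fun j _ _ => by
          constructor <;> apply this <;> omega⟩, by constructor <;> apply this <;> omega⟩
  replace d1 := d1.congr' e
  have x1 : ∀ z, z = x ∨ z = y → z ∉ Hd := fun z hz k =>
    (a1.hd z k).2.1 (a1.pe ((d7 z hz).1 (a1.hd z k).1)).2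
  have e2 := a2.trans d2
  have ff : ∀ j, 2 ≤ j → j < h → S2.fin (c j, true) = (c (2 * h - j), true) := fun j k1 k2 =>
    (d2.fin (a5 j k1 (by omega)) (d1.dm (dc _ (by omega))).2).1
  have cd : ∀ j < 2 * h, ¬ Dm (c j) := fun j hj k => by
    rcases j.eq_zero_or_pos with rfl | e
    exacts [bs.dp _ k (Or.inl c0), (cp j e hj).2 (bs.dm k).1]
  refine ⟨S2, U3, _, Dm1, _, d1, fun k => nu h (by omega) (by omega) (k ▸ y1), ?_, ?_,
    fun G F hF hH S3 g1 g2 g3 g4 => ?_⟩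
  · rw [show (k + 1) * h = k * h + 1 + (h - 2) + 1 by rw [add_one_mul]; omega]
    exact d5.mono fun v k => ⟨k.1, fun k' => k.2 ((e v).2 k')⟩
  · rw [card_insert_of_notMem (by simp [d6, x1 x (Or.inl rfl)]),
      card_insert_of_notMem (x1 y (Or.inr rfl))]
    omega
  have fr : ∀ v, Dm1 v → S3.t (v, true) = (v, true) := fun v hv =>
    (g3 v ⟨(d1.dm hv).1, fun k => (d1.hd v k).2.1 (d1.dm hv).2, d1.dp v hv⟩).trans (d1.dm hv).2
  obtain ⟨S4, i1, i2, i3⟩ := tg G F hF hH S3 g1 g2 (fun v hv => by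
    have k := bs.keep d1 e2 (fun _ => Or.inl) hv.1 hv.2.2
    refine (g3 v ⟨d3 (a3 (u1 hv.1)), fun k' => ?_, k.2⟩).trans k.1
    simp only [mem_insert, hv.2.1, or_false] at k'
    exact (bs.keep a1 a2 (fun _ => Or.inl) hv.1 hv.2.2).2 ((d7 v k').1 (a3 (u1 hv.1))))
    fun v hv k => bs.dp v hv (Or.inl (Prod.mk.inj (k.symm.trans
      (S3.fl_un (y := (a, true)) (c0 ▸ fr _ (dc 0 (by omega)))).2)).1)
  have e4 : Ext S3 S4 := fun u hu => i3 u fun v hv k => hu (k ▸ fr v (Or.inl hv))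
  have un : ∀ j < 2 * h, S4.t (c j, true) = (c j, true) := fun j hj =>
    (i3 (c j, true) fun v hv k => cd j hj ((Prod.mk.inj k).1 ▸ hv)).trans (fr _ (dc j hj))
  have po : ∀ j ≤ 2 * h, Po D S (c j) := fun j hj => by
    rcases hj.eq_or_lt with rfl | e
    exacts [cn ▸ (bs.xc a (bs.pe (Or.inl rfl)).1).1, (d1.xc _ (d1.dm (dc j e)).1).1]
  obtain ⟨S5, j1, j2, j3⟩ := switch hF i1 hh c (cn.trans c0.symm) ci un
    (fun j hj => gam_of cx.sk.t0 hH (fun u hu => (e4 u (by rw [g2 u hu]; exact bs.fm u hu)).trans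
      (g2 u hu)) (po j hj.le) (po _ hj) (ch j hj)) (fun j k1 k2 k3 => by
      have k4 : S2.fin (c j, true) = (c (2 * h - j), true) := by
        by_cases e : j < h
        · exact ff j k1 e
        · have := ff (2 * h - j) (by omega) (by omega)
          rw [show 2 * h - (2 * h - j) = j by omega] at this
          exact S2.fin_eq_comm (d1.dm (dc _ (by omega))).2 this
      have k5 := d1.dm (dc j (by omega))
      refine (e4.fin ((d1.agree g2 k5.1 (fun z hz k => g3 z ⟨hz, fun q => ?_, fun q => ?_⟩)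
        rfl).trans k4) (un _ (by omega))).1
      · obtain ⟨q', q1, q2⟩ := d1.hfin q k5.2 k.symm
        simp only [mem_insert, ← or_assoc] at q1
        rcases q1 with q1 | q1
        · rcases (d7 q' q1).2 with q3 | q3 <;>
          · have := ci _ (by omega) _ (by omega) (Prod.mk.inj (q2.trans q3)).1
            omega
        · obtain ⟨v, q3, q4⟩ := (bs.hd q' q1).2.2.2.2.1
          exact cd j (by omega) ((Prod.mk.inj (q2.trans (e2.fin q4
            (d1.dm (Or.inl q3)).2).1)).1 ▸ q3)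
      · rcases S2.un_of_cl (d1.pe q).2 k with q1 | q1
        · exact d1.dp z ((Prod.mk.inj (q1.trans k4)).1 ▸ dc _ (by omega)) q
        · exact d1.dp z ((Prod.mk.inj (q1.trans (S2.fl_un k5.2).2)).1 ▸ dc _ (by omega)) q)
    fun j hj k => by
      have k1 := (po h (by omega)).fin_eq g2
      have k2 := (e4.fin k1 ((i3 _ fun v hv => g4 v (Or.inl hv)).trans (S3.fin_un _))).1
      exact g4 _ (dc j hj) (k2.symm.trans k)
  refine ⟨S5, j1, fun v hv => ?_, fun u hu => (j3 u fun j hj => hu _ (dc j hj)).trans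
    (i3 u fun v hv => hu v (Or.inl hv))⟩
  rcases hv with hv | ⟨j, hj, rfl⟩
  · rw [j3 _ fun j hj k => cd j hj ((Prod.mk.inj k).1 ▸ hv)]
    exact i2 v hv
  · exact j2 j hj

/-- (B) the construction of `k` switches. -/
theorem build {V : Type} [Fintype V] {P : Pm} {D : Dt V} {S : St V} {T1 T2 : Finset V}
    {H : V → V → Prop} (hS : SK D S T1 T2) (hP : HP P D.Pt D.R H)
    (h1 : EX H D.Pt T1 P.Dg P.m) (h2 : EX H D.Pt T2 P.Dg P.m) {k h : ℕ} (hh : 2 ≤ h)
    (hJ : 2 * h = 2 * P.l + P.J + 1) (hm : (k * h + 1) * P.l ≤ P.m)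
    (hN : (2 * ((k * h + 1) * (2 * h) + 1) : ℝ) ≤ 4 * P.ε * Fintype.card V) :
    ∃ S0 Ro Fz0 Fz1, BO D H S0 Ro Fz0 Fz1 k (10 * h) (2 * ((k * h + 1) * (2 * h) + 1)) := by
  have cx : Ctx D S H P T1 T2 (k * h) := ⟨hS, hP, h1, h2, by nlinarith, le_trans (by
    rw [← hJ]
    exact_mod_cast (by nlinarith : 2 + 2 * (2 * h) * (k * h) ≤ 2 * ((k * h + 1) * (2 * h) + 1)))
    hN⟩
  obtain ⟨a0, ha0⟩ : D.R.Nonempty := card_pos.1 (Nat.cast_pos.1 (lt_of_lt_of_le (mul_pos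
    (by linarith [hP.hγ, hP.hγ1, hP.hε]) (Nat.cast_pos.2 hP.hn)) hP.hR))
  have p0 := hS.po (v := a0) (by simp [ha0])
  have ms : ∀ j ≤ k, MS D S H T1 T2 P h (ex S a0) j := fun j hj => by
    induction j with
    | zero =>
      have b : BS D S H (10 * h) S ∅ ∅ (fun _ => False) fun _ => False :=
        ⟨hS.fm, by simp, fun _ _ => rfl, by simp, by simp, by simp, by simp⟩
      have k : ∀ T, Disjoint D.R T → EX H D.Pt T P.Dg P.m → ∀ Sp,
          FD P D H T (insert a0 (insert (ex S a0) ∅)) Sp (0 * h * P.l) id := fun T a1 a2 _ =>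
        ⟨a2.inv_id, by simp [Usd], fun y hy _ e => disjoint_left.1 a1 (by
          simp only [mem_insert, notMem_empty, or_false] at e
          rcases e with rfl | rfl
          exacts [ha0, hS.er _ ha0]) hy, fun _ _ e => (e rfl).elim⟩
      exact ⟨S, _, ∅, _, a0, (b.add p0 (by simp)).congr' (by simp), p0.ex_ne.symm,
        ⟨⟨_, k _ hS.d1 h1 _⟩, ⟨_, k _ hS.d2 h2 _⟩, by simpa using card_le_two⟩, by simp,
        fun G F _ _ S1 g _ _ _ => ⟨S1, g, by simp, by simp⟩⟩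
    | succ j ih => exact (ih (by omega)).succ cx hh hJ (Nat.mul_le_mul_right h hj)
  obtain ⟨S', U, Hd, Dm, a, bs, ha, fd, hc, tg⟩ := ms k le_rfl
  obtain ⟨S0, U0, x, y, b, hxy, e1, u1, x1, y1, fa, -, fd'⟩ :=
    ext2 cx le_rfl bs fd (Or.inl rfl) (Or.inr rfl) ha
  replace b := b.congr' (Pe' := fun v => v = x ∨ v = y) fun v => or_iff_right fun k =>
    k.1.elim k.2.1 k.2.2
  have mem : ∀ (W : Finset V) (u : V × Bool), u ∈ D.Fz ∪ W.image (·, true) ↔
      u ∈ D.Fz ∨ (u.2 = true ∧ u.1 ∈ W) := fun W ⟨v, c⟩ => by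
    cases c <;> simp
  have nf : ∀ v ∈ U0, (v, true) ∉ D.Fz := fun v hv k => hS.fm _ k (b.xc v hv).1.un
  have cn : ∀ c ∈ D.Cn, c ∉ U0 := fun c hc k => hS.wf.pc c (b.xc c k).1.pt hc
  have hd : ∀ q, q ∈ (D.Fz ∪ U0.image (·, true)) \ (D.Fz ∪ (U0 \ Hd).image (·, true)) ↔
      q.2 = true ∧ q.1 ∈ Hd := fun ⟨v, c⟩ => by
    simp only [mem_sdiff, mem, not_or, not_and, not_not]
    exact ⟨fun k => ⟨(k.1.resolve_left k.2.1).1, k.2.2 (k.1.resolve_left k.2.1).1
      (k.1.resolve_left k.2.1).2⟩, fun k => ⟨Or.inr ⟨k.1, (b.hd v k.2).1⟩,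
      k.1 ▸ nf v (b.hd v k.2).1, fun _ _ => k.2⟩⟩
  refine ⟨S0, D.R \ U0, D.Fz ∪ U0.image (·, true), D.Fz ∪ (U0 \ Hd).image (·, true),
    ⟨fun u hu => hS.t0 ▸ b.fz hu, fun v hv w hw k1 k2 k3 => ?_,
      fun c hc k b' => (b.off _ fun _ => cn c hc).trans (hS.ov.gu c hc k b'),
      fun _ _ k => (k rfl).elim⟩,
    ⟨sdiff_subset, hS.wf.rp, hS.wf.pc, fun c hc b' => ?_, hS.wf.gi, fun v hv => ?_,
      fun u hu => hS.wf.nf u fun k => hu (mem_union_left _ k), fun u hu => ?_⟩,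
    subset_union_left, union_subset_union_right (image_subset_image sdiff_subset), fun q hq => ?_,
    fun u hu k v hv => ?_, hc.trans ?_, ?_, fun G F hF hH S1 g1 g2 g3 => ?_⟩
  · by_cases e : v ∈ U0
    · obtain ⟨w', -, q1, q2⟩ := b.on v e
      obtain rfl := (Prod.mk.inj (q1.symm.trans k3)).1
      exact q2 k2.symm
    · exact (hS.ov.pp v hv w hw k1 k2 ((b.off _ fun _ => e).symm.trans k3)).elim
  · obtain ⟨q1, q2, q3⟩ := hS.wf.gp c hc b'
    simp only [mem, not_or, not_and]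
    refine ⟨q1, ⟨q2, fun _ => cn c hc⟩, q3, fun _ k => hS.wf.ne q1 hc b' true ?_⟩
    exact (S.inv (c, b')).symm.trans (by rw [hS.ov.gu c hc rfl, (b.xc _ k).1.un])
  · simp only [mem, not_or, not_and, mem_sdiff] at hv ⊢
    exact ⟨hS.wf.rf v (hS.ro ▸ hv.1), fun _ => hv.2⟩
  · simp only [mem] at hu ⊢
    rcases hu with hu | hu
    · exact Or.inl (b.fz hu ▸ hS.t0 ▸ hS.wf.cf u hu)
    · obtain ⟨w, q1, q2, -⟩ := b.on _ hu.2
      rw [show u = (u.1, true) from Prod.ext rfl hu.1, q2]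
      exact Or.inr ⟨rfl, q1⟩
  · obtain ⟨q, c⟩ := q
    obtain ⟨rfl, k⟩ := (hd _).1 hq
    obtain ⟨q1, q2, q3, q4, -, q5⟩ := b.hd q k
    obtain ⟨w, -, q6, -⟩ := b.on q q1
    refine ⟨rfl, (b.xc q q1).1.pt, q2, (mem_sdiff.1 ((hd _).2 ⟨by rw [q6], q3⟩)).2, q4,
      fun v hv => or_iff_not_imp_left.2 fun k' => ?_⟩
    obtain ⟨v, c⟩ := v
    obtain ⟨rfl, k''⟩ := (hd _).1 (mem_sdiff.2 ⟨(mem _ _).2 (b.cl_sub q1 hv), k'⟩)
    exact (q5 v k'' hv).imp_left fun e => by rw [e]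
  · have := ((mem _ _).1 hu).resolve_left fun e => hS.fm u e ((b.fz e).symm.trans k)
    exact (mem _ _).2 (b.cl_sub this.2 (by rw [hv]; exact congrArg _ (Prod.ext rfl this.1)))
  · exact card_le_card_of_injOn (·, true) (fun v hv => (hd _).2 ⟨rfl, hv⟩)
      fun _ _ _ _ e => (Prod.mk.inj e).1
  · refine (card_le_card fun v hv => ?_).trans (fd'.2.2.trans (by rw [← hJ]; nlinarith))
    simp only [mem_sdiff, not_and, not_not] at hv
    exact hv.2 hv.1
  have g4 : ∀ u ∈ D.Fz, S1.t u = S.t u := fun u hu => (g2 u (mem_union_left _ hu)).trans (b.fz hu)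
  have g5 : ∀ v ∈ U0, v ∉ Hd → S1.t (v, true) = S0.t (v, true) := fun v k1 k2 =>
    g2 _ ((mem _ _).2 (Or.inr ⟨rfl, mem_sdiff.2 ⟨k1, k2⟩⟩))
  have fr : ∀ v, Dm v ∨ v = x ∨ v = y → S1.t (v, true) = (v, true) := fun v hv =>
    have := (b.fr v).2 hv
    (g5 v this.1 fun k => (b.hd v k).2.1 this.2).trans this.2
  have x2 := b.pe (v := x) (Or.inl rfl)
  have f1 := (fa (a, false) (S'.fl_un (bs.pe (Or.inl rfl)).2).2).1
  obtain ⟨S2, i1, i2, i3⟩ := tg G F hF hH S1 g1 g4 (fun v hv => (g5 v (u1 hv.1) hv.2.1).trans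
    (bs.keep b e1 (fun _ => id) hv.1 hv.2.2).1) fun v hv k => by
      rw [b.agree g4 x2.1 (fun z hz k => g5 z hz fun q => ?_) (by rw [← f1, S0.cl_fin]), f1] at k
      · exact b.dp v hv (Or.inl (Prod.mk.inj k).1.symm)
      · obtain ⟨w, q1, q2⟩ := b.hdm q x2.2 k.symm
        exact b.dp w q1 (Or.inl (Prod.mk.inj q2).1.symm)
  refine ham hF i1 (fun u => ⟨fun k => ?_, ?_⟩) (gam_of hS.t0 hH (fun u hu => (i3 u fun v hv k =>
    nf v (b.dm hv).1 (k ▸ hu)).trans (g4 u hu)) (b.xc x x2.1).1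
    (b.xc y (b.pe (Or.inr rfl)).1).1 hxy)
  · have k1 : ∀ v, Dm v → u ≠ (v, true) := fun v hv e => i2 v hv (e ▸ k)
    have k2 := (i3 u k1).symm.trans k
    have k3 : u ∈ D.Fz ∪ (U0 \ Hd).image (·, true) := by_contra fun e => g3 u e k2
    have k4 := (g2 u k3).symm.trans k2
    obtain ⟨v, c⟩ := u
    obtain ⟨rfl, k5⟩ := ((mem _ _).1 k3).resolve_left fun e => hS.fm _ e ((b.fz e).symm.trans k4)
    simpa using ((b.fr v).1 ⟨(mem_sdiff.1 k5).1, k4⟩).resolve_left fun e => k1 v e rfl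
  · rintro (rfl | rfl)
    exacts [(i3 _ fun v hv e => b.dp v hv (Or.inl (Prod.mk.inj e).1.symm)).trans (fr x (by simp)),
      (i3 _ fun v hv e => b.dp v hv (Or.inr (Prod.mk.inj e).1.symm)).trans (fr y (by simp))]

end Pool.Agent.MP_d6d719_co.H91

end MrgPart2

-- ======== part 3: formerly Pool.Agent.MP_d6d719_co.Det
section MrgPart3

set_option autoImplicit false

open Finset
open scoped Classical

namespace Pool.Agent.MP_d6d719_co

variable {V : Type} [Fintype V] {G : SimpleGraph V} {bad : V → V → V → Prop}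

/-- An interval of colours. -/
def iv (Q s m : ℕ) : Finset (Fin Q) := univ.filter fun q => s ≤ q.1 ∧ q.1 < s + m

theorem mem_iv {Q s m : ℕ} {q : Fin Q} : q ∈ iv Q s m ↔ s ≤ q.1 ∧ q.1 < s + m := by simp [iv]

theorem card_iv {Q s m : ℕ} (h : s + m ≤ Q) : (iv Q s m).card = m := by
  have : (iv Q s m).map Fin.valEmbedding = Ico s (s + m) := by
    ext x
    simp only [mem_map, mem_iv, Fin.valEmbedding_apply, mem_Ico]
    constructor
    · rintro ⟨q, hq, rfl⟩; exact hq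
    · intro hx; exact ⟨⟨x, by omega⟩, hx, rfl⟩
  rw [← card_map Fin.valEmbedding, this, Nat.card_Ico]
  omega

theorem disj_iv {Q s m s' m' : ℕ} (c : V → Fin Q) (h : s + m ≤ s') :
    Disjoint (cf c univ (iv Q s m)) (cf c univ (iv Q s' m')) := by
  rw [disjoint_left]
  intro x h1 h2
  simp only [mem_cf, mem_iv] at h1 h2
  omega

theorem lp_of_spread {Q : ℕ} {c : V → Fin Q} {p τ σ K ε : ℝ} (hP : Pseudo G p τ K) (hp : 0 ≤ p)
    (hτ : τ ≤ σ / 2) (hσ : σ ≤ ε)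
    (hb : ∀ v a, G.Adj v a →
      (((nb G v univ).filter (bad v a ·)).card : ℝ) ≤ (1 / 2 - 4 * ε) * (p * Fintype.card V))
    (s1 : ∀ v, Spread c (nb G v univ) (σ / 2 * (p * (Fintype.card V / Q))))
    (s2 : ∀ v a, Spread c ((nb G v univ).filter (bad v a ·)) (σ / 2 * (p * (Fintype.card V / Q))))
    (s3 : Spread c univ (σ * (Fintype.card V / Q))) (hσ0 : 0 ≤ σ) (T : Finset (Fin Q)) :
    LP G bad (T.card * (Fintype.card V / Q)) (p * (T.card * (Fintype.card V / Q))) σ ε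
      (cf c univ T) := by
  have e1 : ∀ v, nb G v (cf c univ T) = cf c (nb G v univ) T := fun v => by
    ext x; simp [nb, and_comm]
  have hT : (0 : ℝ) ≤ T.card := by positivity
  have hQ : (0 : ℝ) ≤ Q := by positivity
  have hz : 0 ≤ p * (Fintype.card V / Q) := by positivity
  have hdiv : ∀ x y : ℝ, x ≤ y * (p * Fintype.card V) → x / Q ≤ y * (p * (Fintype.card V / Q)) :=
    fun x y h => by
      rw [← mul_div_assoc, ← mul_div_assoc]; exact div_le_div_of_nonneg_right h hQ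
  have hdiv2 : ∀ x y : ℝ, y * (p * Fintype.card V) ≤ x → y * (p * (Fintype.card V / Q)) ≤ x / Q :=
    fun x y h => by
      rw [← mul_div_assoc, ← mul_div_assoc]; exact div_le_div_of_nonneg_right h hQ
  refine ⟨?_, fun v => ?_, fun v => ?_, fun v a ha => ?_⟩
  · have := s3.le T
    rw [Fintype.card_fin, card_univ] at this
    linarith
  · have h1 := (s1 v).ge T
    have h2 := hdiv2 _ _ (hP.1 v).1
    rw [Fintype.card_fin] at h1
    rw [e1]
    refine le_trans ?_ h1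
    have : (1 - σ) * (p * (Fintype.card V / Q)) ≤
        (nb G v univ).card / Q - σ / 2 * (p * (Fintype.card V / Q)) := by nlinarith
    nlinarith
  · have h1 := (s1 v).le T
    have h2 := hdiv _ _ (hP.1 v).2
    rw [Fintype.card_fin] at h1
    rw [e1]
    refine le_trans h1 ?_
    have : (nb G v univ).card / Q + σ / 2 * (p * (Fintype.card V / Q)) ≤
        (1 + σ) * (p * (Fintype.card V / Q)) := by nlinarith
    nlinarith
  · have h1 := (s2 v a).le T
    have h2 := hdiv _ _ (hb v a ha)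
    rw [Fintype.card_fin] at h1
    have e2 : (nb G v (cf c univ T)).filter (bad v a ·) =
        cf c ((nb G v univ).filter (bad v a ·)) T := by
      ext x; simp only [nb, mem_filter, mem_cf, mem_univ, true_and]; tauto
    rw [e2]
    refine le_trans h1 ?_
    have : ((nb G v univ).filter (bad v a ·)).card / Q + σ / 2 * (p * (Fintype.card V / Q)) ≤
        (1 / 2 - ε) * (p * (Fintype.card V / Q)) := by nlinarith
    nlinarith

theorem conn_iv (hs : ∀ v a b, bad v a b → bad v b a) {Q s m t r N h : ℕ} {c : V → Fin Q}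
    {p σ K ε w : ℝ} (hG : G2 G p σ K) (P : Par (Fintype.card V) p σ K (m * w) ε r N h)
    (hL : ∀ T : Finset (Fin Q), LP G bad (T.card * w) (p * (T.card * w)) σ ε (cf c univ T))
    (hQ : s + 2 * h * r * m ≤ Q) (ht : 2 * h * (t : ℝ) + 1 ≤ σ * (m * w)) (ht2 : t < 2 ^ r) :
    Conn G bad (cf c univ (iv Q s (2 * h * r * m))) t (2 * h) := by
  intro ι Tf Tb I h1 h2 h3 h4 h5
  have hlt : ∀ j < 2 * h * r, s + j * m + m ≤ s + 2 * h * r * m := fun j hj => by
    have := Nat.mul_le_mul_right m (Nat.succ_le_of_lt hj)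
    rw [Nat.succ_mul] at this
    omega
  have hsub : ∀ j < 2 * h * r, ∀ x ∈ cf c univ (iv Q (s + j * m) m),
      x ∈ cf c univ (iv Q s (2 * h * r * m)) := fun j hj x hx => by
    have := hlt j hj
    simp only [mem_cf, mem_iv, mem_univ, true_and] at hx ⊢
    omega
  have hd : ∀ i j, i < j → Disjoint (cf c univ (iv Q (s + i * m) m))
      (cf c univ (iv Q (s + j * m) m)) := fun i j hij => disj_iv c (by
    have := Nat.mul_le_mul_right m (Nat.succ_le_of_lt hij)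
    rw [Nat.succ_mul] at this
    omega)
  obtain ⟨l, a1, a2⟩ := conn hs hG P Tf Tb r (fun j => cf c univ (iv Q (s + j * m) m))
    ⟨fun j hj => by
      have := hL (iv Q (s + j * m) m)
      rwa [card_iv ((hlt j hj).trans hQ)] at this,
    fun i _ j _ hij => (Nat.lt_or_gt_of_ne hij).elim (hd i j) fun h => (hd j i h).symm⟩
    I h1 h2 h3 (fun i hi j hj => ⟨fun h => (h4 i hi).1 (hsub j hj _ h),
      fun h => (h4 i hi).2 (hsub j hj _ h)⟩)
    (by
      have : (I.card : ℝ) ≤ t := by exact_mod_cast h5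
      have : (0 : ℝ) ≤ h := by positivity
      nlinarith)
    (by omega)
  refine ⟨l, fun i hi => ⟨(a1 i hi).1, (a1 i hi).2.1, (a1 i hi).2.2.1, fun v hv => ?_⟩, a2⟩
  obtain ⟨j, hj, h6⟩ := (a1 i hi).2.2.2 v hv
  exact hsub j hj v h6

theorem cover_big (hs : ∀ v a b, bad v a b → bad v b a) {p τ K ε θ : ℝ} {l B C : ℕ}
    (hP : Pseudo G p τ K) (hp : 0 < p) (hp1 : p ≤ 1) (hτ : 0 < τ) (hτε : τ ≤ ε) (hε : ε ≤ 1 / 10)
    (hb : ∀ v a, G.Adj v a →
      (((nb G v univ).filter (bad v a ·)).card : ℝ) ≤ (1 / 2 - 4 * ε) * (p * Fintype.card V))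
    (hl : l % 2 = 0) (hl2 : 2 ≤ l) (hB : 1 ≤ B) (hC : 0 < C) (hCε : (1 : ℝ) / C ≤ ε) (hθ : 0 < θ)
    (hK0 : 0 ≤ K) (hD : 2 * l * B ≤ τ * (p * Fintype.card V))
    (hK : 8 * l * B * K ≤ τ ^ 2 * (p * Fintype.card V))
    (hx : (Fintype.card V * (Fintype.card V + 1) + 1) *
      (l * B * (2 * Real.exp (-(τ ^ 2 * (p * Fintype.card V) / (24 * l * B))))) < 1)
    (U : Finset V) (hU : (Uᶜ.card : ℝ) ≤ ε * Fintype.card V) :
    ∃ s : ℕ, Cover G bad U s ∧ (s : ℝ) ≤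
      Fintype.card V * (54 * τ + 1 / B + 12 / l + 2 * (θ + C ^ 4 / (B * θ))) := by
  have hl' : (2 : ℝ) ≤ l := by exact_mod_cast hl2
  have hB' : (1 : ℝ) ≤ B := by exact_mod_cast hB
  have hlB : (2 : ℝ) ≤ l * B := by nlinarith
  obtain ⟨n, hn⟩ : ∃ n : ℝ, n = Fintype.card V := ⟨_, rfl⟩
  obtain ⟨u, hu⟩ : ∃ u : ℝ, u = U.card := ⟨_, rfl⟩
  have hn0 : 0 ≤ n := by rw [hn]; positivity
  have huc : (Uᶜ.card : ℝ) = n - u := by
    have := card_add_card_compl U
    have : (U.card : ℝ) + Uᶜ.card = Fintype.card V := by exact_mod_cast this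
    linarith
  have hun : u ≤ n := by
    have : (0 : ℝ) ≤ Uᶜ.card := by positivity
    linarith
  rw [← hn] at hb hD hK hU
  have hu1 : (1 - ε) * n ≤ u := by linarith
  have hu2 : n ≤ 2 * u := by nlinarith
  have hu0 : 0 ≤ u := by linarith
  have hpu : p * n ≤ 2 * (p * u) := by nlinarith
  have hdeg := hP.1
  rw [← hn] at hdeg
  have d1 : ∀ v, ((nb G v U).card : ℝ) ≤ 3 * (p * u) := fun v => by
    have h1 : ((nb G v U).card : ℝ) ≤ (nb G v univ).card := by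
      exact_mod_cast card_le_card (nb_mono v (subset_univ U))
    have h2 := (hdeg v).2
    have : 0 ≤ p * n := by positivity
    nlinarith
  obtain ⟨D, hDe⟩ : ∃ D : ℝ, D = p * u / (l * B) := ⟨_, rfl⟩
  have hD2 : p * u = D * (l * B) := by rw [hDe]; field_simp
  have hD0 : 0 ≤ D := by rw [hDe]; positivity
  have : Nonempty (Fin l × Fin B) := ⟨⟨⟨0, by omega⟩, ⟨0, hB⟩⟩⟩
  have hQ : (Fintype.card (Fin l × Fin B) : ℝ) = l * B := by simp
  obtain ⟨c, s1, s2, s3⟩ := exists_spread3 (κ := Fin l × Fin B) G bad U (t := τ / 6)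
    (z := τ * D / 2) (δ := τ * D) (δ' := τ * u / (l * B)) (by positivity) (by linarith) d1
    (by rw [hQ, mul_div_assoc, ← hDe]; linarith)
    (by
      rw [hQ, ← hu, hDe, mul_div_assoc p, mul_div_assoc τ u]
      have : 0 ≤ τ * (u / (l * B)) := by positivity
      nlinarith)
    (by
      rw [hQ]
      refine lt_of_le_of_lt ?_ hx
      rw [← hn]
      have : τ ^ 2 * (p * n) / (24 * l * B) ≤ τ / 6 * (τ * D / 2) := by
        rw [div_le_iff₀ (by positivity)]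
        nlinarith [sq_nonneg τ]
      gcongr)
  subst hu
  refine cover_app hs hP.2 hl hl2 hB hp.le hτ (by linarith) (ε := 3 * ε) (by linarith) hDe ?_ ?_ hC
    (by linarith) hθ d1 ?_ (fun v a ha => ?_) s1 (fun v a _ => s2 v a) s3
  · refine le_of_mul_le_mul_right ?_ (show (0 : ℝ) < 2 * (l * B) by positivity)
    nlinarith
  · refine le_of_mul_le_mul_right ?_ (show (0 : ℝ) < 8 * (l * B) by positivity)
    nlinarith [sq_nonneg τ]
  · have e1 : ∀ v, ((nb G v univ).card : ℝ) = (nb G v U).card + (nb G v Uᶜ).card := fun v => by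
      unfold nb
      rw [← Nat.cast_add, ← card_union_of_disjoint (disjoint_filter_filter disjoint_compl_right),
        ← filter_union, union_compl]
    have e2 := hP.2 U Uᶜ disjoint_compl_right
    have e3 := sum_le_sum fun v (_ : v ∈ U) => (hdeg v).1
    simp only [e1, sum_add_distrib, sum_const, nsmul_eq_mul] at e3
    unfold ec at e2
    push_cast at e2
    rw [huc] at e2
    have e4 : K * n ≤ τ * (p * U.card * U.card) := by
      have a1 : 16 * K ≤ τ * (p * n) := by nlinarith [mul_nonneg hτ.le (mul_nonneg hp.le hn0)]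
      have a2 : n * n ≤ 4 * (U.card * U.card) := by nlinarith
      have a3 := mul_le_mul_of_nonneg_right a1 hn0
      have a4 := mul_le_mul_of_nonneg_left a2 (mul_pos hτ hp).le
      have a5 : 0 ≤ τ * (p * U.card * U.card) :=
        mul_nonneg hτ.le (mul_nonneg (mul_nonneg hp.le hu0) hu0)
      nlinarith
    have e5 := mul_le_mul_of_nonneg_left hu2 (mul_nonneg (mul_pos hτ hp).le hu0)
    nlinarith
  · have h1 : (((nb G v U).filter (bad v a ·)).card : ℝ) ≤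
        ((nb G v univ).filter (bad v a ·)).card := by
      exact_mod_cast card_le_card (filter_subset_filter _ (nb_mono v (subset_univ U)))
    have h2 := hb v a ha
    have h3 := mul_le_mul_of_nonneg_left hu1 (show 0 ≤ (1 / 2 - 3 * ε) * p by
      apply mul_nonneg <;> linarith)
    have h4 : 0 ≤ p * n := mul_nonneg hp.le hn0
    nlinarith [mul_nonneg h4 (sq_nonneg ε)]

/-- All numerical hypotheses. -/
structure Num (n : ℕ) (p τ σ K ε θ : ℝ) (r N h M Q l B C : ℕ) : Prop where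
  par : Par n p σ K (n / Q) ε r N h
  hp1 : p ≤ 1
  hτ : 0 < τ
  hτσ : τ ≤ σ / 2
  hM : 1 ≤ M
  hM2 : 2 * h * (4 * (2 * h * r) * ((n : ℝ) / Q) * (2 * h)) + 1 ≤ σ * (M * (n / Q))
  hQ : 2 * (2 * (2 * h * r) + 4 * (2 * h * r * M) : ℝ) ≤ ε * Q
  hx1 : (n * (n + 1) + 1) * (Q * (2 * Real.exp (-(σ ^ 2 * (p * (n / Q)) / 32)))) < 1
  hl : l % 2 = 0
  hl2 : 2 ≤ l
  hB : 1 ≤ B
  hC : 0 < C
  hCε : (1 : ℝ) / C ≤ ε
  hθ : 0 < θ
  hD : 2 * l * B ≤ τ * (p * n)
  hK : 8 * l * B * K ≤ τ ^ 2 * (p * n)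
  hx2 : (n * (n + 1) + 1) * (l * B * (2 * Real.exp (-(τ ^ 2 * (p * n) / (24 * l * B))))) < 1
  hs : 2 * h * (n * (54 * τ + 1 / B + 12 / l + 2 * (θ + C ^ 4 / (B * θ))) + 1) + 1 ≤ σ * (n / Q)

theorem Par.mono {n : ℕ} {p σ K w ε : ℝ} {r N h : ℕ} (P : Par n p σ K w ε r N h) {m : ℕ}
    (hm : 1 ≤ m) : Par n p σ K (m * w) ε r N h := by
  have hm' : (1 : ℝ) ≤ m := by exact_mod_cast hm
  have h1 : p * w ≤ p * (m * w) := by
    have := mul_pos P.hp P.hw
    nlinarith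
  exact { P with
    hw := mul_pos (by linarith) P.hw
    hK := P.hK.trans (mul_le_mul_of_nonneg_left h1 P.hτ)
    hK2 := P.hK2.trans (by have := mul_le_mul_of_nonneg_left h1 P.hε.le; linarith) }

theorem det_main (hs : ∀ v a b, bad v a b → bad v b a) {p τ σ K ε θ : ℝ} {r N h M Q l B C : ℕ}
    (H : Num (Fintype.card V) p τ σ K ε θ r N h M Q l B C) (hP : Pseudo G p τ K)
    (hb : ∀ v a, G.Adj v a →
      (((nb G v univ).filter (bad v a ·)).card : ℝ) ≤ (1 / 2 - 4 * ε) * (p * Fintype.card V)) :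
    HamList G bad := by
  have P := H.par
  have hp := P.hp
  have hw := P.hw
  have hε := P.hε
  have hε1 := P.hε1
  have hτ := H.hτ
  have hτσ := H.hτσ
  have hσε : σ ≤ ε := by nlinarith [P.hτε]
  have hn : (0 : ℝ) < Fintype.card V := by
    by_contra h0
    have : (Fintype.card V : ℝ) = 0 := le_antisymm (not_lt.1 h0) (by positivity)
    rw [this, zero_div] at hw
    exact lt_irrefl _ hw
  have hQ0 : (0 : ℝ) < Q := by
    by_contra h0
    have : (Q : ℝ) = 0 := le_antisymm (not_lt.1 h0) (by positivity)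
    rw [this, div_zero] at hw
    exact lt_irrefl _ hw
  have hn1 : 0 < Fintype.card V := by exact_mod_cast hn
  have : Nonempty V := Fintype.card_pos_iff.1 hn1
  have : Nonempty (Fin Q) := ⟨⟨0, by exact_mod_cast hQ0⟩⟩
  have hr : 1 ≤ r := by
    have := P.hr
    rcases Nat.eq_zero_or_pos r with rfl | h0
    · omega
    · exact h0
  have hh : 1 ≤ h := by have := P.hh; omega
  have hM := H.hM
  obtain ⟨w, hwe⟩ : ∃ w : ℝ, w = Fintype.card V / Q := ⟨_, rfl⟩
  have hwQ : w * Q = Fintype.card V := by rw [hwe]; field_simp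
  have hG : G2 G p σ K := fun X Y hd => (hP.2 X Y hd).trans (by
    have : 0 ≤ p * X.card * Y.card := by positivity
    nlinarith)
  obtain ⟨c, s1, s2, s3⟩ := exists_spread3 (κ := Fin Q) G bad univ (t := σ / 8)
    (z := σ * (p * w) / 4) (δ := σ / 2 * (p * w)) (δ' := σ * w) (D := 2 * (p * Fintype.card V))
    (by linarith) (by linarith)
    (fun v => (hP.1 v).2.trans (mul_le_mul_of_nonneg_right (by linarith) (by positivity)))
    (by rw [Fintype.card_fin, mul_div_assoc, mul_div_assoc, ← hwe]; linarith)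
    (by
      rw [Fintype.card_fin, card_univ, ← hwe]
      have : 0 ≤ σ * w := by rw [hwe]; exact mul_nonneg (by linarith) hw.le
      nlinarith [H.hp1])
    (by
      rw [Fintype.card_fin, show σ / 8 * (σ * (p * w) / 4) = σ ^ 2 * (p * w) / 32 by ring, hwe]
      exact H.hx1)
  rw [hwe] at s1 s2 s3
  have hL := lp_of_spread hP hp.le hτσ hσε hb s1 s2 s3 (by linarith)
  have hM2 := H.hM2
  have hQ := H.hQ
  have hsb := H.hs
  rw [← hwe] at hL P hw hM2 hsb
  obtain ⟨L, hLe⟩ : ∃ L, L = 2 * h * r := ⟨_, rfl⟩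
  have hLe' : (L : ℝ) = 2 * h * r := by rw [hLe]; push_cast; ring
  rw [← hLe'] at hM2 hQ
  have hL1 : 1 ≤ L := by rw [hLe]; exact Nat.mul_pos (by omega) hr
  have hL1' : (1 : ℝ) ≤ L := by exact_mod_cast hL1
  have hM' : (1 : ℝ) ≤ M := by exact_mod_cast hM
  have hh' : (1 : ℝ) ≤ h := by exact_mod_cast hh
  have hE : 2 * L + 4 * (L * M) ≤ Q := by
    have : (2 * L + 4 * (L * M) : ℝ) ≤ Q := by nlinarith
    exact_mod_cast this
  have hMQ : (M : ℝ) ≤ Q := by nlinarith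
  have hconn : ∀ s m t : ℕ, 1 ≤ m → s + L * m ≤ Q → 2 * h * (t : ℝ) + 1 ≤ σ * (m * w) →
      Conn G bad (cf c univ (iv Q s (L * m))) t (2 * h) := by
    intro s m t h1 h2 h3
    rw [hLe] at h2 ⊢
    refine conn_iv hs hG (P.mono h1) hL h2 h3 (lt_trans ?_ P.hr)
    have a1 : m ≤ Q := by
      have := Nat.mul_le_mul_right m hL1
      rw [hLe] at this
      omega
    have a2 : (m : ℝ) ≤ Q := by exact_mod_cast a1
    have a3 : m * w ≤ Fintype.card V := by nlinarith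
    have a4 : (0 : ℝ) ≤ t := by positivity
    have a5 : 0 ≤ m * w := by positivity
    have : (t : ℝ) < Fintype.card V := by nlinarith
    exact_mod_cast this
  have hnb : ∀ v, ∃ a, G.Adj v a := fun v => by
    have h1 := (hP.1 v).1
    have h2 : (0 : ℝ) < (nb G v univ).card := lt_of_lt_of_le (mul_pos (by linarith) (by positivity)) h1
    obtain ⟨a, ha⟩ := card_pos.1 (by exact_mod_cast h2 : 0 < (nb G v univ).card)
    exact ⟨a, (mem_filter.1 ha).2⟩
  set R := cf c univ (iv Q 0 (2 * L)) with hR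
  have hRL := hL (iv Q 0 (2 * L))
  rw [card_iv (by omega), ← hR] at hRL
  have hRc : (R.card : ℝ) ≤ 4 * L * w := by
    have := hRL.size
    push_cast at this
    have : 0 ≤ L * w := by positivity
    nlinarith
  have hRne : R.Nonempty := by
    obtain ⟨v⟩ := ‹Nonempty V›
    have h2 : (0 : ℝ) < (nb G v R).card :=
      lt_of_lt_of_le (mul_pos (by linarith) (by positivity)) (hRL.lo v)
    exact (card_pos.1 (by exact_mod_cast h2 : 0 < (nb G v R).card)).mono (filter_subset _ _)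
  have ht1 : 2 * h * ((R.card * (2 * h) : ℕ) : ℝ) + 1 ≤ σ * (M * w) := by
    push_cast
    refine le_trans ?_ hM2
    gcongr
  obtain ⟨A, hA, S, E, hAb⟩ := exists_absorber hs hnb (R := R)
    (hconn (2 * L) M _ hM (by omega) ht1) (hconn (2 * L + L * M) M _ hM (by omega) ht1)
    (hconn (2 * L + 2 * (L * M)) M _ hM (by omega) ht1)
    (hconn (2 * L + 3 * (L * M)) M _ hM (by omega) ht1) (by omega) le_rfl hRne
    (disj_iv c (by omega)) (disj_iv c (by omega)) (disj_iv c (by omega)) (disj_iv c (by omega))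
    (disj_iv c (by omega)) (disj_iv c (by omega)) (disj_iv c (by omega)) (disj_iv c (by omega))
    (disj_iv c (by omega)) (disj_iv c (by omega))
  have hA2 : ∀ x ∈ A, 2 * L ≤ (c x).1 ∧ (c x).1 < 2 * L + 4 * (L * M) := fun x hx => by
    have := hA hx
    simp only [mem_union, mem_cf, mem_iv, mem_univ, true_and] at this
    omega
  obtain ⟨s, hs1, hs2⟩ := cover_big hs hP hp H.hp1 hτ (by linarith) hε1 hb H.hl H.hl2 H.hB H.hC
    H.hCε H.hθ P.hK0 H.hD H.hK H.hx2 (A ∪ R)ᶜ (by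
      rw [compl_compl]
      have h1 : A ∪ R ⊆ cf c univ (iv Q 0 (2 * L + 4 * (L * M))) := by
        intro x hx
        simp only [mem_cf, mem_iv, mem_univ, true_and]
        rcases mem_union.1 hx with h2 | h2
        · have := hA2 x h2; omega
        · simp only [hR, mem_cf, mem_iv, mem_univ, true_and] at h2; omega
      have h2 := (hL (iv Q 0 (2 * L + 4 * (L * M)))).size
      rw [card_iv (by omega)] at h2
      push_cast at h2
      have h3 : ((A ∪ R).card : ℝ) ≤ (cf c univ (iv Q 0 (2 * L + 4 * (L * M)))).card := by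
        exact_mod_cast card_le_card h1
      have h4 := mul_le_mul_of_nonneg_right hQ hw.le
      have h5 : 0 ≤ (2 * L + 4 * (L * M)) * w := by positivity
      rw [← hwQ]
      nlinarith)
  have ht2 : 2 * h * ((s + 1 : ℕ) : ℝ) + 1 ≤ σ * ((1 : ℕ) * w) := by
    push_cast
    rw [one_mul]
    refine le_trans ?_ hsb
    gcongr
  refine join hnb hAb ?_ (hconn 0 1 _ le_rfl (by omega) ht2) (hconn L 1 _ le_rfl (by omega) ht2)
    (by omega) ?_ ?_ (disj_iv c (by omega)) (fun y => by simp) hs1 le_rfl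
  · rw [disjoint_left]
    intro x h1 h2
    have := hA2 x h1
    simp only [hR, mem_cf, mem_iv, mem_univ, true_and] at h2
    omega
  · intro x hx
    simp only [hR, mem_cf, mem_iv, mem_univ, true_and] at hx ⊢
    omega
  · intro x hx
    simp only [hR, mem_cf, mem_iv, mem_univ, true_and] at hx ⊢
    omega

end Pool.Agent.MP_d6d719_co

end MrgPart3

-- ======== part 4: formerly Pool.Agent.MP_d6d719_co.Params
section MrgPart4

set_option autoImplicit false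

namespace Pool.Agent.MP_d6d719_co

theorem union_small {n k : ℕ} {Q x : ℝ} (hn : n < 2 ^ k) (hk : 1 ≤ k) (hQ0 : 0 ≤ Q) (hQ : Q ≤ n)
    (hx : 3 * k ≤ x) : (n * (n + 1) + 1) * (Q * (2 * Real.exp (-x))) < 1 := by
  have h1 : (n : ℝ) + 1 ≤ 2 ^ k := by exact_mod_cast hn
  have h0 : (0 : ℝ) ≤ n := by positivity
  have h2 : (n * (n + 1) + 1 : ℝ) ≤ 2 ^ k * 2 ^ k := by nlinarith
  have h3 : (2 : ℝ) ≤ 2 ^ k := by
    calc (2 : ℝ) = 2 ^ 1 := by norm_num
      _ ≤ 2 ^ k := pow_le_pow_right₀ (by norm_num) hk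
  have h4 : (16 : ℝ) ^ k < Real.exp x := by
    refine lt_of_lt_of_le ?_ (Real.exp_le_exp.2 hx)
    rw [mul_comm, Real.exp_nat_mul]
    refine pow_lt_pow_left₀ ?_ (by norm_num) (by omega)
    have := Real.exp_one_gt_d9
    rw [show (3 : ℝ) = (3 : ℕ) * 1 by norm_num, Real.exp_nat_mul]
    calc (16 : ℝ) < 2.7 ^ 3 := by norm_num
      _ ≤ _ := pow_le_pow_left₀ (by norm_num) (by linarith) 3
  have h5 : (16 : ℝ) ^ k = 2 ^ k * 2 ^ k * (2 ^ k * 2 ^ k) := by
    rw [← mul_pow, ← mul_pow]; norm_num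
  have h6 : (n * (n + 1) + 1) * (Q * 2) ≤ (16 : ℝ) ^ k := by
    rw [h5]
    exact mul_le_mul h2 (mul_le_mul (by linarith) h3 (by norm_num) (by positivity)) (by positivity)
      (by positivity)
  rw [Real.exp_neg, ← mul_assoc Q, ← mul_assoc, ← div_eq_mul_inv, div_lt_one (Real.exp_pos x)]
  linarith

theorem params {ε p : ℝ} {n k : ℕ} (hε : 0 < ε) (hε1 : ε ≤ 1 / 10) (hk : 640 ≤ k * ε ^ 2)
    (hn : n < 2 ^ k) (hp1 : p ≤ 1) (hd : (k : ℝ) ^ 88 ≤ p * n) :
    Num n p (1 / k ^ 14) (1 / k ^ 2) (2 * k ^ 15) ε (1 / k ^ 14) k k (2 * k + 1) (k ^ 7) (k ^ 10)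
      (2 * k ^ 14) (k ^ 30) ⌈1 / ε⌉₊ := by
  obtain ⟨x, hx⟩ : ∃ x : ℝ, x = k := ⟨_, rfl⟩
  rw [← hx] at hk hd
  have hx0' : 0 ≤ x := by rw [hx]; positivity
  have hxε : 6400 ≤ x * ε := by nlinarith [mul_nonneg hx0' hε.le]
  have hx1 : 64000 ≤ x := by nlinarith
  have hx0 : 0 < x := by linarith
  have hk1 : 1 ≤ k := by
    have : (1 : ℝ) ≤ k := by linarith
    exact_mod_cast this
  have hn0 : (0 : ℝ) ≤ n := by positivity
  have hdn : p * n ≤ n := by nlinarith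
  have hd' : ∀ (c : ℝ) (a : ℕ), c ≤ 64000 → a ≤ 87 → c * x ^ a ≤ p * n := fun c a h1 h2 =>
    calc c * x ^ a ≤ x * x ^ a := mul_le_mul_of_nonneg_right (by linarith) (by positivity)
      _ = x ^ (a + 1) := by ring
      _ ≤ x ^ 88 := pow_le_pow_right₀ (by linarith) (by omega)
      _ ≤ _ := hd
  have hpow : ∀ (c : ℝ) (a b : ℕ), c ≤ 64000 → a < b → c * x ^ a ≤ x ^ b := fun c a b h1 h2 =>
    calc c * x ^ a ≤ x * x ^ a := mul_le_mul_of_nonneg_right (by linarith) (by positivity)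
      _ = x ^ (a + 1) := by ring
      _ ≤ x ^ b := pow_le_pow_right₀ (by linarith) (by omega)
  have hpos : 0 < p * n := lt_of_lt_of_le (by positivity) hd
  have hn1 : (0 : ℝ) < n := by linarith
  have hp : 0 < p := (pos_iff_pos_of_mul_pos hpos).2 hn1
  refine ⟨⟨hp, by positivity, hε, hε1, by positivity, ?_, by positivity, ?_, ?_, hn, ?_, ?_,
    by ring⟩, hp1, by positivity, ?_, Nat.one_le_pow _ _ hk1, ?_, ?_, ?_, by omega,
    ?_, Nat.one_le_pow _ _ hk1, Nat.ceil_pos.2 (by positivity), ?_, by positivity,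
    ?_, ?_, ?_, ?_⟩ <;> push_cast <;> try rw [← hx]
  · rw [mul_one_div, div_le_iff₀ (by positivity)]
    nlinarith [sq_nonneg ε]
  · have := hd' 2 27 (by norm_num) (by norm_num)
    rw [← mul_div_assoc, one_div_mul_eq_div, div_div, le_div_iff₀ (by positivity)]
    linarith [show 2 * x ^ 15 * (x ^ 10 * x ^ 2) = 2 * x ^ 27 by ring]
  · have h1 := hd' 200 27 (by norm_num) (by norm_num)
    rw [← mul_div_assoc, ← mul_div_assoc, div_div, le_div_iff₀ (by positivity)]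
    have h2 : (8 * (2 * x + 1) + 9) * (2 * x ^ 15) * (x ^ 10 * 4) ≤ 200 * x ^ 26 := by
      have : (8 * (2 * x + 1) + 9) ≤ 25 * x := by linarith
      have := mul_le_mul_of_nonneg_right this (show 0 ≤ 8 * x ^ 25 by positivity)
      linarith [show 25 * x * (8 * x ^ 25) = 200 * x ^ 26 by ring,
        show (8 * (2 * x + 1) + 9) * (2 * x ^ 15) * (x ^ 10 * 4) =
          (8 * (2 * x + 1) + 9) * (8 * x ^ 25) by ring]
    have h3 := mul_le_mul_of_nonneg_left h1 hε.le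
    have h4 := mul_le_mul_of_nonneg_right hxε (show 0 ≤ x ^ 26 by positivity)
    have h5 : 0 ≤ x ^ 26 := by positivity
    linarith [show x * ε * x ^ 26 = ε * x ^ 27 by ring]
  · linarith
  · rw [show 120 * (1 / x ^ 2) * x = 120 / x by field_simp, div_le_iff₀ hx0]
    linarith
  · rw [div_div, div_le_div_iff₀ (by positivity) (by positivity)]
    linarith [hpow 2 2 14 (by norm_num) (by norm_num)]
  · have h1 : 1 ≤ n / x ^ 10 := by
      rw [le_div_iff₀ (by positivity)]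
      linarith [hd' 1 10 (by norm_num) (by norm_num)]
    obtain ⟨w, hw⟩ : ∃ w, w = n / x ^ 10 := ⟨_, rfl⟩
    rw [← hw] at h1 ⊢
    have h2 : (2 * x + 1) ^ 3 ≤ (3 * x) ^ 3 := pow_le_pow_left₀ (by positivity) (by linarith) 3
    have h3 := mul_le_mul_of_nonneg_right h2 (show 0 ≤ 32 * x * w by positivity)
    have h4 := mul_le_mul_of_nonneg_right (hpow 865 4 5 (by norm_num) (by norm_num))
      (show 0 ≤ w by linarith)
    have h5 := mul_le_mul_of_nonneg_right (hpow 1 0 4 (by norm_num) (by norm_num))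
      (show 0 ≤ w by linarith)
    rw [show 1 / x ^ 2 * (x ^ 7 * w) = x ^ 5 * w by field_simp]
    nlinarith
  · have h1 : (2 * x + 1) ≤ 3 * x := by linarith
    have h2 := mul_le_mul_of_nonneg_right h1 (show 0 ≤ 8 * x + 16 * x ^ 8 by positivity)
    have h3 := mul_le_mul_of_nonneg_right hxε (show 0 ≤ x ^ 9 by positivity)
    have h4 := hpow 1 2 9 (by norm_num) (by norm_num)
    have h5 : 0 ≤ x ^ 9 := by positivity
    nlinarith
  · refine union_small hn hk1 (by positivity) ?_ ?_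
    · linarith [hd' 1 10 (by norm_num) (by norm_num)]
    · rw [← hx, show (1 / x ^ 2) ^ 2 * (p * (n / x ^ 10)) / 32 = p * n / (32 * x ^ 14) by
        field_simp, le_div_iff₀ (by positivity)]
      linarith [hd' 96 15 (by norm_num) (by norm_num), show 3 * x * (32 * x ^ 14) = 96 * x ^ 15 by ring]
  · have := Nat.one_le_pow 14 _ hk1
    omega
  · rw [div_le_iff₀ (by exact_mod_cast Nat.ceil_pos.2 (by positivity))]
    have := Nat.le_ceil (1 / ε)
    rw [div_le_iff₀ hε] at this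
    linarith
  · rw [one_div_mul_eq_div, le_div_iff₀ (by positivity)]
    linarith [hd' 4 58 (by norm_num) (by norm_num),
      show 2 * (2 * x ^ 14) * x ^ 30 * x ^ 14 = 4 * x ^ 58 by ring]
  · rw [show (1 / x ^ 14) ^ 2 * (p * n) = p * n / x ^ 28 by field_simp, le_div_iff₀ (by positivity)]
    linarith [hd' 32 87 (by norm_num) (by norm_num),
      show 8 * (2 * x ^ 14) * x ^ 30 * (2 * x ^ 15) * x ^ 28 = 32 * x ^ 87 by ring]
  · refine union_small hn hk1 (by positivity) ?_ ?_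
    · linarith [hd' 2 44 (by norm_num) (by norm_num), show 2 * x ^ 14 * x ^ 30 = 2 * x ^ 44 by ring]
    · rw [← hx, show (1 / x ^ 14) ^ 2 * (p * n) / (24 * (2 * x ^ 14) * x ^ 30) =
        p * n / (48 * x ^ 72) by field_simp; ring, le_div_iff₀ (by positivity)]
      linarith [hd' 144 73 (by norm_num) (by norm_num),
        show 3 * x * (48 * x ^ 72) = 144 * x ^ 73 by ring]
  · have h1 : ((⌈1 / ε⌉₊ : ℝ)) ^ 2 ≤ x := by
      have a1 := (Nat.ceil_lt_add_one (show 0 ≤ 1 / ε by positivity)).le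
      have a2 : (1 : ℝ) ≤ 1 / ε := by rw [le_div_iff₀ hε]; linarith
      have a3 : ((⌈1 / ε⌉₊ : ℝ)) ^ 2 ≤ (2 / ε) ^ 2 :=
        pow_le_pow_left₀ (by positivity) (by linarith [show 2 / ε = 1 / ε + 1 / ε by ring]) 2
      refine a3.trans ?_
      rw [div_pow, div_le_iff₀ (by positivity)]
      linarith
    have h2 : ((⌈1 / ε⌉₊ : ℝ)) ^ 4 / (x ^ 30 * (1 / x ^ 14)) ≤ 1 / x ^ 14 := by
      rw [show x ^ 30 * (1 / x ^ 14) = x ^ 16 by field_simp,
        div_le_div_iff₀ (by positivity) (by positivity)]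
      have := pow_le_pow_left₀ (by positivity) h1 2
      have := mul_le_mul_of_nonneg_right this (show 0 ≤ x ^ 14 by positivity)
      linarith [show x ^ 2 * x ^ 14 = x ^ 16 by ring,
        show ((⌈1 / ε⌉₊ : ℝ) ^ 2) ^ 2 = (⌈1 / ε⌉₊ : ℝ) ^ 4 by ring]
    have h3 : 1 / x ^ 30 ≤ 1 / x ^ 14 :=
      one_div_le_one_div_of_le (by positivity) (pow_le_pow_right₀ (by linarith) (by norm_num))
    have h4 : 12 / (2 * x ^ 14) = 6 * (1 / x ^ 14) := by field_simp; norm_num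
    have h5 : 54 * (1 / x ^ 14) + 1 / x ^ 30 + 12 / (2 * x ^ 14) + 2 * (1 / x ^ 14 +
        (⌈1 / ε⌉₊ : ℝ) ^ 4 / (x ^ 30 * (1 / x ^ 14))) ≤ 65 * (1 / x ^ 14) := by linarith
    obtain ⟨w, hw⟩ : ∃ w, w = n / x ^ 13 := ⟨_, rfl⟩
    have h6 : 14 ≤ w := by
      rw [hw, le_div_iff₀ (by positivity)]
      linarith [hd' 14 13 (by norm_num) (by norm_num)]
    have h7 : 2 * (2 * x + 1) * (n * (65 * (1 / x ^ 14)) + 1) ≤
        6 * x * (n * (65 * (1 / x ^ 14)) + 1) :=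
      mul_le_mul_of_nonneg_right (by linarith) (by positivity)
    have h8 : 6 * x * (n * (65 * (1 / x ^ 14)) + 1) = 390 * w + 6 * x := by
      rw [hw]; field_simp; ring
    have h9 : 1 / x ^ 2 * (n / x ^ 10) = x * w := by rw [hw]; field_simp
    have h10 : 2 * (2 * x + 1) * (n * (54 * (1 / x ^ 14) + 1 / x ^ 30 + 12 / (2 * x ^ 14) +
        2 * (1 / x ^ 14 + (⌈1 / ε⌉₊ : ℝ) ^ 4 / (x ^ 30 * (1 / x ^ 14)))) + 1) ≤
        2 * (2 * x + 1) * (n * (65 * (1 / x ^ 14)) + 1) := by gcongr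
    rw [h9]
    nlinarith

end Pool.Agent.MP_d6d719_co

end MrgPart4

-- ======== part 5: formerly Pool.Agent.MP_d6d719_co.Final
section MrgPart5

set_option autoImplicit false

open Finset Filter Topology MeasureTheory
open scoped Classical

namespace Pool.Agent.MP_d6d719_co

variable {V : Type} {G : SimpleGraph V} {bad : V → V → V → Prop}

theorem CW.not_bad_getD {l : List V} (h : CW G bad l) (d : V) (i : ℕ) (hi : i + 2 < l.length) :
    ¬ bad (l.getD (i + 1) d) (l.getD i d) (l.getD (i + 2) d) := by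
  induction l generalizing i with
  | nil => simp at hi
  | cons x l ih =>
    cases i with
    | zero =>
      match l, h, hi with
      | y :: z :: l, h, _ => exact h.2.1
    | succ i => simpa using ih h.tail i (by simp only [List.length_cons] at hi; omega)

theorem walk_of_fun (g : ℕ → V) (m : ℕ) (h : ∀ i < m, G.Adj (g i) (g (i + 1))) :
    ∃ w : G.Walk (g 0) (g m), w.support = (List.range (m + 1)).map g ∧
      w.edges = (List.range m).map fun i => s(g i, g (i + 1)) := by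
  induction m with
  | zero => exact ⟨.nil, rfl, rfl⟩
  | succ m ih =>
    obtain ⟨w, h1, h2⟩ := ih fun i hi => h i (by omega)
    refine ⟨w.concat (h m (by omega)), ?_, ?_⟩
    · rw [SimpleGraph.Walk.support_concat, h1, List.range_succ (n := m + 1)]
      simp
    · rw [SimpleGraph.Walk.edges_concat, h2, List.range_succ]
      simp

theorem ham_of_list [Fintype V] [DecidableEq V] (S : IncompSystem G) (h3 : 3 ≤ Fintype.card V)
    (h : HamList G fun v a b => S.Incompatible s(v, a) s(v, b)) :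
    S.HasCompatibleHamiltonCycle := by
  obtain ⟨x, y, r, h1, h2, h4⟩ := h
  obtain ⟨m, hm⟩ : ∃ m, m = (x :: y :: r).length := ⟨_, rfl⟩
  have hmc : m = Fintype.card V := by
    rw [hm, ← List.toFinset_card_of_nodup h2, ← card_univ]
    congr 1
    exact eq_univ_of_forall fun v => List.mem_toFinset.2 (h4 v)
  set g : ℕ → V := fun i => ((x :: y :: r) ++ [x, y]).getD i x with hg
  have hlen : ((x :: y :: r) ++ [x, y]).length = m + 2 := by rw [List.length_append, ← hm]; rfl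
  have g0 : g m = g 0 := by
    simp only [hg]
    rw [List.getD_append_right _ _ _ _ hm.ge, ← hm, Nat.sub_self]
    rfl
  have g1 : g (m + 1) = g 1 := by
    simp only [hg]
    rw [List.getD_append_right _ _ _ _ (by omega), ← hm, Nat.add_sub_cancel_left]
    rfl
  have ginj : ∀ i < m, ∀ j < m, g i = g j → i = j := by
    intro i hi j hj e
    simp only [hg] at e
    rw [List.getD_append _ _ _ _ (by omega), List.getD_append _ _ _ _ (by omega),
      List.getD_eq_getElem _ _ (by omega), List.getD_eq_getElem _ _ (by omega)] at e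
    exact (List.Nodup.getElem_inj_iff h2).1 e
  have ginj2 : ∀ i ≤ m, ∀ j ≤ m, g i = g j → i = j ∨ (i = 0 ∧ j = m) ∨ (i = m ∧ j = 0) := by
    intro i hi j hj e
    rcases hi.eq_or_lt with rfl | hi <;> rcases hj.eq_or_lt with rfl | hj
    · exact Or.inl rfl
    · exact Or.inr (Or.inr ⟨rfl, (ginj 0 (by omega) j hj (g0 ▸ e)).symm⟩)
    · exact Or.inr (Or.inl ⟨ginj i hi 0 (by omega) (g0 ▸ e), rfl⟩)
    · exact Or.inl (ginj i hi j hj e)
  have hbad : ∀ i < m, ¬ S.Incompatible s(g (i + 1), g i) s(g (i + 1), g (i + 2)) :=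
    fun i hi => h1.not_bad_getD x i (by omega)
  obtain ⟨w, w1, w2⟩ := walk_of_fun g m fun i hi => h1.adj_getD x i (by omega)
  refine ⟨g 0, w.copy rfl g0, ?_, ?_⟩
  · rw [SimpleGraph.Walk.isHamiltonianCycle_iff_isCycle_and_length_eq,
      SimpleGraph.Walk.isCycle_def, SimpleGraph.Walk.isTrail_def]
    have hl : w.length = m := by
      rw [← SimpleGraph.Walk.length_edges, w2]; simp
    refine ⟨⟨?_, fun e => ?_, ?_⟩, by rw [SimpleGraph.Walk.length_copy, hl, hmc]⟩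
    · rw [SimpleGraph.Walk.edges_copy, w2]
      refine List.Nodup.map_on (fun i hi j hj e => ?_) List.nodup_range
      rw [List.mem_range] at hi hj
      rcases Sym2.eq_iff.1 e with e | e
      · exact ginj i hi j hj e.1
      · have a1 := ginj2 i (by omega) (j + 1) (by omega) e.1
        have a2 := ginj2 (i + 1) (by omega) j (by omega) e.2
        omega
    · have := congrArg SimpleGraph.Walk.length e
      rw [SimpleGraph.Walk.length_copy, hl, SimpleGraph.Walk.length_nil] at this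
      omega
    · rw [SimpleGraph.Walk.support_copy, w1, List.range_succ_eq_map, List.map_cons, List.tail_cons,
        List.map_map]
      refine List.Nodup.map_on (fun i hi j hj e => ?_) List.nodup_range
      rw [List.mem_range] at hi hj
      have := ginj2 (i + 1) (by omega) (j + 1) (by omega) e
      omega
  · have hsym : ∀ e e', S.Incompatible e e' → S.Incompatible e' e := fun e e' ⟨v, hv⟩ =>
      ⟨v, Sym2.eq_swap ▸ hv⟩
    have key : ∀ i < m, ∀ j < m, g i = g (j + 1) →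
        ¬ S.Incompatible s(g j, g (j + 1)) s(g i, g (i + 1)) := by
      intro i hi j hj e
      have a1 := hbad j hj
      rw [Sym2.eq_swap (a := g (j + 1)) (b := g j)] at a1
      rcases ginj2 i (by omega) (j + 1) (by omega) e with a | a | a
      · subst a; exact a1
      · rw [a.1, ← g0, zero_add, ← g1, ← a.2]
        exact a1
      · omega
    rw [SimpleGraph.Walk.edges_copy, w2]
    intro e he e' he' hc
    obtain ⟨i, hi, rfl⟩ := List.mem_map.1 he
    obtain ⟨j, hj, rfl⟩ := List.mem_map.1 he'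
    rw [List.mem_range] at hi hj
    obtain ⟨v, hv⟩ := id hc
    obtain ⟨-, -, a1, a2⟩ := S.spec v _ _ hv
    obtain ⟨b1, b2⟩ := (a2 v).2 rfl
    rcases Sym2.mem_iff.1 b1 with b1 | b1 <;> rcases Sym2.mem_iff.1 b2 with b2 | b2
    · exact a1 (by rw [ginj i hi j hj (b1.symm.trans b2)])
    · exact key i hi j hj (b1.symm.trans b2) (hsym _ _ hc)
    · exact key j hj i hi (b2.symm.trans b1) hc
    · have := ginj2 (i + 1) (by omega) (j + 1) (by omega) (b1.symm.trans b2)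
      exact a1 (by rw [show i = j by omega])

theorem bad_bound [Fintype V] (S : IncompSystem G) {Δ : ℝ} (h : S.IsBounded Δ) (v a : V)
    (ha : G.Adj v a) :
    (((nb G v univ).filter fun b => S.Incompatible s(v, a) s(v, b)).card : ℝ) ≤ Δ := by
  refine le_trans ?_ (h v s(v, a) ⟨ha, Sym2.mem_mk_left _ _⟩)
  rw [← Set.ncard_coe_finset, Nat.cast_le]
  refine Set.ncard_le_ncard_of_injOn (fun b => s(v, b)) (fun b hb => ?_) (fun b _ b' _ e => ?_)
    (Set.toFinite _)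
  · simp only [nb, coe_filter, mem_filter, mem_univ, true_and, Set.mem_ofPred_eq] at hb
    obtain ⟨u, hu⟩ := id hb.2
    exact ⟨⟨hb.1, Sym2.mem_mk_left _ _⟩, (S.spec u _ _ hu).2.2.1.symm, hb.2⟩
  · exact Sym2.congr_right.1 e

theorem good_of_pseudo {ε p : ℝ} {n k : ℕ} (hε : 0 < ε) (hε1 : ε ≤ 1 / 10) (hk : 640 ≤ k * ε ^ 2)
    (hn : n < 2 ^ k) (hn3 : 3 ≤ n) (hp1 : p ≤ 1) (hd : (k : ℝ) ^ 88 ≤ p * n)
    {G : SimpleGraph (Fin n)} (hG : Pseudo G p (1 / k ^ 14) (2 * k ^ 15)) (S : IncompSystem G)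
    (hS : S.IsBounded ((1 / 2 - 4 * ε) * (p * n))) : S.HasCompatibleHamiltonCycle := by
  refine ham_of_list S (by simpa using hn3) (det_main (fun v a b ⟨u, hu⟩ => ⟨u, Sym2.eq_swap ▸ hu⟩)
    (by rw [Fintype.card_fin]; exact params hε hε1 hk hn hp1 hd) hG fun v a ha => ?_)
  rw [Fintype.card_fin]
  exact bad_bound S hS v a ha

theorem prob_good {ε : ℝ} {n k : ℕ} (p : unitInterval) (hε : 0 < ε) (hε1 : ε ≤ 1 / 10)
    (hk : 640 ≤ k * ε ^ 2) (hn : n < 2 ^ k) (hn3 : 3 ≤ n) (hd : (k : ℝ) ^ 88 ≤ p * n) :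
    1 - (2 * (1 / n) + (Real.exp (2 * (1 / n)) - 1)) ≤
      (SimpleGraph.binomialRandom (Fin n) p).real {G | ∀ S : IncompSystem G,
        S.IsBounded ((1 / 2 - 4 * ε) * (p * n)) → S.HasCompatibleHamiltonCycle} := by
  have := measurableSingletonClass_graph (V := Fin n)
  have hx0 : (0 : ℝ) ≤ k := by positivity
  have hx1 : (64000 : ℝ) ≤ k := by nlinarith [mul_nonneg hx0 hε.le, mul_nonneg hx0 (sq_nonneg ε)]
  have hn0 : (0 : ℝ) < n := by exact_mod_cast (by omega : 0 < n)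
  have h1 : (16 : ℝ) * k * k ^ 28 ≤ p * n :=
    calc (16 : ℝ) * k * k ^ 28 ≤ (k : ℝ) * k * k ^ 28 := by gcongr; linarith
      _ = (k : ℝ) ^ 30 := by ring
      _ ≤ (k : ℝ) ^ 88 := pow_le_pow_right₀ (by linarith) (by norm_num)
      _ ≤ _ := hd
  have h14 : (1 : ℝ) ≤ k ^ 14 := one_le_pow₀ (by linarith)
  have h2 := prob_not_pseudo (V := Fin n) p (τ := 1 / k ^ 14) (K := 2 * k ^ 15) (by positivity)
    (by rw [div_le_one (by positivity)]; exact h14) (by
      rw [Fintype.card_fin, one_div_mul_eq_div, le_div_iff₀ (by positivity)]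
      nlinarith [show (k : ℝ) ^ 28 = k ^ 14 * k ^ 14 by ring])
  rw [Fintype.card_fin] at h2
  have h3 : n * Real.exp (-(2 * k)) ≤ 1 / n := by
    rw [Real.exp_neg, ← div_eq_mul_inv, div_le_div_iff₀ (Real.exp_pos _) hn0, one_mul, two_mul,
      Real.exp_add]
    have a1 : (n : ℝ) ≤ Real.exp k := by
      have b1 : (n : ℝ) ≤ 2 ^ k := by exact_mod_cast hn.le
      rw [← mul_one (k : ℝ), Real.exp_nat_mul]
      exact b1.trans (pow_le_pow_left₀ (by norm_num) (by linarith [Real.add_one_le_exp 1]) k)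
    exact mul_le_mul a1 a1 hn0.le (Real.exp_pos _).le
  have h4 : Real.exp (-((1 / k ^ 14) ^ 2 * (p * n) / 8)) ≤ Real.exp (-(2 * k)) := by
    refine Real.exp_le_exp.2 (neg_le_neg ?_)
    rw [show (1 / (k : ℝ) ^ 14) ^ 2 * (p * n) / 8 = p * n / (8 * k ^ 28) by field_simp,
      le_div_iff₀ (by positivity)]
    linarith
  rw [show 1 / (k : ℝ) ^ 14 * (2 * k ^ 15) = 2 * k by field_simp] at h2
  have h5 : Real.exp (2 * n * Real.exp (-(2 * k))) ≤ Real.exp (2 * (1 / n)) :=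
    Real.exp_le_exp.2 (by linarith)
  have h6 := mul_le_mul_of_nonneg_left h4 hn0.le
  have h7 := probReal_compl_eq_one_sub (μ := SimpleGraph.binomialRandom (Fin n) p)
    (s := {G | ¬ Pseudo G p (1 / k ^ 14) (2 * k ^ 15)}) (Set.toFinite _).measurableSet
  refine le_trans (le_trans (by linarith) h7.ge) (measureReal_mono fun G hG S hS => ?_)
  exact good_of_pseudo hε hε1 hk hn hn3 p.2.2 hd (not_not.1 hG) S hS

theorem main (μ : ℝ) (hμ : μ < 1 / 2) (p : ℕ → unitInterval)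
    (hp : ∀ᶠ n : ℕ in atTop, Real.log n ^ 100 ≤ n * (p n : ℝ)) :
    Tendsto (fun n : ℕ => (SimpleGraph.binomialRandom (Fin n) (p n)).real
      {G | ∀ S : IncompSystem G, S.IsBounded (μ * n * p n) → S.HasCompatibleHamiltonCycle})
      atTop (𝓝 1) := by
  obtain ⟨ε, hε, hε1, hε2⟩ : ∃ ε : ℝ, 0 < ε ∧ ε ≤ 1 / 10 ∧ μ ≤ 1 / 2 - 4 * ε :=
    ⟨min (1 / 10) ((1 / 2 - μ) / 4), lt_min (by norm_num) (by linarith), min_le_left _ _,
      by linarith [min_le_right (1 / 10 : ℝ) ((1 / 2 - μ) / 4)]⟩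
  have h1 : Tendsto (fun n : ℕ => 2 * (1 / (n : ℝ))) atTop (𝓝 0) := by
    simpa using tendsto_one_div_atTop_nhds_zero_nat.const_mul (2 : ℝ)
  have h2 : Tendsto (fun n : ℕ => 1 - (2 * (1 / (n : ℝ)) + (Real.exp (2 * (1 / n)) - 1))) atTop
      (𝓝 1) := by
    have := (h1.add (((Real.continuous_exp.tendsto 0).comp h1).sub_const 1)).const_sub 1
    simpa using this
  refine tendsto_of_tendsto_of_tendsto_of_le_of_le' h2 tendsto_const_nhds ?_
    (Eventually.of_forall fun n => measureReal_le_one)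
  have h3 : Tendsto (fun n : ℕ => Real.log n) atTop atTop :=
    Real.tendsto_log_atTop.comp tendsto_natCast_atTop_atTop
  filter_upwards [hp, h3.eventually_ge_atTop (640 / ε ^ 2), eventually_ge_atTop 3] with n a1 a2 a3
  have hn : n < 2 ^ (Nat.log 2 n + 1) := Nat.lt_pow_succ_log_self (by norm_num) n
  obtain ⟨k, hk⟩ : ∃ k, k = Nat.log 2 n + 1 := ⟨_, rfl⟩
  have hn0 : (0 : ℝ) < n := by exact_mod_cast (by omega : 0 < n)
  have hl2 := Real.log_two_gt_d9
  have hl2' := Real.log_two_lt_d9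
  rw [div_le_iff₀ (by positivity)] at a2
  have b0 : 64000 ≤ Real.log n := by
    have : ε ^ 2 ≤ 1 / 100 := by nlinarith
    nlinarith [Real.log_natCast_nonneg n]
  have b1 : Real.log n ≤ k := by
    have c1 : (n : ℝ) ≤ 2 ^ k := by rw [hk]; exact_mod_cast hn.le
    have c2 := Real.log_le_log hn0 c1
    rw [Real.log_pow] at c2
    nlinarith
  have b2 : (k : ℝ) ≤ 2 * Real.log n := by
    have c1 : (2 : ℝ) ^ Nat.log 2 n ≤ n := by exact_mod_cast Nat.pow_log_le_self 2 (by omega)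
    have c2 := Real.log_le_log (by positivity) c1
    rw [Real.log_pow] at c2
    rw [hk]
    push_cast
    nlinarith [Nat.cast_nonneg (α := ℝ) (Nat.log 2 n)]
  have b3 : (k : ℝ) ^ 88 ≤ p n * n :=
    calc (k : ℝ) ^ 88 ≤ (2 * Real.log n) ^ 88 := pow_le_pow_left₀ (by positivity) b2 88
      _ = 2 ^ 88 * Real.log n ^ 88 := mul_pow _ _ _
      _ ≤ Real.log n ^ 12 * Real.log n ^ 88 := by
        refine mul_le_mul_of_nonneg_right ?_ (by positivity)
        exact le_trans (by norm_num) (pow_le_pow_left₀ (by norm_num) b0 12)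
      _ = Real.log n ^ 100 := by ring
      _ ≤ _ := by linarith
  refine (prob_good (k := k) (p n) hε hε1 (by nlinarith) (hk ▸ hn) a3 b3).trans
    (measureReal_mono fun G hG S hS => hG S fun v e he => (hS v e he).trans ?_)
  have : 0 ≤ p n * (n : ℝ) := mul_nonneg (p n).2.1 hn0.le
  nlinarith

end Pool.Agent.MP_d6d719_co

end MrgPart5

-- marker of a merged file
example : 731051 + 837027 = 731051 + 837027 := rfl
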